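import Pool.Agent.TH268.PD.Defs
import Pool.Agent.W29.LR.CV

/-!
# Near-invariance of the stirring law under a random transposition (job 3519)
-/

set_option autoImplicit false

namespace Pool.Agent.TH268.PD

open Finset Equiv
open Pool.Agent.W805.LR (stirMass)

namespace NI

open NormedSpace
open Pool.Agent.W32.LR Pool.Agent.W29.LR.CV

section poisson

lemma hs_exp (μ : ℝ) : HasSum (fun n : ℕ => μ ^ n / (n.factorial : ℝ)) (Real.exp μ) := by
  rw [Real.exp_eq_exp_ℝ]
  exact NormedSpace.expSeries_div_hasSum_exp μ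

lemma hs_one (μ : ℝ) :
    HasSum (fun n : ℕ => μ ^ n / (n.factorial : ℝ) * (n : ℝ)) (μ * Real.exp μ) := by
  have h1 : HasSum (fun n : ℕ => μ ^ (n + 1) / ((n + 1).factorial : ℝ) * ((n + 1 : ℕ) : ℝ))
      (μ * Real.exp μ) := by
    have h2 := (hs_exp μ).mul_left μ
    refine h2.congr_fun ?_
    intro n
    rw [Nat.factorial_succ]
    push_cast
    have h3 : (n.factorial : ℝ) ≠ 0 := by positivity
    have h4 : (n : ℝ) + 1 ≠ 0 := by positivity
    field_simp
    ring
  have h5 := (hasSum_nat_add_iff (f := fun n : ℕ => μ ^ n / (n.factorial : ℝ) * (n : ℝ)) 1).1 h1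
  simpa using h5

lemma hs_two (μ : ℝ) :
    HasSum (fun n : ℕ => μ ^ n / (n.factorial : ℝ) * (n : ℝ) ^ 2) ((μ ^ 2 + μ) * Real.exp μ) := by
  have h1 : HasSum (fun n : ℕ => μ ^ (n + 1) / ((n + 1).factorial : ℝ) * ((n + 1 : ℕ) : ℝ) ^ 2)
      ((μ ^ 2 + μ) * Real.exp μ) := by
    have h2 := ((hs_one μ).mul_left μ).add ((hs_exp μ).mul_left μ)
    have h6 : μ * (μ * Real.exp μ) + μ * Real.exp μ = (μ ^ 2 + μ) * Real.exp μ := by ring
    rw [h6] at h2
    refine h2.congr_fun ?_
    intro n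
    rw [Nat.factorial_succ]
    push_cast
    have h3 : (n.factorial : ℝ) ≠ 0 := by positivity
    have h4 : (n : ℝ) + 1 ≠ 0 := by positivity
    field_simp
    ring
  have h5 := (hasSum_nat_add_iff (f := fun n : ℕ => μ ^ n / (n.factorial : ℝ) * (n : ℝ) ^ 2) 1).1 h1
  simpa using h5

/-- shift -/
lemma hs_shift (μ : ℝ) (hμ : 0 < μ) (b : ℕ → ℝ) (S : ℝ)
    (h : HasSum (fun n : ℕ => μ ^ n / (n.factorial : ℝ) * b (n + 1)) S) :
    HasSum (fun n : ℕ => μ ^ n / (n.factorial : ℝ) * ((n : ℝ) / μ) * b n) S := by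
  have h1 : HasSum (fun n : ℕ => μ ^ (n + 1) / ((n + 1).factorial : ℝ) *
      (((n + 1 : ℕ) : ℝ) / μ) * b (n + 1)) S := by
    refine h.congr_fun ?_
    intro n
    rw [Nat.factorial_succ]
    push_cast
    have h3 : (n.factorial : ℝ) ≠ 0 := by positivity
    have h4 : (n : ℝ) + 1 ≠ 0 := by positivity
    field_simp
    ring
  have h5 := (hasSum_nat_add_iff
    (f := fun n : ℕ => μ ^ n / (n.factorial : ℝ) * ((n : ℝ) / μ) * b n) 1).1 h1
  simpa using h5

lemma poisson_diff (μ : ℝ) (hμ : 0 < μ) (b : ℕ → ℝ) (K S T : ℝ) (hb : ∀ n, |b n| ≤ K)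
    (hS : HasSum (fun n : ℕ => μ ^ n / (n.factorial : ℝ) * b (n + 1)) S)
    (hT : HasSum (fun n : ℕ => μ ^ n / (n.factorial : ℝ) * b n) T) :
    |S - T| ≤ K * (Real.exp μ / Real.sqrt μ) := by
  have hK : 0 ≤ K := (abs_nonneg _).trans (hb 0)
  have hs : 0 < Real.sqrt μ := Real.sqrt_pos.2 hμ
  have hss : Real.sqrt μ * Real.sqrt μ = μ := Real.mul_self_sqrt hμ.le
  have h1 := (hs_shift μ hμ b S hS).sub hT
  -- majorant
  have h2 : HasSum (fun n : ℕ => K / 2 * (Real.sqrt μ * (μ ^ n / (n.factorial : ℝ) *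
      ((n : ℝ) / μ - 1) ^ 2) + 1 / Real.sqrt μ * (μ ^ n / (n.factorial : ℝ))))
      (K * (Real.exp μ / Real.sqrt μ)) := by
    have h3 : HasSum (fun n : ℕ => μ ^ n / (n.factorial : ℝ) * ((n : ℝ) / μ - 1) ^ 2)
        (Real.exp μ / μ) := by
      have h4 := (((hs_two μ).mul_left (1 / μ ^ 2)).sub ((hs_one μ).mul_left (2 / μ))).add (hs_exp μ)
      have h5 : 1 / μ ^ 2 * ((μ ^ 2 + μ) * Real.exp μ) - 2 / μ * (μ * Real.exp μ) + Real.exp μ
          = Real.exp μ / μ := by
        field_simp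
        ring
      rw [h5] at h4
      refine h4.congr_fun ?_
      intro n
      field_simp
      ring
    have h6 := (((h3.mul_left (Real.sqrt μ)).add ((hs_exp μ).mul_left (1 / Real.sqrt μ))).mul_left
      (K / 2))
    have h7 : K / 2 * (Real.sqrt μ * (Real.exp μ / μ) + 1 / Real.sqrt μ * Real.exp μ)
        = K * (Real.exp μ / Real.sqrt μ) := by
      have h8' : Real.sqrt μ / μ = 1 / Real.sqrt μ := by
        rw [div_eq_div_iff hμ.ne' hs.ne', one_mul, hss]
      have h8 : Real.sqrt μ * (Real.exp μ / μ) = Real.exp μ / Real.sqrt μ := by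
        calc Real.sqrt μ * (Real.exp μ / μ) = Real.exp μ * (Real.sqrt μ / μ) := by ring
          _ = _ := by rw [h8']; ring
      rw [h8]
      ring
    rw [h7] at h6
    exact h6
  have hterm : ∀ n : ℕ, |μ ^ n / (n.factorial : ℝ) * ((n : ℝ) / μ) * b n
      - μ ^ n / (n.factorial : ℝ) * b n| ≤ K / 2 * (Real.sqrt μ * (μ ^ n / (n.factorial : ℝ) *
      ((n : ℝ) / μ - 1) ^ 2) + 1 / Real.sqrt μ * (μ ^ n / (n.factorial : ℝ))) := by
    intro n
    have hp : 0 ≤ μ ^ n / (n.factorial : ℝ) := by positivity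
    have h3 : μ ^ n / (n.factorial : ℝ) * ((n : ℝ) / μ) * b n - μ ^ n / (n.factorial : ℝ) * b n
        = μ ^ n / (n.factorial : ℝ) * ((n : ℝ) / μ - 1) * b n := by ring
    rw [h3, abs_mul, abs_mul, abs_of_nonneg hp]
    have h4 : |(n : ℝ) / μ - 1| ≤ (Real.sqrt μ * ((n : ℝ) / μ - 1) ^ 2 + 1 / Real.sqrt μ) / 2 := by
      set u := (n : ℝ) / μ - 1
      have h5 : 0 ≤ (Real.sqrt μ * |u| - 1) ^ 2 / Real.sqrt μ := by positivity
      have h6 : (Real.sqrt μ * |u| - 1) ^ 2 / Real.sqrt μ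
          = Real.sqrt μ * u ^ 2 - 2 * |u| + 1 / Real.sqrt μ := by
        rw [← sq_abs u]
        field_simp
        ring
      linarith
    calc μ ^ n / (n.factorial : ℝ) * |(n : ℝ) / μ - 1| * |b n|
        ≤ μ ^ n / (n.factorial : ℝ) * ((Real.sqrt μ * ((n : ℝ) / μ - 1) ^ 2
          + 1 / Real.sqrt μ) / 2) * K := by
          apply mul_le_mul (mul_le_mul_of_nonneg_left h4 hp) (hb n) (abs_nonneg _)
          exact mul_nonneg hp ((abs_nonneg _).trans h4)
      _ = _ := by ring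
  have h9 : S - T ≤ K * (Real.exp μ / Real.sqrt μ) :=
    hasSum_le (fun n => (le_abs_self _).trans (hterm n)) h1 h2
  have h10 : -(S - T) ≤ K * (Real.exp μ / Real.sqrt μ) :=
    hasSum_le (fun n => (neg_le_abs _).trans (hterm n)) h1.neg h2
  exact abs_le.2 ⟨by linarith, h9⟩

end poisson

variable {V : Type} [Fintype V] [DecidableEq V] [Nonempty V]

/-- the averaging operator -/
noncomputable def TL (V : Type) [Fintype V] [DecidableEq V] :
    (Perm V → ℝ) →L[ℝ] (Perm V → ℝ) :=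
  (2 / (Fintype.card V : ℝ) ^ 2) • BB V + (1 / (Fintype.card V : ℝ)) • 1

omit [Nonempty V] in
lemma TL_apply (F : Perm V → ℝ) (g : Perm V) : TL V F g =
    2 / (Fintype.card V : ℝ) ^ 2 * BB V F g + 1 / (Fintype.card V : ℝ) * F g := rfl

lemma TL_eq (F : Perm V → ℝ) (g : Perm V) : TL V F g = TT F g := by
  have hN : (Fintype.card V : ℝ) ≠ 0 := by
    exact_mod_cast Fintype.card_ne_zero
  rw [TL_apply, BB_apply, TT]
  have h1 : ∑ a, ∑ b, F (g * swap a b) = 2 * (∑ x, ∑ y, (if x ≠ y then 1 / 2 * F (g * swap x y) else 0))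
      + (Fintype.card V : ℝ) * F g := by
    have h2 : ∀ a b : V, F (g * swap a b) = 2 * (if a ≠ b then 1 / 2 * F (g * swap a b) else 0)
        + (if a = b then F g else 0) := by
      intro a b
      by_cases h : a = b
      · subst h
        have h3 : swap a a = (1 : Perm V) := Equiv.swap_self a
        rw [h3, mul_one]
        simp
      · simp [h]
    rw [Finset.sum_congr rfl fun a _ => Finset.sum_congr rfl fun b _ => h2 a b]
    simp only [Finset.sum_add_distrib, Finset.mul_sum]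
    congr 1
    simp [Finset.sum_ite_eq, Finset.card_univ]
  rw [h1]
  field_simp

lemma TL_abs (F : Perm V → ℝ) (K : ℝ) (hF : ∀ g, |F g| ≤ K) (g : Perm V) : |TL V F g| ≤ K := by
  have hN : (0 : ℝ) < Fintype.card V := by
    exact_mod_cast Fintype.card_pos
  rw [TL_eq, TT, abs_div, abs_of_pos (pow_pos hN 2), div_le_iff₀ (pow_pos hN 2)]
  refine (Finset.abs_sum_le_sum_abs _ _).trans ?_
  have h1 : ∀ a : V, |∑ b, F (g * swap a b)| ≤ (Fintype.card V : ℝ) * K := by
    intro a
    refine (Finset.abs_sum_le_sum_abs _ _).trans ?_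
    refine (Finset.sum_le_sum fun b _ => hF _).trans ?_
    rw [Finset.sum_const, Finset.card_univ, nsmul_eq_mul]
  refine (Finset.sum_le_sum fun a _ => h1 a).trans ?_
  rw [Finset.sum_const, Finset.card_univ, nsmul_eq_mul]
  apply le_of_eq
  ring

omit [Nonempty V] in
lemma pow_succ_apply' (m : ℕ) (F : Perm V → ℝ) :
    ((TL V) ^ (m + 1)) F = TL V (((TL V) ^ m) F) := by
  rw [pow_succ']
  rfl

omit [Nonempty V] in
lemma pow_succ_apply'' (m : ℕ) (F : Perm V → ℝ) :
    ((TL V) ^ (m + 1)) F = ((TL V) ^ m) (TL V F) := by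
  rw [pow_succ]
  rfl

lemma TL_pow_abs (F : Perm V → ℝ) (K : ℝ) (hF : ∀ g, |F g| ≤ K) (m : ℕ) :
    ∀ g : Perm V, |((TL V) ^ m) F g| ≤ K := by
  induction m with
  | zero => intro g; simpa using hF g
  | succ m ih =>
    intro g
    rw [pow_succ_apply']
    exact TL_abs _ K ih g

omit [Nonempty V] in
lemma TL_exp_hasSum (s : ℝ) (F : Perm V → ℝ) (g : Perm V) :
    HasSum (fun m : ℕ => s ^ m / (m.factorial : ℝ) * ((TL V) ^ m) F g)
      ((exp (s • TL V)) F g) := by
  have h1 : HasSum (fun m : ℕ => ((m.factorial : ℝ)⁻¹) • (s • TL V) ^ m) (exp (s • TL V)) := by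
    have := (expSeries_summable' (𝕂 := ℝ) (s • TL V)).hasSum
    rwa [← congrFun (exp_eq_tsum (𝔸 := (Perm V → ℝ) →L[ℝ] (Perm V → ℝ)) ℝ) (s • TL V)] at this
  have h2 := (evg F g).hasSum h1
  have h3 : (fun m : ℕ => s ^ m / (m.factorial : ℝ) * ((TL V) ^ m) F g)
      = fun m : ℕ => (evg F g) (((m.factorial : ℝ)⁻¹) • (s • TL V) ^ m) := by
    funext m
    rw [smul_pow, map_smul, map_smul]
    simp only [smul_eq_mul]
    change _ = ((m.factorial : ℝ))⁻¹ * (s ^ m * ((TL V) ^ m) F g)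
    ring
  rw [h3]
  exact h2

lemma exp_BB (s : ℝ) (F : Perm V → ℝ) (g : Perm V) :
    (exp (s • BB V)) F g = Real.exp (-(s * (Fintype.card V : ℝ) / 2)) *
      (exp ((s * (Fintype.card V : ℝ) ^ 2 / 2) • TL V)) F g := by
  have hN : (Fintype.card V : ℝ) ≠ 0 := by
    exact_mod_cast Fintype.card_ne_zero
  have h1 : s • BB V = algebraMap ℝ ((Perm V → ℝ) →L[ℝ] (Perm V → ℝ))
      (-(s * (Fintype.card V : ℝ) / 2)) + (s * (Fintype.card V : ℝ) ^ 2 / 2) • TL V := by
    rw [TL, smul_add, smul_smul, smul_smul, Algebra.algebraMap_eq_smul_one]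
    have h2 : s * (Fintype.card V : ℝ) ^ 2 / 2 * (2 / (Fintype.card V : ℝ) ^ 2) = s := by
      field_simp
    have h3 : s * (Fintype.card V : ℝ) ^ 2 / 2 * (1 / (Fintype.card V : ℝ))
        = s * (Fintype.card V : ℝ) / 2 := by
      field_simp
    rw [h2, h3, neg_smul]
    abel
  let _ : NormedAlgebra ℚ ((Perm V → ℝ) →L[ℝ] (Perm V → ℝ)) :=
    NormedAlgebra.restrictScalars ℚ ℝ _
  rw [h1, exp_add_of_commute (Algebra.commutes _ _), ← algebraMap_exp_comm,
    Algebra.algebraMap_eq_smul_one, ← Real.exp_eq_exp_ℝ]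
  rfl

end NI

open NI Pool.Agent.W32.LR Pool.Agent.W29.LR.CV

variable {V : Type} [Fintype V] [DecidableEq V] [Nonempty V]

/-- the law of random stirring is almost invariant under a random transposition -/
theorem near_inv (J : V → V → ℝ) (κ t : ℝ) (ht : 0 < t) (hκ : 0 < κ)
    (hJ : ∀ x y, x ≠ y → κ ≤ J x y) (hJ0 : ∀ x, J x x = 0) (F : Perm V → ℝ) (K : ℝ)
    (hF : ∀ g, |F g| ≤ K) :
    |∑ g, stirMass J t g * TT F g - ∑ g, stirMass J t g * F g| ≤
      K / Real.sqrt (t * κ * (Fintype.card V : ℝ) ^ 2 / 2) * ∑ g, stirMass J t g := by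
  have hN : (0 : ℝ) < Fintype.card V := by
    exact_mod_cast Fintype.card_pos
  set J' : V → V → ℝ := fun x y => J x y - if x ≠ y then κ else 0 with hJ'
  have hJJ : J = fun x y => J' x y + if x ≠ y then κ else 0 := by
    funext x y
    simp [hJ']
  have hJ'0 : ∀ x y, 0 ≤ J' x y := by
    intro x y
    simp only [hJ']
    split_ifs with h
    · linarith [hJ x y h]
    · push Not at h
      subst h
      rw [hJ0]
      norm_num
  set μ : ℝ := t * κ * (Fintype.card V : ℝ) ^ 2 / 2 with hμ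
  have hμ0 : 0 < μ := by positivity
  set c : ℝ := Real.exp (-(t * κ * (Fintype.card V : ℝ) / 2)) with hc
  have hc0 : 0 < c := Real.exp_pos _
  have split : ∀ G : Perm V → ℝ, ∑ g, stirMass J t g * G g =
      ∑ h, stirMass J' t h * (c * (NormedSpace.exp (μ • TL V)) G h) := by
    intro G
    rw [sum_stirMass]
    conv_lhs => rw [hJJ]
    rw [exp_split]
    refine Finset.sum_congr rfl fun h _ => ?_
    rw [exp_BB]
  have hone : ∀ h : Perm V, (NormedSpace.exp (μ • TL V)) (fun _ => 1) h = Real.exp μ := by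
    intro h
    have h1 := TL_exp_hasSum μ (fun _ : Perm V => (1 : ℝ)) h
    have h2 : ∀ m : ℕ, ∀ g : Perm V, ((TL V) ^ m) (fun _ => 1) g = 1 := by
      intro m
      induction m with
      | zero => intro g; simp
      | succ m ih =>
        intro g
        rw [pow_succ_apply', TL_eq]
        have h3 : ((TL V) ^ m) (fun _ => 1) = fun _ => (1 : ℝ) := funext ih
        rw [h3, TT]
        simp only [Finset.sum_const, Finset.card_univ, nsmul_eq_mul, mul_one]
        field_simp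
    simp only [h2, mul_one] at h1
    exact h1.unique (hs_exp μ)
  have hm : ∑ g, stirMass J t g = ∑ h, stirMass J' t h * (c * Real.exp μ) := by
    have h1 := split (fun _ => 1)
    simp only [mul_one, hone] at h1
    exact h1
  rw [split, split, ← Finset.sum_sub_distrib, hm, Finset.mul_sum]
  refine (Finset.abs_sum_le_sum_abs _ _).trans (Finset.sum_le_sum fun h _ => ?_)
  have hst := stirMass_nonneg J' hJ'0 t ht.le h
  have hdiff : |(NormedSpace.exp (μ • TL V)) (TT F) h - (NormedSpace.exp (μ • TL V)) F h|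
      ≤ K * (Real.exp μ / Real.sqrt μ) := by
    apply poisson_diff μ hμ0 (fun n => ((TL V) ^ n) F h) K _ _ (fun n => TL_pow_abs F K hF n h)
    · have h1 := TL_exp_hasSum μ (TT F) h
      have h2 : TT F = TL V F := by
        funext g
        rw [TL_eq]
      refine h1.congr_fun ?_
      intro n
      rw [pow_succ_apply'', h2]
    · exact TL_exp_hasSum μ F h
  have h1 : stirMass J' t h * (c * (NormedSpace.exp (μ • TL V)) (TT F) h)
      - stirMass J' t h * (c * (NormedSpace.exp (μ • TL V)) F h)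
      = stirMass J' t h * c * ((NormedSpace.exp (μ • TL V)) (TT F) h
        - (NormedSpace.exp (μ • TL V)) F h) := by ring
  rw [h1, abs_mul, abs_of_nonneg (mul_nonneg hst hc0.le)]
  refine (mul_le_mul_of_nonneg_left hdiff (mul_nonneg hst hc0.le)).trans (le_of_eq ?_)
  ring

end Pool.Agent.TH268.PD
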