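import Pool.Agent.TH268.PD.Defs

/-!
# Algebra of crossings and loops of a permutation (job 3520)
-/

set_option autoImplicit false

namespace Pool.Agent.TH268.PD

open Finset Equiv

variable {V : Type} [Fintype V] [DecidableEq V]

namespace Alg

omit [Fintype V] [DecidableEq V] in
lemma step (g : Perm V) (x : V) (p : ℕ) : g ((g⁻¹ ^ (p + 1)) x) = (g⁻¹ ^ p) x := by
  rw [pow_succ', Perm.mul_apply]
  simp

omit [Fintype V] [DecidableEq V] in
lemma cancel (g : Perm V) (x y : V) (p k : ℕ) (h : (g⁻¹ ^ p) x = (g⁻¹ ^ (p + k)) y) :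
    x = (g⁻¹ ^ k) y := by
  rw [pow_add, Perm.mul_apply] at h
  exact (g⁻¹ ^ p).injective h

omit [Fintype V] [DecidableEq V] in
lemma ne_ab {B : Finset V} {x y : V} (hx : x ∈ B) (hy : y ∈ B) (hxy : x ≠ y) (g : Perm V) (m : ℕ)
    (h1 : Far B g x m) (h2 : Far B g y m) (p q : ℕ) (hp : p < m) (hq : q < m) :
    (g⁻¹ ^ p) x ≠ (g⁻¹ ^ q) y := by
  intro h
  rcases lt_trichotomy p q with hpq | hpq | hpq
  · obtain ⟨k, rfl⟩ := Nat.exists_eq_add_of_lt hpq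
    have h3 := cancel g x y p (k + 1) (by rw [h, add_assoc])
    exact h2 (k + 1) (by omega) (by omega) (h3 ▸ hx)
  · subst hpq
    exact hxy ((g⁻¹ ^ p).injective h)
  · obtain ⟨k, rfl⟩ := Nat.exists_eq_add_of_lt hpq
    have h3 := cancel g y x q (k + 1) (by rw [← h, add_assoc])
    exact h1 (k + 1) (by omega) (by omega) (h3 ▸ hy)

omit [Fintype V] [DecidableEq V] in
lemma ne_aa {B : Finset V} {x : V} (hx : x ∈ B) (g : Perm V) (m : ℕ)
    (h1 : Far B g x m) (p q : ℕ) (hpq : p < q) (hq : q < m) :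
    (g⁻¹ ^ p) x ≠ (g⁻¹ ^ q) x := by
  intro h
  obtain ⟨k, rfl⟩ := Nat.exists_eq_add_of_lt hpq
  have h3 := cancel g x x p (k + 1) (by rw [h, add_assoc])
  exact h1 (k + 1) (by omega) (by omega) (h3 ▸ hx)

omit [Fintype V] [DecidableEq V] in
lemma ne_aa' {B : Finset V} {x : V} (hx : x ∈ B) (g : Perm V) (m : ℕ)
    (h1 : Far B g x m) (p q : ℕ) (hpq : p ≠ q) (hp : p < m) (hq : q < m) :
    (g⁻¹ ^ p) x ≠ (g⁻¹ ^ q) x := by
  rcases lt_or_gt_of_ne hpq with h | h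
  · exact ne_aa hx g m h1 p q h hq
  · exact (ne_aa hx g m h1 q p h hp).symm

omit [Fintype V] in
lemma conj_swap {B : Finset V} (F : Perm V → ℝ)
    (hF : ∀ w g : Perm V, (∀ v ∈ B, w v = v) → F (w * g * w⁻¹) = F g)
    (u v : V) (hu : u ∉ B) (hv : v ∉ B) (G : Perm V) :
    F (swap u v * G) = F (G * swap u v) := by
  have h1 := hF (swap u v) (G * swap u v) (by
    intro z hz
    apply swap_apply_of_ne_of_ne
    · rintro rfl
      exact hu hz
    · rintro rfl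
      exact hv hz)
  rw [← h1, swap_inv, mul_assoc, mul_assoc, swap_mul_self, mul_one]

/-- the loop -/
lemma loop_move {B : Finset V} (F : Perm V → ℝ)
    (hF : ∀ w g : Perm V, (∀ v ∈ B, w v = v) → F (w * g * w⁻¹) = F g)
    (g1 : Perm V) (L : V → Prop) (hL : ∀ z, L z → L (g1 z)) (hLB : ∀ z, L z → z ∉ B)
    (c d : V) (hc : L c) (hd : ¬ L d) :
    F (g1 * swap c d) = F (g1 * swap (g1 c) d) := by
  have hpow : ∀ i : ℕ, L ((g1 ^ i) c) := by
    intro i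
    induction i with
    | zero => simpa using hc
    | succ i ih =>
      rw [pow_succ', Perm.mul_apply]
      exact hL _ ih
  have hsc : ∀ z, g1.SameCycle c z → L z := by
    intro z hz
    obtain ⟨i, _, hi⟩ := hz.exists_pow_eq'
    rw [← hi]
    exact hpow i
  set w : Perm V := g1.cycleOf c with hw
  have hwfix : ∀ z, ¬ L z → w z = z := by
    intro z hz
    rw [hw, Perm.cycleOf_apply, if_neg (fun h => hz (hsc z h))]
  have hwc : w c = g1 c := by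
    rw [hw, Perm.cycleOf_apply, if_pos (Perm.SameCycle.refl _ _)]
  have hcomm : w * g1 = g1 * w := by
    ext z
    rw [Perm.mul_apply, Perm.mul_apply, hw, Perm.cycleOf_apply, Perm.cycleOf_apply]
    by_cases h : g1.SameCycle c z
    · rw [if_pos h, if_pos (Perm.sameCycle_apply_right.2 h)]
    · rw [if_neg h, if_neg (fun h' => h (Perm.sameCycle_apply_right.1 h'))]
  have h1 := hF w (g1 * swap c d) (fun v hv => hwfix v (fun h => hLB v h hv))
  rw [← h1]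
  congr 1
  calc w * (g1 * swap c d) * w⁻¹ = (w * g1) * (swap c d * w⁻¹) := by
        simp only [mul_assoc]
    _ = g1 * (w * swap c d * w⁻¹) := by
        rw [hcomm]
        simp only [mul_assoc]
    _ = g1 * swap (g1 c) d := by
        rw [mul_swap_eq_swap_mul, mul_assoc, mul_inv_cancel, mul_one, hwc, hwfix d hd]

end Alg

open Alg

/-- crossings with exchange depend only on the difference of the positions -/
theorem alg_cross {B : Finset V} {x y : V} (hx : x ∈ B) (hy : y ∈ B) (hxy : x ≠ y)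
    (F : Perm V → ℝ) (hF : ∀ w g : Perm V, (∀ v ∈ B, w v = v) → F (w * g * w⁻¹) = F g)
    (g : Perm V) (m : ℕ) (h1 : Far B g x m) (h2 : Far B g y m) (e q : ℕ) (hq : 1 ≤ q)
    (hqe : q + e < m) :
    F (swap x y * g * swap ((g⁻¹ ^ (q + e)) x) ((g⁻¹ ^ q) y)) =
      F (swap x y * g * swap ((g⁻¹ ^ (1 + e)) x) (g⁻¹ y)) := by
  induction q, hq using Nat.le_induction with
  | base => rw [pow_one]
  | succ q hq ih =>
    rw [← ih (by omega)]
    set u := (g⁻¹ ^ (q + e)) x with hu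
    set v := (g⁻¹ ^ q) y with hv
    have huB : u ∉ B := h1 _ (by omega) (by omega)
    have hvB : v ∉ B := h2 _ hq (by omega)
    have h3 : g * swap ((g⁻¹ ^ (q + 1 + e)) x) ((g⁻¹ ^ (q + 1)) y) = swap u v * g := by
      rw [mul_swap_eq_swap_mul, step, show q + 1 + e = (q + e) + 1 by omega, step]
    have hdis : swap x y * swap u v = swap u v * swap x y := by
      have hxu : x ≠ u := fun h => huB (h ▸ hx)
      have hxv : x ≠ v := fun h => hvB (h ▸ hx)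
      have hyu : y ≠ u := fun h => huB (h ▸ hy)
      have hyv : y ≠ v := fun h => hvB (h ▸ hy)
      rw [mul_swap_eq_swap_mul, swap_apply_of_ne_of_ne hxu.symm hyu.symm,
        swap_apply_of_ne_of_ne hxv.symm hyv.symm]
    rw [mul_assoc, h3, ← mul_assoc, hdis, mul_assoc, conj_swap F hF u v huB hvB]

/-- splitting a loop from one arc and merging it with the other arc -/
theorem alg_split {B : Finset V} {x y : V} (hx : x ∈ B) (hy : y ∈ B) (hxy : x ≠ y)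
    (F : Perm V → ℝ) (hF : ∀ w g : Perm V, (∀ v ∈ B, w v = v) → F (w * g * w⁻¹) = F g)
    (g : Perm V) (m : ℕ) (h1 : Far B g x m) (h2 : Far B g y m) (e p s q : ℕ) (he : 1 ≤ e)
    (hp : 1 ≤ p) (hpe : p + e < m) (hs : p ≤ s) (hs2 : s < p + e) (hq : 1 ≤ q) (hqm : q < m) :
    F (g * swap ((g⁻¹ ^ p) x) ((g⁻¹ ^ (p + e)) x) * swap ((g⁻¹ ^ s) x) ((g⁻¹ ^ q) y)) =
      F (swap x y * g * swap ((g⁻¹ ^ (1 + e)) x) (g⁻¹ y)) := by
  have nab := ne_ab hx hy hxy g m h1 h2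
  have naa := ne_aa' hx g m h1
  -- values of the loop permutation
  have hg1 : ∀ p, 1 ≤ p → p + e < m → ∀ j, p ≤ j → j + 1 < p + e →
      (g * swap ((g⁻¹ ^ p) x) ((g⁻¹ ^ (p + e)) x)) ((g⁻¹ ^ (j + 1)) x) = (g⁻¹ ^ j) x := by
    intro p hp hpe j hj hj2
    rw [Perm.mul_apply, swap_apply_of_ne_of_ne (naa _ _ (by omega) (by omega) (by omega))
      (naa _ _ (by omega) (by omega) (by omega)), step]
  have hg2 : ∀ p, 1 ≤ p → p + e < m →
      (g * swap ((g⁻¹ ^ p) x) ((g⁻¹ ^ (p + e)) x)) ((g⁻¹ ^ p) x) = (g⁻¹ ^ (p + e - 1)) x := by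
    intro p hp hpe
    rw [Perm.mul_apply, swap_apply_left, show p + e = (p + e - 1) + 1 by omega, step]
    simp
  -- (m3)
  have m3 : ∀ p q, 1 ≤ p → p + e < m → q < m → ∀ s, p ≤ s → s < p + e →
      F (g * swap ((g⁻¹ ^ p) x) ((g⁻¹ ^ (p + e)) x) * swap ((g⁻¹ ^ s) x) ((g⁻¹ ^ q) y)) =
      F (g * swap ((g⁻¹ ^ p) x) ((g⁻¹ ^ (p + e)) x) * swap ((g⁻¹ ^ p) x) ((g⁻¹ ^ q) y)) := by
    intro p q hp hpe hqm s hs
    induction s, hs using Nat.le_induction with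
    | base => intro _; rfl
    | succ s hs ih =>
      intro hs2
      rw [← ih (by omega)]
      rw [loop_move F hF (g * swap ((g⁻¹ ^ p) x) ((g⁻¹ ^ (p + e)) x))
        (fun z => ∃ j, p ≤ j ∧ j < p + e ∧ z = (g⁻¹ ^ j) x) _ _ _ _
        ⟨s + 1, by omega, by omega, rfl⟩ _, hg1 p hp hpe s hs hs2]
      · rintro z ⟨j, hj1, hj2, rfl⟩
        by_cases hjp : j = p
        · subst hjp
          exact ⟨j + e - 1, by omega, by omega, hg2 j hp hpe⟩
        · obtain ⟨k, rfl⟩ : ∃ k, j = k + 1 := ⟨j - 1, by omega⟩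
          exact ⟨k, by omega, by omega, hg1 p hp hpe k (by omega) (by omega)⟩
      · rintro z ⟨j, hj1, hj2, rfl⟩
        exact h1 j (by omega) (by omega)
      · rintro ⟨j, hj1, hj2, h⟩
        exact nab j q (by omega) hqm h.symm
  -- (m1)
  have m1 : ∀ p q, 1 ≤ p → p + 1 + e < m → q < m →
      F (g * swap ((g⁻¹ ^ (p + 1)) x) ((g⁻¹ ^ (p + 1 + e)) x) *
        swap ((g⁻¹ ^ (p + 1)) x) ((g⁻¹ ^ q) y)) =
      F (g * swap ((g⁻¹ ^ p) x) ((g⁻¹ ^ (p + e)) x) * swap ((g⁻¹ ^ p) x) ((g⁻¹ ^ q) y)) := by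
    intro p q hp hpe hqm
    set u := (g⁻¹ ^ p) x with hu
    set v := (g⁻¹ ^ (p + e)) x with hv
    have huB : u ∉ B := h1 _ hp (by omega)
    have hvB : v ∉ B := h1 _ (by omega) (by omega)
    have h3 : g * swap ((g⁻¹ ^ (p + 1)) x) ((g⁻¹ ^ (p + 1 + e)) x) = swap u v * g := by
      rw [mul_swap_eq_swap_mul, step, show p + 1 + e = (p + e) + 1 by omega, step]
    rw [h3, mul_assoc, conj_swap F hF u v huB hvB]
    have h4 : g * swap ((g⁻¹ ^ (p + 1)) x) ((g⁻¹ ^ q) y) * swap u v =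
        g * swap u v * swap (swap u v ((g⁻¹ ^ (p + 1)) x)) (swap u v ((g⁻¹ ^ q) y)) := by
      have h5 : swap u v * swap (swap u v ((g⁻¹ ^ (p + 1)) x)) (swap u v ((g⁻¹ ^ q) y)) =
          swap ((g⁻¹ ^ (p + 1)) x) ((g⁻¹ ^ q) y) * swap u v := by
        rw [mul_swap_eq_swap_mul, swap_apply_self, swap_apply_self]
      rw [mul_assoc, mul_assoc, h5]
    rw [h4, swap_apply_of_ne_of_ne (a := u) (b := v) (x := (g⁻¹ ^ q) y)
      (nab p q (by omega) hqm).symm (nab (p + e) q (by omega) hqm).symm]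
    by_cases he1 : e = 1
    · subst he1
      rw [hv, swap_apply_right]
    · rw [swap_apply_of_ne_of_ne (a := u) (b := v) (x := (g⁻¹ ^ (p + 1)) x)
        (naa _ _ (by omega) (by omega) (by omega)) (naa _ _ (by omega) (by omega) (by omega))]
      exact m3 p q hp (by omega) hqm (p + 1) (by omega) (by omega)
  -- (m2)
  have m2 : ∀ q, 1 ≤ q → q + 1 < m → 1 + e < m →
      F (g * swap ((g⁻¹ ^ 1) x) ((g⁻¹ ^ (1 + e)) x) * swap ((g⁻¹ ^ 1) x) ((g⁻¹ ^ (q + 1)) y)) =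
      F (g * swap ((g⁻¹ ^ 1) x) ((g⁻¹ ^ (1 + e)) x) * swap ((g⁻¹ ^ 1) x) ((g⁻¹ ^ q) y)) := by
    intro q hq hqm hem
    rw [mul_swap_eq_swap_mul (g * swap ((g⁻¹ ^ 1) x) ((g⁻¹ ^ (1 + e)) x)) ((g⁻¹ ^ 1) x),
      hg2 1 le_rfl hem]
    have h5 : (g * swap ((g⁻¹ ^ 1) x) ((g⁻¹ ^ (1 + e)) x)) ((g⁻¹ ^ (q + 1)) y) = (g⁻¹ ^ q) y := by
      rw [Perm.mul_apply, swap_apply_of_ne_of_ne (nab _ _ (by omega) hqm).symm
        (nab _ _ (by omega) hqm).symm, step]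
    rw [h5, conj_swap F hF _ _ (h1 _ (by omega) (by omega)) (h2 _ hq (by omega))]
    exact m3 1 q le_rfl hem (by omega) (1 + e - 1) (by omega) (by omega)
  -- lower `p`
  have step1 : ∀ p, 1 ≤ p → p + e < m →
      F (g * swap ((g⁻¹ ^ p) x) ((g⁻¹ ^ (p + e)) x) * swap ((g⁻¹ ^ p) x) ((g⁻¹ ^ q) y)) =
      F (g * swap ((g⁻¹ ^ 1) x) ((g⁻¹ ^ (1 + e)) x) * swap ((g⁻¹ ^ 1) x) ((g⁻¹ ^ q) y)) := by
    intro p hp
    induction p, hp using Nat.le_induction with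
    | base => intro _; rfl
    | succ p hp ih =>
      intro hpe
      rw [m1 p q hp hpe hqm, ih (by omega)]
  have step2 : ∀ q, 1 ≤ q → q < m →
      F (g * swap ((g⁻¹ ^ 1) x) ((g⁻¹ ^ (1 + e)) x) * swap ((g⁻¹ ^ 1) x) ((g⁻¹ ^ q) y)) =
      F (g * swap ((g⁻¹ ^ 1) x) ((g⁻¹ ^ (1 + e)) x) * swap ((g⁻¹ ^ 1) x) ((g⁻¹ ^ 1) y)) := by
    intro q hq
    induction q, hq using Nat.le_induction with
    | base => intro _; rfl
    | succ q hq ih =>
      intro hqm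
      rw [m2 q hq hqm (by omega), ih (by omega)]
  rw [m3 p q hp hpe hqm s hs hs2, step1 p hp hpe, step2 q hq hqm]
  -- the last step
  have n1 : (g⁻¹ ^ 1) x ≠ (g⁻¹ ^ (1 + e)) x := naa _ _ (by omega) (by omega) (by omega)
  have n2 : (g⁻¹ ^ 1) x ≠ (g⁻¹ ^ 1) y := nab _ _ (by omega) (by omega)
  have n3 : (g⁻¹ ^ (1 + e)) x ≠ (g⁻¹ ^ 1) y := nab _ _ (by omega) (by omega)
  have h6 : swap ((g⁻¹ ^ 1) x) ((g⁻¹ ^ (1 + e)) x) * swap ((g⁻¹ ^ 1) x) ((g⁻¹ ^ 1) y) =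
      swap ((g⁻¹ ^ 1) x) ((g⁻¹ ^ 1) y) * swap ((g⁻¹ ^ (1 + e)) x) ((g⁻¹ ^ 1) y) := by
    rw [mul_swap_eq_swap_mul (swap ((g⁻¹ ^ 1) x) ((g⁻¹ ^ 1) y)),
      swap_apply_of_ne_of_ne n1.symm n3, swap_apply_right, swap_comm ((g⁻¹ ^ 1) x)
      ((g⁻¹ ^ (1 + e)) x)]
  have h7 : g * swap ((g⁻¹ ^ 1) x) ((g⁻¹ ^ 1) y) = swap x y * g := by
    rw [mul_swap_eq_swap_mul]
    simp
  rw [mul_assoc, h6, ← mul_assoc, h7, pow_one]

end Pool.Agent.TH268.PD
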