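import Pool.Agent.TH268.PD.Dust

/-!
# The estimate for marked points
-/

set_option autoImplicit false

namespace Pool.Agent.TH268.PD

open Finset Equiv

variable {V : Type} [Fintype V] [DecidableEq V]

theorem far_conj {B : Finset V} {w : Perm V} (g : Perm V) (hw : ∀ v ∈ B, w v = v) (z : V)
    (hz : z ∈ B) (m : ℕ) : Far B (w * g * w⁻¹) z m ↔ Far B g z m := by
  have h1 : ∀ p : ℕ, ((w * g * w⁻¹)⁻¹ ^ p) z = w ((g⁻¹ ^ p) z) := by
    intro p
    have h2 : (w * g * w⁻¹)⁻¹ = w * g⁻¹ * w⁻¹ := by group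
    have h3 : w⁻¹ z = z := by rw [Perm.inv_eq_iff_eq, hw z hz]
    rw [h2, conj_pow, Perm.mul_apply, Perm.mul_apply, h3]
  have h4 : ∀ v : V, w v ∈ B ↔ v ∈ B := by
    intro v
    constructor
    · intro h
      have h5 := hw _ h
      have h6 : w v = v := w.injective h5
      rwa [h6] at h
    · intro h
      rwa [hw v h]
  unfold Far
  refine forall_congr' fun p => forall_congr' fun _ => forall_congr' fun _ => ?_
  rw [h1, h4]

theorem far_swap_of {B : Finset V} {x y : V} (hx : x ∈ B) (hy : y ∈ B) (g : Perm V) (z : V)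
    (m : ℕ) (h : Far B g (swap x y z) m) : Far B (swap x y * g) z m := by
  have h1 : ∀ p : ℕ, 1 ≤ p → p < m → ((swap x y * g)⁻¹ ^ p) z = (g⁻¹ ^ p) (swap x y z) := by
    intro p hp
    induction p, hp using Nat.le_induction with
    | base =>
      intro _
      rw [pow_one, pow_one, mul_inv_rev, swap_inv, Perm.mul_apply]
    | succ p hp ih =>
      intro hpm
      rw [pow_succ', Perm.mul_apply, ih (by omega), mul_inv_rev, swap_inv, Perm.mul_apply]
      have h2 := h p hp (by omega)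
      rw [swap_apply_of_ne_of_ne (fun h3 => h2 (by rw [h3]; exact hx))
        (fun h3 => h2 (by rw [h3]; exact hy)), ← Perm.mul_apply,
        ← pow_succ']
  intro p hp hpm
  rw [h1 p hp hpm]
  exact h p hp hpm

theorem dusty_conj {B : Finset V} {w : Perm V} (g : Perm V) (hw : ∀ v ∈ B, w v = v) (m : ℕ) :
    Dusty B m (w * g * w⁻¹) ↔ Dusty B m g := by
  unfold Dusty
  refine exists_congr fun z => and_congr_right fun hz => not_congr ?_
  exact far_conj g hw z hz m

theorem swap_mem {B : Finset V} {x y : V} (hx : x ∈ B) (hy : y ∈ B) {z : V} (hz : z ∈ B) :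
    swap x y z ∈ B := by
  rw [swap_apply_def]
  split_ifs
  · exact hy
  · exact hx
  · exact hz

theorem dusty_swap_of {B : Finset V} {x y : V} (hx : x ∈ B) (hy : y ∈ B) (g : Perm V) (m : ℕ)
    (h : Dusty B m (swap x y * g)) : Dusty B m g := by
  obtain ⟨z, hz, h1⟩ := h
  exact ⟨swap x y z, swap_mem hx hy hz, fun h2 => h1 (far_swap_of hx hy g z m h2)⟩

theorem dusty_swap {B : Finset V} {x y : V} (hx : x ∈ B) (hy : y ∈ B) (g : Perm V) (m : ℕ) :
    Dusty B m (swap x y * g) ↔ Dusty B m g := by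
  refine ⟨dusty_swap_of hx hy g m, fun h => dusty_swap_of hx hy _ m ?_⟩
  rwa [← mul_assoc, swap_mul_self, one_mul]

theorem dusty_mono {B : Finset V} {m1 m : ℕ} (hm : m1 ≤ m) {g : Perm V} (h : Dusty B m1 g) :
    Dusty B m g := by
  obtain ⟨z, hz, h1⟩ := h
  exact ⟨z, hz, fun h2 => h1 fun p hp hpm => h2 p hp (by omega)⟩

/-- the contraction inequality -/
def Contr (V : Type) [Fintype V] [DecidableEq V] : Prop :=
  ∀ (B : Finset V) (x y : V), x ∈ B → y ∈ B → x ≠ y → ∀ H : Perm V → ℝ, Cls B x y H →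
    ∀ (g : Perm V) (m : ℕ), Far B g x m → Far B g y m → ∀ (U : Perm V → ℝ) (c : ℝ), 0 ≤ c →
      (∀ g, |H g| ≤ U g) → (∀ g, c ≤ U g) → |QQ H g| ≤ QQ U g - c * kap (Fintype.card V) m

/-- the error -/
noncomputable def errB (N m m1 n : ℕ) (ε : ℝ) : ℝ :=
  (1 - kap N m) ^ n + n * (3 * ((m1 : ℝ) / N)) + 3 * (n * (1 + n * (3 * ((m1 : ℝ) / N))) * ε)

open Classical in
theorem per_b [Nonempty V] (hC : Contr V) {k : ℕ} (b : Fin k → V) (hb : Function.Injective b)
    (r : Perm V → Perm (Fin k))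
    (hr1 : ∀ (g : Perm V) (i j : Fin k), r (swap (b i) (b j) * g) = swap i j * r g)
    (hr2 : ∀ w g : Perm V, (∀ i, w (b i) = b i) → r (w * g * w⁻¹) = r g)
    (μ : Perm V → ℝ) (ε : ℝ) (hμ : ∀ g, 0 ≤ μ g) (hμ1 : ∑ g, μ g = 1)
    (hε : ∀ (F : Perm V → ℝ) (K : ℝ), (∀ g, |F g| ≤ K) →
      |∑ g, μ g * TT F g - ∑ g, μ g * F g| ≤ K * ε) (hε0 : 0 ≤ ε) (m m1 : ℕ) (hm : m1 ≤ m)
    (hk0 : 0 ≤ kap (Fintype.card V) m) (hk1 : kap (Fintype.card V) m ≤ 1) (i j : Fin k)
    (hij : i ≠ j) (π : Perm (Fin k)) (n : ℕ) :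
    |∑ g, μ g * (if Dusty (univ.image b) m g then 0 else if r g = π then 1 else 0) -
      ∑ g, μ g * (if Dusty (univ.image b) m g then 0 else if r g = swap i j * π then 1 else 0)| ≤
      errB (Fintype.card V) m m1 n ε + ∑ g, μ g *
        (if ¬ Dusty (univ.image b) m1 g ∧ Dusty (univ.image b) m g then 1 else 0) := by
  set B : Finset V := univ.image b with hB
  have hbi : ∀ l, b l ∈ B := fun l => Finset.mem_image_of_mem _ (Finset.mem_univ l)
  have hbB : ∀ v ∈ B, ∃ l, b l = v := fun v hv => by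
    obtain ⟨l, _, hl⟩ := Finset.mem_image.1 hv
    exact ⟨l, hl⟩
  obtain ⟨F, hF⟩ : ∃ F : Perm V → ℝ, F = fun g => if Dusty B m g then 0 else
    (if r g = π then 1 else 0) - (if r g = swap i j * π then 1 else 0) := ⟨_, rfl⟩
  have hcls : Cls B (b i) (b j) F := by
    refine ⟨fun w g hw => ?_, fun g => ?_⟩
    · rw [hF]
      beta_reduce
      rw [hr2 w g fun l => hw _ (hbi l)]
      simp only [dusty_conj g hw m]
    · rw [hF]
      beta_reduce
      rw [hr1]
      simp only [dusty_swap (hbi i) (hbi j) g m]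
      have e1 : swap i j * r g = π ↔ r g = swap i j * π := by
        constructor
        · intro h; rw [← h, ← mul_assoc, swap_mul_self, one_mul]
        · intro h; rw [h, ← mul_assoc, swap_mul_self, one_mul]
      have e2 : swap i j * r g = swap i j * π ↔ r g = π := mul_right_inj _
      simp only [e1, e2]
      split_ifs <;> norm_num
  have h1 : ∀ g, |F g| ≤ 1 := by
    intro g
    rw [hF]
    beta_reduce
    split_ifs <;> norm_num
  have hN : (0 : ℝ) < Fintype.card V := by exact_mod_cast Fintype.card_pos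
  have hmain := main_iter μ ε hμ hμ1 hε hε0 F hcls h1 (κ := kap (Fintype.card V) m)
    (τ := 3 * ((m1 : ℝ) / Fintype.card V)) hk0 hk1 (by positivity)
    (b := fun g => if ¬ Dusty B m1 g ∧ Dusty B m g then 1 else 0)
    (fun g => by beta_reduce; split_ifs <;> norm_num)
    (fun g => by beta_reduce; split_ifs <;> norm_num)
    (Dusty B m1) (fun g => Far B g (b i) m ∧ Far B g (b j) m)
    (fun g => by
      by_cases hd1 : Dusty B m1 g
      · exact Or.inl hd1
      · by_cases hd : Dusty B m g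
        · exact Or.inr (Or.inl (if_pos ⟨hd1, hd⟩))
        · refine Or.inr (Or.inr ⟨?_, ?_⟩)
          · by_contra hf
            exact hd ⟨b i, hbi i, hf⟩
          · by_contra hf
            exact hd ⟨b j, hbi j, hf⟩)
    (fun n g hg => (dust_iter F h1 (fun g hg => by
      rw [hF]
      beta_reduce
      rw [if_pos (dusty_mono hm hg)]) n).2 g hg)
    (fun H hH g hG U c hc hU hcU => hC B (b i) (b j) (hbi i) (hbi j)
      (fun h => hij (hb h)) H hH g m hG.1 hG.2 U c hc hU hcU) n
  have e3 : ∑ g, μ g * (if Dusty B m g then 0 else if r g = π then (1 : ℝ) else 0) -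
      ∑ g, μ g * (if Dusty B m g then 0 else if r g = swap i j * π then (1 : ℝ) else 0) =
      ∑ g, μ g * F g := by
    rw [← Finset.sum_sub_distrib]
    refine Finset.sum_congr rfl fun g _ => ?_
    rw [hF]
    beta_reduce
    split_ifs <;> ring
  rw [e3]
  refine hmain.trans (le_of_eq ?_)
  unfold errB
  ring

end Pool.Agent.TH268.PD
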