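import Pool.Agent.TH268.PD.Defs

/-!
# Counting tuples with short arcs
-/

set_option autoImplicit false

namespace Pool.Agent.TH268.PD

open Finset Equiv

variable {V : Type} [Fintype V] [DecidableEq V]

namespace Bad

omit [DecidableEq V] in
theorem cnt_eq (P : V → Prop) [DecidablePred P] :
    Pool.Agent.W805.LR.cnt P = ((univ.filter P).card : ℝ) := by
  unfold Pool.Agent.W805.LR.cnt
  rw [Finset.card_filter]
  push_cast
  exact Finset.sum_congr rfl fun v _ => by congr

/-- a point which comes back after `p` steps has a cycle with at most `p` points -/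
theorem len_le (g : Perm V) (v : V) (p : ℕ) (hp : 1 ≤ p) (h : ((g⁻¹) ^ p) v = v) :
    Pool.Agent.W805.LR.len g v ≤ p := by
  classical
  unfold Pool.Agent.W805.LR.len
  rw [cnt_eq]
  have hsub : univ.filter (fun w => g.SameCycle v w) ⊆
      (Finset.range p).image (fun q => ((g⁻¹) ^ q) v) := by
    intro w hw
    rw [Finset.mem_filter] at hw
    obtain ⟨z, hz⟩ := hw.2
    have hfix : ∀ c : ℤ, ((g⁻¹) ^ ((p : ℤ) * c)) v = v := by
      intro c
      rw [zpow_mul]
      have h1 : ((g⁻¹) ^ (p : ℤ)) v = v := by rw [zpow_natCast]; exact h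
      exact Equiv.Perm.zpow_apply_eq_self_of_apply_eq_self h1 c
    have hp0 : (0 : ℤ) < p := by omega
    have h0 : 0 ≤ (-z) % p := Int.emod_nonneg _ (by omega)
    have h1 : (-z) % p < p := Int.emod_lt_of_pos _ hp0
    obtain ⟨q, hq⟩ := Int.eq_ofNat_of_zero_le h0
    rw [Finset.mem_image]
    refine ⟨q, Finset.mem_range.2 (by omega), ?_⟩
    have h2 : (g⁻¹) ^ (-z) = (g⁻¹) ^ ((-z) % p) * (g⁻¹) ^ ((p : ℤ) * (-z / p)) := by
      rw [← zpow_add, Int.emod_add_mul_ediv]
    have h3 : ((g⁻¹) ^ (-z)) v = w := by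
      rw [inv_zpow, zpow_neg, inv_inv]
      exact hz
    rw [h2, Equiv.Perm.mul_apply, hfix, hq, zpow_natCast] at h3
    exact h3
  have h1 := (Finset.card_le_card hsub).trans Finset.card_image_le
  rw [Finset.card_range] at h1
  exact_mod_cast h1

theorem union_bound {α ι : Type} [Fintype α] (P : α → Prop) (I : Finset ι) (E : ι → Finset α)
    (C : ℕ) (hE : ∀ x ∈ I, (E x).card ≤ C) (h : ∀ b, P b → ∃ x ∈ I, b ∈ E x) :
    Nat.card {b // P b} ≤ I.card * C := by
  classical
  rw [Nat.card_eq_fintype_card, Fintype.card_subtype]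
  calc (univ.filter P).card ≤ (I.biUnion E).card := by
        apply Finset.card_le_card
        intro b hb
        rw [Finset.mem_biUnion]
        exact h b (Finset.mem_filter.1 hb).2
    _ ≤ I.card * C := Finset.card_biUnion_le_card_mul _ _ _ hE

theorem card_eq_le (k : ℕ) (i l : Fin k) (hil : i ≠ l) (f : V → V) :
    (univ.filter (fun b : Fin k → V => b l = f (b i))).card ≤ Fintype.card V ^ (k - 1) := by
  classical
  have h1 : Fintype.card ({j : Fin k // j ≠ l} → V) = Fintype.card V ^ (k - 1) := by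
    rw [Fintype.card_fun]
    congr 1
    rw [Fintype.card_subtype_compl, Fintype.card_fin, Fintype.card_subtype_eq]
  rw [← h1, ← Finset.card_univ]
  apply Finset.card_le_card_of_injOn (fun b (j : {j : Fin k // j ≠ l}) => b j.1)
  · intro b _
    simp
  · intro b hb b' hb' hbb
    rw [Finset.mem_coe, Finset.mem_filter] at hb hb'
    have h2 : ∀ j, j ≠ l → b j = b' j := fun j hj => congrFun hbb ⟨j, hj⟩
    funext j
    by_cases hj : j = l
    · rw [hj, hb.2, hb'.2, h2 i hil]
    · exact h2 j hj

end Bad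

/-- few tuples of points have a short arc before one of them although all the cycles are long -/
theorem card_near (k : ℕ) (g : Perm V) (m : ℕ) :
    (Nat.card {b : Fin k → V // Function.Injective b ∧
      (∀ i, (m : ℝ) ≤ Pool.Agent.W805.LR.len g (b i)) ∧
      ¬ ∀ i, Far (Finset.univ.image b) g (b i) m} : ℝ) ≤
      (k : ℝ) ^ 2 * m * (Fintype.card V : ℝ) ^ (k - 1) := by
  classical
  have key := Bad.union_bound (fun b : Fin k → V => Function.Injective b ∧
      (∀ i, (m : ℝ) ≤ Pool.Agent.W805.LR.len g (b i)) ∧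
      ¬ ∀ i, Far (Finset.univ.image b) g (b i) m)
    (((univ : Finset (Fin k)) ×ˢ (univ : Finset (Fin k))) ×ˢ Finset.range m)
    (fun x => if x.1.1 = x.1.2 then ∅ else
      univ.filter (fun b : Fin k → V => b x.1.2 = ((g⁻¹) ^ x.2) (b x.1.1)))
    (Fintype.card V ^ (k - 1)) (by
      intro x _
      split_ifs with h
      · simp
      · exact Bad.card_eq_le k x.1.1 x.1.2 h _) (by
      rintro b ⟨_, hlen, hfar⟩
      rw [not_forall] at hfar
      obtain ⟨i, hi⟩ := hfar
      unfold Far at hi
      push Not at hi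
      obtain ⟨p, hp1, hpm, hmem⟩ := hi
      obtain ⟨l, _, hl⟩ := Finset.mem_image.1 hmem
      refine ⟨((i, l), p), by simp [hpm], ?_⟩
      have hil : i ≠ l := by
        rintro rfl
        have h1 := Bad.len_le g (b i) p hp1 hl.symm
        have h2 := (hlen i).trans h1
        have h3 : m ≤ p := by exact_mod_cast h2
        omega
      rw [if_neg hil, Finset.mem_filter]
      exact ⟨Finset.mem_univ _, hl⟩)
  rw [Finset.card_product, Finset.card_product, Finset.card_univ, Fintype.card_fin,
    Finset.card_range] at key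
  calc (Nat.card {b : Fin k → V // Function.Injective b ∧
      (∀ i, (m : ℝ) ≤ Pool.Agent.W805.LR.len g (b i)) ∧
      ¬ ∀ i, Far (Finset.univ.image b) g (b i) m} : ℝ) ≤
        ((k * k * m * Fintype.card V ^ (k - 1) : ℕ) : ℝ) := by exact_mod_cast key
    _ = _ := by push_cast; ring

/-- few tuples of points are not injective -/
theorem card_noninj (k : ℕ) :
    (Nat.card {b : Fin k → V // ¬ Function.Injective b} : ℝ) ≤
      (k : ℝ) ^ 2 * (Fintype.card V : ℝ) ^ (k - 1) := by
  classical
  have key := Bad.union_bound (fun b : Fin k → V => ¬ Function.Injective b)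
    ((univ : Finset (Fin k)) ×ˢ (univ : Finset (Fin k)))
    (fun x => if x.1 = x.2 then ∅ else univ.filter (fun b : Fin k → V => b x.2 = id (b x.1)))
    (Fintype.card V ^ (k - 1)) (by
      intro x _
      split_ifs with h
      · simp
      · exact Bad.card_eq_le k x.1 x.2 h _) (by
      intro b hb
      unfold Function.Injective at hb
      push Not at hb
      obtain ⟨i, l, hil, hne⟩ := hb
      refine ⟨(i, l), by simp, ?_⟩
      rw [if_neg hne, Finset.mem_filter]
      exact ⟨Finset.mem_univ _, hil.symm⟩)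
  rw [Finset.card_product, Finset.card_univ, Fintype.card_fin] at key
  calc (Nat.card {b : Fin k → V // ¬ Function.Injective b} : ℝ) ≤
        ((k * k * Fintype.card V ^ (k - 1) : ℕ) : ℝ) := by exact_mod_cast key
    _ = _ := by push_cast; ring

/-- if all arcs are long, then all cycles are long -/
theorem len_of_far (k : ℕ) (g : Perm V) (m : ℕ) (b : Fin k → V)
    (h : ∀ i, Far (Finset.univ.image b) g (b i) m) (i : Fin k) :
    (m : ℝ) ≤ Pool.Agent.W805.LR.len g (b i) := by
  classical
  have hdist : ∀ p p' : ℕ, p < p' → p' < m → ((g⁻¹) ^ p) (b i) ≠ ((g⁻¹) ^ p') (b i) := by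
    intro p p' h1 h2 heq
    obtain ⟨q, rfl⟩ := Nat.exists_eq_add_of_lt h1
    have h3 : ((g⁻¹) ^ (q + 1)) (b i) = b i := by
      rw [add_assoc, pow_add, Equiv.Perm.mul_apply] at heq
      exact ((g⁻¹) ^ p).injective heq.symm
    refine h i (q + 1) (by omega) (by omega) ?_
    rw [h3]
    exact Finset.mem_image_of_mem _ (Finset.mem_univ _)
  unfold Pool.Agent.W805.LR.len
  rw [Bad.cnt_eq]
  have hinj : Set.InjOn (fun p : ℕ => ((g⁻¹) ^ p) (b i)) (Finset.range m : Finset ℕ) := by
    intro p hp p' hp' heq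
    rw [Finset.mem_coe, Finset.mem_range] at hp hp'
    rcases lt_trichotomy p p' with h1 | h1 | h1
    · exact absurd heq (hdist p p' h1 hp')
    · exact h1
    · exact absurd heq.symm (hdist p' p h1 hp)
  have h1 := Finset.card_image_of_injOn hinj
  rw [Finset.card_range] at h1
  have h2 : (Finset.range m).image (fun p : ℕ => ((g⁻¹) ^ p) (b i)) ⊆
      univ.filter (fun w => g.SameCycle (b i) w) := by
    intro w hw
    obtain ⟨p, _, rfl⟩ := Finset.mem_image.1 hw
    rw [Finset.mem_filter]
    refine ⟨Finset.mem_univ _, -(p : ℤ), ?_⟩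
    rw [zpow_neg, ← inv_zpow, zpow_natCast]
  have h3 := Finset.card_le_card h2
  rw [h1] at h3
  exact_mod_cast h3

end Pool.Agent.TH268.PD
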