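import Pool.Agent.TH268.PD.Fin1

/-!
# Counting form of the law of the induced permutation
-/

set_option autoImplicit false

namespace Pool.Agent.TH268.PD

open Finset Equiv
open Pool.Agent.W805.LR (len cnt)

variable {V : Type} [Fintype V] [DecidableEq V]

/-- the first of the points `b` after `b i` is `b (π i)` -/
def Ind {k : ℕ} (g : Perm V) (b : Fin k → V) (π : Perm (Fin k)) : Prop :=
  ∀ i, ∃ n : ℕ, 1 ≤ n ∧ (g ^ n) (b i) = b (π i) ∧
    ∀ p, 1 ≤ p → p < n → (g ^ p) (b i) ∉ Set.range b

theorem ind_iff {k : ℕ} (g : Perm V) (b : Fin k → V) (hb : Function.Injective b)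
    (π : Perm (Fin k)) : Ind g b π ↔ ret k b g = π := by
  obtain ⟨h1, _, _, _⟩ := ret_spec k b hb
  constructor
  · intro h
    refine Equiv.ext fun i => hb ?_
    obtain ⟨n, hn1, hn2, hn3⟩ := h1 g i
    obtain ⟨n', hn1', hn2', hn3'⟩ := h i
    rcases lt_trichotomy n n' with hlt | heq | hlt
    · exact absurd (hn2 ▸ Set.mem_range_self _) (hn3' n hn1 hlt)
    · subst heq
      rw [← hn2, ← hn2']
    · exact absurd (hn2' ▸ Set.mem_range_self _) (hn3 n' hn1' hlt)
  · rintro rfl
    exact fun i => h1 g i

/-- the number of tuples -/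
noncomputable def nTup (k : ℕ) (s : ℝ) (g : Perm V) (π : Perm (Fin k)) : ℝ :=
  Nat.card {b : Fin k → V // Function.Injective b ∧ (∀ i, s ≤ len g (b i)) ∧ Ind g b π}

/-- the number of tuples with any induced permutation -/
noncomputable def nAll (k : ℕ) (s : ℝ) (g : Perm V) : ℝ :=
  Nat.card {b : Fin k → V // Function.Injective b ∧ ∀ i, s ≤ len g (b i)}

open Classical in
theorem nTup_eq (k : ℕ) (s : ℝ) (g : Perm V) (π : Perm (Fin k)) :
    nTup k s g π = ∑ b : Fin k → V, if Function.Injective b then
      (if (∀ i, s ≤ len g (b i)) ∧ ret k b g = π then (1 : ℝ) else 0) else 0 := by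
  unfold nTup
  rw [Nat.card_eq_fintype_card, Fintype.card_subtype, Finset.card_filter]
  push_cast
  refine Finset.sum_congr rfl fun b _ => ?_
  by_cases hb : Function.Injective b
  · simp only [hb, true_and, if_true, ind_iff g b hb π]
  · simp [hb]

open Classical in
theorem nAll_eq (k : ℕ) (s : ℝ) (g : Perm V) :
    nAll k s g = ∑ b : Fin k → V, if Function.Injective b then
      (if (∀ i, s ≤ len g (b i)) then (1 : ℝ) else 0) else 0 := by
  unfold nAll
  rw [Nat.card_eq_fintype_card, Fintype.card_subtype, Finset.card_filter]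
  push_cast
  refine Finset.sum_congr rfl fun b _ => ?_
  by_cases hb : Function.Injective b
  · simp [hb]
  · simp [hb]

theorem nAll_sum (k : ℕ) (s : ℝ) (g : Perm V) : nAll k s g = ∑ π, nTup k s g π := by
  classical
  rw [nAll_eq]
  simp only [nTup_eq]
  rw [Finset.sum_comm]
  refine Finset.sum_congr rfl fun b _ => ?_
  by_cases hb : Function.Injective b
  · simp only [if_pos hb]
    by_cases hl : ∀ i, s ≤ len g (b i)
    · rw [if_pos hl]
      simp only [hl, implies_true, true_and]
      rw [Finset.sum_ite_eq, if_pos (Finset.mem_univ _)]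
    · simp [hl]
  · simp [hb]

theorem LL_eq (k : ℕ) (μ : Perm V → ℝ) (s : ℝ) (π : Perm (Fin k)) :
    LL k μ s π = ∑ g, μ g * (nTup k s g π / (Fintype.card V : ℝ) ^ k) := by
  classical
  unfold LL
  simp only [nTup_eq, mul_div_assoc', ← Finset.sum_div]
  congr 1
  simp only [Finset.mul_sum]
  rw [Finset.sum_comm (s := (univ : Finset (Perm V)))]
  refine Finset.sum_congr rfl fun b _ => ?_
  by_cases hb : Function.Injective b
  · simp only [if_pos hb]
  · simp [hb]

theorem LL_sum (k : ℕ) (μ : Perm V → ℝ) (s : ℝ) :
    ∑ π, LL k μ s π = ∑ g, μ g * (nAll k s g / (Fintype.card V : ℝ) ^ k) := by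
  simp only [LL_eq]
  rw [Finset.sum_comm]
  refine Finset.sum_congr rfl fun g _ => ?_
  rw [← Finset.mul_sum, ← Finset.sum_div, nAll_sum]

theorem cnt_nonneg (P : V → Prop) : 0 ≤ cnt P := by
  classical
  rw [Bad.cnt_eq]
  positivity

/-- few tuples have a point in a short cycle -/
theorem short_tup (k : ℕ) (s : ℝ) (g : Perm V) :
    (Nat.card {b : Fin k → V // ¬ ∀ i, s ≤ len g (b i)} : ℝ) ≤
      k * ((cnt fun v => len g v < s) * (Fintype.card V : ℝ) ^ (k - 1)) := by
  classical
  rcases Nat.eq_zero_or_pos k with hk | hk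
  · subst hk
    have : IsEmpty {b : Fin 0 → V // ¬ ∀ i, s ≤ len g (b i)} := ⟨fun b => b.2 fun i => i.elim0⟩
    simp
  · have h1 : (Nat.card {b : Fin k → V // ¬ ∀ i, s ≤ len g (b i)} : ℝ) ≤
        ∑ i : Fin k, (Nat.card {b : Fin k → V // len g (b i) < s} : ℝ) := by
      rw [Nat.card_eq_fintype_card, Fintype.card_subtype, Finset.card_filter]
      push_cast
      have e1 : ∀ i : Fin k, (Nat.card {b : Fin k → V // len g (b i) < s} : ℝ) =
          ∑ b : Fin k → V, if len g (b i) < s then (1 : ℝ) else 0 := by
        intro i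
        rw [Nat.card_eq_fintype_card, Fintype.card_subtype, Finset.card_filter]
        push_cast
        rfl
      simp only [e1]
      rw [Finset.sum_comm]
      refine Finset.sum_le_sum fun b _ => ?_
      by_cases hb : ∀ i, s ≤ len g (b i)
      · rw [if_neg (not_not.2 hb)]
        exact Finset.sum_nonneg fun i _ => by split_ifs <;> norm_num
      · rw [if_pos hb]
        push Not at hb
        obtain ⟨i, hi⟩ := hb
        have := Finset.single_le_sum (f := fun i => if len g (b i) < s then (1 : ℝ) else 0)
          (fun i _ => by beta_reduce; split_ifs <;> norm_num) (Finset.mem_univ i)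
        beta_reduce at this
        rw [if_pos hi] at this
        exact this
    refine h1.trans (le_of_eq ?_)
    have h2 : ∀ i : Fin k, (Nat.card {b : Fin k → V // len g (b i) < s} : ℝ) =
        (cnt fun v => len g v < s) * (Fintype.card V : ℝ) ^ (k - 1) := by
      intro i
      have e2 : Nat.card {b : Fin k → V // len g (b i) < s} =
          Nat.card ({v : V // len g v < s} × ({j : Fin k // j ≠ i} → V)) := by
        refine Nat.card_congr ?_
        refine
          { toFun := fun b => (⟨b.1 i, b.2⟩, fun j => b.1 j.1)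
            invFun := fun c => ⟨fun j => if h : j = i then c.1.1 else c.2 ⟨j, h⟩, by
              simp only [dif_pos]; exact c.1.2⟩
            left_inv := fun b => by
              refine Subtype.ext (funext fun j => ?_)
              by_cases h : j = i
              · subst h; simp
              · simp [h]
            right_inv := fun c => by
              refine Prod.ext (Subtype.ext (by simp)) (funext fun j => ?_)
              simp [j.2] }
      rw [e2, Nat.card_prod, Bad.cnt_eq]
      push_cast
      congr 1
      · rw [Nat.card_eq_fintype_card, Fintype.card_subtype]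
      · rw [Nat.card_fun, Nat.card_eq_fintype_card, Nat.card_eq_fintype_card]
        push_cast
        congr 1
        rw [Fintype.card_subtype_compl, Fintype.card_fin]
        simp
    rw [Finset.sum_congr rfl fun i _ => h2 i, Finset.sum_const, Finset.card_univ,
      Fintype.card_fin, nsmul_eq_mul]

end Pool.Agent.TH268.PD
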