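import Pool.Agent.TH268.PD.Defs

/-!
# The iteration
-/

set_option autoImplicit false

namespace Pool.Agent.TH268.PD

open Finset Equiv

variable {V : Type} [Fintype V] [DecidableEq V]

theorem TT_mono {F G : Perm V → ℝ} (h : ∀ g, F g ≤ G g) (g : Perm V) : TT F g ≤ TT G g := by
  unfold TT
  refine div_le_div_of_nonneg_right ?_ (by positivity)
  exact Finset.sum_le_sum fun a _ => Finset.sum_le_sum fun b _ => h _

theorem QQ_mono {F G : Perm V → ℝ} (h : ∀ g, F g ≤ G g) (g : Perm V) : QQ F g ≤ QQ G g := by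
  unfold QQ
  have h1 := TT_mono h g
  have h2 := TT_mono (TT_mono h) g
  linarith

theorem TT_add (F G : Perm V → ℝ) : TT (fun g => F g + G g) = fun g => TT F g + TT G g := by
  funext g
  unfold TT
  simp only [Finset.sum_add_distrib, add_div]

theorem TT_smul (c : ℝ) (F : Perm V → ℝ) : TT (fun g => c * F g) = fun g => c * TT F g := by
  funext g
  unfold TT
  simp only [← Finset.mul_sum, mul_div_assoc]

theorem QQ_add (F G : Perm V → ℝ) : QQ (fun g => F g + G g) = fun g => QQ F g + QQ G g := by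
  funext g
  unfold QQ
  rw [TT_add, TT_add]
  ring

theorem QQ_smul (c : ℝ) (F : Perm V → ℝ) : QQ (fun g => c * F g) = fun g => c * QQ F g := by
  funext g
  unfold QQ
  rw [TT_smul, TT_smul]
  ring

theorem TT_const [Nonempty V] (c : ℝ) : TT (fun _ : Perm V => c) = fun _ => c := by
  funext g
  unfold TT
  have h : (Fintype.card V : ℝ) ≠ 0 := by exact_mod_cast Fintype.card_ne_zero
  simp only [Finset.sum_const, Finset.card_univ, nsmul_eq_mul]
  field_simp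

theorem QQ_const [Nonempty V] (c : ℝ) : QQ (fun _ : Perm V => c) = fun _ => c := by
  funext g
  unfold QQ
  rw [TT_const, TT_const]
  ring

theorem TT_nonneg {F : Perm V → ℝ} (h : ∀ g, 0 ≤ F g) (g : Perm V) : 0 ≤ TT F g := by
  unfold TT
  exact div_nonneg (Finset.sum_nonneg fun a _ => Finset.sum_nonneg fun b _ => h _)
    (by positivity)

theorem QQ_nonneg {F : Perm V → ℝ} (h : ∀ g, 0 ≤ F g) (g : Perm V) : 0 ≤ QQ F g := by
  unfold QQ
  have h1 := TT_nonneg h g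
  have h2 := TT_nonneg (TT_nonneg h) g
  linarith

theorem abs_TT_le (F : Perm V → ℝ) (g : Perm V) : |TT F g| ≤ TT (fun g => |F g|) g := by
  unfold TT
  rw [abs_div, abs_of_nonneg (show (0 : ℝ) ≤ (Fintype.card V : ℝ) ^ 2 by positivity)]
  refine div_le_div_of_nonneg_right ?_ (by positivity)
  refine (Finset.abs_sum_le_sum_abs _ _).trans ?_
  exact Finset.sum_le_sum fun a _ => Finset.abs_sum_le_sum_abs _ _

theorem abs_QQ_le (F : Perm V → ℝ) (g : Perm V) : |QQ F g| ≤ QQ (fun g => |F g|) g := by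
  unfold QQ
  rw [abs_div, abs_of_nonneg (show (0 : ℝ) ≤ 2 by norm_num)]
  refine div_le_div_of_nonneg_right ?_ (by norm_num)
  refine (abs_add_le _ _).trans ?_
  refine add_le_add (abs_TT_le F g) ?_
  exact (abs_TT_le _ g).trans (TT_mono (fun g => abs_TT_le F g) g)

theorem TT_conj {B : Finset V} {F : Perm V → ℝ}
    (hF : ∀ w g : Perm V, (∀ v ∈ B, w v = v) → F (w * g * w⁻¹) = F g) (w g : Perm V)
    (hw : ∀ v ∈ B, w v = v) : TT F (w * g * w⁻¹) = TT F g := by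
  unfold TT
  congr 1
  rw [← Equiv.sum_comp w]
  refine Finset.sum_congr rfl fun a _ => ?_
  rw [← Equiv.sum_comp w]
  refine Finset.sum_congr rfl fun b _ => ?_
  have h1 : w * g * w⁻¹ * swap (w a) (w b) = w * (g * swap a b) * w⁻¹ := by
    rw [swap_apply_apply]
    group
  rw [h1, hF w _ hw]

theorem TT_anti {x y : V} {F : Perm V → ℝ} (hF : ∀ g : Perm V, F (swap x y * g) = - F g)
    (g : Perm V) : TT F (swap x y * g) = - TT F g := by
  unfold TT
  rw [← neg_div]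
  congr 1
  rw [← Finset.sum_neg_distrib]
  refine Finset.sum_congr rfl fun a _ => ?_
  rw [← Finset.sum_neg_distrib]
  refine Finset.sum_congr rfl fun b _ => ?_
  rw [mul_assoc, hF]

theorem Cls.tt {B : Finset V} {x y : V} {F : Perm V → ℝ} (h : Cls B x y F) :
    Cls B x y (TT F) := ⟨fun w g hw => TT_conj h.conj w g hw, fun g => TT_anti h.anti g⟩

theorem Cls.qq {B : Finset V} {x y : V} {F : Perm V → ℝ} (h : Cls B x y F) :
    Cls B x y (QQ F) := by
  refine ⟨fun w g hw => ?_, fun g => ?_⟩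
  · unfold QQ
    rw [h.tt.conj w g hw, h.tt.tt.conj w g hw]
  · unfold QQ
    rw [h.tt.anti, h.tt.tt.anti]
    ring

theorem Cls.iter {B : Finset V} {x y : V} {F : Perm V → ℝ} (h : Cls B x y F) (n : ℕ) :
    Cls B x y (QQ^[n] F) := by
  induction n with
  | zero => exact h
  | succ n ih =>
    rw [Function.iterate_succ_apply']
    exact ih.qq

/-- the upper bounds of the iterates -/
noncomputable def UU (κ τ : ℝ) (b : Perm V → ℝ) : ℕ → Perm V → ℝ
  | 0 => fun _ => 1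
  | n + 1 => fun g => QQ (UU κ τ b n) g - κ * (1 - κ) ^ n + κ * (1 - κ) ^ n * b g + τ

theorem UU_lower [Nonempty V] {κ τ : ℝ} {b : Perm V → ℝ} (hκ : 0 ≤ κ) (hκ1 : κ ≤ 1)
    (hb : ∀ g, 0 ≤ b g) (n : ℕ) (g : Perm V) : (1 - κ) ^ n + n * τ ≤ UU κ τ b n g := by
  induction n generalizing g with
  | zero => simp [UU]
  | succ n ih =>
    have h1 := QQ_mono (F := fun _ => (1 - κ) ^ n + n * τ) (fun g => ih g) g
    rw [QQ_const] at h1
    have h2 : 0 ≤ κ * (1 - κ) ^ n * b g := by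
      have : 0 ≤ 1 - κ := by linarith
      have := hb g
      positivity
    simp only [UU]
    push_cast
    rw [pow_succ]
    nlinarith

theorem UU_upper [Nonempty V] {κ τ : ℝ} {b : Perm V → ℝ} (hκ : 0 ≤ κ) (hκ1 : κ ≤ 1)
    (hb : ∀ g, b g ≤ 1) (n : ℕ) (g : Perm V) : UU κ τ b n g ≤ 1 + n * τ := by
  induction n generalizing g with
  | zero => simp [UU]
  | succ n ih =>
    have h1 := QQ_mono (G := fun _ => 1 + n * τ) (fun g => ih g) g
    rw [QQ_const] at h1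
    have h2 : κ * (1 - κ) ^ n * b g ≤ κ * (1 - κ) ^ n * 1 := by
      have : 0 ≤ 1 - κ := by linarith
      exact mul_le_mul_of_nonneg_left (hb g) (by positivity)
    simp only [UU]
    push_cast
    linarith

/-- the pointwise bound of the iterates -/
theorem iter_bound [Nonempty V] {B : Finset V} {x y : V} (F : Perm V → ℝ) (h : Cls B x y F)
    (h1 : ∀ g, |F g| ≤ 1) {κ τ : ℝ} (hκ : 0 ≤ κ) (hκ1 : κ ≤ 1) (hτ : 0 ≤ τ) {b : Perm V → ℝ}
    (hb : ∀ g, 0 ≤ b g) (D G : Perm V → Prop) (hcase : ∀ g, D g ∨ b g = 1 ∨ G g)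
    (hdust : ∀ (n : ℕ) (g : Perm V), D g → |(QQ^[n] F) g| ≤ n * τ)
    (hcontr : ∀ H : Perm V → ℝ, Cls B x y H → ∀ g, G g → ∀ (U : Perm V → ℝ) (c : ℝ), 0 ≤ c →
      (∀ g, |H g| ≤ U g) → (∀ g, c ≤ U g) → |QQ H g| ≤ QQ U g - c * κ) (n : ℕ) (g : Perm V) :
    |(QQ^[n] F) g| ≤ UU κ τ b n g := by
  induction n generalizing g with
  | zero => exact h1 g
  | succ n ih =>
    have h0 : 0 ≤ 1 - κ := by linarith
    have hp : 0 ≤ κ * (1 - κ) ^ n := by positivity
    rcases hcase g with hD | hb1 | hG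
    · refine (hdust (n + 1) g hD).trans (le_trans ?_ (UU_lower (τ := τ) hκ hκ1 hb (n + 1) g))
      have : 0 ≤ (1 - κ) ^ (n + 1) := by positivity
      linarith
    · rw [Function.iterate_succ_apply']
      have h3 := (abs_QQ_le (QQ^[n] F) g).trans (QQ_mono ih g)
      simp only [UU]
      rw [hb1]
      linarith
    · rw [Function.iterate_succ_apply']
      have h3 := hcontr _ (h.iter n) g hG (UU κ τ b n) ((1 - κ) ^ n) (by positivity) ih
        (fun g => by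
          have h4 := UU_lower (τ := τ) hκ hκ1 hb n g
          have h5 : 0 ≤ (n : ℝ) * τ := by positivity
          linarith)
      simp only [UU]
      have h6 : 0 ≤ κ * (1 - κ) ^ n * b g := mul_nonneg hp (hb g)
      linarith

section expect

variable (μ : Perm V → ℝ) (ε : ℝ)

theorem E_QQ (hε : ∀ (F : Perm V → ℝ) (K : ℝ), (∀ g, |F g| ≤ K) →
      |∑ g, μ g * TT F g - ∑ g, μ g * F g| ≤ K * ε) (F : Perm V → ℝ) (K : ℝ) [Nonempty V]
    (hF : ∀ g, |F g| ≤ K) : |∑ g, μ g * QQ F g - ∑ g, μ g * F g| ≤ 3 / 2 * (K * ε) := by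
  have h1 := hε F K hF
  have hT : ∀ g, |TT F g| ≤ K := by
    intro g
    refine (abs_TT_le F g).trans ?_
    refine (TT_mono (G := fun _ => K) hF g).trans (le_of_eq ?_)
    rw [TT_const]
  have h2 := hε (TT F) K hT
  have h3 : ∑ g, μ g * QQ F g = (∑ g, μ g * TT F g + ∑ g, μ g * TT (TT F) g) / 2 := by
    rw [← Finset.sum_add_distrib, Finset.sum_div]
    exact Finset.sum_congr rfl fun g _ => by unfold QQ; ring
  rw [h3, abs_le]
  rw [abs_le] at h1 h2
  constructor <;> linarith [h1.1, h1.2, h2.1, h2.2]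

theorem E_UU [Nonempty V] (hμ : ∀ g, 0 ≤ μ g) (hμ1 : ∑ g, μ g = 1)
    (hε : ∀ (F : Perm V → ℝ) (K : ℝ), (∀ g, |F g| ≤ K) →
      |∑ g, μ g * TT F g - ∑ g, μ g * F g| ≤ K * ε)
    {κ τ : ℝ} (hκ : 0 ≤ κ) (hκ1 : κ ≤ 1) (hτ : 0 ≤ τ) (hε0 : 0 ≤ ε) {b : Perm V → ℝ}
    (hb : ∀ g, 0 ≤ b g) (hb1 : ∀ g, b g ≤ 1) (n : ℕ) :
    ∑ g, μ g * UU κ τ b n g ≤ (1 - κ) ^ n + (1 - (1 - κ) ^ n) * ∑ g, μ g * b g + n * τ +
      3 / 2 * (n * (1 + n * τ) * ε) := by
  induction n with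
  | zero => simp [UU, hμ1]
  | succ n ih =>
    have h0 : 0 ≤ 1 - κ := by linarith
    have hn0 : (0 : ℝ) ≤ n := by positivity
    have h1 := E_QQ μ ε hε (UU κ τ b n) (1 + n * τ) (fun g => by
      rw [abs_of_nonneg]
      · exact UU_upper hκ hκ1 hb1 n g
      · refine le_trans ?_ (UU_lower (τ := τ) hκ hκ1 hb n g)
        positivity)
    have h2 : ∑ g, μ g * UU κ τ b (n + 1) g = ∑ g, μ g * QQ (UU κ τ b n) g -
        κ * (1 - κ) ^ n + κ * (1 - κ) ^ n * (∑ g, μ g * b g) + τ := by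
      have e1 : ∀ g, μ g * UU κ τ b (n + 1) g = μ g * QQ (UU κ τ b n) g -
          (κ * (1 - κ) ^ n) * μ g + κ * (1 - κ) ^ n * (μ g * b g) + τ * μ g := by
        intro g
        simp only [UU]
        ring
      rw [Finset.sum_congr rfl fun g _ => e1 g, Finset.sum_add_distrib, Finset.sum_add_distrib,
        Finset.sum_sub_distrib, ← Finset.mul_sum, ← Finset.mul_sum, ← Finset.mul_sum, hμ1]
      ring
    have h3 := (abs_le.1 h1).2
    rw [h2]
    have h4 : 3 / 2 * ((1 + (n : ℝ) * τ) * ε) + 3 / 2 * (n * (1 + n * τ) * ε) ≤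
        3 / 2 * ((n + 1) * (1 + (n + 1) * τ) * ε) := by
      have h5 : 0 ≤ τ * ε := mul_nonneg hτ hε0
      nlinarith [mul_nonneg hn0 h5]
    push_cast
    rw [pow_succ]
    nlinarith

theorem E_iter [Nonempty V] (hε : ∀ (F : Perm V → ℝ) (K : ℝ), (∀ g, |F g| ≤ K) →
      |∑ g, μ g * TT F g - ∑ g, μ g * F g| ≤ K * ε) (F : Perm V → ℝ)
    (hF : ∀ g, |F g| ≤ 1) (n : ℕ) :
    |∑ g, μ g * (QQ^[n] F) g - ∑ g, μ g * F g| ≤ 3 / 2 * (n * ε) := by
  have hb : ∀ (n : ℕ) (g : Perm V), |(QQ^[n] F) g| ≤ 1 := by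
    intro n
    induction n with
    | zero => exact hF
    | succ n ih =>
      intro g
      rw [Function.iterate_succ_apply']
      refine (abs_QQ_le _ g).trans ((QQ_mono (G := fun _ => 1) ih g).trans (le_of_eq ?_))
      rw [QQ_const]
  induction n with
  | zero => simp
  | succ n ih =>
    have h1 := E_QQ μ ε hε (QQ^[n] F) 1 (hb n)
    rw [Function.iterate_succ_apply']
    have h2 := abs_sub_le (∑ g, μ g * QQ (QQ^[n] F) g) (∑ g, μ g * (QQ^[n] F) g)
      (∑ g, μ g * F g)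
    push_cast
    linarith

/-- The main estimate. -/
theorem main_iter [Nonempty V] (hμ : ∀ g, 0 ≤ μ g) (hμ1 : ∑ g, μ g = 1)
    (hε : ∀ (F : Perm V → ℝ) (K : ℝ), (∀ g, |F g| ≤ K) →
      |∑ g, μ g * TT F g - ∑ g, μ g * F g| ≤ K * ε) (hε0 : 0 ≤ ε)
    {B : Finset V} {x y : V} (F : Perm V → ℝ) (h : Cls B x y F)
    (h1 : ∀ g, |F g| ≤ 1) {κ τ : ℝ} (hκ : 0 ≤ κ) (hκ1 : κ ≤ 1) (hτ : 0 ≤ τ) {b : Perm V → ℝ}
    (hb : ∀ g, 0 ≤ b g) (hb1 : ∀ g, b g ≤ 1) (D G : Perm V → Prop)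
    (hcase : ∀ g, D g ∨ b g = 1 ∨ G g)
    (hdust : ∀ (n : ℕ) (g : Perm V), D g → |(QQ^[n] F) g| ≤ n * τ)
    (hcontr : ∀ H : Perm V → ℝ, Cls B x y H → ∀ g, G g → ∀ (U : Perm V → ℝ) (c : ℝ), 0 ≤ c →
      (∀ g, |H g| ≤ U g) → (∀ g, c ≤ U g) → |QQ H g| ≤ QQ U g - c * κ) (n : ℕ) :
    |∑ g, μ g * F g| ≤ (1 - κ) ^ n + ∑ g, μ g * b g + n * τ + 3 * (n * (1 + n * τ) * ε) := by
  have hn0 : (0 : ℝ) ≤ n := by positivity
  have h2 := E_iter μ ε hε F h1 n
  have h3 : |∑ g, μ g * (QQ^[n] F) g| ≤ ∑ g, μ g * UU κ τ b n g := by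
    refine (Finset.abs_sum_le_sum_abs _ _).trans (Finset.sum_le_sum fun g _ => ?_)
    rw [abs_mul, abs_of_nonneg (hμ g)]
    exact mul_le_mul_of_nonneg_left
      (iter_bound F h h1 hκ hκ1 hτ hb D G hcase hdust hcontr n g) (hμ g)
  have h4 := E_UU μ ε hμ hμ1 hε hκ hκ1 hτ hε0 hb hb1 n
  have h5 : 0 ≤ ∑ g, μ g * b g := Finset.sum_nonneg fun g _ => mul_nonneg (hμ g) (hb g)
  have h6 : (1 - (1 - κ) ^ n) * ∑ g, μ g * b g ≤ ∑ g, μ g * b g := by
    have : 0 ≤ (1 - κ) ^ n := pow_nonneg (by linarith) n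
    nlinarith
  have h7 : |∑ g, μ g * F g| ≤ |∑ g, μ g * (QQ^[n] F) g| +
      |∑ g, μ g * (QQ^[n] F) g - ∑ g, μ g * F g| := by
    have := abs_sub_abs_le_abs_sub (∑ g, μ g * F g) (∑ g, μ g * (QQ^[n] F) g)
    rw [abs_sub_comm] at this
    linarith
  have h8 : (n : ℝ) * ε ≤ n * (1 + n * τ) * ε := by
    have : 0 ≤ (n : ℝ) * τ := by positivity
    nlinarith [mul_nonneg (mul_nonneg hn0 this) hε0]
  linarith

end expect

end Pool.Agent.TH268.PD
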