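import Pool.Agent.TH268.PD.Defs

set_option autoImplicit false
set_option linter.unusedSectionVars false

/-!
A transposition changes the number of points in long cycles by at most `2 s` (helper147, job 3822).
-/

namespace Pool.Agent.TH268.PD

open Finset Equiv
open Pool.Agent.W805.LR (len cnt)

variable {V : Type} [Fintype V] [DecidableEq V]

namespace MassSwap

lemma cnt_mono {P Q : V → Prop} (h : ∀ v, P v → Q v) : cnt P ≤ cnt Q := by
  classical
  unfold cnt
  refine sum_le_sum fun v _ => ?_
  by_cases hP : P v
  · rw [if_pos hP, if_pos (h v hP)]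
  · rw [if_neg hP]
    split_ifs <;> norm_num

lemma cnt_or (P Q : V → Prop) : cnt (fun v => P v ∨ Q v) ≤ cnt P + cnt Q := by
  classical
  unfold cnt
  rw [← sum_add_distrib]
  refine sum_le_sum fun v _ => ?_
  by_cases hP : P v <;> by_cases hQ : Q v <;> simp [hP, hQ]

lemma cnt_false {P : V → Prop} (h : ∀ v, ¬ P v) : cnt P = 0 := by
  classical
  unfold cnt
  exact sum_eq_zero fun v _ => if_neg (h v)

lemma len_congr {g : Perm V} {v w : V} (h : g.SameCycle v w) : len g v = len g w := by
  unfold len
  congr 1
  funext u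
  exact propext ⟨fun h1 => h.symm.trans h1, fun h1 => h.trans h1⟩

/-- away from the cycles of `a` and `b` nothing changes -/
lemma len_eq (g : Perm V) (a b v : V) (ha : ¬ (g * swap a b).SameCycle a v)
    (hb : ¬ (g * swap a b).SameCycle b v) : len g v = len (g * swap a b) v := by
  have hpow : ∀ n : ℕ, (g ^ n) v = ((g * swap a b) ^ n) v := by
    intro n
    induction n with
    | zero => rfl
    | succ n ih =>
      rw [pow_succ', pow_succ', Perm.mul_apply, Perm.mul_apply, ih]
      have h1 : ((g * swap a b) ^ n) v ≠ a := by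
        intro h
        have h3 : (g * swap a b).SameCycle v a := ⟨n, by rw [zpow_natCast]; exact h⟩
        exact ha h3.symm
      have h2 : ((g * swap a b) ^ n) v ≠ b := by
        intro h
        have h3 : (g * swap a b).SameCycle v b := ⟨n, by rw [zpow_natCast]; exact h⟩
        exact hb h3.symm
      rw [Perm.mul_apply, swap_apply_of_ne_of_ne h1 h2]
  unfold len
  congr 1
  funext u
  apply propext
  constructor
  · intro h
    obtain ⟨n, hn⟩ := h.exists_nat_pow_eq
    refine ⟨n, ?_⟩
    rw [zpow_natCast, ← hpow]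
    exact hn
  · intro h
    obtain ⟨n, hn⟩ := h.exists_nat_pow_eq
    refine ⟨n, ?_⟩
    rw [zpow_natCast, hpow]
    exact hn

lemma cyc_le (g : Perm V) (a : V) (s : ℝ) (hs : 0 ≤ s) :
    cnt (fun v => g.SameCycle a v ∧ len g a < s) ≤ s := by
  by_cases h : len g a < s
  · refine le_trans (cnt_mono (Q := fun v => g.SameCycle a v) fun v hv => hv.1) ?_
    exact h.le
  · rw [cnt_false fun v hv => h hv.2]
    exact hs

lemma half (g : Perm V) (a b : V) (s : ℝ) (hs : 0 ≤ s) :
    cnt (fun v => s ≤ len g v ∧ len (g * swap a b) v < s) ≤ 2 * s := by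
  have h1 := cyc_le (g * swap a b) a s hs
  have h2 := cyc_le (g * swap a b) b s hs
  refine le_trans (cnt_mono (Q := fun v => ((g * swap a b).SameCycle a v ∧
    len (g * swap a b) a < s) ∨ ((g * swap a b).SameCycle b v ∧ len (g * swap a b) b < s))
    fun v hv => ?_) ((cnt_or _ _).trans (by linarith))
  by_cases ha : (g * swap a b).SameCycle a v
  · left
    exact ⟨ha, by rw [len_congr ha]; exact hv.2⟩
  by_cases hb : (g * swap a b).SameCycle b v
  · right
    exact ⟨hb, by rw [len_congr hb]; exact hv.2⟩
  exact absurd hv.2 (by rw [← len_eq g a b v ha hb]; exact not_lt.2 hv.1)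

lemma cnt_le (P Q : V → Prop) : cnt P ≤ cnt Q + cnt (fun v => P v ∧ ¬ Q v) := by
  refine le_trans (cnt_mono (Q := fun v => Q v ∨ (P v ∧ ¬ Q v)) fun v hv => ?_) (cnt_or _ _)
  by_cases h : Q v
  · exact Or.inl h
  · exact Or.inr ⟨hv, h⟩

end MassSwap

open MassSwap in
/-- a transposition changes the number of points in cycles of length at least `s` by at most `2 s` -/
theorem mass_swap (g : Perm V) (a b : V) (s : ℝ) (hs : 0 ≤ s) :
    |(cnt fun v => s ≤ len (g * swap a b) v) - cnt fun v => s ≤ len g v| ≤ 2 * s := by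
  have h1 := half g a b s hs
  have h2 := half (g * swap a b) a b s hs
  rw [mul_assoc, swap_mul_self, mul_one] at h2
  have h3 := cnt_le (fun v => s ≤ len (g * swap a b) v) (fun v => s ≤ len g v)
  have h4 := cnt_le (fun v => s ≤ len g v) (fun v => s ≤ len (g * swap a b) v)
  simp only [not_le] at h3 h4
  rw [abs_le]
  constructor <;> linarith

end Pool.Agent.TH268.PD
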