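import Mathlib

/-!
# Ordered values
-/

set_option autoImplicit false

namespace Pool.Agent.TH268.PD

open Equiv

/-- the `i`-th largest value (from `i = 0` on) of `u`, and `0` if there are fewer values -/
noncomputable def top {Γ : Type} (u : Γ → ℝ) (i : ℕ) : ℝ :=
  sSup {x : ℝ | i + 1 ≤ Nat.card {γ : Γ // x ≤ u γ}}

/-- the cycles of a permutation -/
abbrev Cyc {W : Type} (h : Perm W) : Type := Quotient (Perm.SameCycle.setoid h)

/-- the cycle of a point -/
def cyOf {W : Type} (h : Perm W) (w : W) : Cyc h := Quotient.mk (Perm.SameCycle.setoid h) w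

/-- the lengths of the cycles divided by the number of points -/
noncomputable def frac {W : Type} [Fintype W] (h : Perm W) (γ : Cyc h) : ℝ :=
  (Nat.card {w : W // cyOf h w = γ} : ℝ) / Fintype.card W

end Pool.Agent.TH268.PD
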