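import Pool.Agent.TH268.PD.MF
import Pool.Agent.TH268.PD.Top
import Pool.Agent.TH268.PD.Iter
import Pool.Agent.TH268.PD.MassSwap

set_option autoImplicit false

/-!
# Counting cycles under random transpositions (job 4313)
-/

namespace Pool.Agent.TH268.PD

open Finset Equiv
open Pool.Agent.W805.LR (len cnt)

variable {V : Type} [Fintype V] [DecidableEq V]

namespace Count

omit [Fintype V] [DecidableEq V] in
lemma cyOf_eq {h : Perm V} {x y : V} : cyOf h x = cyOf h y ↔ h.SameCycle x y := by
  unfold cyOf
  rw [Quotient.eq]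
  rfl

omit [Fintype V] in
/-- if `a`, `b` are in different cycles they are joined -/
lemma joined [Finite V] (h : Perm V) (a b : V) (hab : ¬ h.SameCycle a b) :
    (h * swap a b).SameCycle a b := by
  classical
  have hex : ∃ k : ℕ, 0 < k ∧ (h ^ k) b = b := by
    refine ⟨orderOf h, orderOf_pos h, ?_⟩
    rw [pow_orderOf_eq_one]
    rfl
  have hk := Nat.find_spec hex
  have hmin : ∀ j : ℕ, 0 < j → j < Nat.find hex → (h ^ j) b ≠ b := by
    intro j h1 h2 h3
    exact Nat.find_min hex h2 ⟨h1, h3⟩
  have hne : ∀ j : ℕ, (h ^ j) b ≠ a := by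
    intro j hj
    apply hab
    have h1 : h.SameCycle b a := ⟨j, by rw [zpow_natCast]; exact hj⟩
    exact h1.symm
  have key : ∀ j : ℕ, j + 1 ≤ Nat.find hex → ((h * swap a b) ^ (j + 1)) a = (h ^ (j + 1)) b := by
    intro j
    induction j with
    | zero =>
      intro _
      rw [zero_add, pow_one, pow_one, Perm.mul_apply, swap_apply_left]
    | succ j ih =>
      intro hj
      rw [pow_succ' _ (j + 1), Perm.mul_apply, ih (by omega), Perm.mul_apply,
        swap_apply_of_ne_of_ne (hne _) (hmin _ (by omega) (by omega)), pow_succ' _ (j + 1),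
        Perm.mul_apply]
  obtain ⟨j, hj⟩ : ∃ j, Nat.find hex = j + 1 := ⟨Nat.find hex - 1, by omega⟩
  refine ⟨((j + 1 : ℕ) : ℤ), ?_⟩
  rw [zpow_natCast, key j hj.ge, ← hj]
  exact hk.2

open Classical in
/-- the class of a point, the class of `a` is replaced by the class of `b` -/
noncomputable def cl (h' : Perm V) (a b x : V) : Cyc h' :=
  if h'.SameCycle x a then cyOf h' b else cyOf h' x

lemma cl_step (h : Perm V) (a b x : V) :
    cl (h * swap a b) a b (h x) = cl (h * swap a b) a b x := by
  set h' := h * swap a b with hh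
  have hx : h x = h' (swap a b x) := by
    rw [hh, Perm.mul_apply, swap_apply_self]
  have h1 : h'.SameCycle (h x) (swap a b x) := by
    rw [hx]
    exact (Perm.sameCycle_apply_left).2 (Perm.SameCycle.refl _ _)
  have h2 : cl h' a b (h x) = cl h' a b (swap a b x) := by
    unfold cl
    have h3 : h'.SameCycle (h x) a ↔ h'.SameCycle (swap a b x) a :=
      ⟨fun h4 => h1.symm.trans h4, fun h4 => h1.trans h4⟩
    simp only [h3]
    rw [cyOf_eq.2 h1]
  rw [h2]
  by_cases hxa : x = a
  · subst hxa
    rw [swap_apply_left]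
    unfold cl
    rw [if_pos (Perm.SameCycle.refl h' x)]
    split_ifs <;> rfl
  by_cases hxb : x = b
  · subst hxb
    rw [swap_apply_right]
    unfold cl
    rw [if_pos (Perm.SameCycle.refl h' a)]
    split_ifs <;> rfl
  rw [swap_apply_of_ne_of_ne hxa hxb]

lemma cl_congr (h : Perm V) (a b : V) {x y : V} (hxy : h.SameCycle x y) :
    cl (h * swap a b) a b x = cl (h * swap a b) a b y := by
  obtain ⟨n, hn⟩ := hxy.exists_nat_pow_eq
  rw [← hn]
  clear hn
  induction n with
  | zero => rfl
  | succ n ih => rw [ih, pow_succ', Perm.mul_apply, cl_step]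

/-- the number of cycles which contain a point of `A` -/
noncomputable def DD (A : Finset V) (h : Perm V) : ℕ := by
  classical exact (A.image (cyOf h)).card

open Classical in
lemma image_cl (A : Finset V) (h : Perm V) (a b : V) :
    A.image (cl (h * swap a b) a b) = (A.image (cyOf h)).image
      (Quotient.lift (cl (h * swap a b) a b) fun _ _ hxy => cl_congr h a b hxy) := by
  rw [Finset.image_image]
  rfl

lemma DD_le (A : Finset V) (h : Perm V) (a b : V) : DD A (h * swap a b) ≤ DD A h + 1 := by
  classical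
  have h1 : A.image (cyOf (h * swap a b)) ⊆
      insert (cyOf (h * swap a b) a) (A.image (cl (h * swap a b) a b)) := by
    intro c hc
    obtain ⟨v, hv, rfl⟩ := Finset.mem_image.1 hc
    by_cases hva : (h * swap a b).SameCycle v a
    · rw [cyOf_eq.2 hva]
      exact Finset.mem_insert_self _ _
    · refine Finset.mem_insert_of_mem (Finset.mem_image.2 ⟨v, hv, ?_⟩)
      unfold cl
      rw [if_neg hva]
  have h2 : (A.image (cl (h * swap a b) a b)).card ≤ (A.image (cyOf h)).card := by
    rw [image_cl]
    exact Finset.card_image_le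
  have h3 := (Finset.card_le_card h1).trans (Finset.card_insert_le _ _)
  unfold DD
  omega

lemma DD_merge (A : Finset V) (h : Perm V) (a b : V) (hab : ¬ h.SameCycle a b) :
    DD A (h * swap a b) + (if a ∈ A ∧ b ∈ A then 1 else 0) ≤ DD A h := by
  classical
  have hj := joined h a b hab
  have h1 : cl (h * swap a b) a b = cyOf (h * swap a b) := by
    funext x
    unfold cl
    split_ifs with hx
    · exact cyOf_eq.2 (hj.symm.trans hx.symm)
    · rfl
  have h2 : DD A (h * swap a b) = (A.image (cl (h * swap a b) a b)).card := by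
    rw [h1]; rfl
  rw [h2, image_cl]
  split_ifs with hA
  · have h3 : (A.image (cyOf h)).image
        (Quotient.lift (cl (h * swap a b) a b) fun _ _ hxy => cl_congr h a b hxy) ⊆
        ((A.image (cyOf h)).erase (cyOf h a)).image
        (Quotient.lift (cl (h * swap a b) a b) fun _ _ hxy => cl_congr h a b hxy) := by
      intro c hc
      obtain ⟨d, hd, rfl⟩ := Finset.mem_image.1 hc
      by_cases hda : d = cyOf h a
      · refine Finset.mem_image.2 ⟨cyOf h b, ?_, ?_⟩
        · rw [Finset.mem_erase]
          refine ⟨fun he => hab (cyOf_eq.1 he).symm, Finset.mem_image_of_mem _ hA.2⟩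
        · rw [hda]
          change cl (h * swap a b) a b b = cl (h * swap a b) a b a
          rw [h1]
          exact cyOf_eq.2 hj.symm
      · exact Finset.mem_image_of_mem _ (Finset.mem_erase.2 ⟨hda, hd⟩)
    have h4 := (Finset.card_le_card h3).trans Finset.card_image_le
    have h5 : cyOf h a ∈ A.image (cyOf h) := Finset.mem_image_of_mem _ hA.1
    rw [Finset.card_erase_of_mem h5] at h4
    have h6 : 0 < (A.image (cyOf h)).card := Finset.card_pos.2 ⟨_, h5⟩
    unfold DD
    omega
  · rw [add_zero]
    exact Finset.card_image_le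

open Classical in
lemma DD_swap (A : Finset V) (h : Perm V) (a b : V) :
    (DD A (h * swap a b) : ℝ) ≤ DD A h + 2 * (if h.SameCycle a b then (1 : ℝ) else 0) -
      (if a ∈ A then (1 : ℝ) else 0) * (if b ∈ A then (1 : ℝ) else 0) := by
  have h0 : (if a ∈ A then (1 : ℝ) else 0) * (if b ∈ A then (1 : ℝ) else 0) =
      (((if a ∈ A ∧ b ∈ A then 1 else 0 : ℕ)) : ℝ) := by
    by_cases ha : a ∈ A <;> by_cases hb : b ∈ A <;> simp [ha, hb]
  rw [h0]
  by_cases hs : h.SameCycle a b
  · rw [if_pos hs]
    have h1 : (DD A (h * swap a b) : ℝ) ≤ DD A h + 1 := by exact_mod_cast DD_le A h a b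
    have h2 : (((if a ∈ A ∧ b ∈ A then 1 else 0 : ℕ)) : ℝ) ≤ 1 := by
      split_ifs <;> simp
    linarith
  · rw [if_neg hs]
    have h1 : ((DD A (h * swap a b) : ℝ)) + (((if a ∈ A ∧ b ∈ A then 1 else 0 : ℕ)) : ℝ) ≤
        DD A h := by exact_mod_cast DD_merge A h a b hs
    linarith

lemma TT_DD [Nonempty V] (A : Finset V) (h : Perm V) :
    TT (fun h => (DD A h : ℝ)) h ≤ DD A h + 2 * same h -
      ((A.card : ℝ) / Fintype.card V) ^ 2 := by
  classical
  have hN : (0 : ℝ) < Fintype.card V := by exact_mod_cast Fintype.card_pos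
  have h1 : TT (fun h => (DD A h : ℝ)) h ≤ (∑ a, ∑ b, ((DD A h : ℝ) +
      2 * (if h.SameCycle a b then (1 : ℝ) else 0) -
      (if a ∈ A then (1 : ℝ) else 0) * (if b ∈ A then (1 : ℝ) else 0))) /
      (Fintype.card V : ℝ) ^ 2 := by
    unfold TT
    refine div_le_div_of_nonneg_right ?_ (by positivity)
    exact Finset.sum_le_sum fun a _ => Finset.sum_le_sum fun b _ => DD_swap A h a b
  refine h1.trans (le_of_eq ?_)
  have h2 : ∑ a : V, ∑ b : V, (if a ∈ A then (1 : ℝ) else 0) * (if b ∈ A then (1 : ℝ) else 0) =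
      (A.card : ℝ) ^ 2 := by
    have h3 : ∑ a : V, (if a ∈ A then (1 : ℝ) else 0) = A.card := by simp
    rw [← Finset.sum_mul_sum, h3, sq]
  have h4 : ∑ a : V, ∑ b : V, (if h.SameCycle a b then (1 : ℝ) else 0) = ∑ v, len h v := by
    refine Finset.sum_congr rfl fun a _ => ?_
    unfold len cnt
    refine Finset.sum_congr rfl fun b _ => ?_
    congr
  simp only [Finset.sum_sub_distrib, Finset.sum_add_distrib, ← Finset.mul_sum]
  rw [h4]
  have h5 : ∑ a : V, (if a ∈ A then (1 : ℝ) else 0) * ∑ b : V, (if b ∈ A then (1 : ℝ) else 0) =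
      (A.card : ℝ) ^ 2 := by
    rw [← h2]
    refine Finset.sum_congr rfl fun a _ => ?_
    rw [Finset.mul_sum]
  rw [h5]
  simp only [Finset.sum_const, Finset.card_univ, nsmul_eq_mul]
  unfold same
  field_simp

lemma iter_le [Nonempty V] (c : ℝ) (n : ℕ) : ∀ (F G H : Perm V → ℝ),
    (∀ h, H h ≤ F h + 2 * G h - c) → ∀ g, (TT^[n] H) g ≤ (TT^[n] F) g + 2 * (TT^[n] G) g - c := by
  induction n with
  | zero => intro F G H h g; exact h g
  | succ n ih =>
    intro F G H h g
    rw [Function.iterate_succ_apply, Function.iterate_succ_apply, Function.iterate_succ_apply]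
    refine ih _ _ _ (fun h' => ?_) g
    refine (TT_mono h h').trans (le_of_eq ?_)
    have h1 : (fun h => F h + 2 * G h - c) = fun h => (fun h => F h + (fun h => 2 * G h) h) h +
        (fun _ => -c) h := by
      funext h
      ring
    rw [h1, TT_add, TT_const]
    simp only
    rw [TT_add, TT_smul]
    ring

lemma iter_bound [Nonempty V] (A : Finset V) (g : Perm V) (n : ℕ) :
    (TT^[n] (fun h => (DD A h : ℝ))) g ≤ DD A g + 2 * ∑ j ∈ range n, (TT^[j] same) g -
      n * ((A.card : ℝ) / Fintype.card V) ^ 2 := by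
  induction n with
  | zero => simp
  | succ n ih =>
    rw [Function.iterate_succ_apply]
    have h1 := iter_le (((A.card : ℝ) / Fintype.card V) ^ 2) n (fun h => (DD A h : ℝ)) same
      (TT (fun h => (DD A h : ℝ))) (TT_DD A) g
    rw [Finset.sum_range_succ]
    push_cast
    linarith

lemma iter_nonneg (n : ℕ) : ∀ F : Perm V → ℝ, (∀ h, 0 ≤ F h) → ∀ g, 0 ≤ (TT^[n] F) g := by
  induction n with
  | zero => intro F h g; exact h g
  | succ n ih =>
    intro F h g
    rw [Function.iterate_succ_apply]
    exact ih _ (TT_nonneg h) g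

lemma card_bound (g : Perm V) (K : ℝ) (A : Finset V) (hA : ∀ v, v ∈ A ↔ K ≤ len g v) :
    K * DD A g ≤ A.card := by
  classical
  have h1 := Finset.card_eq_sum_card_image (cyOf g) A
  have h2 : ∀ c ∈ A.image (cyOf g), K ≤ ((A.filter (fun v => cyOf g v = c)).card : ℝ) := by
    intro c hc
    obtain ⟨v, hv, rfl⟩ := Finset.mem_image.1 hc
    have h3 : ((A.filter (fun w => cyOf g w = cyOf g v)).card : ℝ) = len g v := by
      have h6 : len g v = ((univ.filter (fun w => g.SameCycle v w)).card : ℝ) := by
        rw [← Finset.sum_boole]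
        unfold len cnt
        refine Finset.sum_congr rfl fun w _ => ?_
        congr
      rw [h6]
      congr 2
      ext w
      simp only [mem_filter, mem_univ, true_and, cyOf_eq]
      constructor
      · rintro ⟨-, h4⟩
        exact h4.symm
      · intro h4
        refine ⟨?_, h4.symm⟩
        rw [hA, ← MassSwap.len_congr h4]
        exact (hA v).1 hv
    rw [h3]
    exact (hA v).1 hv
  have h5 : (A.card : ℝ) = ∑ c ∈ A.image (cyOf g), ((A.filter (fun v => cyOf g v = c)).card : ℝ) := by
    exact_mod_cast h1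
  rw [h5]
  unfold DD
  calc K * ((A.image (cyOf g)).card : ℝ) = ∑ c ∈ A.image (cyOf g), K := by
        rw [Finset.sum_const, nsmul_eq_mul, mul_comm]
    _ ≤ _ := Finset.sum_le_sum h2

end Count

/-- counting cycles: many points in long cycles force macroscopic cycles after a few
transpositions -/
theorem count_bound [Nonempty V] (g : Perm V) (K : ℝ) (hK : 0 < K) (n : ℕ) (hn : 0 < n) :
    mas K g ^ 2 ≤ 2 / n * ∑ j ∈ range n, (TT^[j] same) g + Fintype.card V / (K * n) := by
  classical
  set A : Finset V := univ.filter (fun v => K ≤ len g v) with hAdef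
  have hA : ∀ v, v ∈ A ↔ K ≤ len g v := by
    intro v
    rw [hAdef, mem_filter]
    simp
  have hn0 : (0 : ℝ) < n := by exact_mod_cast hn
  have hmas : mas K g = (A.card : ℝ) / Fintype.card V := by
    unfold mas cnt
    simp only [Finset.sum_boole]
    rw [hAdef]
  have h1 := Count.iter_bound A g n
  have h2 := Count.iter_nonneg (V := V) n (fun h => (Count.DD A h : ℝ)) (fun h => Nat.cast_nonneg _) g
  have h3 := Count.card_bound g K A hA
  have h4 : (A.card : ℝ) ≤ Fintype.card V := by exact_mod_cast Finset.card_le_univ A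
  have h5 : (Count.DD A g : ℝ) ≤ Fintype.card V / K := by
    rw [le_div_iff₀ hK]
    linarith
  rw [hmas]
  have h6 : (n : ℝ) * ((A.card : ℝ) / Fintype.card V) ^ 2 ≤
      Fintype.card V / K + 2 * ∑ j ∈ range n, (TT^[j] same) g := by linarith
  have h7 : 2 / (n : ℝ) * ∑ j ∈ range n, (TT^[j] same) g + Fintype.card V / (K * n) =
      (Fintype.card V / K + 2 * ∑ j ∈ range n, (TT^[j] same) g) / n := by
    field_simp
    ring
  rw [h7, le_div_iff₀ hn0]
  linarith

end Pool.Agent.TH268.PD
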