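import Pool.Agent.TH268.PD.Defs

/-!
# The contraction inequality
-/

set_option autoImplicit false

namespace Pool.Agent.TH268.PD

open Finset Equiv

variable {V : Type} [Fintype V] [DecidableEq V]

namespace Contr

/-- removing a part with weights at most one -/
lemma rem {α ι : Type} [Fintype α] [DecidableEq α] (I : Finset ι) (j : ι → α)
    (hj : Set.InjOn j I) (θ : ι → ℝ) (h1 : ∀ i ∈ I, θ i ≤ 1)
    (f u : α → ℝ) (hfu : ∀ a, |f a| ≤ u a) :
    |∑ a, f a - ∑ i ∈ I, θ i * f (j i)| ≤ ∑ a, u a - ∑ i ∈ I, θ i * u (j i) := by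
  have key : ∀ h : α → ℝ, ∑ a, h a - ∑ i ∈ I, θ i * h (j i) =
      ∑ a ∈ univ \ I.image j, h a + ∑ i ∈ I, (1 - θ i) * h (j i) := by
    intro h
    rw [← Finset.sum_sdiff (Finset.subset_univ (I.image j)), Finset.sum_image hj, add_sub_assoc,
      ← Finset.sum_sub_distrib]
    congr 1
    exact Finset.sum_congr rfl fun i _ => by ring
  rw [key f, key u]
  refine (abs_add_le _ _).trans (add_le_add ?_ ?_)
  · exact (Finset.abs_sum_le_sum_abs _ _).trans (Finset.sum_le_sum fun a _ => hfu a)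
  · refine (Finset.abs_sum_le_sum_abs _ _).trans (Finset.sum_le_sum fun i hi => ?_)
    have h2 : 0 ≤ 1 - θ i := by linarith [h1 i hi]
    rw [abs_mul, abs_of_nonneg h2]
    exact mul_le_mul_of_nonneg_left (hfu _) h2

omit [Fintype V] [DecidableEq V] in
lemma inj_one {B : Finset V} {x : V} (hx : x ∈ B) {g : Perm V} {m : ℕ} (h1 : Far B g x m)
    {p p' : ℕ} (hp : p < m) (hp' : p' < m) (h : (g⁻¹ ^ p) x = (g⁻¹ ^ p') x) :
    p = p' := by
  have key : ∀ p p' : ℕ, p < p' → p' < m → (g⁻¹ ^ p) x ≠ (g⁻¹ ^ p') x := by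
    intro p p' hpp hp'm he
    have e1 : p' = p + (p' - p) := by omega
    rw [e1, pow_add, Perm.mul_apply] at he
    have e2 := (g⁻¹ ^ p).injective he
    exact h1 (p' - p) (by omega) (by omega) (e2 ▸ hx)
  rcases lt_trichotomy p p' with hlt | heq | hgt
  · exact absurd h (key p p' hlt hp')
  · exact heq
  · exact absurd h.symm (key p' p hgt hp)

/-- the index set of the crossings -/
def I2 (m : ℕ) : Finset (Σ _ : ℕ, ℕ) := (Ico 1 (m - 1)).sigma (fun e => Ico 1 (m - e))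

/-- the index set of the loops -/
def I4 (m : ℕ) : Finset (Σ _ : ℕ, ℕ × ℕ × ℕ) :=
  (Ico 1 (m - 1)).sigma (fun e => Ico 1 (m - e) ×ˢ (range e ×ˢ Ico 1 m))

lemma mem_I2 {m : ℕ} {i : Σ _ : ℕ, ℕ} (hi : i ∈ I2 m) :
    1 ≤ i.1 ∧ i.1 + 1 < m ∧ 1 ≤ i.2 ∧ i.2 + i.1 < m := by
  unfold I2 at hi
  rw [Finset.mem_sigma, Finset.mem_Ico, Finset.mem_Ico] at hi
  omega

lemma mem_I4 {m : ℕ} {i : Σ _ : ℕ, ℕ × ℕ × ℕ} (hi : i ∈ I4 m) :
    1 ≤ i.1 ∧ i.1 + 1 < m ∧ 1 ≤ i.2.1 ∧ i.2.1 + i.1 < m ∧ i.2.2.1 < i.1 ∧ 1 ≤ i.2.2.2 ∧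
      i.2.2.2 < m := by
  unfold I4 at hi
  rw [Finset.mem_sigma, Finset.mem_Ico, Finset.mem_product, Finset.mem_product, Finset.mem_Ico,
    Finset.mem_range, Finset.mem_Ico] at hi
  omega

/-- the sum of the weights -/
noncomputable def KK (m : ℕ) (φ : ℕ → ℝ) : ℝ :=
  ∑ e ∈ Ico 1 (m - 1), ((m : ℝ) - 1 - e) * e * ((m : ℝ) - 1) * φ e

lemma sum_I2 (m : ℕ) (N : ℝ) (φ : ℕ → ℝ) :
    ∑ i ∈ I2 m, (i.1 : ℝ) * ((m : ℝ) - 1) / N ^ 2 * φ i.1 = KK m φ / N ^ 2 := by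
  unfold I2 KK
  rw [Finset.sum_sigma, Finset.sum_div]
  refine Finset.sum_congr rfl fun e he => ?_
  rw [Finset.mem_Ico] at he
  dsimp only
  rw [Finset.sum_const, Nat.card_Ico, nsmul_eq_mul]
  have h1 : ((m - e - 1 : ℕ) : ℝ) = (m : ℝ) - 1 - e := by
    rw [Nat.cast_sub (by omega), Nat.cast_sub (by omega)]
    push_cast
    ring
  rw [h1]
  ring

lemma sum_I4 (m : ℕ) (φ : ℕ → ℝ) : ∑ i ∈ I4 m, (1 : ℝ) * φ i.1 = KK m φ := by
  unfold I4 KK
  rw [Finset.sum_sigma]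
  refine Finset.sum_congr rfl fun e he => ?_
  rw [Finset.mem_Ico] at he
  dsimp only
  rw [Finset.sum_const, Finset.card_product, Finset.card_product, Nat.card_Ico, Nat.card_Ico,
    Finset.card_range, nsmul_eq_mul]
  have h1 : ((m - e - 1 : ℕ) : ℝ) = (m : ℝ) - 1 - e := by
    rw [Nat.cast_sub (by omega), Nat.cast_sub (by omega)]
    push_cast
    ring
  have h2 : ((m - 1 : ℕ) : ℝ) = (m : ℝ) - 1 := by
    rw [Nat.cast_sub (by omega)]
    push_cast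
    ring
  push_cast
  rw [h1, h2]
  ring

/-- `QQ` in terms of sums over pairs and quadruples -/
lemma QQ_eq (F : Perm V → ℝ) (g : Perm V) :
    QQ F g = ((∑ p : V × V, F (g * swap p.1 p.2)) / (Fintype.card V : ℝ) ^ 2 +
      (∑ p : V × V × V × V, F (g * swap p.1 p.2.1 * swap p.2.2.1 p.2.2.2)) /
        (Fintype.card V : ℝ) ^ 4) / 2 := by
  unfold QQ
  have h1 : TT F g = (∑ p : V × V, F (g * swap p.1 p.2)) / (Fintype.card V : ℝ) ^ 2 := by
    unfold TT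
    rw [Fintype.sum_prod_type]
  have h2 : TT (TT F) g = (∑ p : V × V × V × V, F (g * swap p.1 p.2.1 * swap p.2.2.1 p.2.2.2)) /
        (Fintype.card V : ℝ) ^ 4 := by
    unfold TT
    simp only [← Finset.sum_div, Fintype.sum_prod_type]
    rw [div_div, ← pow_add]
  rw [h1, h2]

end Contr

open Contr

/-- the contraction, if both arcs are long; `hA`, `hS` are proved elsewhere (module Alg) -/
theorem contr_of {B : Finset V} {x y : V} (hx : x ∈ B) (hy : y ∈ B) (hxy : x ≠ y)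
    (F : Perm V → ℝ) (hanti : ∀ g : Perm V, F (swap x y * g) = - F g)
    (g : Perm V) (m : ℕ) (h1 : Far B g x m) (h2 : Far B g y m)
    (hA : ∀ e q : ℕ, 1 ≤ q → q + e < m →
      F (swap x y * g * swap ((g⁻¹ ^ (q + e)) x) ((g⁻¹ ^ q) y)) =
        F (swap x y * g * swap ((g⁻¹ ^ (1 + e)) x) (g⁻¹ y)))
    (hS : ∀ e p s q : ℕ, 1 ≤ e → 1 ≤ p → p + e < m → p ≤ s → s < p + e → 1 ≤ q → q < m →
      F (g * swap ((g⁻¹ ^ p) x) ((g⁻¹ ^ (p + e)) x) * swap ((g⁻¹ ^ s) x) ((g⁻¹ ^ q) y)) =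
        F (swap x y * g * swap ((g⁻¹ ^ (1 + e)) x) (g⁻¹ y)))
    (U : Perm V → ℝ) (c : ℝ) (hc : 0 ≤ c) (hU : ∀ g, |F g| ≤ U g) (hcU : ∀ g, c ≤ U g) :
    |QQ F g| ≤ QQ U g - c * kap (Fintype.card V) m := by
  have hNpos : 0 < Fintype.card V := Fintype.card_pos_iff.2 ⟨x⟩
  set N : ℝ := (Fintype.card V : ℝ) with hN
  have hN0 : 0 < N := by rw [hN]; exact_mod_cast hNpos
  -- the number of points
  have hmN : ∀ e : ℕ, e + 1 < m → (e : ℝ) * ((m : ℝ) - 1) / N ^ 2 ≤ 1 := by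
    intro e he
    have hcard : (Ico 1 m).card ≤ Fintype.card V := by
      refine Finset.card_le_card_of_injOn (fun p => (g⁻¹ ^ p) x) (fun _ _ => Finset.mem_univ _) ?_
      intro p hp p' hp' h
      rw [Finset.coe_Ico, Set.mem_Ico] at hp hp'
      exact inj_one hx h1 hp.2 hp'.2 h
    rw [Nat.card_Ico] at hcard
    have h3 : ((m - 1 : ℕ) : ℝ) ≤ N := by rw [hN]; exact_mod_cast hcard
    rw [Nat.cast_sub (by omega), Nat.cast_one] at h3
    have h4 : (e : ℝ) ≤ (m : ℝ) - 1 := by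
      have : ((e + 1 : ℕ) : ℝ) ≤ m := by exact_mod_cast he.le
      push_cast at this
      linarith
    have h5 : (0 : ℝ) ≤ e := Nat.cast_nonneg e
    rw [div_le_one (by positivity)]
    nlinarith
  set Φ : ℕ → ℝ := fun e => F (swap x y * g * swap ((g⁻¹ ^ (1 + e)) x) (g⁻¹ y)) with hΦ
  set j2 : (Σ _ : ℕ, ℕ) → V × V := fun i => ((g⁻¹ ^ (i.2 + i.1)) x, (g⁻¹ ^ i.2) y) with hj2
  set j4 : (Σ _ : ℕ, ℕ × ℕ × ℕ) → V × V × V × V := fun i =>
    ((g⁻¹ ^ i.2.1) x, (g⁻¹ ^ (i.2.1 + i.1)) x, (g⁻¹ ^ (i.2.1 + i.2.2.1)) x, (g⁻¹ ^ i.2.2.2) y)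
    with hj4
  have hinj2 : Set.InjOn j2 (I2 m) := by
    rintro ⟨e, q⟩ hi ⟨e', q'⟩ hi' h
    have b1 := mem_I2 (Finset.mem_coe.1 hi)
    have b2 := mem_I2 (Finset.mem_coe.1 hi')
    simp only at b1 b2
    rw [hj2] at h
    simp only [Prod.mk.injEq] at h
    have e1 := inj_one hy h2 (by omega) (by omega) h.2
    subst e1
    have e2 := inj_one hx h1 (by omega) (by omega) h.1
    have e3 : e = e' := by omega
    subst e3
    rfl
  have hinj4 : Set.InjOn j4 (I4 m) := by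
    rintro ⟨e, p, r, q⟩ hi ⟨e', p', r', q'⟩ hi' h
    have b1 := mem_I4 (Finset.mem_coe.1 hi)
    have b2 := mem_I4 (Finset.mem_coe.1 hi')
    simp only at b1 b2
    rw [hj4] at h
    simp only [Prod.mk.injEq] at h
    have e1 := inj_one hx h1 (by omega) (by omega) h.1
    subst e1
    have e2 := inj_one hx h1 (by omega) (by omega) h.2.1
    have e3 : e = e' := by omega
    subst e3
    have e4 := inj_one hx h1 (by omega) (by omega) h.2.2.1
    have e5 : r = r' := by omega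
    subst e5
    have e6 := inj_one hy h2 (by omega) (by omega) h.2.2.2
    subst e6
    rfl
  -- the two bounds
  have hb2 := rem (I2 m) j2 hinj2 (fun i => (i.1 : ℝ) * ((m : ℝ) - 1) / N ^ 2)
    (fun i hi => hmN i.1 (mem_I2 hi).2.1)
    (fun p => F (g * swap p.1 p.2)) (fun p => U (g * swap p.1 p.2)) (fun p => hU _)
  have hb4 := rem (I4 m) j4 hinj4 (fun _ => (1 : ℝ)) (fun _ _ => le_rfl)
    (fun p => F (g * swap p.1 p.2.1 * swap p.2.2.1 p.2.2.2))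
    (fun p => U (g * swap p.1 p.2.1 * swap p.2.2.1 p.2.2.2)) (fun p => hU _)
  -- the values
  have hF2 : ∑ i ∈ I2 m, (i.1 : ℝ) * ((m : ℝ) - 1) / N ^ 2 * F (g * swap (j2 i).1 (j2 i).2) =
      - (KK m Φ / N ^ 2) := by
    rw [← sum_I2, ← Finset.sum_neg_distrib]
    refine Finset.sum_congr rfl fun i hi => ?_
    have b := mem_I2 hi
    have e1 := hanti (g * swap (j2 i).1 (j2 i).2)
    rw [← mul_assoc, hj2] at e1
    simp only at e1
    rw [hA i.1 i.2 b.2.2.1 b.2.2.2] at e1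
    rw [hj2, hΦ]
    simp only
    rw [e1]
    ring
  have hF4 : ∑ i ∈ I4 m, (1 : ℝ) * F (g * swap (j4 i).1 (j4 i).2.1 *
      swap (j4 i).2.2.1 (j4 i).2.2.2) = KK m Φ := by
    rw [← sum_I4]
    refine Finset.sum_congr rfl fun i hi => ?_
    have b := mem_I4 hi
    rw [hj4, hΦ]
    simp only
    rw [hS i.1 i.2.1 (i.2.1 + i.2.2.1) i.2.2.2 b.1 b.2.2.1 b.2.2.2.1 (by omega) (by omega)
      b.2.2.2.2.2.1 b.2.2.2.2.2.2]
  -- the lower bounds
  have hU2 : c * (KK m (fun _ => 1) / N ^ 2) ≤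
      ∑ i ∈ I2 m, (i.1 : ℝ) * ((m : ℝ) - 1) / N ^ 2 * U (g * swap (j2 i).1 (j2 i).2) := by
    rw [← sum_I2, Finset.mul_sum]
    refine Finset.sum_le_sum fun i hi => ?_
    have b := mem_I2 hi
    have hm1 : (0 : ℝ) ≤ (m : ℝ) - 1 := by
      have : ((1 : ℕ) : ℝ) ≤ m := by exact_mod_cast (by omega : 1 ≤ m)
      push_cast at this
      linarith
    have h3 : 0 ≤ (i.1 : ℝ) * ((m : ℝ) - 1) / N ^ 2 := by positivity
    have h4 := hcU (g * swap (j2 i).1 (j2 i).2)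
    rw [mul_one, mul_comm c]
    exact mul_le_mul_of_nonneg_left h4 h3
  have hU4 : c * KK m (fun _ => 1) ≤ ∑ i ∈ I4 m, (1 : ℝ) * U (g * swap (j4 i).1 (j4 i).2.1 *
      swap (j4 i).2.2.1 (j4 i).2.2.2) := by
    rw [← sum_I4, Finset.mul_sum]
    refine Finset.sum_le_sum fun i hi => ?_
    rw [one_mul, one_mul, mul_one]
    exact hcU _
  rw [hF2] at hb2
  rw [hF4] at hb4
  have hkap : kap (Fintype.card V) m = KK m (fun _ => 1) / N ^ 4 := by
    unfold kap KK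
    congr 1
    exact Finset.sum_congr rfl fun e _ => by ring
  rw [QQ_eq, QQ_eq, hkap]
  set S2 := ∑ p : V × V, F (g * swap p.1 p.2) with hS2
  set S4 := ∑ p : V × V × V × V, F (g * swap p.1 p.2.1 * swap p.2.2.1 p.2.2.2) with hS4
  set T2 := ∑ p : V × V, U (g * swap p.1 p.2) with hT2
  set T4 := ∑ p : V × V × V × V, U (g * swap p.1 p.2.1 * swap p.2.2.1 p.2.2.2) with hT4
  set K := KK m (fun _ => 1) with hK
  have hb2' : |S2 - -(KK m Φ / N ^ 2)| ≤ T2 - c * (K / N ^ 2) := hb2.trans (by linarith)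
  have hb4' : |S4 - KK m Φ| ≤ T4 - c * K := hb4.trans (by linarith)
  have hd2 : |(S2 - -(KK m Φ / N ^ 2)) / N ^ 2| ≤ (T2 - c * (K / N ^ 2)) / N ^ 2 := by
    rw [abs_div, abs_of_pos (show (0 : ℝ) < N ^ 2 by positivity)]
    exact div_le_div_of_nonneg_right hb2' (by positivity)
  have hd4 : |(S4 - KK m Φ) / N ^ 4| ≤ (T4 - c * K) / N ^ 4 := by
    rw [abs_div, abs_of_pos (show (0 : ℝ) < N ^ 4 by positivity)]
    exact div_le_div_of_nonneg_right hb4' (by positivity)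
  have e1 : (S2 / N ^ 2 + S4 / N ^ 4) / 2 =
      ((S2 - -(KK m Φ / N ^ 2)) / N ^ 2 + (S4 - KK m Φ) / N ^ 4) / 2 := by
    field_simp
    ring
  have e2 : (T2 / N ^ 2 + T4 / N ^ 4) / 2 - c * (K / N ^ 4) =
      ((T2 - c * (K / N ^ 2)) / N ^ 2 + (T4 - c * K) / N ^ 4) / 2 := by
    field_simp
    ring
  rw [e1, e2, abs_div, abs_of_pos (show (0 : ℝ) < 2 by norm_num)]
  refine div_le_div_of_nonneg_right ?_ (by norm_num)
  exact (abs_add_le _ _).trans (add_le_add hd2 hd4)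

end Pool.Agent.TH268.PD
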