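import Pool.Agent.TH268.PD.Defs

set_option autoImplicit false

/-!
# Bounds of the constant `kap`
-/

namespace Pool.Agent.TH268.PD

open Finset

lemma kap_sum (c : ℝ) (k : ℕ) : ∑ e ∈ range k, (c - e) * e * c
    = c * (c * (k * (k - 1)) / 2 - (k * (k - 1) * (2 * k - 1)) / 6) := by
  induction k with
  | zero => simp
  | succ k ih =>
    rw [Finset.sum_range_succ, ih]
    push_cast
    ring

lemma kap_eq (N M : ℕ) (hM : 1 ≤ M) :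
    kap N (M + 1) = (M : ℝ) ^ 2 * ((M : ℝ) ^ 2 - 1) / 6 / (N : ℝ) ^ 4 := by
  unfold kap
  congr 1
  rw [Nat.add_sub_cancel]
  push_cast
  have e1 : ((M : ℝ) + 1 - 1) = M := by ring
  rw [e1]
  have h1 := kap_sum (M : ℝ) M
  have h2 : ∑ e ∈ range M, ((M : ℝ) - e) * e * M = ∑ e ∈ Ico 1 M, ((M : ℝ) - e) * e * M := by
    rw [Finset.range_eq_Ico, Finset.sum_eq_sum_Ico_succ_bot (by omega)]
    simp
  rw [← h2, h1]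
  ring

theorem kap_bounds (δ : ℝ) (hδ : 0 < δ) (hδ1 : δ ≤ 1) :
    ∃ N₀ : ℕ, ∀ N ≥ N₀, δ ^ 4 / 200 ≤ kap N ⌈δ * N⌉₊ ∧ kap N ⌈δ * N⌉₊ ≤ 1 := by
  refine ⟨⌈4 / δ⌉₊, fun N hN => ?_⟩
  have h1 : 4 / δ ≤ N := (Nat.le_ceil _).trans (by exact_mod_cast hN)
  have h2 : 4 ≤ δ * N := by
    rw [div_le_iff₀ hδ] at h1
    linarith
  have hN0 : (0 : ℝ) < N := by
    by_contra hcon
    push Not at hcon
    nlinarith
  have h3 : δ * N ≤ (⌈δ * N⌉₊ : ℝ) := Nat.le_ceil _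
  have h4 : (⌈δ * N⌉₊ : ℝ) < δ * N + 1 := Nat.ceil_lt_add_one (by positivity)
  obtain ⟨M, hM⟩ : ∃ M : ℕ, ⌈δ * (N : ℝ)⌉₊ = M + 1 := by
    have h5 : (4 : ℝ) ≤ (⌈δ * N⌉₊ : ℝ) := h2.trans h3
    have h6 : 4 ≤ ⌈δ * (N : ℝ)⌉₊ := by exact_mod_cast h5
    exact ⟨⌈δ * (N : ℝ)⌉₊ - 1, by omega⟩
  rw [hM] at h3 h4 ⊢
  push_cast at h3 h4
  have h5 : (3 : ℝ) ≤ M := by linarith
  have h6 : 1 ≤ M := by
    have : 3 ≤ M := by exact_mod_cast h5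
    omega
  have h7 : (M : ℝ) ≤ N := by nlinarith
  have h8 : 3 / 4 * (δ * N) ≤ M := by linarith
  rw [kap_eq N M h6]
  have hN4 : (0 : ℝ) < (N : ℝ) ^ 4 := by positivity
  have h9 : (M : ℝ) ^ 4 ≤ (N : ℝ) ^ 4 := by gcongr
  have h10 : (3 / 4 * (δ * N)) ^ 4 ≤ (M : ℝ) ^ 4 := by gcongr
  have h11 : (9 : ℝ) ≤ (M : ℝ) ^ 2 := by nlinarith
  constructor
  · rw [le_div_iff₀ hN4]
    have h12 : (M : ℝ) ^ 2 * ((M : ℝ) ^ 2 - 1) / 6 ≥ (M : ℝ) ^ 4 / 12 := by nlinarith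
    have h13 : (3 / 4 * (δ * N)) ^ 4 = 81 / 256 * (δ ^ 4 * (N : ℝ) ^ 4) := by ring
    have h14 : 0 < δ ^ 4 * (N : ℝ) ^ 4 := by positivity
    rw [h13] at h10
    calc δ ^ 4 / 200 * (N : ℝ) ^ 4 = 1 / 200 * (δ ^ 4 * (N : ℝ) ^ 4) := by ring
      _ ≤ (M : ℝ) ^ 4 / 12 := by linarith
      _ ≤ _ := h12
  · rw [div_le_one hN4]
    nlinarith [sq_nonneg (M : ℝ)]

end Pool.Agent.TH268.PD
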