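import Pool.Agent.TH268.PD.Defs

/-!
# The first return permutation of marked points
-/

set_option autoImplicit false

namespace Pool.Agent.TH268.PD

open Finset Equiv

set_option linter.unusedSectionVars false

variable {V : Type} [Fintype V] [DecidableEq V]

/-- `b j` is the first point of the range of `b` on the orbit of `b i`, reached at time `n` -/
def FirstRet {k : ℕ} (b : Fin k → V) (g : Perm V) (i j : Fin k) (n : ℕ) : Prop :=
  1 ≤ n ∧ (g ^ n) (b i) = b j ∧ ∀ p, 1 ≤ p → p < n → (g ^ p) (b i) ∉ Set.range b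

lemma FirstRet.exists {k : ℕ} (b : Fin k → V) (g : Perm V) (i : Fin k) :
    ∃ j n, FirstRet b g i j n := by
  classical
  have h : ∃ n, 1 ≤ n ∧ (g ^ n) (b i) ∈ Set.range b :=
    ⟨orderOf g, orderOf_pos g, i, by rw [pow_orderOf_eq_one]; rfl⟩
  obtain ⟨h1, j, hj⟩ := Nat.find_spec h
  exact ⟨j, Nat.find h, h1, hj.symm, fun p hp hpn hr => Nat.find_min h hpn ⟨hp, hr⟩⟩

lemma FirstRet.unique {k : ℕ} {b : Fin k → V} (hb : Function.Injective b) {g : Perm V}
    {i j j' : Fin k} {n n' : ℕ} (h : FirstRet b g i j n) (h' : FirstRet b g i j' n') :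
    n = n' ∧ j = j' := by
  obtain ⟨h1, h2, h3⟩ := h
  obtain ⟨h1', h2', h3'⟩ := h'
  have hn : n = n' := by
    rcases lt_trichotomy n n' with h | h | h
    · exact absurd ⟨j, h2.symm⟩ (h3' n h1 h)
    · exact h
    · exact absurd ⟨j', h2'.symm⟩ (h3 n' h1' h)
  subst hn
  exact ⟨rfl, hb (h2.symm.trans h2')⟩

lemma FirstRet.inj_aux {k : ℕ} {b : Fin k → V} (hb : Function.Injective b) {g : Perm V}
    {i i' j : Fin k} {n n' : ℕ} (h : FirstRet b g i j n) (h' : FirstRet b g i' j n')
    (hn : n ≤ n') : i = i' := by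
  obtain ⟨h1, h2, h3⟩ := h
  obtain ⟨h1', h2', h3'⟩ := h'
  have e : (g ^ (n' - n)) (b i') = b i := by
    apply (g ^ n).injective
    rw [h2, ← Perm.mul_apply, ← pow_add, Nat.add_sub_cancel' hn, h2']
  rcases Nat.eq_zero_or_pos (n' - n) with h0 | h0
  · rw [h0, pow_zero, Perm.one_apply] at e
    exact (hb e).symm
  · exact absurd ⟨i, e.symm⟩ (h3' (n' - n) h0 (by omega))

lemma FirstRet.inj {k : ℕ} {b : Fin k → V} (hb : Function.Injective b) {g : Perm V}
    {i i' j : Fin k} {n n' : ℕ} (h : FirstRet b g i j n) (h' : FirstRet b g i' j n') : i = i' := by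
  rcases le_total n n' with hn | hn
  · exact FirstRet.inj_aux hb h h' hn
  · exact (FirstRet.inj_aux hb h' h hn).symm

lemma exists_perm {k : ℕ} (b : Fin k → V) (g : Perm V) :
    ∃ r : Perm (Fin k), Function.Injective b → ∀ i, ∃ n, FirstRet b g i (r i) n := by
  by_cases hb : Function.Injective b
  · choose r n hr using fun i => FirstRet.exists b g i
    have hinj : Function.Injective r := by
      intro i i' h
      have h1 := hr i
      rw [h] at h1
      exact FirstRet.inj hb h1 (hr i')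
    exact ⟨Equiv.ofBijective r (Finite.injective_iff_bijective.1 hinj), fun _ i => ⟨n i, hr i⟩⟩
  · exact ⟨1, fun h => absurd h hb⟩

lemma swap_pow {k : ℕ} {b : Fin k → V} {g : Perm V} {i j l m : Fin k} {n : ℕ}
    (h : FirstRet b g l m n) : ∀ p, p < n →
      ((swap (b i) (b j) * g) ^ p) (b l) = (g ^ p) (b l) := by
  intro p
  induction p with
  | zero => intro _; rfl
  | succ p ih =>
    intro hp
    rw [pow_succ', Perm.mul_apply, ih (by omega), Perm.mul_apply, ← Perm.mul_apply g,
      ← pow_succ' g]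
    have := h.2.2 (p + 1) (by omega) hp
    apply swap_apply_of_ne_of_ne
    · intro e; exact this ⟨i, e.symm⟩
    · intro e; exact this ⟨j, e.symm⟩

lemma FirstRet.swap {k : ℕ} {b : Fin k → V} (hb : Function.Injective b) {g : Perm V}
    {i j l m : Fin k} {n : ℕ} (h : FirstRet b g l m n) :
    FirstRet b (Equiv.swap (b i) (b j) * g) l (Equiv.swap i j m) n := by
  refine ⟨h.1, ?_, fun p hp hpn => ?_⟩
  · obtain ⟨q, rfl⟩ : ∃ q, n = q + 1 := ⟨n - 1, by have := h.1; omega⟩
    rw [pow_succ', Perm.mul_apply, swap_pow h q (by omega), Perm.mul_apply, ← Perm.mul_apply g,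
      ← pow_succ' g, h.2.1]
    rcases eq_or_ne m i with rfl | hmi
    · simp
    rcases eq_or_ne m j with rfl | hmj
    · simp
    rw [swap_apply_of_ne_of_ne (hb.ne hmi) (hb.ne hmj), swap_apply_of_ne_of_ne hmi hmj]
  · rw [swap_pow h p hpn]
    exact h.2.2 p hp hpn

lemma FirstRet.conj {k : ℕ} {b : Fin k → V} {g w : Perm V} (hw : ∀ i, w (b i) = b i)
    {l m : Fin k} {n : ℕ} (h : FirstRet b g l m n) : FirstRet b (w * g * w⁻¹) l m n := by
  have hw' : ∀ i, w⁻¹ (b i) = b i := fun i => by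
    rw [Perm.inv_eq_iff_eq]; exact (hw i).symm
  have e : ∀ p, ((w * g * w⁻¹) ^ p) (b l) = w ((g ^ p) (b l)) := fun p => by
    rw [conj_pow, Perm.mul_apply, Perm.mul_apply, hw']
  refine ⟨h.1, ?_, fun p hp hpn => ?_⟩
  · rw [e, h.2.1, hw]
  · rw [e]
    rintro ⟨q, hq⟩
    apply h.2.2 p hp hpn
    refine ⟨q, ?_⟩
    apply w.injective
    rw [← hq, hw]

lemma sameCycle_aux {k : ℕ} {b : Fin k → V} (hb : Function.Injective b) {g : Perm V}
    {r : Perm (Fin k)} (hr : ∀ i, ∃ n, FirstRet b g i (r i) n) (j : Fin k) :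
    ∀ (p : ℕ) (i : Fin k), (g ^ p) (b i) = b j → r.SameCycle i j := by
  intro p
  induction p using Nat.strong_induction_on with
  | _ p ih =>
    intro i hi
    rcases Nat.eq_zero_or_pos p with rfl | hp
    · rw [pow_zero, Perm.one_apply] at hi
      rw [hb hi]
    · obtain ⟨n, h1, h2, h3⟩ := hr i
      have hn : n ≤ p := by
        by_contra hc
        exact h3 p hp (by omega) ⟨j, hi.symm⟩
      have e : (g ^ (p - n)) (b (r i)) = b j := by
        rw [← h2, ← Perm.mul_apply, ← pow_add, Nat.sub_add_cancel hn, hi]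
      have := ih (p - n) (by omega) (r i) e
      exact Perm.sameCycle_apply_left.1 this

/-- the first return map: there is a permutation `r = ret k b g` of `Fin k` for every injective
`b : Fin k → V`, with `b (r i)` the first point of the range of `b` on the orbit of `b i` -/
theorem exists_ret (k : ℕ) : ∃ ret : (Fin k → V) → Perm V → Perm (Fin k),
    ∀ b : Fin k → V, Function.Injective b →
      (∀ (g : Perm V) (i : Fin k), ∃ n : ℕ, 1 ≤ n ∧ (g ^ n) (b i) = b (ret b g i) ∧
        ∀ p, 1 ≤ p → p < n → (g ^ p) (b i) ∉ Set.range b) ∧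
      (∀ (g : Perm V) (i j : Fin k), ret b (swap (b i) (b j) * g) = swap i j * ret b g) ∧
      (∀ w g : Perm V, (∀ i, w (b i) = b i) → ret b (w * g * w⁻¹) = ret b g) ∧
      (∀ (g : Perm V) (i j : Fin k), (ret b g).SameCycle i j ↔ g.SameCycle (b i) (b j)) := by
  choose ret hret using fun (b : Fin k → V) (g : Perm V) => exists_perm b g
  refine ⟨ret, fun b hb => ⟨fun g i => hret b g hb i, fun g i j => ?_, fun w g hw => ?_,
    fun g i j => ⟨fun h => ?_, fun h => ?_⟩⟩⟩
  · ext l
    obtain ⟨n, hn⟩ := hret b g hb l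
    obtain ⟨n', hn'⟩ := hret b (swap (b i) (b j) * g) hb l
    rw [((FirstRet.unique hb hn' (hn.swap hb)).2), Perm.mul_apply]
  · ext l
    obtain ⟨n, hn⟩ := hret b g hb l
    obtain ⟨n', hn'⟩ := hret b (w * g * w⁻¹) hb l
    rw [((FirstRet.unique hb hn' (hn.conj hw)).2)]
  · have key : ∀ p : ℕ, g.SameCycle (b i) (b ((ret b g ^ p) i)) := by
      intro p
      induction p with
      | zero => exact Perm.SameCycle.refl _ _
      | succ p ih =>
        obtain ⟨n, h1, h2, h3⟩ := hret b g hb ((ret b g ^ p) i)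
        rw [pow_succ', Perm.mul_apply, ← h2]
        exact Perm.sameCycle_pow_right.2 ih
    obtain ⟨p, hp, hp'⟩ := h.exists_pow_eq'
    rw [← hp']
    exact key p
  · obtain ⟨p, hp, hp'⟩ := h.exists_pow_eq'
    exact sameCycle_aux hb (fun i => hret b g hb i) j p i hp'

end Pool.Agent.TH268.PD
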