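import Pool.Agent.TH268.PD.Defs

/-!
Almost invariance under transpositions implies almost uniformity on the symmetric group.
-/

set_option autoImplicit false

namespace Pool.Agent.TH268.PD

open Finset Equiv

namespace UniAux

/-- The number of disagreements bounds the difference. -/
theorem diff_le (k : ℕ) (P : Perm (Fin k) → ℝ) (η : ℝ) (hη : 0 ≤ η)
    (h : ∀ i j : Fin k, i ≠ j → ∀ π, |P π - P (swap i j * π)| ≤ η) :
    ∀ (n : ℕ) (π σ : Perm (Fin k)), (univ.filter (fun i => π i ≠ σ i)).card ≤ n →
      |P π - P σ| ≤ n * η := by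
  intro n
  induction n with
  | zero =>
    intro π σ hc
    have h0 : (univ.filter (fun i => π i ≠ σ i)) = ∅ := Finset.card_eq_zero.1 (by omega)
    have h1 : π = σ := by
      refine Equiv.ext fun i => ?_
      by_contra hne
      have : i ∈ (univ.filter (fun i => π i ≠ σ i)) :=
        Finset.mem_filter.2 ⟨Finset.mem_univ _, hne⟩
      rw [h0] at this
      exact absurd this (Finset.notMem_empty _)
    rw [h1]
    simp
  | succ n ih =>
    intro π σ hc
    by_cases hπ : π = σ
    · rw [hπ, sub_self, abs_zero]
      positivity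
    · obtain ⟨i, hi⟩ : ∃ i, π i ≠ σ i := by
        by_contra hcon
        push Not at hcon
        exact hπ (Equiv.ext hcon)
      set π' : Perm (Fin k) := swap (π i) (σ i) * π with hπ'
      have hsub : (univ.filter (fun j => π' j ≠ σ j)) ⊆ (univ.filter (fun j => π j ≠ σ j)).erase i := by
        intro j hj
        have hj2 := (Finset.mem_filter.1 hj).2
        have hji : j ≠ i := by
          rintro rfl
          refine hj2 ?_
          rw [hπ', Perm.mul_apply, swap_apply_left]
        refine Finset.mem_erase.2 ⟨hji, Finset.mem_filter.2 ⟨Finset.mem_univ _, fun h3 => hj2 ?_⟩⟩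
        rw [hπ', Perm.mul_apply, swap_apply_of_ne_of_ne, h3]
        · exact fun h4 => hji (π.injective h4)
        · rw [h3]
          exact fun h4 => hji (σ.injective h4)
      have hcard : (univ.filter (fun j => π' j ≠ σ j)).card ≤ n := by
        have h3 := Finset.card_le_card hsub
        have h4 : i ∈ univ.filter (fun j => π j ≠ σ j) :=
          Finset.mem_filter.2 ⟨Finset.mem_univ _, hi⟩
        rw [Finset.card_erase_of_mem h4] at h3
        omega
      have h5 := ih π' σ hcard
      have h6 := h (π i) (σ i) hi π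
      calc |P π - P σ| = |(P π - P π') + (P π' - P σ)| := by ring_nf
        _ ≤ |P π - P π'| + |P π' - P σ| := abs_add_le _ _
        _ ≤ η + n * η := add_le_add h6 h5
        _ = ((n + 1 : ℕ) : ℝ) * η := by push_cast; ring

end UniAux

/-- almost invariance under transpositions implies almost uniformity -/
theorem unif (k : ℕ) (P : Perm (Fin k) → ℝ) (η : ℝ) (hη : 0 ≤ η)
    (h : ∀ i j : Fin k, i ≠ j → ∀ π, |P π - P (swap i j * π)| ≤ η) (π : Perm (Fin k)) :
    |P π - (∑ σ, P σ) / (k.factorial : ℝ)| ≤ k * η := by
  have hf : (0 : ℝ) < (k.factorial : ℝ) := by exact_mod_cast Nat.factorial_pos k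
  have hcard : ((Finset.univ : Finset (Perm (Fin k))).card : ℝ) = (k.factorial : ℝ) := by
    rw [Finset.card_univ, Fintype.card_perm, Fintype.card_fin]
  have h1 : P π - (∑ σ, P σ) / (k.factorial : ℝ) = (∑ σ, (P π - P σ)) / (k.factorial : ℝ) := by
    rw [Finset.sum_sub_distrib, Finset.sum_const, nsmul_eq_mul, hcard, sub_div,
      mul_div_cancel_left₀ _ hf.ne']
  rw [h1, abs_div, abs_of_pos hf, div_le_iff₀ hf]
  calc |∑ σ, (P π - P σ)| ≤ ∑ σ, |P π - P σ| := Finset.abs_sum_le_sum_abs _ _
    _ ≤ ∑ _σ : Perm (Fin k), (k : ℝ) * η := by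
        refine Finset.sum_le_sum fun σ _ => UniAux.diff_le k P η hη h k π σ ?_
        exact (Finset.card_le_univ _).trans (by rw [Fintype.card_fin])
    _ = k * η * (k.factorial : ℝ) := by
        rw [Finset.sum_const, nsmul_eq_mul, hcard]
        ring

end Pool.Agent.TH268.PD
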