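import Pool.Agent.TH268.PD.Asm
import Pool.Agent.TH268.PD.Ret
import Pool.Agent.TH268.PD.Uni
import Pool.Agent.TH268.PD.Kap
import Pool.Agent.TH268.PD.Bad

/-!
# The induced permutation of random points is uniform
-/

set_option autoImplicit false

namespace Pool.Agent.TH268.PD

open Finset Equiv
open Pool.Agent.W805.LR (len)

/-- the first return map -/
noncomputable def ret {V : Type} [Fintype V] [DecidableEq V] (k : ℕ) :
    (Fin k → V) → Perm V → Perm (Fin k) := (exists_ret (V := V) k).choose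

section

variable {V : Type} [Fintype V] [DecidableEq V]

theorem ret_spec (k : ℕ) (b : Fin k → V) (hb : Function.Injective b) :
      (∀ (g : Perm V) (i : Fin k), ∃ n : ℕ, 1 ≤ n ∧ (g ^ n) (b i) = b (ret k b g i) ∧
        ∀ p, 1 ≤ p → p < n → (g ^ p) (b i) ∉ Set.range b) ∧
      (∀ (g : Perm V) (i j : Fin k), ret k b (swap (b i) (b j) * g) = swap i j * ret k b g) ∧
      (∀ w g : Perm V, (∀ i, w (b i) = b i) → ret k b (w * g * w⁻¹) = ret k b g) ∧
      (∀ (g : Perm V) (i j : Fin k), (ret k b g).SameCycle i j ↔ g.SameCycle (b i) (b j)) :=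
  (exists_ret (V := V) k).choose_spec b hb

open Classical in
/-- probability that all arcs of `k` random points have length at least `m`, and the induced
permutation is `π` -/
noncomputable def AA (k : ℕ) (μ : Perm V → ℝ) (m : ℕ) (π : Perm (Fin k)) : ℝ :=
  (∑ b : Fin k → V, if Function.Injective b then ∑ g, μ g *
    (if Dusty (univ.image b) m g then 0 else if ret k b g = π then 1 else 0) else 0) /
    (Fintype.card V : ℝ) ^ k

open Classical in
/-- the window -/
noncomputable def WW (k : ℕ) (μ : Perm V → ℝ) (m1 m : ℕ) : ℝ :=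
  (∑ b : Fin k → V, if Function.Injective b then ∑ g, μ g *
    (if ¬ Dusty (univ.image b) m1 g ∧ Dusty (univ.image b) m g then 1 else 0) else 0) /
    (Fintype.card V : ℝ) ^ k

theorem errB_nonneg {N m m1 n : ℕ} {ε : ℝ} (hk1 : kap N m ≤ 1) (hε : 0 ≤ ε) :
    0 ≤ errB N m m1 n ε := by
  unfold errB
  have h0 : 0 ≤ 1 - kap N m := by linarith
  positivity

open Classical in
theorem AA_step [Nonempty V] (hC : Contr V) (k : ℕ) (μ : Perm V → ℝ) (ε : ℝ)
    (hμ : ∀ g, 0 ≤ μ g) (hμ1 : ∑ g, μ g = 1)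
    (hε : ∀ (F : Perm V → ℝ) (K : ℝ), (∀ g, |F g| ≤ K) →
      |∑ g, μ g * TT F g - ∑ g, μ g * F g| ≤ K * ε) (hε0 : 0 ≤ ε) (m m1 : ℕ) (hm : m1 ≤ m)
    (hk0 : 0 ≤ kap (Fintype.card V) m) (hk1 : kap (Fintype.card V) m ≤ 1) (i j : Fin k)
    (hij : i ≠ j) (π : Perm (Fin k)) (n : ℕ) :
    |AA k μ m π - AA k μ m (swap i j * π)| ≤ errB (Fintype.card V) m m1 n ε + WW k μ m1 m := by
  have hN : (0 : ℝ) < (Fintype.card V : ℝ) ^ k := by
    have : (0 : ℝ) < Fintype.card V := by exact_mod_cast Fintype.card_pos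
    positivity
  have he := errB_nonneg (m1 := m1) (n := n) hk1 hε0
  unfold AA WW
  rw [← sub_div, abs_div, abs_of_pos hN, ← Finset.sum_sub_distrib, div_le_iff₀ hN, add_mul,
    div_mul_cancel₀ _ hN.ne']
  refine (Finset.abs_sum_le_sum_abs _ _).trans ?_
  have hcard : errB (Fintype.card V) m m1 n ε * (Fintype.card V : ℝ) ^ k =
      ∑ _b : Fin k → V, errB (Fintype.card V) m m1 n ε := by
    rw [Finset.sum_const, Finset.card_univ, Fintype.card_fun, Fintype.card_fin, nsmul_eq_mul]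
    push_cast
    ring
  rw [hcard, ← Finset.sum_add_distrib]
  refine Finset.sum_le_sum fun b _ => ?_
  by_cases hb : Function.Injective b
  · simp only [if_pos hb]
    obtain ⟨_, h2, h3, _⟩ := ret_spec k b hb
    exact per_b hC b hb (ret k b) h2 h3 μ ε hμ hμ1 hε hε0 m m1 hm hk0 hk1 i j hij π n
  · simp only [if_neg hb]
    simpa using he

theorem AA_unif [Nonempty V] (hC : Contr V) (k : ℕ) (μ : Perm V → ℝ) (ε : ℝ)
    (hμ : ∀ g, 0 ≤ μ g) (hμ1 : ∑ g, μ g = 1)
    (hε : ∀ (F : Perm V → ℝ) (K : ℝ), (∀ g, |F g| ≤ K) →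
      |∑ g, μ g * TT F g - ∑ g, μ g * F g| ≤ K * ε) (hε0 : 0 ≤ ε) (m m1 : ℕ) (hm : m1 ≤ m)
    (hk0 : 0 ≤ kap (Fintype.card V) m) (hk1 : kap (Fintype.card V) m ≤ 1)
    (π : Perm (Fin k)) (n : ℕ) :
    |AA k μ m π - (∑ σ, AA k μ m σ) / (k.factorial : ℝ)| ≤
      k * (errB (Fintype.card V) m m1 n ε + WW k μ m1 m) := by
  classical
  have hw : 0 ≤ WW k μ m1 m := by
    unfold WW
    refine div_nonneg (Finset.sum_nonneg fun b _ => ?_) (by positivity)
    split_ifs
    · refine Finset.sum_nonneg fun g _ => mul_nonneg (hμ g) ?_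
      split_ifs <;> norm_num
    · exact le_rfl
  refine unif k _ _ (add_nonneg (errB_nonneg hk1 hε0) hw) (fun i j hij π => ?_) π
  exact AA_step hC k μ ε hμ hμ1 hε hε0 m m1 hm hk0 hk1 i j hij π n

open Classical in
theorem WW_sum [Nonempty V] (k : ℕ) (μ : Perm V → ℝ) (hμ : ∀ g, 0 ≤ μ g) (hμ1 : ∑ g, μ g = 1)
    (M : ℕ → ℕ) (hM : Antitone M) (R : ℕ) : ∑ r ∈ range R, WW k μ (M (r + 1)) (M r) ≤ 1 := by
  have hN : (0 : ℝ) < (Fintype.card V : ℝ) ^ k := by
    have : (0 : ℝ) < Fintype.card V := by exact_mod_cast Fintype.card_pos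
    positivity
  unfold WW
  rw [← Finset.sum_div, div_le_one hN, Finset.sum_comm]
  have h1 : ∀ b : Fin k → V, ∑ r ∈ range R, (if Function.Injective b then ∑ g, μ g *
      (if ¬ Dusty (univ.image b) (M (r + 1)) g ∧ Dusty (univ.image b) (M r) g
        then (1 : ℝ) else 0) else 0) ≤ 1 := by
    intro b
    by_cases hb : Function.Injective b
    · simp only [if_pos hb]
      rw [Finset.sum_comm]
      refine le_of_le_of_eq (Finset.sum_le_sum (g := μ) fun g _ => ?_) hμ1
      rw [← Finset.mul_sum]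
      refine mul_le_of_le_one_right (hμ g) ?_
      have h2 : ∀ R : ℕ, ∑ r ∈ range R,
          (if ¬ Dusty (univ.image b) (M (r + 1)) g ∧ Dusty (univ.image b) (M r) g
            then (1 : ℝ) else 0) =
          (if Dusty (univ.image b) (M 0) g then 1 else 0) -
            (if Dusty (univ.image b) (M R) g then 1 else 0) := by
        intro R
        induction R with
        | zero => simp
        | succ R ih =>
          rw [Finset.sum_range_succ, ih]
          have h3 : Dusty (univ.image b) (M (R + 1)) g → Dusty (univ.image b) (M R) g :=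
            dusty_mono (hM (Nat.le_succ R))
          by_cases h4 : Dusty (univ.image b) (M (R + 1)) g
          · simp [h4, h3 h4]
          · by_cases h5 : Dusty (univ.image b) (M R) g
            · simp [h4, h5]
            · simp [h4, h5]
      rw [h2]
      split_ifs <;> norm_num
    · simp [if_neg hb]
  refine (Finset.sum_le_sum fun b _ => h1 b).trans (le_of_eq ?_)
  rw [Finset.sum_const, Finset.card_univ, Fintype.card_fun, Fintype.card_fin, nsmul_eq_mul]
  push_cast
  ring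

open Classical in
/-- probability that `k` random points lie in cycles of length at least `s` and the induced
permutation is `π` -/
noncomputable def LL (k : ℕ) (μ : Perm V → ℝ) (s : ℝ) (π : Perm (Fin k)) : ℝ :=
  (∑ b : Fin k → V, if Function.Injective b then ∑ g, μ g *
    (if (∀ i, s ≤ len g (b i)) ∧ ret k b g = π then 1 else 0) else 0) /
    (Fintype.card V : ℝ) ^ k

theorem len_nat (g : Perm V) (v : V) : ∃ n : ℕ, len g v = n := by
  classical
  unfold Pool.Agent.W805.LR.len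
  rw [Pool.Agent.W805.LR.cnt_eq, Finset.sum_boole]
  exact ⟨_, rfl⟩

open Classical in
theorem LL_sub [Nonempty V] (k : ℕ) (μ : Perm V → ℝ) (hμ : ∀ g, 0 ≤ μ g) (hμ1 : ∑ g, μ g = 1)
    (m : ℕ) (A : Finset (Perm (Fin k))) :
    0 ≤ ∑ π ∈ A, LL k μ m π - ∑ π ∈ A, AA k μ m π ∧
      ∑ π ∈ A, LL k μ m π - ∑ π ∈ A, AA k μ m π ≤ (k : ℝ) ^ 2 * m / Fintype.card V := by
  have hN0 : (0 : ℝ) < Fintype.card V := by exact_mod_cast Fintype.card_pos
  have hN : (0 : ℝ) < (Fintype.card V : ℝ) ^ k := by positivity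
  -- the difference
  have e1 : ∑ π ∈ A, LL k μ m π - ∑ π ∈ A, AA k μ m π =
      (∑ g, μ g * ∑ b : Fin k → V, (if (Function.Injective b ∧
        (∀ i, (m : ℝ) ≤ len g (b i)) ∧ Dusty (univ.image b) m g) ∧ ret k b g ∈ A
          then (1 : ℝ) else 0)) / (Fintype.card V : ℝ) ^ k := by
    rw [← Finset.sum_sub_distrib]
    unfold LL AA
    simp only [← sub_div]
    rw [← Finset.sum_div]
    congr 1
    simp only [← Finset.sum_sub_distrib, Finset.mul_sum]
    rw [Finset.sum_comm, Finset.sum_comm (s := (univ : Finset (Perm V)))]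
    refine Finset.sum_congr rfl fun b _ => ?_
    by_cases hb : Function.Injective b
    · simp only [if_pos hb]
      simp only [← Finset.sum_sub_distrib]
      rw [Finset.sum_comm]
      refine Finset.sum_congr rfl fun g _ => ?_
      simp only [← mul_sub]
      rw [← Finset.mul_sum]
      congr 1
      by_cases hd : Dusty (univ.image b) m g
      · simp only [if_pos hd, sub_zero]
        by_cases hl : ∀ i, (m : ℝ) ≤ len g (b i)
        · simp only [hl, hd, hb, implies_true, true_and, and_self]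
          rw [Finset.sum_ite_eq]
        · simp [hl]
      · simp only [if_neg hd]
        have hl : ∀ i, (m : ℝ) ≤ len g (b i) := by
          intro i
          refine len_of_far k g m b (fun i => ?_) i
          by_contra hf
          exact hd ⟨b i, Finset.mem_image_of_mem _ (Finset.mem_univ i), hf⟩
        simp [hl, hd]
    · simp [hb]
  rw [e1]
  constructor
  · refine div_nonneg (Finset.sum_nonneg fun g _ => mul_nonneg (hμ g)
      (Finset.sum_nonneg fun b _ => ?_)) hN.le
    split_ifs <;> norm_num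
  · rcases Nat.eq_zero_or_pos k with hk | hk
    · subst hk
      refine le_of_eq_of_le ?_ (show (0 : ℝ) ≤ _ by positivity)
      rw [div_eq_zero_iff]
      left
      refine Finset.sum_eq_zero fun g _ => ?_
      rw [mul_eq_zero]
      right
      refine Finset.sum_eq_zero fun b _ => ?_
      rw [if_neg]
      rintro ⟨⟨_, _, z, hz, _⟩, _⟩
      simp at hz
    · have h2 : ∀ g : Perm V, ∑ b : Fin k → V, (if (Function.Injective b ∧
        (∀ i, (m : ℝ) ≤ len g (b i)) ∧ Dusty (univ.image b) m g) ∧ ret k b g ∈ A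
          then (1 : ℝ) else 0) ≤ (k : ℝ) ^ 2 * m * (Fintype.card V : ℝ) ^ (k - 1) := by
        intro g
        refine le_trans ?_ (card_near k g m)
        rw [Finset.sum_boole, Nat.card_eq_fintype_card, Fintype.card_subtype]
        refine Nat.cast_le.2 (Finset.card_le_card fun b hb => ?_)
        rw [Finset.mem_filter] at hb ⊢
        refine ⟨Finset.mem_univ _, hb.2.1.1, hb.2.1.2.1, fun hf => ?_⟩
        obtain ⟨z, hz, hz2⟩ := hb.2.1.2.2
        obtain ⟨i, _, hi⟩ := Finset.mem_image.1 hz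
        exact hz2 (hi ▸ hf i)
      have h3 : ∑ g, μ g * ∑ b : Fin k → V, (if (Function.Injective b ∧
        (∀ i, (m : ℝ) ≤ len g (b i)) ∧ Dusty (univ.image b) m g) ∧ ret k b g ∈ A
          then (1 : ℝ) else 0) ≤ (k : ℝ) ^ 2 * m * (Fintype.card V : ℝ) ^ (k - 1) := by
        refine (Finset.sum_le_sum fun g _ => mul_le_mul_of_nonneg_left (h2 g) (hμ g)).trans ?_
        rw [← Finset.sum_mul, hμ1, one_mul]
      rw [div_le_div_iff₀ hN hN0]
      refine (mul_le_mul_of_nonneg_right h3 hN0.le).trans (le_of_eq ?_)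
      have h4 : (Fintype.card V : ℝ) ^ k = (Fintype.card V : ℝ) ^ (k - 1) * Fintype.card V := by
        rw [← pow_succ]; congr 1; omega
      rw [h4]
      ring

/-- from arcs to cycles -/
theorem LL_unif [Nonempty V] (hC : Contr V) (k : ℕ) (μ : Perm V → ℝ) (ε : ℝ)
    (hμ : ∀ g, 0 ≤ μ g) (hμ1 : ∑ g, μ g = 1)
    (hε : ∀ (F : Perm V → ℝ) (K : ℝ), (∀ g, |F g| ≤ K) →
      |∑ g, μ g * TT F g - ∑ g, μ g * F g| ≤ K * ε) (hε0 : 0 ≤ ε) (m m1 : ℕ) (hm : m1 ≤ m)
    (hk0 : 0 ≤ kap (Fintype.card V) m) (hk1 : kap (Fintype.card V) m ≤ 1)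
    (π : Perm (Fin k)) (n : ℕ) :
    |LL k μ m π - (∑ σ, LL k μ m σ) / (k.factorial : ℝ)| ≤
      k * (errB (Fintype.card V) m m1 n ε + WW k μ m1 m) +
        2 * ((k : ℝ) ^ 2 * m / Fintype.card V) := by
  have h1 := AA_unif hC k μ ε hμ hμ1 hε hε0 m m1 hm hk0 hk1 π n
  obtain ⟨h2, h3⟩ := LL_sub k μ hμ hμ1 m {π}
  obtain ⟨h4, h5⟩ := LL_sub k μ hμ hμ1 m univ
  simp only [Finset.sum_singleton] at h2 h3
  have hf : (1 : ℝ) ≤ (k.factorial : ℝ) := by exact_mod_cast k.factorial_pos
  have h6 : (∑ σ, LL k μ m σ) / (k.factorial : ℝ) - (∑ σ, AA k μ m σ) / (k.factorial : ℝ) =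
      (∑ σ, LL k μ m σ - ∑ σ, AA k μ m σ) / (k.factorial : ℝ) := by ring
  have h7 : 0 ≤ (∑ σ, LL k μ m σ - ∑ σ, AA k μ m σ) / (k.factorial : ℝ) :=
    div_nonneg h4 (by linarith)
  have h8 : (∑ σ, LL k μ m σ - ∑ σ, AA k μ m σ) / (k.factorial : ℝ) ≤
      (k : ℝ) ^ 2 * m / Fintype.card V := (div_le_self h4 hf).trans h5
  rw [abs_le] at h1 ⊢
  constructor <;> linarith [h1.1, h1.2]

end

end Pool.Agent.TH268.PD
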