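import Pool.Agent.W805.LR.Cons

/-!
# Random stirring and random transpositions: definitions

`TT F` is the average of `F` after the multiplication by the transposition of two independent
uniform points.  `Cls B x y F`: the function `F` of a permutation depends only on its cycle structure
with the points of `B` marked, and changes its sign when the points `x`, `y` of `B` are exchanged as
values of the permutation.
-/

set_option autoImplicit false

namespace Pool.Agent.TH268.PD

open Finset Equiv

variable {V : Type} [Fintype V] [DecidableEq V]

/-- the average over the multiplication by the transposition of two random points -/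
noncomputable def TT (F : Perm V → ℝ) (g : Perm V) : ℝ :=
  (∑ a, ∑ b, F (g * swap a b)) / (Fintype.card V : ℝ) ^ 2

/-- one or two steps -/
noncomputable def QQ (F : Perm V → ℝ) (g : Perm V) : ℝ := (TT F g + TT (TT F) g) / 2

/-- the `m - 1` points before `x` on its cycle are not in `B` -/
def Far (B : Finset V) (g : Perm V) (x : V) (m : ℕ) : Prop :=
  ∀ p : ℕ, 1 ≤ p → p < m → ((g⁻¹) ^ p) x ∉ B

/-- functions of the cycle structure with marked points `B`, antisymmetric in `x` and `y` -/
structure Cls (B : Finset V) (x y : V) (F : Perm V → ℝ) : Prop where
  conj : ∀ w g : Perm V, (∀ v ∈ B, w v = v) → F (w * g * w⁻¹) = F g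
  anti : ∀ g : Perm V, F (swap x y * g) = - F g

/-- the constant of the contraction -/
noncomputable def kap (N : ℕ) (m : ℕ) : ℝ :=
  (∑ e ∈ Finset.Ico 1 (m - 1), ((m : ℝ) - 1 - e) * e * ((m : ℝ) - 1)) / (N : ℝ) ^ 4

end Pool.Agent.TH268.PD
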