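import Pool.Agent.TH268.PD.Top

set_option autoImplicit false

namespace Pool.Agent.TH268.PD

open Finset Equiv

/-- second moment of a sum of independent centred variables -/
lemma var_sum_sq {V : Type} [Fintype V] (a : V → ℝ) (ha : ∑ v, a v = 0) (k : ℕ) :
    ∑ b : Fin k → V, (∑ l, a (b l)) ^ 2
      = k * (Fintype.card V : ℝ) ^ (k - 1) * ∑ v, a v ^ 2 := by
  induction k with
  | zero => simp
  | succ k ih =>
    have h1 : ∑ b : Fin (k + 1) → V, (∑ l, a (b l)) ^ 2
        = ∑ x : V × (Fin k → V), (a x.1 + ∑ l, a (x.2 l)) ^ 2 := by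
      rw [← Fintype.sum_equiv (Fin.consEquiv (fun _ : Fin (k + 1) => V))
        (fun x => (a x.1 + ∑ l, a (x.2 l)) ^ 2) (fun b => (∑ l, a (b l)) ^ 2)]
      intro x
      simp [Fin.consEquiv, Fin.sum_univ_succ]
    have h2 : ∀ v : V, ∑ b : Fin k → V, (a v + ∑ l, a (b l)) ^ 2
        = (Fintype.card V : ℝ) ^ k * a v ^ 2 + 2 * a v * (∑ b : Fin k → V, ∑ l, a (b l))
          + ∑ b : Fin k → V, (∑ l, a (b l)) ^ 2 := by
      intro v
      have : ∀ b : Fin k → V, (a v + ∑ l, a (b l)) ^ 2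
          = a v ^ 2 + 2 * a v * (∑ l, a (b l)) + (∑ l, a (b l)) ^ 2 := fun b => by ring
      simp_rw [this]
      rw [sum_add_distrib, sum_add_distrib, ← mul_sum]
      simp
    rw [h1, Fintype.sum_prod_type]
    simp only
    simp_rw [h2]
    rw [sum_add_distrib, sum_add_distrib, ← mul_sum, ← sum_mul, ← mul_sum, ha, ih]
    simp only [sum_const, card_univ, nsmul_eq_mul, Nat.add_sub_cancel]
    rcases Nat.eq_zero_or_pos k with rfl | hk
    · simp
    · obtain ⟨j, rfl⟩ : ∃ j, k = j + 1 := ⟨k - 1, by omega⟩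
      simp only [Nat.add_sub_cancel]
      push_cast
      ring

lemma var_card {V Γ : Type} [Fintype V] [DecidableEq Γ] (q : V → Γ) (γ : Γ) :
    (Nat.card {v : V // q v = γ} : ℝ) = ∑ v, if q v = γ then (1 : ℝ) else 0 := by
  rw [Nat.card_eq_fintype_card, Fintype.card_subtype, ← Finset.sum_boole]

/-- the mean square of the difference between the sample frequencies and the frequencies -/
theorem var_bound {V Γ : Type} [Fintype V] [Nonempty V] [Fintype Γ] [DecidableEq Γ] (q : V → Γ)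
    (k : ℕ) (hk : 0 < k) :
    ∑ b : Fin k → V, ∑ γ, ((Nat.card {v : V // q v = γ} : ℝ) / Fintype.card V -
      (Nat.card {l : Fin k // q (b l) = γ} : ℝ) / k) ^ 2 ≤ (Fintype.card V : ℝ) ^ k / k := by
  have hN : (0 : ℝ) < Fintype.card V := by exact_mod_cast Fintype.card_pos
  have hk' : (0 : ℝ) < k := by exact_mod_cast hk
  rw [sum_comm]
  have key : ∀ γ : Γ, ∑ b : Fin k → V, ((Nat.card {v : V // q v = γ} : ℝ) / Fintype.card V -
      (Nat.card {l : Fin k // q (b l) = γ} : ℝ) / k) ^ 2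
      ≤ (Fintype.card V : ℝ) ^ (k - 1) / k * ∑ v, if q v = γ then (1 : ℝ) else 0 := by
    intro γ
    set n : ℝ := ∑ v, if q v = γ then (1 : ℝ) else 0 with hn
    set N : ℝ := (Fintype.card V : ℝ) with hNdef
    set a : V → ℝ := fun v => (if q v = γ then (1 : ℝ) else 0) - n / N with hadef
    have ha : ∑ v, a v = 0 := by
      simp only [hadef, sum_sub_distrib, sum_const, card_univ, nsmul_eq_mul]
      rw [← hn, ← hNdef]
      field_simp
      ring
    have hterm : ∀ b : Fin k → V, ((Nat.card {v : V // q v = γ} : ℝ) / N -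
        (Nat.card {l : Fin k // q (b l) = γ} : ℝ) / k) ^ 2 = (1 / k) ^ 2 * (∑ l, a (b l)) ^ 2 := by
      intro b
      have hc : (Nat.card {l : Fin k // q (b l) = γ} : ℝ)
          = ∑ l, if q (b l) = γ then (1 : ℝ) else 0 := var_card (fun l => q (b l)) γ
      rw [var_card q γ, hc, ← hn]
      have : ∑ l, a (b l) = (∑ l, if q (b l) = γ then (1 : ℝ) else 0) - k * (n / N) := by
        simp [hadef, sum_sub_distrib]
      rw [this]
      field_simp
      ring
    simp_rw [hterm]
    rw [← mul_sum, var_sum_sq a ha k]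
    have hsq : ∑ v, a v ^ 2 ≤ n := by
      have h1 : ∀ v, a v ^ 2 = (if q v = γ then (1 : ℝ) else 0)
          - 2 * (n / N) * (if q v = γ then (1 : ℝ) else 0) + (n / N) ^ 2 := by
        intro v
        simp only [hadef]
        split_ifs <;> ring
      simp_rw [h1]
      rw [sum_add_distrib, sum_sub_distrib, ← mul_sum, ← hn]
      simp only [sum_const, card_univ, nsmul_eq_mul]
      rw [← hNdef]
      have : n - 2 * (n / N) * n + N * (n / N) ^ 2 = n - n ^ 2 / N := by
        field_simp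
        ring
      rw [this]
      have : 0 ≤ n ^ 2 / N := by positivity
      linarith
    have hc : (0 : ℝ) ≤ (1 / k) ^ 2 * (k * N ^ (k - 1)) := by positivity
    calc (1 / (k : ℝ)) ^ 2 * (k * N ^ (k - 1) * ∑ v, a v ^ 2)
        = (1 / k) ^ 2 * (k * N ^ (k - 1)) * ∑ v, a v ^ 2 := by ring
      _ ≤ (1 / k) ^ 2 * (k * N ^ (k - 1)) * n := mul_le_mul_of_nonneg_left hsq hc
      _ = N ^ (k - 1) / k * n := by field_simp
  calc _ ≤ ∑ γ, (Fintype.card V : ℝ) ^ (k - 1) / k * ∑ v, (if q v = γ then (1 : ℝ) else 0) :=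
        sum_le_sum fun γ _ => key γ
    _ = (Fintype.card V : ℝ) ^ (k - 1) / k * ∑ v : V, ∑ γ, (if q v = γ then (1 : ℝ) else 0) := by
        rw [← mul_sum, sum_comm]
    _ = (Fintype.card V : ℝ) ^ (k - 1) / k * Fintype.card V := by
        simp
    _ = (Fintype.card V : ℝ) ^ k / k := by
        obtain ⟨j, rfl⟩ : ∃ j, k = j + 1 := ⟨k - 1, by omega⟩
        simp only [Nat.add_sub_cancel]
        rw [pow_succ]
        ring

end Pool.Agent.TH268.PD
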