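import Pool.Agent.TH268.PD.TopLip
import Pool.Agent.TH268.PD.Var
import Pool.Agent.TH268.PD.Bad

/-!
# Ordered cycle lengths from random points

The ordered cycle lengths of a permutation are close to the ordered relative lengths of the cycles
of the permutation induced by `k` random points among the points in long cycles.
-/

set_option autoImplicit false

namespace Pool.Agent.TH268.PD

open Finset Equiv
open Pool.Agent.W805.LR (len cnt)

variable {V : Type} [Fintype V] [DecidableEq V]

namespace Sample

theorem top_scale_le {Γ : Type} [Finite Γ] (u : Γ → ℝ) (hu : ∀ γ, 0 ≤ u γ) (c : ℝ) (hc : 0 < c)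
    (i : ℕ) : top (fun γ => u γ * c) i ≤ top u i * c := by
  have h0 : 0 ≤ top u i := top_nonneg u hu i
  refine Real.sSup_le (fun x hx => ?_) (mul_nonneg h0 hc.le)
  simp only [Set.mem_ofPred_eq] at hx
  have h1 : x / c ≤ top u i := by
    refine le_csSup (top_set_bdd u i) ?_
    simp only [Set.mem_ofPred_eq]
    refine hx.trans (le_of_eq ?_)
    exact Nat.card_congr (Equiv.subtypeEquivRight fun γ => (div_le_iff₀ hc).symm)
  rwa [div_le_iff₀ hc] at h1

theorem top_scale {Γ : Type} [Finite Γ] (u : Γ → ℝ) (hu : ∀ γ, 0 ≤ u γ) (c : ℝ) (hc : 0 < c)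
    (i : ℕ) : top (fun γ => u γ * c) i = top u i * c := by
  apply le_antisymm (top_scale_le u hu c hc i)
  have h := top_scale_le (fun γ => u γ * c) (fun γ => mul_nonneg (hu γ) hc.le) c⁻¹
    (inv_pos.2 hc) i
  have h2 : (fun γ => u γ * c * c⁻¹) = u := by
    funext γ
    rw [mul_assoc, mul_inv_cancel₀ hc.ne', mul_one]
  rw [h2] at h
  rwa [← div_eq_mul_inv, le_div_iff₀ hc] at h

omit [Fintype V] [DecidableEq V] in
theorem cyOf_eq (g : Perm V) (v w : V) : cyOf g w = cyOf g v ↔ g.SameCycle v w := by
  have h : cyOf g w = cyOf g v ↔ g.SameCycle w v := Quotient.eq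
  rw [h]
  exact ⟨fun h => h.symm, fun h => h.symm⟩

omit [DecidableEq V] in
theorem cnt_card (P : V → Prop) : cnt P = (Nat.card {v : V // P v} : ℝ) := by
  classical
  rw [Bad.cnt_eq, Nat.card_eq_fintype_card, Fintype.card_subtype]

omit [DecidableEq V] in
theorem len_card (g : Perm V) (v : V) : len g v = (Nat.card {w : V // cyOf g w = cyOf g v} : ℝ) := by
  unfold len
  rw [cnt_card]
  congr 1
  exact Nat.card_congr (Equiv.subtypeEquivRight fun w => (cyOf_eq g v w).symm)

omit [DecidableEq V] in
theorem len_eq_of (g : Perm V) (v w : V) (h : cyOf g w = cyOf g v) : len g w = len g v := by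
  rw [len_card, len_card, h]

omit [DecidableEq V] in
/-- the frequencies among the points in long cycles -/
theorem freq_close (g : Perm V) (s : ℝ) (hs : 0 < s) (n : ℝ) (hn : 0 < n) (γ : Cyc g) :
    |(Nat.card {w : {v : V // s ≤ len g v} // cyOf g w.1 = γ} : ℝ) / n -
      (Nat.card {v : V // cyOf g v = γ} : ℝ) / n| ≤ s / n := by
  obtain ⟨v0, rfl⟩ : ∃ v, cyOf g v = γ := Quotient.exists_rep γ
  by_cases hl : s ≤ len g v0
  · have h1 : Nat.card {w : {v : V // s ≤ len g v} // cyOf g w.1 = cyOf g v0} =
        Nat.card {v : V // cyOf g v = cyOf g v0} := by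
      refine Nat.card_congr ⟨fun w => ⟨w.1.1, w.2⟩, fun v => ⟨⟨v.1, ?_⟩, v.2⟩, ?_, ?_⟩
      · rw [len_eq_of g v0 v.1 v.2]; exact hl
      · intro w; rfl
      · intro v; rfl
    rw [h1, sub_self, abs_zero]
    positivity
  · have h1 : Nat.card {w : {v : V // s ≤ len g v} // cyOf g w.1 = cyOf g v0} = 0 := by
      rw [Nat.card_eq_zero]
      left
      refine ⟨fun w => hl ?_⟩
      have h2 := w.1.2
      rwa [len_eq_of g v0 w.1.1 w.2] at h2
    rw [h1, Nat.cast_zero, zero_div, zero_sub, abs_neg, ← len_card]
    have h3 : 0 ≤ len g v0 := by rw [len_card]; positivity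
    rw [abs_of_nonneg (div_nonneg h3 hn.le)]
    push Not at hl
    gcongr

end Sample

open Classical in
/-- the ordered cycle lengths from the cycles of random points among the points in long cycles -/
theorem sample_bound (k : ℕ) (hk : 0 < k) (g : Perm V) (s : ℝ) (hs : 0 < s)
    (r : (Fin k → V) → Perm (Fin k))
    (hr : ∀ b, Function.Injective b → ∀ i j, (r b).SameCycle i j ↔ g.SameCycle (b i) (b j))
    (m : ℕ) (f : (Fin m → ℝ) → ℝ) (C Λ : ℝ) (hΛ : 0 ≤ Λ) (hC : ∀ u, |f u| ≤ C)
    (hf : ∀ (u v : Fin m → ℝ) (e : ℝ), 0 ≤ e → (∀ i, |u i - v i| ≤ e) → |f u - f v| ≤ Λ * e) :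
    |(∑ b : Fin k → V, if Function.Injective b ∧ ∀ i, s ≤ len g (b i) then
        f (fun i => top (frac (r b)) i) else 0) -
      (cnt fun v => s ≤ len g v) ^ k *
        f (fun i => top (frac g) i * Fintype.card V / cnt fun v => s ≤ len g v)| ≤
    (cnt fun v => s ≤ len g v) ^ k * (Λ * (1 / Real.sqrt k + s / cnt fun v => s ≤ len g v)) +
      C * ((k : ℝ) ^ 2 * (Fintype.card V : ℝ) ^ (k - 1)) := by
  have hC0 : 0 ≤ C := (abs_nonneg _).trans (hC (fun _ => 0))
  have hkR : (0 : ℝ) < k := by exact_mod_cast hk
  set n : ℝ := cnt fun v => s ≤ len g v with hn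
  have hncard : n = (Nat.card {v : V // s ≤ len g v} : ℝ) := Sample.cnt_card _
  rcases isEmpty_or_nonempty {v : V // s ≤ len g v} with hE | hE
  · have hn0 : n = 0 := by
      rw [hncard, Nat.card_of_isEmpty, Nat.cast_zero]
    have hsum : (∑ b : Fin k → V, if Function.Injective b ∧ ∀ i, s ≤ len g (b i) then
        f (fun i => top (frac (r b)) i) else 0) = 0 := by
      refine Finset.sum_eq_zero fun b _ => if_neg ?_
      rintro ⟨_, h2⟩
      exact hE.false ⟨b ⟨0, hk⟩, h2 _⟩
    rw [hsum, hn0, zero_pow hk.ne', zero_mul, zero_mul, sub_zero, abs_zero, zero_add]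
    positivity
  · have hnpos : 0 < n := by
      rw [hncard]
      exact_mod_cast Nat.card_pos
    have hNpos : (0 : ℝ) < Fintype.card V := by
      obtain ⟨v⟩ := hE
      exact_mod_cast Fintype.card_pos_iff.2 ⟨v.1⟩
    have hWcard : (Fintype.card {v : V // s ≤ len g v} : ℝ) = n := by
      rw [hncard, Nat.card_eq_fintype_card]
    have hfinC : Finite (Cyc g) := Quotient.finite _
    have : Fintype (Cyc g) := Fintype.ofFinite _
    set P : ℝ := f (fun i => top (frac g) i * Fintype.card V / n) with hP
    -- the sum over tuples of points in long cycles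
    have hsum : (∑ b : Fin k → V, if Function.Injective b ∧ ∀ i, s ≤ len g (b i) then
        f (fun i => top (frac (r b)) i) else 0) =
        ∑ b' : Fin k → {v : V // s ≤ len g v}, if Function.Injective b' then
          f (fun i => top (frac (r (fun l => (b' l).1))) i) else 0 := by
      have e1 : (∑ b : Fin k → V, if Function.Injective b ∧ ∀ i, s ≤ len g (b i) then
          f (fun i => top (frac (r b)) i) else 0) =
          ∑ b ∈ univ.filter (fun b : Fin k → V => ∀ i, s ≤ len g (b i)),
            if Function.Injective b then f (fun i => top (frac (r b)) i) else 0 := by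
        rw [Finset.sum_filter]
        refine Finset.sum_congr rfl fun b _ => ?_
        by_cases h1 : ∀ i, s ≤ len g (b i)
        · simp [h1]
        · simp [h1]
      rw [e1]
      symm
      refine Finset.sum_bij' (fun b' _ => fun l => (b' l).1)
        (fun b hb => fun l => ⟨b l, (Finset.mem_filter.1 hb).2 l⟩) ?_ ?_ ?_ ?_ ?_
      · intro b' _
        exact Finset.mem_filter.2 ⟨Finset.mem_univ _, fun i => (b' i).2⟩
      · intro b _
        exact Finset.mem_univ _
      · intro b' _
        rfl
      · intro b _
        rfl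
      · intro b' _
        have h1 : Function.Injective b' ↔ Function.Injective (fun l => (b' l).1) := by
          constructor
          · intro h x y hxy
            exact h (Subtype.ext hxy)
          · intro h x y hxy
            exact h (congrArg Subtype.val hxy)
        by_cases h2 : Function.Injective b'
        · rw [if_pos h2, if_pos (h1.1 h2)]
        · rw [if_neg h2, if_neg (fun h => h2 (h1.2 h))]
    set M : (Fin k → {v : V // s ≤ len g v}) → ℝ := fun b' =>
      Real.sqrt (∑ γ : Cyc g, ((Nat.card {w : {v : V // s ≤ len g v} // cyOf g w.1 = γ} : ℝ) /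
        Fintype.card {v : V // s ≤ len g v} -
        (Nat.card {l : Fin k // cyOf g (b' l).1 = γ} : ℝ) / k) ^ 2) with hM
    have hM0 : ∀ b', 0 ≤ M b' := fun b' => Real.sqrt_nonneg _
    have hMle : ∀ b' γ, |(Nat.card {w : {v : V // s ≤ len g v} // cyOf g w.1 = γ} : ℝ) /
        Fintype.card {v : V // s ≤ len g v} -
        (Nat.card {l : Fin k // cyOf g (b' l).1 = γ} : ℝ) / k| ≤ M b' := by
      intro b' γ
      apply Real.abs_le_sqrt
      exact Finset.single_le_sum (f := fun γ =>
        ((Nat.card {w : {v : V // s ≤ len g v} // cyOf g w.1 = γ} : ℝ) /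
        Fintype.card {v : V // s ≤ len g v} -
        (Nat.card {l : Fin k // cyOf g (b' l).1 = γ} : ℝ) / k) ^ 2)
        (fun γ _ => sq_nonneg _) (Finset.mem_univ γ)
    have hcardfun : (Fintype.card (Fin k → {v : V // s ≤ len g v}) : ℝ) = n ^ k := by
      rw [Fintype.card_fun, Fintype.card_fin]
      push_cast
      rw [hWcard]
    -- the sum of the errors
    have hMsum : ∑ b', M b' ≤ n ^ k * (1 / Real.sqrt k) := by
      have h1 := sq_sum_le_card_mul_sum_sq (s := (Finset.univ :
        Finset (Fin k → {v : V // s ≤ len g v}))) (f := M)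
      have h2 : ∑ b', M b' ^ 2 ≤ n ^ k / k := by
        have h3 := var_bound (fun w : {v : V // s ≤ len g v} => cyOf g w.1) k hk
        rw [hWcard] at h3
        refine le_trans (le_of_eq ?_) h3
        refine Finset.sum_congr rfl fun b' _ => ?_
        rw [hM]
        simp only
        rw [Real.sq_sqrt (Finset.sum_nonneg fun γ _ => sq_nonneg _), hWcard]
      rw [Finset.card_univ, hcardfun] at h1
      have h4 : (∑ b', M b') ^ 2 ≤ (n ^ k * (1 / Real.sqrt k)) ^ 2 := by
        refine h1.trans ((mul_le_mul_of_nonneg_left h2 (by positivity)).trans (le_of_eq ?_))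
        rw [mul_pow, div_pow, Real.sq_sqrt hkR.le]
        ring
      exact (pow_le_pow_iff_left₀ (Finset.sum_nonneg fun b' _ => hM0 b') (by positivity)
        two_ne_zero).1 h4
    -- one tuple
    have hone : ∀ b' : Fin k → {v : V // s ≤ len g v},
        |(if Function.Injective b' then
          f (fun i => top (frac (r (fun l => (b' l).1))) i) else 0) - P| ≤
        Λ * (M b' + s / n) + (if Function.Injective b' then 0 else C) := by
      intro b'
      by_cases hb : Function.Injective b'
      · rw [if_pos hb, if_pos hb, add_zero]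
        have hb2 : Function.Injective (fun l => (b' l).1) := fun x y hxy => hb (Subtype.ext hxy)
        refine hf _ _ _ (add_nonneg (hM0 b') (by positivity)) fun i => ?_
        rw [top_ret hk (fun l => (b' l).1) g (r fun l => (b' l).1) (hr _ hb2) i]
        have hfr : ∀ γ : Cyc g, 0 ≤ frac g γ := fun γ => by unfold frac; positivity
        have hsc : top (frac g) i * Fintype.card V / n =
            top (fun γ : Cyc g => frac g γ * (Fintype.card V / n)) i := by
          rw [Sample.top_scale (frac g) hfr _ (by positivity) i, mul_div_assoc]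
        rw [hsc]
        refine top_lip _ _ (fun γ => by positivity)
          (fun γ => mul_nonneg (hfr γ) (by positivity)) _
          (add_nonneg (hM0 b') (by positivity)) (fun γ => ?_) i
        have h1 := hMle b' γ
        have h2 := Sample.freq_close g s hs n hnpos γ
        rw [hWcard, abs_sub_comm] at h1
        have h3 : frac g γ * (Fintype.card V / n) =
            (Nat.card {v : V // cyOf g v = γ} : ℝ) / n := by
          unfold frac
          field_simp
        rw [h3]
        calc |(Nat.card {l : Fin k // cyOf g (b' l).1 = γ} : ℝ) / k -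
              (Nat.card {v : V // cyOf g v = γ} : ℝ) / n|
            ≤ |(Nat.card {l : Fin k // cyOf g (b' l).1 = γ} : ℝ) / k -
              (Nat.card {w : {v : V // s ≤ len g v} // cyOf g w.1 = γ} : ℝ) / n| +
              |(Nat.card {w : {v : V // s ≤ len g v} // cyOf g w.1 = γ} : ℝ) / n -
              (Nat.card {v : V // cyOf g v = γ} : ℝ) / n| := abs_sub_le _ _ _
          _ ≤ M b' + s / n := add_le_add h1 h2
      · rw [if_neg hb, if_neg hb, zero_sub, abs_neg]
        have h1 : 0 ≤ Λ * (M b' + s / n) :=
          mul_nonneg hΛ (add_nonneg (hM0 b') (by positivity))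
        have h2 : |P| ≤ C := hC _
        linarith
    -- tuples which are not injective
    have hnon : ∑ b' : Fin k → {v : V // s ≤ len g v}, (if Function.Injective b' then 0 else C) ≤
        C * ((k : ℝ) ^ 2 * (Fintype.card V : ℝ) ^ (k - 1)) := by
      have h1 : ∑ b' : Fin k → {v : V // s ≤ len g v}, (if Function.Injective b' then 0 else C) =
          C * (Nat.card {b' : Fin k → {v : V // s ≤ len g v} // ¬ Function.Injective b'} : ℝ) := by
        rw [Nat.card_eq_fintype_card, Fintype.card_subtype, Finset.card_filter, Nat.cast_sum,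
          Finset.mul_sum]
        refine Finset.sum_congr rfl fun b' _ => ?_
        by_cases hb : Function.Injective b'
        · simp [hb]
        · simp [hb]
      rw [h1]
      refine mul_le_mul_of_nonneg_left (le_trans ?_ (card_noninj k)) hC0
      have h2 : Nat.card {b' : Fin k → {v : V // s ≤ len g v} // ¬ Function.Injective b'} ≤
          Nat.card {b : Fin k → V // ¬ Function.Injective b} := by
        refine Nat.card_le_card_of_injective
          (fun b' => (⟨fun l => (b'.1 l).1, fun h => b'.2 fun x y hxy =>
            h (congrArg Subtype.val hxy)⟩ : {b : Fin k → V // ¬ Function.Injective b})) ?_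
        intro x y hxy
        apply Subtype.ext
        funext l
        apply Subtype.ext
        exact congrFun (congrArg (fun t => t.1) hxy) l
      exact_mod_cast h2
    rw [hsum]
    have hconst : n ^ k * P = ∑ _b' : Fin k → {v : V // s ≤ len g v}, P := by
      rw [Finset.sum_const, Finset.card_univ, nsmul_eq_mul, hcardfun]
    rw [hconst, ← Finset.sum_sub_distrib]
    calc |∑ b' : Fin k → {v : V // s ≤ len g v}, ((if Function.Injective b' then
          f (fun i => top (frac (r (fun l => (b' l).1))) i) else 0) - P)|
        ≤ ∑ b' : Fin k → {v : V // s ≤ len g v}, |(if Function.Injective b' then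
          f (fun i => top (frac (r (fun l => (b' l).1))) i) else 0) - P| :=
          Finset.abs_sum_le_sum_abs _ _
      _ ≤ ∑ b' : Fin k → {v : V // s ≤ len g v}, (Λ * (M b' + s / n) +
          (if Function.Injective b' then 0 else C)) := Finset.sum_le_sum fun b' _ => hone b'
      _ = Λ * (∑ b', M b' + n ^ k * (s / n)) +
          ∑ b' : Fin k → {v : V // s ≤ len g v}, (if Function.Injective b' then 0 else C) := by
          rw [Finset.sum_add_distrib, ← Finset.mul_sum, Finset.sum_add_distrib,
            Finset.sum_const, Finset.card_univ, nsmul_eq_mul, hcardfun]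
      _ ≤ Λ * (n ^ k * (1 / Real.sqrt k) + n ^ k * (s / n)) +
          C * ((k : ℝ) ^ 2 * (Fintype.card V : ℝ) ^ (k - 1)) := by
          gcongr
      _ = _ := by ring

end Pool.Agent.TH268.PD
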