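import Pool.Agent.TH268.PD.Wgt

/-!
# Choice of the scales, with weights
-/

set_option autoImplicit false

namespace Pool.Agent.TH268.PD

open Finset Equiv
open Pool.Agent.W805.LR (len cnt)

theorem errB_mono {N m m1 m1' n : ℕ} {ε : ℝ} (hε : 0 ≤ ε) (h : m1' ≤ m1) :
    errB N m m1' n ε ≤ errB N m m1 n ε := by
  unfold errB
  have h1 : (m1' : ℝ) / N ≤ (m1 : ℝ) / N :=
    div_le_div_of_nonneg_right (by exact_mod_cast h) (by positivity)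
  have h2 : (n : ℝ) * (3 * ((m1' : ℝ) / N)) ≤ n * (3 * ((m1 : ℝ) / N)) :=
    mul_le_mul_of_nonneg_left (by linarith) (by positivity)
  have h3 : (n : ℝ) * (1 + n * (3 * ((m1' : ℝ) / N))) * ε ≤
      n * (1 + n * (3 * ((m1 : ℝ) / N))) * ε :=
    mul_le_mul_of_nonneg_right (mul_le_mul_of_nonneg_left (by linarith) (by positivity)) hε
  linarith

theorem Good.mono {η δ δ' δ'' : ℝ} {N₀ : ℕ} {ε₀ : ℝ} (h : Good η δ δ' N₀ ε₀) (h1 : δ'' ≤ δ') :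
    Good η δ δ'' N₀ ε₀ := by
  obtain ⟨n, hn⟩ := h
  refine ⟨n, fun N hN ε h0 h2 => ?_⟩
  obtain ⟨h3, h4, h5⟩ := hn N hN ε h0 h2
  refine ⟨(errB_mono h0 (Nat.ceil_mono ?_)).trans h3, h4, h5⟩
  exact mul_le_mul_of_nonneg_right h1 (by positivity)

theorem scales2 (η : ℝ) (hη : 0 < η) (δ₀ : ℝ) (hδ : 0 < δ₀) (hδ1 : δ₀ ≤ 1) (Λ : ℝ)
    (hΛ : 0 ≤ Λ) :
    ∃ (Δ : ℕ → ℝ) (N₀ : ℕ → ℕ) (ε₀ : ℕ → ℝ), Δ 0 = δ₀ ∧ Antitone Δ ∧ (∀ r, 0 < Δ r) ∧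
      (∀ r, 0 < ε₀ r) ∧ (∀ r, Good η (Δ r) (Δ (r + 1)) (N₀ r) (ε₀ r)) ∧
      ∀ r, 4 * (Λ * Δ (r + 1)) ≤ ε₀ r := by
  have hstep : ∀ δ : {δ : ℝ // 0 < δ ∧ δ ≤ 1}, ∃ δ' : {δ : ℝ // 0 < δ ∧ δ ≤ 1},
      δ'.1 ≤ δ.1 ∧ ∃ N₀ : ℕ, ∃ ε₀ : ℝ, 0 < ε₀ ∧ Good η δ.1 δ'.1 N₀ ε₀ ∧
        4 * (Λ * δ'.1) ≤ ε₀ := by
    rintro ⟨δ, h1, h2⟩
    obtain ⟨δ', h3, h4, N₀, ε₀, h5, h6⟩ := scale_step η hη δ h1 h2
    have h7 : 0 < ε₀ / (4 * (Λ + 1)) := by positivity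
    refine ⟨⟨min δ' (ε₀ / (4 * (Λ + 1))), lt_min h3 h7,
      (min_le_left _ _).trans (h4.trans h2)⟩, (min_le_left _ _).trans h4, N₀, ε₀, h5,
      h6.mono (min_le_left _ _), ?_⟩
    have h8 : Λ * min δ' (ε₀ / (4 * (Λ + 1))) ≤ Λ * (ε₀ / (4 * (Λ + 1))) :=
      mul_le_mul_of_nonneg_left (min_le_right _ _) hΛ
    have h9 : (Λ + 1) * (ε₀ / (4 * (Λ + 1))) = ε₀ / 4 := by field_simp
    have h10 : Λ * (ε₀ / (4 * (Λ + 1))) ≤ (Λ + 1) * (ε₀ / (4 * (Λ + 1))) :=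
      mul_le_mul_of_nonneg_right (by linarith) h7.le
    linarith
  choose f hf hf2 using hstep
  choose N hN using hf2
  choose E hE hG hL using hN
  refine ⟨fun r => (f^[r] ⟨δ₀, hδ, hδ1⟩).1, fun r => N (f^[r] ⟨δ₀, hδ, hδ1⟩),
    fun r => E (f^[r] ⟨δ₀, hδ, hδ1⟩), rfl, ?_, fun r => (f^[r] ⟨δ₀, hδ, hδ1⟩).2.1,
    fun r => hE _, fun r => ?_, fun r => ?_⟩
  · refine antitone_nat_of_succ_le fun r => ?_
    rw [Function.iterate_succ_apply']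
    exact hf _
  · have := hG (f^[r] ⟨δ₀, hδ, hδ1⟩)
    rw [← Function.iterate_succ_apply' f r] at this
    exact this
  · have := hL (f^[r] ⟨δ₀, hδ, hδ1⟩)
    rw [← Function.iterate_succ_apply' f r] at this
    exact this

/-- **The core theorem with weights.** -/
theorem wcore (k : ℕ) (Λ : ℝ) (hΛ : 0 ≤ Λ) (η : ℝ) (hη : 0 < η) :
    ∃ δ₁ : ℝ, 0 < δ₁ ∧ ∃ N₀ : ℕ, ∃ ε₀ : ℝ, 0 < ε₀ ∧
      ∀ (V : Type) [Fintype V] [DecidableEq V] [Nonempty V], Contr V → N₀ ≤ Fintype.card V →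
        ∀ (μ : Perm V → ℝ) (ε : ℝ), (∀ g, 0 ≤ μ g) → ∑ g, μ g = 1 →
          (∀ (F : Perm V → ℝ) (K : ℝ), (∀ g, |F g| ≤ K) →
            |∑ g, μ g * TT F g - ∑ g, μ g * F g| ≤ K * ε) → 0 ≤ ε → ε ≤ ε₀ →
          ∃ δ δ' : ℝ, δ₁ ≤ δ' ∧ δ' ≤ δ ∧ δ ≤ η ∧
            ∑ g, μ g * (mas (δ' * Fintype.card V) g - mas (δ * Fintype.card V) g) ≤ η ∧
            ∀ w : ℝ → ℝ, (∀ x, 0 ≤ w x) → (∀ x, w x ≤ 1) →
              (∀ x y, |w x - w y| ≤ Λ * |x - y|) → ∀ π : Perm (Fin k),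
              |LL k (fun g => μ g * w (mas (δ' * Fintype.card V) g)) (δ * Fintype.card V) π -
                (∑ σ, LL k (fun g => μ g * w (mas (δ' * Fintype.card V) g))
                  (δ * Fintype.card V) σ) / (k.factorial : ℝ)| ≤ η := by
  obtain ⟨η', hη'⟩ : ∃ η' : ℝ, η' = η / (40 * (k + 1)) := ⟨_, rfl⟩
  have hη'0 : 0 < η' := by rw [hη']; positivity
  obtain ⟨δ₀, hδ₀⟩ : ∃ δ₀ : ℝ, δ₀ = min (min 1 η) (η / (24 * ((k : ℝ) ^ 2 + 1))) := ⟨_, rfl⟩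
  have hδ₀p : 0 < δ₀ := by rw [hδ₀]; positivity
  have hδ₀1 : δ₀ ≤ 1 := by rw [hδ₀]; exact (min_le_left _ _).trans (min_le_left _ _)
  have hδ₀η : δ₀ ≤ η := by rw [hδ₀]; exact (min_le_left _ _).trans (min_le_right _ _)
  have hδ₀k : δ₀ ≤ η / (24 * ((k : ℝ) ^ 2 + 1)) := by rw [hδ₀]; exact min_le_right _ _
  obtain ⟨Δ, N₀, ε₀, hΔ0, hanti, hΔpos, hεpos, hgood, hΛΔ⟩ := scales2 η' hη'0 δ₀ hδ₀p hδ₀1 Λ hΛ
  obtain ⟨R, hR⟩ := exists_nat_gt (1 / η')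
  have hR0 : 0 < R := by
    have : (0 : ℝ) < R := lt_trans (by positivity) hR
    exact_mod_cast this
  obtain ⟨N2, hN2⟩ := exists_nat_gt (24 * ((k : ℝ) ^ 2 + 1) / η)
  obtain ⟨e0, he0, he0'⟩ : ∃ e0 : ℝ, 0 < e0 ∧ ∀ r < R, e0 ≤ ε₀ r := by
    have hne : (range R).Nonempty := ⟨0, Finset.mem_range.2 hR0⟩
    refine ⟨(range R).inf' hne ε₀, ?_, fun r hr =>
      Finset.inf'_le _ (Finset.mem_range.2 hr)⟩
    exact (Finset.lt_inf'_iff hne).2 fun r _ => hεpos r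
  refine ⟨Δ R, hΔpos R, max ((range R).sup N₀) (max N2 1), e0 / 4, by positivity, ?_⟩
  intro V _ _ _ hC hN μ ε hμ hμ1 hε hε0 hεe
  have hNpos : (0 : ℝ) < Fintype.card V := by exact_mod_cast Fintype.card_pos
  have hN2' : N2 ≤ Fintype.card V := (le_max_left _ _).trans ((le_max_right _ _).trans hN)
  -- the pigeonhole
  have hsum := WW_sum k μ hμ hμ1 (fun r => ⌈Δ r * Fintype.card V⌉₊)
    (fun a b hab => Nat.ceil_mono (mul_le_mul_of_nonneg_right (hanti hab) hNpos.le)) R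
  obtain ⟨X, hX⟩ : ∃ X : ℕ → ℝ, X = fun r => ∑ g, μ g *
    (mas (Δ (r + 1) * Fintype.card V) g - mas (Δ r * Fintype.card V) g) := ⟨_, rfl⟩
  have hX0 : ∀ r, 0 ≤ X r := by
    intro r
    rw [hX]
    refine Finset.sum_nonneg fun g _ => mul_nonneg (hμ g) ?_
    have := mas_anti (mul_le_mul_of_nonneg_right (hanti (Nat.le_succ r)) hNpos.le) g
    rw [Nat.succ_eq_add_one] at this
    linarith
  have hXsum : ∑ r ∈ range R, X r ≤ 1 := by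
    rw [hX, Finset.sum_comm]
    refine le_of_le_of_eq (Finset.sum_le_sum (g := μ) fun g _ => ?_) hμ1
    rw [← Finset.mul_sum, Finset.sum_range_sub (fun r => mas (Δ r * Fintype.card V) g)]
    refine mul_le_of_le_one_right (hμ g) ?_
    have h1 := mas_le_one (Δ R * Fintype.card V) g
    have h2 := mas_nonneg (Δ 0 * Fintype.card V) g
    linarith
  have hWnn : ∀ m1 m : ℕ, 0 ≤ WW k μ m1 m := by
    classical
    intro m1 m
    unfold WW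
    refine div_nonneg (Finset.sum_nonneg fun b _ => ?_) (by positivity)
    split_ifs
    · refine Finset.sum_nonneg fun g _ => mul_nonneg (hμ g) ?_
      split_ifs <;> norm_num
    · exact le_rfl
  obtain ⟨r, hr, hrW⟩ : ∃ r ∈ range R, WW k μ ⌈Δ (r + 1) * Fintype.card V⌉₊
      ⌈Δ r * Fintype.card V⌉₊ + X r ≤ 2 / R := by
    by_contra hcon
    push Not at hcon
    have h1 : ∑ _r ∈ range R, (2 / (R : ℝ)) < ∑ r ∈ range R,
        (WW k μ ⌈Δ (r + 1) * Fintype.card V⌉₊ ⌈Δ r * Fintype.card V⌉₊ + X r) :=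
      Finset.sum_lt_sum_of_nonempty ⟨0, Finset.mem_range.2 hR0⟩ hcon
    rw [Finset.sum_const, Finset.card_range, nsmul_eq_mul, Finset.sum_add_distrib] at h1
    have h2 : (R : ℝ) * (2 / R) = 2 := by
      have : (R : ℝ) ≠ 0 := by positivity
      field_simp
    rw [h2] at h1
    linarith
  have hrR : r < R := Finset.mem_range.1 hr
  have hRη : (2 : ℝ) / R ≤ 2 * η' := by
    have hRp : (0 : ℝ) < R := by exact_mod_cast hR0
    rw [div_le_iff₀ hRp]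
    rw [div_lt_iff₀ hη'0] at hR
    linarith
  have hη'η : 2 * η' ≤ η := by
    have h4 : (40 * (k + 1 : ℝ)) * η' = η := by rw [hη']; field_simp
    have : (0 : ℝ) ≤ k := by positivity
    nlinarith
  obtain ⟨n, hn⟩ := hgood r
  have hNr : N₀ r ≤ Fintype.card V :=
    (Finset.le_sup (f := N₀) hr).trans ((le_max_left _ _).trans hN)
  have hεr := he0' r hrR
  obtain ⟨herr, hk0, hk1⟩ := hn _ hNr ε hε0 (by linarith)
  have hρ0 : 0 ≤ Λ * (2 * Δ (r + 1)) := by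
    have := hΔpos (r + 1)
    positivity
  obtain ⟨herr2, _, _⟩ := hn _ hNr (2 * ε + Λ * (2 * Δ (r + 1))) (by linarith) (by
    have := hΛΔ r
    linarith)
  refine ⟨Δ r, Δ (r + 1), hanti hrR, hanti (Nat.le_succ r), ?_, ?_, fun w hw0 hw1 hwL π => ?_⟩
  · refine le_trans ?_ hδ₀η
    rw [← hΔ0]
    exact hanti (Nat.zero_le r)
  · have h1 := hWnn ⌈Δ (r + 1) * Fintype.card V⌉₊ ⌈Δ r * Fintype.card V⌉₊
    have h2 : X r ≤ η := by linarith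
    rw [hX] at h2
    exact h2
  have hmain := LL_wunif hC k μ ε hμ hμ1 hε hε0 ⌈Δ r * Fintype.card V⌉₊
    ⌈Δ (r + 1) * Fintype.card V⌉₊
    (Nat.ceil_mono (mul_le_mul_of_nonneg_right (hanti (Nat.le_succ r)) hNpos.le)) hk0 hk1
    (fun g => w (mas (Δ (r + 1) * Fintype.card V) g)) (fun g => hw0 _) (fun g => hw1 _)
    (Λ * (2 * Δ (r + 1))) (fun g a b => (hwL _ _).trans
      (mul_le_mul_of_nonneg_left (mas_swap g a b _ (hΔpos _).le) hΛ)) π n η' herr herr2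
  have e1 : ∀ σ : Perm (Fin k), LL k (fun g => μ g * w (mas (Δ (r + 1) * Fintype.card V) g))
      (Δ r * Fintype.card V) σ = LL k (fun g => μ g * w (mas (Δ (r + 1) * Fintype.card V) g))
        (⌈Δ r * Fintype.card V⌉₊ : ℝ) σ := fun σ => LL_ceil k _ _ σ
  rw [Finset.sum_congr rfl fun σ _ => e1 σ, e1 π]
  refine hmain.trans ?_
  have h2 : (k : ℝ) * (η' + 2 * WW k μ ⌈Δ (r + 1) * Fintype.card V⌉₊
      ⌈Δ r * Fintype.card V⌉₊) ≤ η / 8 := by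
    have h3 : (k : ℝ) * (η' + 2 * WW k μ ⌈Δ (r + 1) * Fintype.card V⌉₊
        ⌈Δ r * Fintype.card V⌉₊) ≤ k * (5 * η') :=
      mul_le_mul_of_nonneg_left (by linarith [hX0 r]) (by positivity)
    refine h3.trans ?_
    have h4 : (40 * (k + 1 : ℝ)) * η' = η := by rw [hη']; field_simp
    nlinarith
  have h5 : 2 * ((k : ℝ) ^ 2 * (⌈Δ r * Fintype.card V⌉₊ : ℝ) / Fintype.card V) ≤ η / 6 := by
    have h6 : (⌈Δ r * Fintype.card V⌉₊ : ℝ) ≤ δ₀ * Fintype.card V + 1 := by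
      have h7 := (Nat.ceil_lt_add_one (show 0 ≤ Δ r * Fintype.card V from
        mul_nonneg (hΔpos r).le hNpos.le)).le
      have h8 : Δ r ≤ δ₀ := by rw [← hΔ0]; exact hanti (Nat.zero_le r)
      have h9 := mul_le_mul_of_nonneg_right h8 hNpos.le
      linarith
    have h10 : 1 ≤ η / (24 * ((k : ℝ) ^ 2 + 1)) * Fintype.card V := by
      have h11 : 24 * ((k : ℝ) ^ 2 + 1) / η < Fintype.card V :=
        hN2.trans_le (by exact_mod_cast hN2')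
      rw [div_lt_iff₀ hη] at h11
      rw [div_mul_eq_mul_div, le_div_iff₀ (by positivity)]
      linarith
    have h12 : (⌈Δ r * Fintype.card V⌉₊ : ℝ) ≤
        2 * (η / (24 * ((k : ℝ) ^ 2 + 1))) * Fintype.card V := by
      have h13 := mul_le_mul_of_nonneg_right hδ₀k hNpos.le
      linarith
    rw [mul_div_assoc', div_le_iff₀ hNpos]
    have h14 : (k : ℝ) ^ 2 * (⌈Δ r * Fintype.card V⌉₊ : ℝ) ≤
        (k : ℝ) ^ 2 * (2 * (η / (24 * ((k : ℝ) ^ 2 + 1))) * Fintype.card V) :=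
      mul_le_mul_of_nonneg_left h12 (by positivity)
    have h15 : (k : ℝ) ^ 2 * (2 * (η / (24 * ((k : ℝ) ^ 2 + 1)))) ≤ η / 12 := by
      have h16 : (k : ℝ) ^ 2 * (2 * (η / (24 * ((k : ℝ) ^ 2 + 1)))) =
          η / 12 * ((k : ℝ) ^ 2 / ((k : ℝ) ^ 2 + 1)) := by
        field_simp
        ring
      rw [h16]
      refine mul_le_of_le_one_right (by positivity) ?_
      rw [div_le_one (by positivity)]
      linarith
    have h17 := mul_le_mul_of_nonneg_right h15 hNpos.le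
    nlinarith
  linarith

end Pool.Agent.TH268.PD
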