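import Pool.Agent.TH268.PD.Top

/-!
# Uniform permutations: the recursion for the cycle partition; counting long cycles (helper81)
-/

set_option autoImplicit false

namespace Pool.Agent.TH268.PD

open Finset Equiv

namespace Rec

/-- the product of the factorials of the multiplicities and of the parts -/
def zz (N : ℕ) (m : Multiset ℕ) : ℕ := m.prod * ∏ n ∈ range (N + 1), (m.count n).factorial

lemma zz_pos {N : ℕ} {m : Multiset ℕ} (h : ∀ a ∈ m, 0 < a) : 0 < zz N m :=
  Nat.mul_pos (Multiset.prod_pos h) (Finset.prod_pos fun n _ => Nat.factorial_pos _)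

lemma zz_erase {N l : ℕ} {m : Multiset ℕ} (hl : l ∈ m) (hN : l ≤ N) :
    zz N m = zz N (m.erase l) * (l * m.count l) := by
  unfold zz
  have h1 : m.prod = l * (m.erase l).prod := by
    rw [← Multiset.prod_cons, Multiset.cons_erase hl]
  have h2 : ∏ n ∈ range (N + 1), (m.count n).factorial =
      (∏ n ∈ range (N + 1), ((m.erase l).count n).factorial) * m.count l := by
    have hmem : l ∈ range (N + 1) := Finset.mem_range.2 (by omega)
    rw [← Finset.mul_prod_erase _ _ hmem, ← Finset.mul_prod_erase _ (fun n =>
      ((m.erase l).count n).factorial) hmem]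
    have h3 : ∏ n ∈ (range (N + 1)).erase l, ((m.erase l).count n).factorial =
        ∏ n ∈ (range (N + 1)).erase l, (m.count n).factorial := by
      refine Finset.prod_congr rfl fun n hn => ?_
      rw [Multiset.count_erase_of_ne (Finset.ne_of_mem_erase hn)]
    rw [h3, Multiset.count_erase_self]
    have h4 : 0 < m.count l := Multiset.count_pos.2 hl
    obtain ⟨c, hc⟩ : ∃ c, m.count l = c + 1 := ⟨m.count l - 1, by omega⟩
    rw [hc, Nat.factorial_succ, Nat.add_sub_cancel]
    ring
  rw [h1, h2]
  ring

/-- the number of permutations with a given partition -/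
lemma card_part {α : Type} [Fintype α] [DecidableEq α] (p : (Fintype.card α).Partition) :
    #{σ : Perm α | σ.partition = p} * zz (Fintype.card α) p.parts = (Fintype.card α).factorial := by
  obtain ⟨m, hm⟩ : ∃ m, m = p.parts.filter (2 ≤ ·) := ⟨_, rfl⟩
  obtain ⟨c, hc⟩ : ∃ c, c = p.parts.count 1 := ⟨_, rfl⟩
  have hp : p.parts = m + Multiset.replicate c 1 := by
    have h1 := Multiset.filter_add_not (2 ≤ ·) p.parts
    have h2 : p.parts.filter (fun a => ¬ 2 ≤ a) = Multiset.replicate c 1 := by
      rw [hc, ← Multiset.filter_eq']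
      refine Multiset.filter_congr fun a ha => ?_
      have := p.parts_pos ha
      omega
    rw [h2, ← hm] at h1
    exact h1.symm
  have hm2 : ∀ a ∈ m, 2 ≤ a := fun a ha => by
    rw [hm] at ha
    exact (Multiset.mem_filter.1 ha).2
  have hsum : m.sum + c = Fintype.card α := by
    have h1 := p.parts_sum
    rw [hp, Multiset.sum_add, Multiset.sum_replicate, smul_eq_mul, mul_one] at h1
    exact h1
  have hiff : ∀ σ : Perm α, σ.partition = p ↔ σ.cycleType = m := by
    intro σ
    constructor
    · intro h
      rw [← Perm.filter_parts_partition_eq_cycleType, h, hm]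
    · intro h
      apply Nat.Partition.ext
      rw [Perm.parts_partition, hp, h]
      congr 2
      rw [← Perm.sum_cycleType, h]
      omega
  have h1 : ({σ : Perm α | σ.partition = p} : Finset (Perm α)) =
      ({σ : Perm α | σ.cycleType = m} : Finset (Perm α)) := by
    ext σ
    rw [Finset.mem_filter, Finset.mem_filter, hiff]
  have h2 := Perm.card_of_cycleType_mul_eq α m
  rw [if_pos ⟨by omega, hm2⟩] at h2
  rw [h1, ← h2]
  congr 1
  have h3 : Fintype.card α - m.sum = c := by omega
  rw [h3]
  unfold zz
  rw [hp, Multiset.prod_add, Multiset.prod_replicate, one_pow, mul_one, mul_comm c.factorial,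
    mul_assoc]
  congr 1
  have hcount : ∀ n, n ≠ 1 → (m + Multiset.replicate c 1).count n = m.count n := by
    intro n hn
    rw [Multiset.count_add, Multiset.count_replicate, if_neg (Ne.symm hn), add_zero]
  have hm1 : m.count 1 = 0 := by
    rw [Multiset.count_eq_zero]
    intro h
    have := hm2 1 h
    omega
  have hc1 : (m + Multiset.replicate c 1).count 1 = c := by
    rw [Multiset.count_add, Multiset.count_replicate_self, hm1, zero_add]
  have hmle : ∀ a ∈ m, a ≤ Fintype.card α := fun a ha =>
    (Multiset.le_sum_of_mem ha).trans (by omega)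
  by_cases h0 : Fintype.card α = 0
  · have hm0 : m = 0 := by
      rw [Multiset.eq_zero_iff_forall_notMem]
      intro a ha
      have h4 := hm2 a ha
      have h5 := hmle a ha
      omega
    have hc0 : c = 0 := by omega
    rw [h0, hm0, hc0]
    simp
  · have hmem : 1 ∈ range (Fintype.card α + 1) := Finset.mem_range.2 (by omega)
    rw [← Finset.mul_prod_erase _ _ hmem, hc1]
    congr 1
    rw [Finset.prod_congr rfl fun n hn => by
      rw [hcount n (Finset.ne_of_mem_erase hn)]]
    symm
    refine Finset.prod_subset ?_ ?_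
    · intro n hn
      rw [Multiset.mem_toFinset] at hn
      rw [Finset.mem_erase, Finset.mem_range]
      have h4 := hm2 n hn
      have h5 := hmle n hn
      exact ⟨by omega, by omega⟩
    · intro n _ hn
      rw [Multiset.mem_toFinset] at hn
      rw [Multiset.count_eq_zero.2 hn, Nat.factorial_zero]

lemma card_part' {α : Type} [Fintype α] [DecidableEq α] (p : (Fintype.card α).Partition) {N : ℕ}
    (hN : Fintype.card α = N) :
    #{σ : Perm α | σ.partition = p} * zz N p.parts = N.factorial := by
  subst hN
  exact card_part p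

lemma sum_cast {a b : ℕ} (h : a = b) (F : Multiset ℕ → ℝ) :
    ∑ p : a.Partition, F p.parts = ∑ p : b.Partition, F p.parts := by
  subst h
  rfl

/-- the average over the permutations as a sum over the partitions -/
lemma avg (k : ℕ) (N : ℕ) (hN : k = N) (G : Multiset ℕ → ℝ) :
    (∑ σ : Perm (Fin k), G σ.partition.parts) / (k.factorial : ℝ) =
      ∑ p : k.Partition, G p.parts / zz N p.parts := by
  subst hN
  have h1 : ∑ σ : Perm (Fin k), G σ.partition.parts =
      ∑ p : (Fintype.card (Fin k)).Partition, (#{σ : Perm (Fin k) | σ.partition = p} : ℝ) *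
        G p.parts := by
    rw [← Finset.sum_fiberwise (s := (univ : Finset (Perm (Fin k)))) (g := fun σ => σ.partition)]
    refine Finset.sum_congr rfl fun p _ => ?_
    rw [Finset.sum_congr rfl fun σ hσ => by rw [(Finset.mem_filter.1 hσ).2], Finset.sum_const,
      nsmul_eq_mul]
  rw [h1, Finset.sum_div, ← sum_cast (Fintype.card_fin k) (fun m => G m / zz k m)]
  refine Finset.sum_congr rfl fun p _ => ?_
  have h2 := card_part' p (Fintype.card_fin k)
  have h3 : 0 < zz k p.parts := zz_pos fun a ha => p.parts_pos ha
  have h4 : (0 : ℝ) < zz k p.parts := by exact_mod_cast h3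
  rw [← h2]
  push_cast
  have h5 : (#{σ : Perm (Fin k) | σ.partition = p} : ℝ) ≠ 0 := by
    intro h6
    have h7 : #{σ : Perm (Fin k) | σ.partition = p} = 0 := by exact_mod_cast h6
    rw [h7, zero_mul] at h2
    exact (Nat.factorial_pos k).ne h2
  rw [mul_div_mul_left _ _ h5]

end Rec

open Rec in
/-- the cycle through a point of a uniform permutation has uniform length, and the rest is a
uniform permutation -/
theorem perm_rec (k : ℕ) (hk : 0 < k) (G : Multiset ℕ → ℝ) :
    (∑ σ : Perm (Fin k), G σ.partition.parts) / (k.factorial : ℝ) =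
      (∑ l ∈ Finset.Icc 1 k, (∑ σ : Perm (Fin (k - l)), G (l ::ₘ σ.partition.parts)) /
        ((k - l).factorial : ℝ)) / k := by
  have hz : ∀ m : Multiset ℕ, (∀ a ∈ m, 0 < a) → ((zz k m : ℕ) : ℝ) ≠ 0 := fun m hm => by
    have := zz_pos (N := k) hm
    positivity
  have h1 : ∀ l ∈ Finset.Icc 1 k, (∑ σ : Perm (Fin (k - l)), G (l ::ₘ σ.partition.parts)) /
      ((k - l).factorial : ℝ) =
        ∑ p : k.Partition, G p.parts / zz k p.parts * (l * p.parts.count l) := by
    intro l hl
    obtain ⟨hl1, hlk⟩ := Finset.mem_Icc.1 hl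
    rw [avg (k - l) (k - l) rfl (fun m => G (l ::ₘ m))]
    have h2 : ∀ q : (k - l).Partition, zz (k - l) q.parts = zz k q.parts := by
      intro q
      unfold zz
      congr 1
      refine Finset.prod_subset (Finset.range_subset_range.2 (by omega)) fun n _ hn => ?_
      rw [Finset.mem_range] at hn
      have h3 : q.parts.count n = 0 := by
        rw [Multiset.count_eq_zero]
        intro h4
        have := Nat.Partition.le_of_mem_parts h4
        omega
      rw [h3, Nat.factorial_zero]
    simp only [h2]
    rw [← (Nat.Partition.partitionWithPartEquiv hl1 hlk).sum_comp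
      (fun q : (k - l).Partition => G (l ::ₘ q.parts) / (zz k q.parts : ℝ))]
    have h3 : ∀ p : {p : k.Partition // l ∈ p.parts},
        G (l ::ₘ (Nat.Partition.partitionWithPartEquiv hl1 hlk p).parts) /
          (zz k (Nat.Partition.partitionWithPartEquiv hl1 hlk p).parts : ℝ) =
        G p.1.parts / zz k p.1.parts * (l * p.1.parts.count l) := by
      intro p
      rw [Nat.Partition.partitionWithPartEquiv_apply_parts, Multiset.cons_erase p.2]
      have h4 := zz_erase p.2 hlk
      have h5 := hz p.1.parts fun a ha => p.1.parts_pos ha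
      have h6 := hz (p.1.parts.erase l) fun a ha => p.1.parts_pos (Multiset.mem_of_mem_erase ha)
      rw [h4] at h5 ⊢
      push_cast at h5 ⊢
      have h7 : (l : ℝ) * (p.1.parts.count l : ℝ) ≠ 0 := fun h8 => h5 (by rw [h8, mul_zero])
      rw [div_mul_eq_mul_div, mul_div_mul_right _ _ h7]
    rw [Finset.sum_congr rfl fun p _ => h3 p]
    rw [← Finset.sum_subtype (F := _) (univ.filter fun p : k.Partition => l ∈ p.parts)
      (fun p => by simp)
      (fun p : k.Partition => G p.parts / zz k p.parts * (l * p.parts.count l)),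
      Finset.sum_filter]
    refine Finset.sum_congr rfl fun p _ => ?_
    split_ifs with h5
    · rfl
    · rw [Multiset.count_eq_zero.2 h5, Nat.cast_zero, mul_zero, mul_zero]
  rw [Finset.sum_congr rfl h1, Finset.sum_comm, avg k k rfl G, Finset.sum_div]
  refine Finset.sum_congr rfl fun p _ => ?_
  rw [← Finset.mul_sum]
  have h2 : ∑ l ∈ Finset.Icc 1 k, ((l : ℝ) * (p.parts.count l : ℝ)) = k := by
    have h3 : ∑ l ∈ Finset.Icc 1 k, p.parts.count l • l = k := by
      have h4 := Finset.sum_multiset_count p.parts
      rw [p.parts_sum] at h4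
      refine Eq.trans ?_ h4.symm
      symm
      refine Finset.sum_subset (fun l hl => ?_) fun l _ hl => ?_
      · rw [Multiset.mem_toFinset] at hl
        exact Finset.mem_Icc.2 ⟨p.parts_pos hl, Nat.Partition.le_of_mem_parts hl⟩
      · rw [Multiset.mem_toFinset] at hl
        rw [Multiset.count_eq_zero.2 hl, zero_smul]
    have h5 : ((∑ l ∈ Finset.Icc 1 k, p.parts.count l • l : ℕ) : ℝ) = k := by rw [h3]
    rw [← h5]
    push_cast
    refine Finset.sum_congr rfl fun l _ => ?_
    rw [smul_eq_mul]
    push_cast
    ring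
  rw [h2]
  have hk' : (k : ℝ) ≠ 0 := by positivity
  field_simp

namespace Rec

lemma cy_eq {W : Type} (h : Perm W) (w w' : W) : cyOf h w' = cyOf h w ↔ h.SameCycle w' w := by
  unfold cyOf
  exact Quotient.eq

/-- the size of the cycle of a point -/
lemma size_eq {W : Type} [Fintype W] [DecidableEq W] (h : Perm W) (w : W) :
    Nat.card {w' : W // cyOf h w' = cyOf h w} =
      if w ∈ h.support then (h.cycleOf w).support.card else 1 := by
  classical
  rw [Nat.card_eq_fintype_card, Fintype.card_subtype]
  split_ifs with hw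
  · congr 1
    ext y
    rw [Finset.mem_filter, Perm.mem_support_cycleOf_iff, cy_eq]
    exact ⟨fun h1 => ⟨h1.2.symm, hw⟩, fun h1 => ⟨Finset.mem_univ _, h1.1.symm⟩⟩
  · rw [Finset.card_eq_one]
    refine ⟨w, ?_⟩
    ext y
    rw [Finset.mem_filter, Finset.mem_singleton, cy_eq]
    constructor
    · rintro ⟨-, h1⟩
      exact (h1.symm.eq_of_left (Perm.notMem_support.1 hw)).symm
    · rintro rfl
      exact ⟨Finset.mem_univ _, Perm.SameCycle.refl _ _⟩

open Classical in
/-- sums over the cycles -/
lemma sum_cyc {W : Type} [Fintype W] [DecidableEq W] (h : Perm W) [Fintype (Cyc h)] (g : ℕ → ℚ) :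
    ∑ γ : Cyc h, g (Nat.card {w : W // cyOf h w = γ}) = (h.partition.parts.map g).sum := by
  have h1 : ∑ γ : Cyc h, g (Nat.card {w : W // cyOf h w = γ}) =
      ∑ w : W, g (Nat.card {w' : W // cyOf h w' = cyOf h w}) /
        (Nat.card {w' : W // cyOf h w' = cyOf h w} : ℚ) := by
    rw [← Finset.sum_fiberwise (s := (univ : Finset W)) (g := cyOf h)]
    refine Finset.sum_congr rfl fun γ _ => ?_
    have h2 : ∀ w ∈ (univ : Finset W).filter (fun w => cyOf h w = γ),
        g (Nat.card {w' : W // cyOf h w' = cyOf h w}) /
        (Nat.card {w' : W // cyOf h w' = cyOf h w} : ℚ) =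
        g (Nat.card {w : W // cyOf h w = γ}) / (Nat.card {w : W // cyOf h w = γ} : ℚ) := by
      intro w hw
      rw [(Finset.mem_filter.1 hw).2]
    rw [Finset.sum_congr rfl h2, Finset.sum_const, nsmul_eq_mul]
    have h3 : #{w : W | cyOf h w = γ} = Nat.card {w : W // cyOf h w = γ} := by
      rw [Nat.card_eq_fintype_card, Fintype.card_subtype]
    have h4 : 0 < Nat.card {w : W // cyOf h w = γ} := by
      obtain ⟨w, hw⟩ := Quotient.exists_rep γ
      have : Nonempty {w : W // cyOf h w = γ} := ⟨⟨w, hw⟩⟩
      exact Nat.card_pos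
    rw [h3]
    have h5 : (Nat.card {w : W // cyOf h w = γ} : ℚ) ≠ 0 := by exact_mod_cast h4.ne'
    field_simp
  rw [h1, Perm.parts_partition, Multiset.map_add, Multiset.sum_add, Multiset.map_replicate,
    Multiset.sum_replicate, Perm.cycleType_def, Multiset.map_map]
  simp only [size_eq]
  rw [← Finset.sum_add_sum_compl h.support]
  congr 1
  · have h2 : ∀ w ∈ h.support, g (if w ∈ h.support then (h.cycleOf w).support.card else 1) /
        ((if w ∈ h.support then (h.cycleOf w).support.card else 1 : ℕ) : ℚ) =
        g (h.cycleOf w).support.card / ((h.cycleOf w).support.card : ℚ) := by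
      intro w hw
      rw [if_pos hw]
    rw [Finset.sum_congr rfl h2, ← Finset.sum_fiberwise_of_maps_to (t := h.cycleFactorsFinset)
      (g := fun w => h.cycleOf w) (fun w hw => Perm.cycleOf_mem_cycleFactorsFinset_iff.2 hw)]
    change _ = ∑ c ∈ h.cycleFactorsFinset, g (c.support.card)
    refine Finset.sum_congr rfl fun c hc => ?_
    have h3 : h.support.filter (fun w => h.cycleOf w = c) = c.support := by
      ext w
      rw [Finset.mem_filter]
      constructor
      · rintro ⟨h4, h5⟩
        rw [← h5, Perm.mem_support_cycleOf_iff]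
        exact ⟨Perm.SameCycle.refl _ _, h4⟩
      · intro h4
        exact ⟨Perm.mem_cycleFactorsFinset_support_le hc h4, (Perm.cycle_is_cycleOf h4 hc).symm⟩
    rw [h3]
    have h4 : ∀ w ∈ c.support, g (h.cycleOf w).support.card / ((h.cycleOf w).support.card : ℚ) =
        g c.support.card / (c.support.card : ℚ) := by
      intro w hw
      rw [← Perm.cycle_is_cycleOf hw hc]
    rw [Finset.sum_congr rfl h4, Finset.sum_const, nsmul_eq_mul]
    have h5 : 0 < c.support.card := by
      have := (Perm.mem_cycleFactorsFinset_iff.1 hc).1.two_le_card_support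
      omega
    have h6 : (c.support.card : ℚ) ≠ 0 := by exact_mod_cast h5.ne'
    field_simp
  · have h2 : ∀ w ∈ h.supportᶜ, g (if w ∈ h.support then (h.cycleOf w).support.card else 1) /
        ((if w ∈ h.support then (h.cycleOf w).support.card else 1 : ℕ) : ℚ) = g 1 := by
      intro w hw
      rw [if_neg (Finset.mem_compl.1 hw), Nat.cast_one, div_one]
    rw [Finset.sum_congr rfl h2, Finset.sum_const, Finset.card_compl]

lemma card_filter_sum (p : ℕ → Prop) [DecidablePred p] (s : Multiset ℕ) :
    ((Multiset.card (Multiset.filter p s) : ℕ) : ℚ) = (s.map fun c => if p c then (1 : ℚ) else 0).sum := by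
  induction s using Multiset.induction_on with
  | empty => simp
  | cons a s ih =>
    rw [Multiset.map_cons, Multiset.sum_cons, ← ih]
    split_ifs with h
    · rw [Multiset.filter_cons_of_pos _ h, Multiset.card_cons]
      push_cast
      ring
    · rw [Multiset.filter_cons_of_neg _ h, zero_add]

end Rec

open Classical in
/-- the number of long cycles in terms of the partition of a permutation -/
theorem card_cyc {W : Type} [Fintype W] [DecidableEq W] (h : Perm W) (x : ℝ) :
    Nat.card {γ : Cyc h // x ≤ frac h γ} = Multiset.card (Multiset.filter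
      (fun c : ℕ => x ≤ (c : ℝ) / Fintype.card W) h.partition.parts) := by
  have : Finite (Cyc h) := Quotient.finite _
  have : Fintype (Cyc h) := Fintype.ofFinite _
  have h1 := Rec.sum_cyc h (fun c : ℕ => if x ≤ (c : ℝ) / Fintype.card W then (1 : ℚ) else 0)
  have h2 := Rec.card_filter_sum (fun c : ℕ => x ≤ (c : ℝ) / Fintype.card W) h.partition.parts
  rw [← h1, Finset.sum_boole] at h2
  have h3 : Nat.card {γ : Cyc h // x ≤ frac h γ} =
      #{γ : Cyc h | x ≤ ((Nat.card {w : W // cyOf h w = γ} : ℕ) : ℝ) / Fintype.card W} := by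
    rw [Nat.card_eq_fintype_card, Fintype.card_subtype]
    rfl
  rw [h3]
  exact_mod_cast h2.symm

end Pool.Agent.TH268.PD
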