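import Pool.Agent.TH268.PD.TopLip
import Pool.Agent.TH268.PD.Rec

/-! Uniform permutations converge to the Poisson-Dirichlet law, uniformly in the scaling
(job 3824, helper921). -/

set_option autoImplicit false

namespace Pool.Agent.TH268.PD

open Finset Equiv Filter Topology MeasureTheory

/-- the `i`-th largest of the stick breaking lengths `U_j ∏_{l<j} (1 - U_l)` -/
noncomputable def stick (U : ℕ → unitInterval) (i : ℕ) : ℝ :=
  sSup {x : ℝ | ((i + 1 : ℕ) : ℕ∞) ≤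
    Set.encard {j : ℕ | x ≤ (U j : ℝ) * ∏ l ∈ Finset.range j, (1 - (U l : ℝ))}}

/-- the mean with respect to the Poisson-Dirichlet law -/
noncomputable def pdm {m : ℕ} (f : (Fin m → ℝ) → ℝ) : ℝ :=
  ∫ U, f (fun i : Fin m => stick U i)
    ∂(Measure.infinitePi (fun _ : ℕ => (volume : Measure unitInterval)))

/-- (= job 3738, being proved as `pd_limit` in `Lim.lean`) -/
def PDLimit : Prop :=
  ∀ (E : ℕ → (Multiset ℕ → ℝ) → ℝ), (∀ G, E 0 G = G 0) →
    (∀ k : ℕ, 0 < k → ∀ G, E k G = (∑ l ∈ Finset.Icc 1 k, E (k - l) (fun s => G (l ::ₘ s))) / k) →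
    ∀ (m : ℕ) (f : (Fin m → ℝ) → ℝ), Continuous f → ∀ C : ℝ, (∀ x, |f x| ≤ C) →
    Tendsto (fun k => E k (fun s => f (fun i : Fin m => sSup {x : ℝ | (i : ℕ) + 1 ≤
        Multiset.card (Multiset.filter (fun c : ℕ => x ≤ (c : ℝ) / k) s)}))) atTop
      (𝓝 (pdm f))

/-- the mean over uniform permutations of `k` points -/
noncomputable def um {m : ℕ} (k : ℕ) (f : (Fin m → ℝ) → ℝ) : ℝ :=
  (∑ σ : Perm (Fin k), f (fun i : Fin m => top (frac σ) i)) / (k.factorial : ℝ)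

namespace Unif

/-- the mean of a function of the cycle partition -/
noncomputable def EP (k : ℕ) (G : Multiset ℕ → ℝ) : ℝ :=
  (∑ σ : Perm (Fin k), G σ.partition.parts) / (k.factorial : ℝ)

lemma EP_zero (G : Multiset ℕ → ℝ) : EP 0 G = G 0 := by
  have h : ∀ σ : Perm (Fin 0), σ.partition.parts = 0 := by
    intro σ
    refine Multiset.eq_zero_of_forall_notMem fun a ha => ?_
    have h1 := σ.partition.parts_pos ha
    have h2 := Multiset.le_sum_of_mem ha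
    have h3 := σ.partition.parts_sum
    have h4 : Fintype.card (Fin 0) = 0 := Fintype.card_fin 0
    omega
  unfold EP
  rw [Finset.sum_congr rfl fun σ _ => by rw [h σ], Finset.sum_const, Finset.card_univ,
    Fintype.card_perm, Fintype.card_fin]
  simp

lemma EP_rec (k : ℕ) (hk : 0 < k) (G : Multiset ℕ → ℝ) :
    EP k G = (∑ l ∈ Finset.Icc 1 k, EP (k - l) (fun s => G (l ::ₘ s))) / k :=
  perm_rec k hk G

/-- pointwise convergence -/
lemma lim_um (h : PDLimit) {m : ℕ} {f : (Fin m → ℝ) → ℝ} (hf : Continuous f) {C : ℝ}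
    (hC : ∀ u, |f u| ≤ C) : Tendsto (fun k => um k f) atTop (𝓝 (pdm f)) := by
  refine (h EP EP_zero EP_rec m f hf C hC).congr fun k => ?_
  unfold EP um
  congr 1
  refine Finset.sum_congr rfl fun σ _ => ?_
  refine congrArg f (funext fun i => ?_)
  unfold top
  congr 1
  ext x
  have hcc : ∀ (n : ℕ) (s : Multiset ℕ), n = k →
      Multiset.card (Multiset.filter (fun c : ℕ => x ≤ (c : ℝ) / n) s) =
        Multiset.card (Multiset.filter (fun c : ℕ => x ≤ (c : ℝ) / k) s) := by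
    rintro n s rfl
    rfl
  rw [Set.mem_ofPred_eq, Set.mem_ofPred_eq, card_cyc σ x, hcc _ _ (Fintype.card_fin k)]

lemma frac_nonneg {k : ℕ} (σ : Perm (Fin k)) (γ : Cyc σ) : 0 ≤ frac σ γ := by
  unfold frac
  positivity

lemma frac_le_one {k : ℕ} (σ : Perm (Fin k)) (γ : Cyc σ) : frac σ γ ≤ 1 := by
  unfold frac
  apply div_le_one_of_le₀ _ (Nat.cast_nonneg _)
  rw [← Nat.card_eq_fintype_card]
  exact_mod_cast Nat.card_le_card_of_injective _ Subtype.val_injective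

lemma top_mem {k : ℕ} (σ : Perm (Fin k)) (i : ℕ) : 0 ≤ top (frac σ) i ∧ top (frac σ) i ≤ 1 := by
  have hfin : Finite (Cyc σ) := Quotient.finite _
  exact ⟨top_nonneg _ (frac_nonneg σ) i, top_le_one _ (frac_nonneg σ) (frac_le_one σ) i⟩

/-- the mean is monotone -/
lemma um_diff {m : ℕ} (k : ℕ) {F G : (Fin m → ℝ) → ℝ} {e : ℝ}
    (h : ∀ u : Fin m → ℝ, (∀ i, 0 ≤ u i ∧ u i ≤ 1) → |F u - G u| ≤ e) :
    |um k F - um k G| ≤ e := by
  have hk : (0 : ℝ) < k.factorial := by exact_mod_cast k.factorial_pos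
  unfold um
  rw [← sub_div, ← Finset.sum_sub_distrib, abs_div, abs_of_pos hk, div_le_iff₀ hk]
  refine (Finset.abs_sum_le_sum_abs _ _).trans ?_
  refine (Finset.sum_le_sum fun σ _ => h (fun i : Fin m => top (frac σ) i)
    fun i => top_mem σ i).trans ?_
  rw [Finset.sum_const, Finset.card_univ, Fintype.card_perm, Fintype.card_fin, nsmul_eq_mul,
    mul_comm]

lemma pdm_diff (h : PDLimit) {m : ℕ} {F G : (Fin m → ℝ) → ℝ} (hF : Continuous F)
    (hG : Continuous G) {C e : ℝ} (hFC : ∀ u, |F u| ≤ C) (hGC : ∀ u, |G u| ≤ C)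
    (hFG : ∀ u : Fin m → ℝ, (∀ i, 0 ≤ u i ∧ u i ≤ 1) → |F u - G u| ≤ e) :
    |pdm F - pdm G| ≤ e :=
  le_of_tendsto' ((lim_um h hF hFC).sub (lim_um h hG hGC)).abs fun k => um_diff k hFG

lemma cont_of {m : ℕ} {f : (Fin m → ℝ) → ℝ} {Λ : ℝ} (hΛ : 0 ≤ Λ)
    (hf : ∀ (u v : Fin m → ℝ) (e : ℝ), 0 ≤ e → (∀ i, |u i - v i| ≤ e) →
      |f u - f v| ≤ Λ * e) : Continuous f := by
  have h : LipschitzWith ⟨Λ, hΛ⟩ f := by
    refine LipschitzWith.of_dist_le_mul fun u v => ?_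
    rw [Real.dist_eq]
    refine hf u v (dist u v) dist_nonneg fun i => ?_
    rw [← Real.dist_eq]
    exact dist_le_pi_dist u v i
  exact h.continuous

lemma cont_scale {m : ℕ} {f : (Fin m → ℝ) → ℝ} (hf : Continuous f) (x : ℝ) :
    Continuous (fun u : Fin m → ℝ => f (fun i => x * u i)) :=
  hf.comp (by fun_prop)

lemma scale_diff {m : ℕ} {f : (Fin m → ℝ) → ℝ} {Λ : ℝ}
    (hf : ∀ (u v : Fin m → ℝ) (e : ℝ), 0 ≤ e → (∀ i, |u i - v i| ≤ e) →
      |f u - f v| ≤ Λ * e) (x y : ℝ) (u : Fin m → ℝ) (hu : ∀ i, 0 ≤ u i ∧ u i ≤ 1) :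
    |f (fun i => x * u i) - f (fun i => y * u i)| ≤ Λ * |x - y| := by
  refine hf _ _ _ (abs_nonneg _) fun i => ?_
  rw [← sub_mul, abs_mul, abs_of_nonneg (hu i).1]
  exact mul_le_of_le_one_right (abs_nonneg _) (hu i).2

end Unif

/-- the mean of the scaled function is Lipschitz in the scaling -/
theorem pdm_lip (h : PDLimit) (m : ℕ) (f : (Fin m → ℝ) → ℝ) (C Λ : ℝ) (hC : ∀ u, |f u| ≤ C)
    (hΛ : 0 ≤ Λ) (hf : ∀ (u v : Fin m → ℝ) (e : ℝ), 0 ≤ e → (∀ i, |u i - v i| ≤ e) →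
      |f u - f v| ≤ Λ * e) (x y : ℝ) :
    |pdm (fun u : Fin m → ℝ => f (fun i => x * u i)) -
      pdm (fun u : Fin m → ℝ => f (fun i => y * u i))| ≤ Λ * |x - y| := by
  have hc := Unif.cont_of hΛ hf
  exact Unif.pdm_diff h (Unif.cont_scale hc x) (Unif.cont_scale hc y) (fun _ => hC _)
    (fun _ => hC _) fun u hu => Unif.scale_diff hf x y u hu

/-- uniform permutations converge to the Poisson-Dirichlet law, uniformly in the scaling -/
theorem um_tendsto (h : PDLimit) (m : ℕ) (f : (Fin m → ℝ) → ℝ) (C Λ : ℝ) (hC : ∀ u, |f u| ≤ C)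
    (hΛ : 0 ≤ Λ) (hf : ∀ (u v : Fin m → ℝ) (e : ℝ), 0 ≤ e → (∀ i, |u i - v i| ≤ e) →
      |f u - f v| ≤ Λ * e) (η : ℝ) (hη : 0 < η) :
    ∃ k₀ : ℕ, ∀ k ≥ k₀, ∀ x : ℝ, 0 ≤ x → x ≤ 1 →
      |um k (fun u : Fin m → ℝ => f (fun i => x * u i)) -
        pdm (fun u : Fin m → ℝ => f (fun i => x * u i))| ≤ η := by
  have hc := Unif.cont_of hΛ hf
  obtain ⟨N, hN⟩ := exists_nat_gt (3 * (Λ + 1) / η)
  have hN0 : (0 : ℝ) < N := lt_of_le_of_lt (by positivity) hN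
  have hNη : Λ / N ≤ η / 3 := by
    rw [div_le_iff₀ hN0]
    rw [div_lt_iff₀ hη] at hN
    nlinarith
  have h1 : ∀ j : ℕ, ∃ k₀ : ℕ, ∀ k ≥ k₀,
      |um k (fun u : Fin m → ℝ => f (fun i => ((j : ℝ) / N) * u i)) -
        pdm (fun u : Fin m → ℝ => f (fun i => ((j : ℝ) / N) * u i))| ≤ η / 3 := by
    intro j
    have h2 := Unif.lim_um h (Unif.cont_scale hc ((j : ℝ) / N)) (C := C) (fun _ => hC _)
    rw [Metric.tendsto_atTop] at h2
    obtain ⟨k₀, hk⟩ := h2 (η / 3) (by positivity)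
    refine ⟨k₀, fun k hk' => ?_⟩
    have h3 := hk k hk'
    rw [Real.dist_eq] at h3
    exact h3.le
  choose k₀ hk₀ using h1
  refine ⟨(Finset.range (N + 1)).sup k₀, fun k hk x hx0 hx1 => ?_⟩
  obtain ⟨j, hj⟩ : ∃ j, j = ⌊x * N⌋₊ := ⟨_, rfl⟩
  have hjN : j ≤ N := by
    rw [hj]
    exact Nat.floor_le_of_le (by nlinarith)
  have hkj : k₀ j ≤ k := (Finset.le_sup (f := k₀) (Finset.mem_range.2 (by omega))).trans hk
  have hd : |x - j / N| ≤ 1 / N := by
    have a1 := Nat.floor_le (by positivity : 0 ≤ x * N)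
    have a2 := Nat.lt_floor_add_one (x * N)
    rw [← hj] at a1 a2
    have e : x - j / N = (x * N - j) / N := by field_simp
    rw [e, abs_of_nonneg (div_nonneg (by linarith) hN0.le)]
    exact div_le_div_of_nonneg_right (by linarith) hN0.le
  have h3 := hk₀ j k hkj
  have h4 : |um k (fun u : Fin m → ℝ => f (fun i => x * u i)) -
      um k (fun u : Fin m → ℝ => f (fun i => ((j : ℝ) / N) * u i))| ≤ Λ * |x - j / N| :=
    Unif.um_diff k fun u hu => Unif.scale_diff hf x _ u hu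
  have h5 := pdm_lip h m f C Λ hC hΛ hf x (j / N)
  have h6 : Λ * |x - j / N| ≤ η / 3 :=
    (mul_le_mul_of_nonneg_left hd hΛ).trans (by rw [mul_one_div]; exact hNη)
  rw [abs_le] at h3 h4 h5 ⊢
  constructor <;> linarith [h3.1, h3.2, h4.1, h4.2, h5.1, h5.2]

/-- only the values on the unit cube matter -/
theorem pdm_close (h : PDLimit) (m : ℕ) (f g : (Fin m → ℝ) → ℝ) (hf : Continuous f)
    (hg : Continuous g) (C : ℝ) (hC : ∀ u, |f u| ≤ C) (hC' : ∀ u, |g u| ≤ C) (ε : ℝ)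
    (hfg : ∀ u : Fin m → ℝ, (∀ i, 0 ≤ u i ∧ u i ≤ 1) → |f u - g u| ≤ ε) (x : ℝ) (hx0 : 0 ≤ x)
    (hx1 : x ≤ 1) :
    |pdm (fun u : Fin m → ℝ => f (fun i => x * u i)) -
      pdm (fun u : Fin m → ℝ => g (fun i => x * u i))| ≤ ε :=
  Unif.pdm_diff h (Unif.cont_scale hf x) (Unif.cont_scale hg x) (fun _ => hC _)
    (fun _ => hC' _) fun _ hu => hfg _ fun i =>
      ⟨mul_nonneg hx0 (hu i).1, mul_le_one₀ hx1 (hu i).1 (hu i).2⟩

end Pool.Agent.TH268.PD
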