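import Pool.Agent.TH268.PD.Bridge
import Pool.Agent.TH268.PD.Scale2
import Pool.Agent.TH268.PD.Sample
import Pool.Agent.TH268.PD.Unif

/-!
# The estimate for one permutation
-/

set_option autoImplicit false

namespace Pool.Agent.TH268.PD

open Finset Equiv
open Pool.Agent.W805.LR (len cnt)

/-- bounded Lipschitz weights -/
def BL (a : ℝ) (w : ℝ → ℝ) : Prop :=
  (∀ x, 0 ≤ w x) ∧ (∀ x, w x ≤ 1) ∧ ∀ x y, |w x - w y| ≤ a * |x - y|

theorem BL.mul {a b : ℝ} {v w : ℝ → ℝ} (hv : BL a v) (hw : BL b w) :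
    BL (a + b) (fun x => v x * w x) := by
  refine ⟨fun x => mul_nonneg (hv.1 x) (hw.1 x),
    fun x => mul_le_one₀ (hv.2.1 x) (hw.1 x) (hw.2.1 x), fun x y => ?_⟩
  have h1 := hv.2.2 x y
  have h2 := hw.2.2 x y
  have e : v x * w x - v y * w y = (v x - v y) * w x + v y * (w x - w y) := by ring
  rw [e]
  refine (abs_add_le _ _).trans ?_
  rw [abs_mul, abs_mul, abs_of_nonneg (hw.1 x), abs_of_nonneg (hv.1 y)]
  have h3 := mul_le_mul h1 (hw.2.1 x) (hw.1 x) ((abs_nonneg _).trans h1)
  have h4 := mul_le_mul (hv.2.1 y) h2 (abs_nonneg _) zero_le_one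
  linarith

theorem BL.pow {a : ℝ} {w : ℝ → ℝ} (hw : BL a w) (k : ℕ) : BL (k * a) (fun x => w x ^ k) := by
  induction k with
  | zero =>
    refine ⟨fun x => by simp, fun x => by simp, fun x y => by simp⟩
  | succ k ih =>
    have h := ih.mul hw
    have e1 : (fun x => w x ^ (k + 1)) = fun x => w x ^ k * w x := by
      funext x
      rw [pow_succ]
    rw [e1]
    have e2 : ((k + 1 : ℕ) : ℝ) * a = k * a + a := by push_cast; ring
    rw [e2]
    exact h

theorem BL.base {θ : ℝ} (hθ : 0 < θ) : BL (1 / θ) (fun x => θ / max θ x) := by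
  have h0 : ∀ x : ℝ, 0 < max θ x := fun x => lt_of_lt_of_le hθ (le_max_left _ _)
  refine ⟨fun x => (div_pos hθ (h0 x)).le, fun x => ?_, fun x y => ?_⟩
  · rw [div_le_one (h0 x)]
    exact le_max_left _ _
  · have h1 : θ / max θ x - θ / max θ y = θ * (max θ y - max θ x) / (max θ x * max θ y) := by
      have := (h0 x).ne'
      have := (h0 y).ne'
      field_simp
    have h2 : |max θ y - max θ x| ≤ |x - y| := by
      rw [max_comm θ y, max_comm θ x, abs_sub_comm x y]
      exact abs_max_sub_max_le_abs _ _ _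
    rw [h1, abs_div, abs_mul, abs_of_pos hθ, abs_of_pos (mul_pos (h0 x) (h0 y)),
      div_le_iff₀ (mul_pos (h0 x) (h0 y))]
    have h3 : θ * θ ≤ max θ x * max θ y :=
      mul_le_mul (le_max_left _ _) (le_max_left _ _) hθ.le (h0 x).le
    have h4 : 0 ≤ |x - y| := abs_nonneg _
    calc θ * |max θ y - max θ x| ≤ θ * |x - y| := mul_le_mul_of_nonneg_left h2 hθ.le
      _ = 1 / θ * |x - y| * (θ * θ) := by field_simp
      _ ≤ 1 / θ * |x - y| * (max θ x * max θ y) := mul_le_mul_of_nonneg_left h3 (by positivity)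

/-- the cutoff -/
noncomputable def cut (θ x : ℝ) : ℝ := min 1 (max 0 ((x - θ) / θ))

theorem BL.cut {θ : ℝ} (hθ : 0 < θ) : BL (1 / θ) (PD.cut θ) := by
  refine ⟨fun x => le_min zero_le_one (le_max_left _ _), fun x => min_le_left _ _, fun x y => ?_⟩
  unfold PD.cut
  have h1 : |(x - θ) / θ - (y - θ) / θ| = 1 / θ * |x - y| := by
    rw [← sub_div, abs_div, abs_of_pos hθ]
    have : x - θ - (y - θ) = x - y := by ring
    rw [this]
    ring
  rw [← h1]
  obtain ⟨a, ha⟩ : ∃ a, a = (x - θ) / θ := ⟨_, rfl⟩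
  obtain ⟨b, hb⟩ : ∃ b, b = (y - θ) / θ := ⟨_, rfl⟩
  rw [← ha, ← hb]
  have h2 := le_abs_self (a - b)
  have h3 := neg_abs_le (a - b)
  rw [abs_le]
  rcases le_total 0 a with h4 | h4 <;> rcases le_total 0 b with h5 | h5 <;>
    rcases le_total 1 a with h6 | h6 <;> rcases le_total 1 b with h7 | h7 <;>
    simp only [max_eq_right, max_eq_left, min_eq_left, min_eq_right, h4, h5, h6, h7,
      zero_le_one] <;> constructor <;> linarith

theorem cut_of_lt {θ x : ℝ} (hθ : 0 < θ) (h : x < θ) : cut θ x = 0 := by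
  unfold cut
  rw [max_eq_left (div_nonpos_of_nonpos_of_nonneg (by linarith) hθ.le),
    min_eq_right zero_le_one]

theorem cut_of_ge {θ x : ℝ} (hθ : 0 < θ) (h : 2 * θ ≤ x) : cut θ x = 1 := by
  unfold cut
  have h1 : 1 ≤ (x - θ) / θ := by
    rw [le_div_iff₀ hθ]
    linarith
  rw [max_eq_right (by linarith), min_eq_left h1]

/-- the weight of one induced permutation -/
noncomputable def wt {m : ℕ} (k : ℕ) (θ C : ℝ) (f : (Fin m → ℝ) → ℝ) (π : Perm (Fin k))
    (x : ℝ) : ℝ :=
  (θ / max θ x) ^ k * cut θ x * ((f (fun i => x * top (frac π) i) + C) / (2 * C))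

theorem wt_BL {m : ℕ} (k : ℕ) {θ C Λ : ℝ} (hθ : 0 < θ) (hC0 : 0 < C) (f : (Fin m → ℝ) → ℝ)
    (hC : ∀ u, |f u| ≤ C) (hΛ : 0 ≤ Λ)
    (hf : ∀ (u v : Fin m → ℝ) (e : ℝ), 0 ≤ e → (∀ i, |u i - v i| ≤ e) → |f u - f v| ≤ Λ * e)
    (π : Perm (Fin k)) : BL (k * (1 / θ) + 1 / θ + Λ / (2 * C)) (wt k θ C f π) := by
  have h1 : BL (Λ / (2 * C)) (fun x => (f (fun i => x * top (frac π) i) + C) / (2 * C)) := by
    refine ⟨fun x => ?_, fun x => ?_, fun x y => ?_⟩
    · have := (abs_le.1 (hC (fun i => x * top (frac π) i))).1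
      exact div_nonneg (by linarith) (by positivity)
    · have := (abs_le.1 (hC (fun i => x * top (frac π) i))).2
      rw [div_le_one (by positivity)]
      linarith
    · rw [← sub_div, abs_div, abs_of_pos (show 0 < 2 * C by positivity)]
      rw [div_mul_eq_mul_div]
      refine div_le_div_of_nonneg_right ?_ (by positivity)
      have h2 := hf (fun i => x * top (frac π) i) (fun i => y * top (frac π) i) |x - y|
        (abs_nonneg _) (fun i => by
          rw [← sub_mul, abs_mul]
          refine mul_le_of_le_one_right (abs_nonneg _) ?_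
          obtain ⟨h3, h4⟩ := Unif.top_mem π i
          rw [abs_of_nonneg h3]
          exact h4)
      refine le_of_eq_of_le ?_ h2
      congr 1
      ring
  exact (((BL.base hθ).pow k).mul (BL.cut hθ)).mul h1

variable {V : Type} [Fintype V] [DecidableEq V]

theorem cnt_eq_mas [Nonempty V] (s : ℝ) (g : Perm V) :
    (cnt fun v => s ≤ len g v) = mas s g * Fintype.card V := by
  have hN : (Fintype.card V : ℝ) ≠ 0 := by exact_mod_cast Fintype.card_ne_zero
  unfold mas
  field_simp

open Classical in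
theorem sum_nTup (k : ℕ) (s : ℝ) (g : Perm V) (F : Perm (Fin k) → ℝ) :
    ∑ π, F π * nTup k s g π =
      ∑ b : Fin k → V, if Function.Injective b ∧ ∀ i, s ≤ len g (b i) then F (ret k b g) else 0 := by
  simp only [nTup_eq, Finset.mul_sum]
  rw [Finset.sum_comm]
  refine Finset.sum_congr rfl fun b _ => ?_
  by_cases hb : Function.Injective b
  · simp only [if_pos hb]
    by_cases hl : ∀ i, s ≤ len g (b i)
    · rw [if_pos ⟨hb, hl⟩]
      simp only [hl, implies_true, true_and]
      simp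
    · simp [hl]
  · simp [hb]

/-- nearly all tuples of points in long cycles are injective -/
theorem nAll_close [Nonempty V] (k : ℕ) (hk : 0 < k) (s : ℝ) (g : Perm V) :
    |nAll k s g / (Fintype.card V : ℝ) ^ k - mas s g ^ k| ≤ (k : ℝ) ^ 2 / Fintype.card V := by
  classical
  have hN : (0 : ℝ) < Fintype.card V := by exact_mod_cast Fintype.card_pos
  have h1 : (cnt fun v => s ≤ len g v) ^ k =
      (Nat.card {b : Fin k → V // ∀ i, s ≤ len g (b i)} : ℝ) := by
    rw [Bad.cnt_eq, ← Fintype.card_subtype, ← Nat.cast_pow]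
    congr 1
    have e1 : Nat.card {b : Fin k → V // ∀ i, s ≤ len g (b i)} =
        Nat.card (Fin k → {v : V // s ≤ len g v}) := by
      refine Nat.card_congr ?_
      exact
        { toFun := fun b i => ⟨b.1 i, b.2 i⟩
          invFun := fun c => ⟨fun i => (c i).1, fun i => (c i).2⟩
          left_inv := fun b => rfl
          right_inv := fun c => rfl }
    rw [e1, Nat.card_fun, Nat.card_eq_fintype_card, Nat.card_eq_fintype_card, Fintype.card_fin]
  have h2 : nAll k s g ≤ (cnt fun v => s ≤ len g v) ^ k := by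
    rw [h1]
    unfold nAll
    refine Nat.cast_le.2 ?_
    simp only [Nat.card_eq_fintype_card, Fintype.card_subtype]
    refine Finset.card_le_card fun b hb => ?_
    rw [Finset.mem_filter] at hb ⊢
    exact ⟨hb.1, hb.2.2⟩
  have h3 : (cnt fun v => s ≤ len g v) ^ k ≤ nAll k s g +
      (Nat.card {b : Fin k → V // ¬ Function.Injective b} : ℝ) := by
    rw [h1]
    unfold nAll
    rw [← Nat.cast_add]
    refine Nat.cast_le.2 ?_
    simp only [Nat.card_eq_fintype_card, Fintype.card_subtype]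
    refine le_trans (Finset.card_le_card ?_) (Finset.card_union_le _ _)
    intro b hb
    rw [Finset.mem_filter] at hb
    rw [Finset.mem_union, Finset.mem_filter, Finset.mem_filter]
    by_cases hi : Function.Injective b
    · exact Or.inl ⟨Finset.mem_univ _, hi, hb.2⟩
    · exact Or.inr ⟨Finset.mem_univ _, hi⟩
  have h4 := card_noninj (V := V) k
  have h5 : mas s g ^ k = (cnt fun v => s ≤ len g v) ^ k / (Fintype.card V : ℝ) ^ k := by
    unfold mas
    rw [div_pow]
  have h6 : (Fintype.card V : ℝ) ^ k = (Fintype.card V : ℝ) ^ (k - 1) * Fintype.card V := by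
    rw [← pow_succ]; congr 1; omega
  rw [h5, ← sub_div, abs_div, abs_of_pos (show (0 : ℝ) < (Fintype.card V : ℝ) ^ k by positivity),
    div_le_div_iff₀ (by positivity) hN]
  rw [h6, ← mul_assoc]
  refine mul_le_mul_of_nonneg_right ?_ hN.le
  rw [abs_sub_comm, abs_of_nonneg (by linarith)]
  linarith

theorem pow_close {x M : ℝ} (hM : 0 ≤ M) (hMx : M ≤ x) (hx : x ≤ 1) (k : ℕ) :
    x ^ k - M ^ k ≤ k * (x - M) := by
  induction k with
  | zero => simp
  | succ k ih =>
    have h1 : x ^ (k + 1) - M ^ (k + 1) = x ^ k * (x - M) + M * (x ^ k - M ^ k) := by ring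
    have h2 : x ^ k ≤ 1 := pow_le_one₀ (hM.trans hMx) hx
    have h3 : 0 ≤ x ^ k - M ^ k := sub_nonneg.2 (pow_le_pow_left₀ hM hMx k)
    rw [h1]
    push_cast
    have h4 : x ^ k * (x - M) ≤ 1 * (x - M) := mul_le_mul_of_nonneg_right h2 (by linarith)
    have h5 : M * (x ^ k - M ^ k) ≤ 1 * (x ^ k - M ^ k) :=
      mul_le_mul_of_nonneg_right (hMx.trans hx) h3
    linarith

/-- the mean over random points in long cycles -/
theorem tuple_close [Nonempty V] (k : ℕ) (hk : 0 < k) (g : Perm V) (δ δ' : ℝ) (hδ : 0 < δ)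
    (hδδ : δ' ≤ δ) (m : ℕ) (f : (Fin m → ℝ) → ℝ) (C Λ : ℝ) (hΛ : 0 ≤ Λ) (hC : ∀ u, |f u| ≤ C)
    (hf : ∀ (u v : Fin m → ℝ) (e : ℝ), 0 ≤ e → (∀ i, |u i - v i| ≤ e) → |f u - f v| ≤ Λ * e) :
    |(∑ π : Perm (Fin k), f (fun i => mas (δ' * Fintype.card V) g * top (frac π) i) *
        nTup k (δ * Fintype.card V) g π) / (Fintype.card V : ℝ) ^ k -
      mas (δ * Fintype.card V) g ^ k * f (fun i => top (frac g) i)| ≤
    mas (δ * Fintype.card V) g ^ k * (Λ * (1 / Real.sqrt k)) + Λ * δ +
      C * ((k : ℝ) ^ 2 / Fintype.card V) +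
        Λ * (mas (δ' * Fintype.card V) g - mas (δ * Fintype.card V) g) := by
  classical
  have hN : (0 : ℝ) < Fintype.card V := by exact_mod_cast Fintype.card_pos
  obtain ⟨x, hx⟩ : ∃ x, x = mas (δ' * Fintype.card V) g := ⟨_, rfl⟩
  obtain ⟨M, hM⟩ : ∃ M, M = mas (δ * Fintype.card V) g := ⟨_, rfl⟩
  have hx0 : 0 ≤ x := by rw [hx]; exact mas_nonneg _ _
  have hx1 : x ≤ 1 := by rw [hx]; exact mas_le_one _ _
  have hM0 : 0 ≤ M := by rw [hM]; exact mas_nonneg _ _
  have hMx : M ≤ x := by
    rw [hx, hM]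
    exact mas_anti (mul_le_mul_of_nonneg_right hδδ hN.le) g
  have hC0 : 0 ≤ C := (abs_nonneg _).trans (hC 0)
  have h1 := sample_bound k hk g (δ * Fintype.card V) (by positivity) (fun b => ret k b g)
    (fun b hb i j => (ret_spec k b hb).2.2.2 g i j) m (fun u => f (fun i => x * u i)) C Λ hΛ
    (fun u => hC _) (fun u v e he huv => hf _ _ e he fun i => by
      rw [← mul_sub, abs_mul, abs_of_nonneg hx0]
      exact (mul_le_of_le_one_left (abs_nonneg _) hx1).trans (huv i))
  rw [sum_nTup, ← hx, ← hM]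
  rw [cnt_eq_mas, ← hM] at h1
  have h6 : (Fintype.card V : ℝ) ^ k = (Fintype.card V : ℝ) ^ (k - 1) * Fintype.card V := by
    rw [← pow_succ]; congr 1; omega
  obtain ⟨S, hS⟩ : ∃ S : ℝ, S = ∑ b : Fin k → V, if Function.Injective b ∧
    ∀ i, δ * Fintype.card V ≤ len g (b i) then f (fun i => x * top (frac (ret k b g)) i) else 0 :=
      ⟨_, rfl⟩
  rw [← hS] at h1 ⊢
  -- divide by the number of tuples
  have h2 : |S / (Fintype.card V : ℝ) ^ k - M ^ k * f (fun i => x * (top (frac g) i *
      Fintype.card V / (M * Fintype.card V)))| ≤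
      M ^ k * (Λ * (1 / Real.sqrt k + δ / M)) + C * ((k : ℝ) ^ 2 / Fintype.card V) := by
    have e1 : S / (Fintype.card V : ℝ) ^ k - M ^ k * f (fun i => x * (top (frac g) i *
        Fintype.card V / (M * Fintype.card V))) = (S - (M * Fintype.card V) ^ k *
          f (fun i => x * (top (frac g) i * Fintype.card V / (M * Fintype.card V)))) /
          (Fintype.card V : ℝ) ^ k := by
      rw [mul_pow, sub_div]
      congr 1
      field_simp
    rw [e1, abs_div, abs_of_pos (show (0 : ℝ) < (Fintype.card V : ℝ) ^ k by positivity),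
      div_le_iff₀ (by positivity)]
    refine h1.trans (le_of_eq ?_)
    have e2 : δ * (Fintype.card V : ℝ) / (M * Fintype.card V) = δ / M :=
      mul_div_mul_right _ _ hN.ne'
    rw [e2, mul_pow, h6]
    field_simp
  rcases eq_or_lt_of_le hM0 with hM00 | hMpos
  · rw [← hM00] at h2 ⊢
    rw [zero_pow hk.ne'] at h2 ⊢
    simp only [zero_mul, sub_zero, zero_add] at h2 ⊢
    have h3 : 0 ≤ Λ * δ := by positivity
    have h4 : 0 ≤ Λ * x := by positivity
    linarith
  · have e3 : (fun i : Fin m => x * (top (frac g) i * Fintype.card V / (M * Fintype.card V))) =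
        fun i : Fin m => x * (top (frac g) i / M) := by
      funext i
      rw [mul_div_mul_right _ _ hN.ne']
    rw [e3] at h2
    have hfr0 : ∀ γ : Cyc g, 0 ≤ frac g γ := fun γ => by unfold frac; positivity
    have hfr1 : ∀ γ : Cyc g, frac g γ ≤ 1 := fun γ => by
      unfold frac
      refine div_le_one_of_le₀ ?_ (by positivity)
      rw [← Nat.card_eq_fintype_card]
      exact_mod_cast Nat.card_le_card_of_injective _ Subtype.val_injective
    have h3 : |f (fun i : Fin m => x * (top (frac g) i / M)) - f (fun i => top (frac g) i)| ≤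
        Λ * ((x - M) / M) := by
      refine hf _ _ _ (div_nonneg (by linarith) hM0) fun i => ?_
      have h4 := top_nonneg (frac g) hfr0 i
      have h5 := top_le_one (frac g) hfr0 hfr1 i
      have e4 : x * (top (frac g) i / M) - top (frac g) i = top (frac g) i * ((x - M) / M) := by
        field_simp
      rw [e4, abs_of_nonneg (mul_nonneg h4 (div_nonneg (by linarith) hM0))]
      exact mul_le_of_le_one_left (div_nonneg (by linarith) hM0) h5
    have hMk0 : 0 ≤ M ^ k := pow_nonneg hM0 k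
    have hMk : M ^ k * (1 / M) ≤ 1 := by
      have : M ^ k = M ^ (k - 1) * M := by rw [← pow_succ]; congr 1; omega
      rw [this, mul_assoc, mul_one_div_cancel hMpos.ne', mul_one]
      exact pow_le_one₀ hM0 (hMx.trans hx1)
    have h7 : |M ^ k * f (fun i : Fin m => x * (top (frac g) i / M)) -
        M ^ k * f (fun i => top (frac g) i)| ≤ Λ * (x - M) := by
      rw [← mul_sub, abs_mul, abs_of_nonneg hMk0]
      refine (mul_le_mul_of_nonneg_left h3 hMk0).trans ?_
      have e5 : M ^ k * (Λ * ((x - M) / M)) = (M ^ k * (1 / M)) * (Λ * (x - M)) := by ring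
      rw [e5]
      exact mul_le_of_le_one_left (mul_nonneg hΛ (by linarith)) hMk
    have h8 : M ^ k * (Λ * (1 / Real.sqrt k + δ / M)) ≤ M ^ k * (Λ * (1 / Real.sqrt k)) + Λ * δ := by
      have e6 : M ^ k * (Λ * (1 / Real.sqrt k + δ / M)) = M ^ k * (Λ * (1 / Real.sqrt k)) +
          (M ^ k * (1 / M)) * (Λ * δ) := by ring
      rw [e6]
      have := mul_le_of_le_one_left (mul_nonneg hΛ hδ.le) hMk
      linarith
    have h9 := abs_sub_le (S / (Fintype.card V : ℝ) ^ k)
      (M ^ k * f (fun i : Fin m => x * (top (frac g) i / M)))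
      (M ^ k * f (fun i => top (frac g) i))
    linarith

end Pool.Agent.TH268.PD
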