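import Pool.Agent.TH268.PD.Iter

/-!
# Short arcs stay short
-/

set_option autoImplicit false

namespace Pool.Agent.TH268.PD

open Finset Equiv

variable {V : Type} [Fintype V] [DecidableEq V]

/-- there is a short arc -/
def Dusty (B : Finset V) (m : ℕ) (g : Perm V) : Prop := ∃ z ∈ B, ¬ Far B g z m

theorem inv_pow_eq (g : Perm V) (z : V) (p : ℕ) (a b : V)
    (ha : ∀ q, 1 ≤ q → q ≤ p → (g⁻¹ ^ q) z ≠ a) (hb : ∀ q, 1 ≤ q → q ≤ p → (g⁻¹ ^ q) z ≠ b) :
    ∀ q ≤ p, ((g * swap a b)⁻¹ ^ q) z = (g⁻¹ ^ q) z := by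
  intro q
  induction q with
  | zero => intro _; rfl
  | succ q ih =>
    intro hq
    rw [pow_succ', Perm.mul_apply, ih (by omega), mul_inv_rev, swap_inv, Perm.mul_apply]
    have h1 : g⁻¹ ((g⁻¹ ^ q) z) = (g⁻¹ ^ (q + 1)) z := by rw [pow_succ', Perm.mul_apply]
    rw [h1]
    exact swap_apply_of_ne_of_ne (ha (q + 1) (by omega) hq) (hb (q + 1) (by omega) hq)

theorem TT_dust [Nonempty V] {B : Finset V} {m : ℕ} (H : Perm V → ℝ) (h : ℝ) (hh : 0 ≤ h)
    (h1 : ∀ g, |H g| ≤ 1) (hD : ∀ g, Dusty B m g → |H g| ≤ h) (g : Perm V) (hg : Dusty B m g) :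
    |TT H g| ≤ h + 2 * (m / Fintype.card V) := by
  classical
  obtain ⟨z, hz, hfar⟩ := hg
  unfold Far at hfar
  push Not at hfar
  obtain ⟨p, hp1, hpm, hpB⟩ := hfar
  obtain ⟨S, hS⟩ : ∃ S : Finset V, S = (Finset.Icc 1 p).image fun q => (g⁻¹ ^ q) z := ⟨_, rfl⟩
  have hScard : (S.card : ℝ) ≤ m := by
    have : S.card ≤ p := by
      rw [hS]
      refine Finset.card_image_le.trans ?_
      simp
    exact_mod_cast this.trans hpm.le
  have hgood : ∀ a b : V, a ∉ S → b ∉ S → Dusty B m (g * swap a b) := by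
    intro a b ha hb
    refine ⟨z, hz, fun hF => ?_⟩
    have h2 := hF p hp1 hpm
    rw [inv_pow_eq g z p a b (fun q h3 h4 h5 => ha ?_) (fun q h3 h4 h5 => hb ?_) p le_rfl] at h2
    · exact h2 hpB
    · rw [hS, ← h5]
      exact Finset.mem_image_of_mem _ (Finset.mem_Icc.2 ⟨h3, h4⟩)
    · rw [hS, ← h5]
      exact Finset.mem_image_of_mem _ (Finset.mem_Icc.2 ⟨h3, h4⟩)
  have hN : (0 : ℝ) < Fintype.card V := by exact_mod_cast Fintype.card_pos
  have hterm : ∀ a b : V, |H (g * swap a b)| ≤ h + (if a ∈ S then 1 else 0) +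
      (if b ∈ S then 1 else 0) := by
    intro a b
    by_cases ha : a ∈ S
    · rw [if_pos ha]
      have h3 := h1 (g * swap a b)
      split_ifs <;> linarith
    · by_cases hb : b ∈ S
      · rw [if_pos hb, if_neg ha]
        have h3 := h1 (g * swap a b)
        linarith
      · rw [if_neg ha, if_neg hb]
        have := hD _ (hgood a b ha hb)
        linarith
  refine (abs_TT_le H g).trans ?_
  unfold TT
  have h4 : ∑ a : V, ∑ b : V, |H (g * swap a b)| ≤
      (Fintype.card V : ℝ) ^ 2 * h + 2 * ((Fintype.card V : ℝ) * S.card) := by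
    refine (Finset.sum_le_sum fun a _ => Finset.sum_le_sum fun b _ => hterm a b).trans ?_
    have e1 : ∑ b : V, (if b ∈ S then (1 : ℝ) else 0) = S.card := by
      rw [Finset.sum_boole]
      congr 2
      ext v
      simp
    simp only [Finset.sum_add_distrib, Finset.sum_const, Finset.card_univ, nsmul_eq_mul, e1,
      ← Finset.mul_sum]
    apply le_of_eq
    ring
  rw [div_le_iff₀ (by positivity)]
  refine h4.trans ?_
  have h5 : (h + 2 * ((m : ℝ) / Fintype.card V)) * (Fintype.card V : ℝ) ^ 2 =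
      (Fintype.card V : ℝ) ^ 2 * h + 2 * ((Fintype.card V : ℝ) * m) := by
    field_simp
  rw [h5]
  have h6 : (Fintype.card V : ℝ) * S.card ≤ (Fintype.card V : ℝ) * m :=
    mul_le_mul_of_nonneg_left hScard hN.le
  linarith

theorem abs_TT_le_one [Nonempty V] (H : Perm V → ℝ) (h1 : ∀ g, |H g| ≤ 1) (g : Perm V) :
    |TT H g| ≤ 1 := by
  refine (abs_TT_le H g).trans ((TT_mono (G := fun _ => 1) h1 g).trans (le_of_eq ?_))
  rw [TT_const]

theorem dust_iter [Nonempty V] {B : Finset V} {m : ℕ} (F : Perm V → ℝ)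
    (h1 : ∀ g, |F g| ≤ 1) (hD : ∀ g, Dusty B m g → F g = 0) (n : ℕ) :
    (∀ g, |(QQ^[n] F) g| ≤ 1) ∧
      ∀ g, Dusty B m g → |(QQ^[n] F) g| ≤ n * (3 * (m / Fintype.card V)) := by
  have hN : (0 : ℝ) < Fintype.card V := by exact_mod_cast Fintype.card_pos
  induction n with
  | zero =>
    refine ⟨h1, fun g hg => ?_⟩
    rw [Function.iterate_zero, id, hD g hg]
    simp
  | succ n ih =>
    obtain ⟨ih1, ih2⟩ := ih
    rw [Function.iterate_succ_apply']
    obtain ⟨H, hH⟩ : ∃ H, H = QQ^[n] F := ⟨_, rfl⟩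
    rw [← hH] at ih1 ih2 ⊢
    have hT := abs_TT_le_one H ih1
    have hm0 : (0 : ℝ) ≤ m / Fintype.card V := by positivity
    have e1 : ∀ g, |QQ H g| ≤ (|TT H g| + |TT (TT H) g|) / 2 := by
      intro g
      unfold QQ
      rw [abs_div, abs_of_pos (show (0 : ℝ) < 2 by norm_num)]
      exact div_le_div_of_nonneg_right (abs_add_le _ _) (by norm_num)
    refine ⟨fun g => ?_, fun g hg => ?_⟩
    · have h2 := hT g
      have h3 := abs_TT_le_one (TT H) hT g
      have := e1 g
      linarith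
    · have h2 := fun g hg => TT_dust H (n * (3 * (m / Fintype.card V)))
        (by positivity) ih1 ih2 g hg
      have h3 := TT_dust (TT H) _ (by positivity) hT h2 g hg
      have h4 := h2 g hg
      have := e1 g
      push_cast
      linarith

end Pool.Agent.TH268.PD
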