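import Pool.Agent.TH268.PD.Scale
import Pool.Agent.TH268.PD.NI
import Pool.Agent.TH268.PD.Alg
import Pool.Agent.TH268.PD.Contr

/-!
# The law of the macroscopic cycles of random stirring
-/

set_option autoImplicit false

namespace Pool.Agent.TH268.PD

open Finset Equiv
open Pool.Agent.W805.LR (len stirMass)

theorem contr_all (V : Type) [Fintype V] [DecidableEq V] : Contr V := by
  intro B x y hx hy hxy H hH g m h1 h2 U c hc hU hcU
  exact contr_of hx hy hxy H hH.anti g m h1 h2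
    (fun e q hq hqe => alg_cross hx hy hxy H hH.conj g m h1 h2 e q hq hqe)
    (fun e p s q he hp hpe hs hs2 hq hqm =>
      alg_split hx hy hxy H hH.conj g m h1 h2 e p s q he hp hpe hs hs2 hq hqm) U c hc hU hcU

/-- the law of random stirring -/
noncomputable def law {V : Type} [Fintype V] [DecidableEq V] (J : V → V → ℝ) (t : ℝ)
    (g : Perm V) : ℝ := stirMass J t g / ∑ h, stirMass J t h

theorem stir_core (k : ℕ) (η : ℝ) (hη : 0 < η) :
    ∃ δ₁ : ℝ, 0 < δ₁ ∧ ∃ C : ℝ, 0 < C ∧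
      ∀ (V : Type) [Fintype V] [DecidableEq V] (J : V → V → ℝ) (κ t : ℝ), 0 < t → 0 < κ →
        (∀ x y, x ≠ y → κ ≤ J x y) → (∀ x, J x x = 0) → C ≤ Fintype.card V →
        C ≤ t * κ * (Fintype.card V : ℝ) ^ 2 →
          ∃ δ : ℝ, δ₁ ≤ δ ∧ δ ≤ η ∧ ∀ π : Perm (Fin k),
            |LL k (law J t) (δ * Fintype.card V) π -
              (∑ σ, LL k (law J t) (δ * Fintype.card V) σ) / (k.factorial : ℝ)| ≤ η := by
  obtain ⟨δ₁, hδ₁, N₀, ε₀, hε₀, H⟩ := core k η hη
  refine ⟨δ₁, hδ₁, max (N₀ + 1) (2 / ε₀ ^ 2), by positivity, ?_⟩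
  intro V _ _ J κ t ht hκ hJ hJ0 hC1 hC2
  have hNpos : (0 : ℝ) < Fintype.card V := by
    have : (N₀ : ℝ) + 1 ≤ Fintype.card V := (le_max_left _ _).trans hC1
    have h0 : (0 : ℝ) ≤ N₀ := by positivity
    linarith
  have : Nonempty V := by
    rw [← Fintype.card_pos_iff]
    exact_mod_cast hNpos
  have hJn : ∀ x y, 0 ≤ J x y := by
    intro x y
    by_cases hxy : x = y
    · rw [hxy, hJ0]
    · exact hκ.le.trans (hJ x y hxy)
  have hm := Pool.Agent.W29.LR.CV.stirMass_nonneg J hJn t ht.le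
  have hZ := Pool.Agent.W805.LR.sum_mass J t
  have hZ0 : 0 < ∑ h, stirMass J t h := by rw [hZ]; exact Real.exp_pos _
  refine H V (contr_all V) ?_ (law J t)
    (1 / Real.sqrt (t * κ * (Fintype.card V : ℝ) ^ 2 / 2)) (fun g => ?_) ?_ ?_ (by positivity) ?_
  · have : (N₀ : ℝ) + 1 ≤ Fintype.card V := (le_max_left _ _).trans hC1
    have h2 : (N₀ : ℝ) ≤ Fintype.card V := by linarith
    exact_mod_cast h2
  · exact div_nonneg (hm g) hZ0.le
  · unfold law
    rw [← Finset.sum_div, div_self hZ0.ne']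
  · intro F K hF
    have h1 := near_inv J κ t ht hκ hJ hJ0 F K hF
    have e1 : ∀ G : Perm V → ℝ, ∑ g, law J t g * G g =
        (∑ g, stirMass J t g * G g) / ∑ h, stirMass J t h := by
      intro G
      rw [Finset.sum_div]
      exact Finset.sum_congr rfl fun g _ => by unfold law; ring
    rw [e1, e1, ← sub_div, abs_div, abs_of_pos hZ0, div_le_iff₀ hZ0]
    refine h1.trans (le_of_eq ?_)
    ring
  · have h3 : 2 / ε₀ ^ 2 ≤ t * κ * (Fintype.card V : ℝ) ^ 2 := (le_max_right _ _).trans hC2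
    have h4 : (1 / ε₀) ^ 2 ≤ t * κ * (Fintype.card V : ℝ) ^ 2 / 2 := by
      rw [div_le_iff₀ (by positivity)] at h3
      rw [one_div, inv_pow, inv_le_iff_one_le_mul₀ (by positivity)]
      linarith
    have h5 : 1 / ε₀ ≤ Real.sqrt (t * κ * (Fintype.card V : ℝ) ^ 2 / 2) :=
      Real.le_sqrt_of_sq_le h4
    have h6 : 0 < Real.sqrt (t * κ * (Fintype.card V : ℝ) ^ 2 / 2) :=
      lt_of_lt_of_le (by positivity) h5
    rw [div_le_iff₀ h6]
    rw [div_le_iff₀ hε₀] at h5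
    linarith

end Pool.Agent.TH268.PD
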