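import Pool.Agent.TH268.PD.Ord

/-!
# The law of the ordered cycle lengths: assembly
-/

set_option autoImplicit false

namespace Pool.Agent.TH268.PD

open Finset Equiv
open Pool.Agent.W805.LR (len cnt)

theorem ordered (m : ℕ) (f : (Fin m → ℝ) → ℝ) (C Λ : ℝ) (hC0 : 0 < C) (hΛ : 0 ≤ Λ)
    (hC : ∀ u, |f u| ≤ C)
    (hf : ∀ (u v : Fin m → ℝ) (e : ℝ), 0 ≤ e → (∀ i, |u i - v i| ≤ e) → |f u - f v| ≤ Λ * e)
    (η : ℝ) (hη : 0 < η) :
    ∃ δ₁ : ℝ, 0 < δ₁ ∧ ∃ N₀ : ℕ, ∃ ε₀ : ℝ, 0 < ε₀ ∧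
      ∀ (V : Type) [Fintype V] [DecidableEq V] [Nonempty V], Contr V → N₀ ≤ Fintype.card V →
        ∀ (μ : Perm V → ℝ) (ε : ℝ), (∀ g, 0 ≤ μ g) → ∑ g, μ g = 1 →
          (∀ (F : Perm V → ℝ) (K : ℝ), (∀ g, |F g| ≤ K) →
            |∑ g, μ g * TT F g - ∑ g, μ g * F g| ≤ K * ε) → 0 ≤ ε → ε ≤ ε₀ →
          ∃ δ : ℝ, δ₁ ≤ δ ∧ δ ≤ η ∧
            |∑ g, μ g * f (fun i => top (frac g) i) -
              ∑ g, μ g * pdm (fun u : Fin m → ℝ =>
                f (fun i => mas (δ * Fintype.card V) g * u i))| ≤ η := by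
  classical
  obtain ⟨θ, hθdef⟩ : ∃ θ : ℝ, θ = η / (32 * (Λ + 1)) := ⟨_, rfl⟩
  have hθ : 0 < θ := by rw [hθdef]; positivity
  have hΛθ : Λ * θ ≤ η / 32 := by
    have h1 : (Λ + 1) * θ = η / 32 := by rw [hθdef]; field_simp
    nlinarith
  obtain ⟨k₀, hk₀⟩ := um_tendsto pdl m f C Λ hC hΛ hf (η / 4) (by positivity)
  obtain ⟨n₁, hn₁⟩ := exists_nat_gt ((8 * Λ / η) ^ 2)
  obtain ⟨k, hkdef⟩ : ∃ k : ℕ, k = max (max k₀ 1) n₁ := ⟨_, rfl⟩
  have hkk₀ : k₀ ≤ k := by rw [hkdef]; exact (le_max_left _ _).trans (le_max_left _ _)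
  have hk : 0 < k := by
    rw [hkdef]
    exact lt_of_lt_of_le Nat.one_pos ((le_max_right _ _).trans (le_max_left _ _))
  have hkn : (n₁ : ℝ) ≤ k := by rw [hkdef]; exact_mod_cast le_max_right _ _
  have hkpos : (0 : ℝ) < k := by exact_mod_cast hk
  have hsq : Λ * (1 / Real.sqrt k) ≤ η / 8 := by
    have h1 : 8 * Λ / η ≤ Real.sqrt k := by
      refine Real.le_sqrt_of_sq_le ?_
      linarith
    have h2 : 0 < Real.sqrt k := Real.sqrt_pos.2 hkpos
    rw [mul_one_div, div_le_iff₀ h2]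
    rw [div_le_iff₀ hη] at h1
    linarith
  have hfac : (0 : ℝ) < (k.factorial : ℝ) := by exact_mod_cast k.factorial_pos
  obtain ⟨K, hK⟩ : ∃ K : ℝ, K = 2 * C * k.factorial + Λ + (Λ + 2 * (C * k)) + 1 := ⟨_, rfl⟩
  have hK0 : 0 < K := by rw [hK]; positivity
  have hθk : 0 < θ ^ k := pow_pos hθ k
  obtain ⟨η', hη'⟩ : ∃ η' : ℝ, η' = min η (min (η / (16 * (Λ + 1))) (θ ^ k * η / (16 * K))) :=
    ⟨_, rfl⟩
  have hη'0 : 0 < η' := by rw [hη']; positivity
  have hη'1 : η' ≤ η := by rw [hη']; exact min_le_left _ _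
  have hη'2 : Λ * η' ≤ η / 16 := by
    have h1 : η' ≤ η / (16 * (Λ + 1)) := by
      rw [hη']; exact (min_le_right _ _).trans (min_le_left _ _)
    have h2 : (Λ + 1) * (η / (16 * (Λ + 1))) = η / 16 := by field_simp
    nlinarith [mul_le_mul_of_nonneg_left h1 (show 0 ≤ Λ + 1 by linarith)]
  have hη'3 : K * η' ≤ θ ^ k * (η / 16) := by
    have h1 : η' ≤ θ ^ k * η / (16 * K) := by
      rw [hη']; exact (min_le_right _ _).trans (min_le_right _ _)
    rw [le_div_iff₀ (by positivity)] at h1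
    linarith
  obtain ⟨a, ha⟩ : ∃ a : ℝ, a = k * (1 / θ) + 1 / θ + Λ / (2 * C) := ⟨_, rfl⟩
  have ha0 : 0 ≤ a := by rw [ha]; positivity
  obtain ⟨δ₁, hδ₁, N₀, ε₀, hε₀, H⟩ := wcore k a ha0 η' hη'0
  obtain ⟨N3, hN3⟩ := exists_nat_gt (32 * (C * (k : ℝ) ^ 2) / (θ ^ k * η))
  refine ⟨δ₁, hδ₁, max N₀ N3, ε₀, hε₀, ?_⟩
  intro V _ _ _ hCon hN μ ε hμ hμ1 hε hε0 hεe
  have hNpos : (0 : ℝ) < Fintype.card V := by exact_mod_cast Fintype.card_pos
  obtain ⟨δ, δ', h1, h2, h3, h4, h5⟩ := H V hCon ((le_max_left _ _).trans hN) μ ε hμ hμ1 hε hε0 hεe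
  have hδ' : 0 < δ' := lt_of_lt_of_le hδ₁ h1
  have hδ : 0 < δ := lt_of_lt_of_le hδ' h2
  refine ⟨δ', h1, h2.trans (h3.trans hη'1), ?_⟩
  have hNN : 2 * (C * ((k : ℝ) ^ 2 / Fintype.card V)) ≤ θ ^ k * (η / 16) := by
    have h6 : (N3 : ℝ) ≤ Fintype.card V := by exact_mod_cast (le_max_right _ _).trans hN
    have h7 : 32 * (C * (k : ℝ) ^ 2) / (θ ^ k * η) ≤ Fintype.card V := hN3.le.trans h6
    rw [div_le_iff₀ (by positivity)] at h7
    rw [mul_div_assoc', mul_div_assoc', div_le_iff₀ hNpos]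
    linarith
  obtain ⟨x, hx⟩ : ∃ x : Perm V → ℝ, x = fun g => mas (δ' * Fintype.card V) g := ⟨_, rfl⟩
  obtain ⟨M, hM⟩ : ∃ M : Perm V → ℝ, M = fun g => mas (δ * Fintype.card V) g := ⟨_, rfl⟩
  obtain ⟨fp, hfp⟩ : ∃ fp : Perm V → ℝ, fp = fun g => f (fun i => top (frac g) i) := ⟨_, rfl⟩
  obtain ⟨u, hu⟩ : ∃ u : Perm V → ℝ, u = fun g =>
    um k (fun v : Fin m → ℝ => f (fun i => x g * v i)) := ⟨_, rfl⟩
  obtain ⟨S1, hS1⟩ : ∃ S1 : Perm V → ℝ, S1 = fun g => ∑ π : Perm (Fin k),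
    wt k θ C f π (x g) * (nTup k (δ * Fintype.card V) g π / (Fintype.card V : ℝ) ^ k) := ⟨_, rfl⟩
  obtain ⟨S2, hS2⟩ : ∃ S2 : Perm V → ℝ, S2 = fun g => (∑ π : Perm (Fin k),
    wt k θ C f π (x g) * (nAll k (δ * Fintype.card V) g / (Fintype.card V : ℝ) ^ k)) /
      (k.factorial : ℝ) := ⟨_, rfl⟩
  have hx01 : ∀ g, 0 ≤ x g ∧ x g ≤ 1 := fun g => by
    rw [hx]; exact ⟨mas_nonneg _ _, mas_le_one _ _⟩
  -- Step A
  have hA : |∑ g, μ g * (S1 g - S2 g)| ≤ (k.factorial : ℝ) * η' := by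
    have e1 : ∑ g, μ g * (S1 g - S2 g) = ∑ π : Perm (Fin k),
        (LL k (fun g => μ g * wt k θ C f π (mas (δ' * Fintype.card V) g))
          (δ * Fintype.card V) π - (∑ σ, LL k (fun g => μ g * wt k θ C f π
            (mas (δ' * Fintype.card V) g)) (δ * Fintype.card V) σ) / (k.factorial : ℝ)) := by
      have e2 : ∀ π : Perm (Fin k),
          (LL k (fun g => μ g * wt k θ C f π (mas (δ' * Fintype.card V) g))
          (δ * Fintype.card V) π - (∑ σ, LL k (fun g => μ g * wt k θ C f π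
            (mas (δ' * Fintype.card V) g)) (δ * Fintype.card V) σ) / (k.factorial : ℝ)) =
          ∑ g, μ g * (wt k θ C f π (x g) * (nTup k (δ * Fintype.card V) g π /
            (Fintype.card V : ℝ) ^ k) - wt k θ C f π (x g) *
            (nAll k (δ * Fintype.card V) g / (Fintype.card V : ℝ) ^ k) / (k.factorial : ℝ)) := by
        intro π
        rw [LL_sum, LL_eq, Finset.sum_div, ← Finset.sum_sub_distrib]
        refine Finset.sum_congr rfl fun g _ => ?_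
        rw [hx]
        ring
      rw [Finset.sum_congr rfl fun π _ => e2 π, Finset.sum_comm]
      refine Finset.sum_congr rfl fun g _ => ?_
      rw [← Finset.mul_sum, Finset.sum_sub_distrib, ← Finset.sum_div, hS1, hS2]
    rw [e1]
    refine (Finset.abs_sum_le_sum_abs _ _).trans ?_
    have h6 : ∀ π : Perm (Fin k), |LL k (fun g => μ g * wt k θ C f π
        (mas (δ' * Fintype.card V) g)) (δ * Fintype.card V) π - (∑ σ, LL k (fun g => μ g *
          wt k θ C f π (mas (δ' * Fintype.card V) g)) (δ * Fintype.card V) σ) /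
            (k.factorial : ℝ)| ≤ η' := by
      intro π
      obtain ⟨b1, b2, b3⟩ := wt_BL k hθ hC0 f hC hΛ hf π
      rw [← ha] at b3
      exact h5 (wt k θ C f π) b1 b2 b3 π
    refine (Finset.sum_le_sum fun π _ => h6 π).trans (le_of_eq ?_)
    rw [Finset.sum_const, Finset.card_univ, Fintype.card_perm, Fintype.card_fin, nsmul_eq_mul]
  -- Step B
  have hB0 : ∀ g, |θ ^ k * (cut θ (x g) * (fp g - u g)) - 2 * C * (S1 g - S2 g)| ≤
      θ ^ k * (Λ * (1 / Real.sqrt k)) + Λ * δ + 2 * (C * ((k : ℝ) ^ 2 / Fintype.card V)) +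
        (Λ + 2 * (C * k)) * (x g - M g) := by
    intro g
    have h6 := one_g k hk g δ δ' hδ h2 m f C Λ hC0 hΛ hC hf θ hθ (x g) (M g)
      (by rw [hx]) (by rw [hM])
    rw [hfp, hu, hS1, hS2]
    exact h6
  have hEμ : ∀ (F G : Perm V → ℝ), (∀ g, |F g| ≤ G g) → |∑ g, μ g * F g| ≤ ∑ g, μ g * G g := by
    intro F G h
    refine (Finset.abs_sum_le_sum_abs _ _).trans (Finset.sum_le_sum fun g _ => ?_)
    rw [abs_mul, abs_of_nonneg (hμ g)]
    exact mul_le_mul_of_nonneg_left (h g) (hμ g)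
  have hB : θ ^ k * |∑ g, μ g * (cut θ (x g) * (fp g - u g))| ≤ θ ^ k * (η / 4) := by
    have h6 := hEμ _ _ hB0
    have e1 : ∑ g, μ g * (θ ^ k * (cut θ (x g) * (fp g - u g)) - 2 * C * (S1 g - S2 g)) =
        θ ^ k * ∑ g, μ g * (cut θ (x g) * (fp g - u g)) -
          2 * C * ∑ g, μ g * (S1 g - S2 g) := by
      rw [Finset.mul_sum, Finset.mul_sum, ← Finset.sum_sub_distrib]
      exact Finset.sum_congr rfl fun g _ => by ring
    have e2 : ∑ g, μ g * (θ ^ k * (Λ * (1 / Real.sqrt k)) + Λ * δ +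
        2 * (C * ((k : ℝ) ^ 2 / Fintype.card V)) + (Λ + 2 * (C * k)) * (x g - M g)) =
        θ ^ k * (Λ * (1 / Real.sqrt k)) + Λ * δ + 2 * (C * ((k : ℝ) ^ 2 / Fintype.card V)) +
          (Λ + 2 * (C * k)) * ∑ g, μ g * (x g - M g) := by
      simp only [mul_add, Finset.sum_add_distrib]
      rw [← Finset.sum_mul, ← Finset.sum_mul, ← Finset.sum_mul, hμ1, one_mul, one_mul, one_mul,
        Finset.mul_sum]
      congr 1
      exact Finset.sum_congr rfl fun g _ => by ring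
    rw [e1, e2] at h6
    have h7 : ∑ g, μ g * (x g - M g) ≤ η' := by rw [hx, hM]; exact h4
    have h8 : (Λ + 2 * (C * k)) * ∑ g, μ g * (x g - M g) ≤ (Λ + 2 * (C * k)) * η' :=
      mul_le_mul_of_nonneg_left h7 (by positivity)
    have h9 : θ ^ k * (Λ * (1 / Real.sqrt k)) ≤ θ ^ k * (η / 8) :=
      mul_le_mul_of_nonneg_left hsq hθk.le
    have h10 : Λ * δ ≤ Λ * η' := mul_le_mul_of_nonneg_left h3 hΛ
    have h11 : |2 * C * ∑ g, μ g * (S1 g - S2 g)| ≤ 2 * C * k.factorial * η' := by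
      rw [abs_mul, abs_of_pos (show 0 < 2 * C by positivity)]
      have := mul_le_mul_of_nonneg_left hA (show 0 ≤ 2 * C by positivity)
      linarith
    have h12 : |θ ^ k * ∑ g, μ g * (cut θ (x g) * (fp g - u g))| ≤
        |θ ^ k * ∑ g, μ g * (cut θ (x g) * (fp g - u g)) - 2 * C * ∑ g, μ g * (S1 g - S2 g)| +
          |2 * C * ∑ g, μ g * (S1 g - S2 g)| := by
      have := abs_add_le (θ ^ k * ∑ g, μ g * (cut θ (x g) * (fp g - u g)) -
        2 * C * ∑ g, μ g * (S1 g - S2 g)) (2 * C * ∑ g, μ g * (S1 g - S2 g))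
      rwa [sub_add_cancel] at this
    rw [abs_mul, abs_of_pos hθk] at h12
    have h13 : K * η' = 2 * C * k.factorial * η' + Λ * η' + (Λ + 2 * (C * k)) * η' + η' := by
      rw [hK]; ring
    linarith
  have hB' : |∑ g, μ g * (cut θ (x g) * (fp g - u g))| ≤ η / 4 := le_of_mul_le_mul_left hB hθk
  -- Step C
  have hu0 : ∀ g, |u g - f (fun _ => 0)| ≤ Λ * x g := by
    intro g
    have h6 := Unif.um_diff (m := m) k (F := fun v => f (fun i => x g * v i))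
      (G := fun _ => f (fun _ => 0)) (e := Λ * x g) (fun v hv => hf _ _ _ (hx01 g).1 fun i => by
        rw [sub_zero, abs_mul, abs_of_nonneg (hx01 g).1, abs_of_nonneg (hv i).1]
        exact mul_le_of_le_one_right (hx01 g).1 (hv i).2)
    have e1 : um k (fun _ : Fin m → ℝ => f (fun _ => 0)) = f (fun _ => 0) := by
      unfold um
      rw [Finset.sum_const, Finset.card_univ, Fintype.card_perm, Fintype.card_fin, nsmul_eq_mul,
        mul_div_cancel_left₀ _ hfac.ne']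
    rw [e1] at h6
    rw [hu]
    exact h6
  have hfp0 : ∀ g, |fp g - f (fun _ => 0)| ≤ Λ * (x g + δ') := by
    intro g
    rw [hfp]
    refine hf _ _ _ (by linarith [(hx01 g).1]) fun i => ?_
    obtain ⟨h6, h7⟩ := top_le_mas g δ' hδ'.le i
    rw [sub_zero, abs_of_nonneg h6, hx]
    exact h7
  have hCc : ∀ g, |(1 - cut θ (x g)) * (fp g - u g)| ≤ η / 8 + η / 16 := by
    intro g
    rcases lt_or_ge (x g) (2 * θ) with h6 | h6
    · have h7 : 0 ≤ 1 - cut θ (x g) := by linarith [(BL.cut hθ).2.1 (x g)]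
      have h8 : 1 - cut θ (x g) ≤ 1 := by linarith [(BL.cut hθ).1 (x g)]
      have h9 : |fp g - u g| ≤ η / 8 + η / 16 := by
        have h10 := abs_sub_le (fp g) (f (fun _ => 0)) (u g)
        have h11 := hu0 g
        rw [abs_sub_comm] at h11
        have h12 := hfp0 g
        have h13 : Λ * x g ≤ Λ * (2 * θ) := mul_le_mul_of_nonneg_left h6.le hΛ
        have h14 : Λ * δ' ≤ Λ * η' := mul_le_mul_of_nonneg_left (h2.trans h3) hΛ
        linarith
      rw [abs_mul, abs_of_nonneg h7]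
      exact (mul_le_of_le_one_left (abs_nonneg _) h8).trans h9
    · rw [cut_of_ge hθ h6]
      simp only [sub_self, zero_mul, abs_zero]
      positivity
  have hC' := hEμ (fun g => (1 - cut θ (x g)) * (fp g - u g)) (fun _ => η / 8 + η / 16) hCc
  rw [← Finset.sum_mul, hμ1, one_mul] at hC'
  -- Step D
  have hD : |∑ g, μ g * (u g - pdm (fun v : Fin m → ℝ => f (fun i => x g * v i)))| ≤ η / 4 := by
    have h6 := hEμ (fun g => u g - pdm (fun v : Fin m → ℝ => f (fun i => x g * v i)))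
      (fun _ => η / 4) (fun g => by
        beta_reduce
        rw [hu]
        exact hk₀ k hkk₀ (x g) (hx01 g).1 (hx01 g).2)
    rwa [← Finset.sum_mul, hμ1, one_mul] at h6
  -- total
  have e1 : ∑ g, μ g * f (fun i => top (frac g) i) - ∑ g, μ g * pdm (fun u : Fin m → ℝ =>
      f (fun i => mas (δ' * Fintype.card V) g * u i)) =
      ∑ g, μ g * (cut θ (x g) * (fp g - u g)) + ∑ g, μ g * ((1 - cut θ (x g)) * (fp g - u g)) +
      ∑ g, μ g * (u g - pdm (fun v : Fin m → ℝ => f (fun i => x g * v i))) := by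
    rw [← Finset.sum_add_distrib, ← Finset.sum_add_distrib, ← Finset.sum_sub_distrib]
    refine Finset.sum_congr rfl fun g _ => ?_
    rw [hfp, hx]
    ring
  rw [e1]
  have h6 := abs_add_le (∑ g, μ g * (cut θ (x g) * (fp g - u g)) +
    ∑ g, μ g * ((1 - cut θ (x g)) * (fp g - u g)))
    (∑ g, μ g * (u g - pdm (fun v : Fin m → ℝ => f (fun i => x g * v i))))
  have h7 := abs_add_le (∑ g, μ g * (cut θ (x g) * (fp g - u g)))
    (∑ g, μ g * ((1 - cut θ (x g)) * (fp g - u g)))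
  linarith

/-- for bounded continuous functions -/
theorem ordered_cont (m : ℕ) (f : (Fin m → ℝ) → ℝ) (hfc : Continuous f) (C : ℝ)
    (hC : ∀ u, |f u| ≤ C) (η : ℝ) (hη : 0 < η) :
    ∃ δ₁ : ℝ, 0 < δ₁ ∧ ∃ N₀ : ℕ, ∃ ε₀ : ℝ, 0 < ε₀ ∧
      ∀ (V : Type) [Fintype V] [DecidableEq V] [Nonempty V], Contr V → N₀ ≤ Fintype.card V →
        ∀ (μ : Perm V → ℝ) (ε : ℝ), (∀ g, 0 ≤ μ g) → ∑ g, μ g = 1 →
          (∀ (F : Perm V → ℝ) (K : ℝ), (∀ g, |F g| ≤ K) →
            |∑ g, μ g * TT F g - ∑ g, μ g * F g| ≤ K * ε) → 0 ≤ ε → ε ≤ ε₀ →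
          ∃ δ : ℝ, δ₁ ≤ δ ∧ δ ≤ η ∧
            |∑ g, μ g * f (fun i => top (frac g) i) -
              ∑ g, μ g * pdm (fun u : Fin m → ℝ =>
                f (fun i => mas (δ * Fintype.card V) g * u i))| ≤ η := by
  obtain ⟨Λ, h, hΛ, hhc, hhC, hhL, hfh⟩ := lip_approx m f hfc (C + 1)
    (fun u => (hC u).trans (by linarith)) (η / 4) (by positivity)
  have hC0 : 0 < C + 1 := by
    have := (abs_nonneg _).trans (hC 0)
    linarith
  obtain ⟨δ₁, hδ₁, N₀, ε₀, hε₀, H⟩ := ordered m h (C + 1) Λ hC0 hΛ hhC hhL (η / 2) (by positivity)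
  refine ⟨δ₁, hδ₁, N₀, ε₀, hε₀, ?_⟩
  intro V _ _ _ hCon hN μ ε hμ hμ1 hε hε0 hεe
  obtain ⟨δ, h1, h2, h3⟩ := H V hCon hN μ ε hμ hμ1 hε hε0 hεe
  refine ⟨δ, h1, by linarith, ?_⟩
  have hEμ : ∀ (F G : Perm V → ℝ), (∀ g, |F g - G g| ≤ η / 4) →
      |∑ g, μ g * F g - ∑ g, μ g * G g| ≤ η / 4 := by
    intro F G h
    rw [← Finset.sum_sub_distrib]
    refine (Finset.abs_sum_le_sum_abs _ _).trans ?_
    have h5 : ∀ g, |μ g * F g - μ g * G g| ≤ μ g * (η / 4) := by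
      intro g
      rw [← mul_sub, abs_mul, abs_of_nonneg (hμ g)]
      exact mul_le_mul_of_nonneg_left (h g) (hμ g)
    refine (Finset.sum_le_sum fun g _ => h5 g).trans (le_of_eq ?_)
    rw [← Finset.sum_mul, hμ1, one_mul]
  have h4 := hEμ (fun g => f (fun i => top (frac g) i)) (fun g => h (fun i => top (frac g) i))
    (fun g => by
      refine hfh _ fun i => ?_
      obtain ⟨h5, h6⟩ := top_le_mas g 0 le_rfl i
      have h7 := mas_le_one (0 * (Fintype.card V : ℝ)) g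
      exact ⟨h5, by linarith⟩)
  have h5 := hEμ (fun g => pdm (fun u : Fin m → ℝ =>
      f (fun i => mas (δ * Fintype.card V) g * u i)))
    (fun g => pdm (fun u : Fin m → ℝ =>
      h (fun i => mas (δ * Fintype.card V) g * u i)))
    (fun g => pdm_close pdl m f h hfc hhc (C + 1) (fun u => (hC u).trans (by linarith)) hhC
      (η / 4) hfh _ (mas_nonneg _ _) (mas_le_one _ _))
  rw [abs_le] at h3 h4 h5 ⊢
  constructor <;> linarith [h3.1, h3.2, h4.1, h4.2, h5.1, h5.2]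

end Pool.Agent.TH268.PD
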