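import Pool.Agent.TH268.PD.Count
import Pool.Agent.TH268.PD.Ord2

/-!
# No cycles of intermediate length
-/

set_option autoImplicit false

namespace Pool.Agent.TH268.PD

open Finset Equiv
open Pool.Agent.W805.LR (len cnt)

section

variable {V : Type} [Fintype V] [DecidableEq V]

theorem same_nonneg (g : Perm V) : 0 ≤ same g := by
  classical
  unfold same
  refine div_nonneg (Finset.sum_nonneg fun v _ => ?_) (by positivity)
  unfold Pool.Agent.W805.LR.len
  rw [Bad.cnt_eq]
  positivity

theorem len_le_card (g : Perm V) (v : V) : len g v ≤ Fintype.card V := by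
  classical
  unfold Pool.Agent.W805.LR.len
  rw [Bad.cnt_eq]
  exact_mod_cast Finset.card_le_univ _

theorem same_le_one [Nonempty V] (g : Perm V) : same g ≤ 1 := by
  have hN : (0 : ℝ) < Fintype.card V := by exact_mod_cast Fintype.card_pos
  unfold same
  rw [div_le_one (by positivity)]
  refine (Finset.sum_le_sum fun v _ => len_le_card g v).trans (le_of_eq ?_)
  rw [Finset.sum_const, Finset.card_univ, nsmul_eq_mul]
  ring

/-- two points of the same cycle -/
theorem same_tup [Nonempty V] (g : Perm V) (s : ℝ) (hs : 0 ≤ s) :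
    same g ≤ 4 / Fintype.card V + s / Fintype.card V +
      nTup 2 s g (swap 0 1) / (Fintype.card V : ℝ) ^ 2 := by
  classical
  have hN : (0 : ℝ) < Fintype.card V := by exact_mod_cast Fintype.card_pos
  have h1 : (∑ v, len g v) ≤ 4 * Fintype.card V + s * Fintype.card V +
      nTup 2 s g (swap 0 1) := by
    -- count pairs
    have e1 : (∑ v, len g v) = ∑ b : Fin 2 → V, if g.SameCycle (b 0) (b 1) then (1 : ℝ) else 0 := by
      have e2 : ∀ v, len g v = ∑ w, if g.SameCycle v w then (1 : ℝ) else 0 := by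
        intro v
        unfold Pool.Agent.W805.LR.len
        rw [Bad.cnt_eq, Finset.sum_boole]
      simp only [e2]
      rw [← Finset.sum_product', Finset.univ_product_univ]
      exact (Fintype.sum_equiv (finTwoArrowEquiv V) _ _ fun b => rfl).symm
    have e3 : (∑ v, if len g v < s then len g v else 0) =
        ∑ b : Fin 2 → V, if g.SameCycle (b 0) (b 1) ∧ len g (b 0) < s then (1 : ℝ) else 0 := by
      have e2 : ∀ v, (if len g v < s then len g v else 0) =
          ∑ w, if g.SameCycle v w ∧ len g v < s then (1 : ℝ) else 0 := by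
        intro v
        by_cases h : len g v < s
        · simp only [h, and_true, if_true]
          unfold Pool.Agent.W805.LR.len
          rw [Bad.cnt_eq, Finset.sum_boole]
        · simp [h]
      simp only [e2]
      rw [← Finset.sum_product', Finset.univ_product_univ]
      exact (Fintype.sum_equiv (finTwoArrowEquiv V) _ _ fun b => rfl).symm
    have h3 : (∑ v, if len g v < s then len g v else 0) ≤ s * Fintype.card V := by
      refine (Finset.sum_le_sum (g := fun _ => s) fun v _ => ?_).trans (le_of_eq ?_)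
      · split_ifs with h
        · exact h.le
        · exact hs
      · rw [Finset.sum_const, Finset.card_univ, nsmul_eq_mul]
        ring
    have h4 := card_noninj (V := V) 2
    have h5 : (Nat.card {b : Fin 2 → V // ¬ Function.Injective b} : ℝ) =
        ∑ b : Fin 2 → V, if ¬ Function.Injective b then (1 : ℝ) else 0 := by
      rw [Nat.card_eq_fintype_card, Fintype.card_subtype, Finset.sum_boole]
    have h6 : (∑ b : Fin 2 → V, if g.SameCycle (b 0) (b 1) then (1 : ℝ) else 0) ≤
        (∑ b : Fin 2 → V, if ¬ Function.Injective b then (1 : ℝ) else 0) +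
        (∑ b : Fin 2 → V, if g.SameCycle (b 0) (b 1) ∧ len g (b 0) < s then (1 : ℝ) else 0) +
        nTup 2 s g (swap 0 1) := by
      rw [nTup_eq, ← Finset.sum_add_distrib, ← Finset.sum_add_distrib]
      refine Finset.sum_le_sum fun b _ => ?_
      by_cases hsame : g.SameCycle (b 0) (b 1)
      · rw [if_pos hsame]
        by_cases hinj : Function.Injective b
        · by_cases hl : len g (b 0) < s
          · rw [if_neg (not_not.2 hinj), if_pos ⟨hsame, hl⟩]
            split_ifs <;> norm_num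
          · have hlen : len g (b 1) = len g (b 0) := by
              unfold Pool.Agent.W805.LR.len
              rw [Bad.cnt_eq, Bad.cnt_eq]
              congr 2
              ext z
              rw [Finset.mem_filter, Finset.mem_filter]
              refine and_congr_right fun _ => ?_
              exact ⟨fun h => hsame.trans h, fun h => hsame.symm.trans h⟩
            have hall : ∀ i, s ≤ len g (b i) := by
              intro i
              fin_cases i
              · exact not_lt.1 hl
              · exact (not_lt.1 hl).trans (le_of_eq hlen.symm)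
            have hret : ret 2 b g = swap 0 1 := by
              have h7 := ((ret_spec 2 b hinj).2.2.2 g 0 1).2 hsame
              have h8 : ret 2 b g ≠ 1 := by
                intro h9
                rw [h9] at h7
                have := Equiv.Perm.sameCycle_one.1 h7
                exact absurd this (by decide)
              revert h8
              generalize ret 2 b g = σ
              revert σ
              decide
            rw [if_neg (not_not.2 hinj), if_pos hinj,
              if_pos (show (∀ i, s ≤ len g (b i)) ∧ ret 2 b g = swap 0 1 from ⟨hall, hret⟩)]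
            split_ifs <;> norm_num
        · rw [if_pos hinj, if_neg hinj]
          split_ifs <;> norm_num
      · rw [if_neg hsame]
        have : ∀ p : Prop, ∀ [Decidable p], (0 : ℝ) ≤ if p then 1 else 0 := fun p _ => by
          split_ifs <;> norm_num
        split_ifs <;> norm_num
    rw [← e1, ← h5, ← e3] at h6
    have h7 : ((2 : ℕ) : ℝ) ^ 2 * (Fintype.card V : ℝ) ^ (2 - 1) = 4 * Fintype.card V := by
      norm_num
    rw [h7] at h4
    linarith
  unfold same
  rw [div_le_iff₀ (by positivity)]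
  refine h1.trans (le_of_eq ?_)
  field_simp

theorem nAll_le [Nonempty V] (k : ℕ) (s : ℝ) (g : Perm V) :
    nAll k s g / (Fintype.card V : ℝ) ^ k ≤ mas s g ^ k := by
  classical
  have hN : (0 : ℝ) < Fintype.card V := by exact_mod_cast Fintype.card_pos
  unfold mas
  rw [div_pow]
  refine div_le_div_of_nonneg_right ?_ (by positivity)
  have h1 : (cnt fun v => s ≤ len g v) ^ k =
      (Nat.card {b : Fin k → V // ∀ i, s ≤ len g (b i)} : ℝ) := by
    rw [Bad.cnt_eq, ← Fintype.card_subtype, ← Nat.cast_pow]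
    congr 1
    have e1 : Nat.card {b : Fin k → V // ∀ i, s ≤ len g (b i)} =
        Nat.card (Fin k → {v : V // s ≤ len g v}) := by
      refine Nat.card_congr ?_
      exact
        { toFun := fun b i => ⟨b.1 i, b.2 i⟩
          invFun := fun c => ⟨fun i => (c i).1, fun i => (c i).2⟩
          left_inv := fun b => rfl
          right_inv := fun c => rfl }
    rw [e1, Nat.card_fun, Nat.card_eq_fintype_card, Nat.card_eq_fintype_card, Fintype.card_fin]
  rw [h1]
  unfold nAll
  refine Nat.cast_le.2 ?_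
  simp only [Nat.card_eq_fintype_card, Fintype.card_subtype]
  refine Finset.card_le_card fun b hb => ?_
  rw [Finset.mem_filter] at hb ⊢
  exact ⟨hb.1, hb.2.2⟩

end

/-- the near invariance of a probability -/
def NInv {V : Type} [Fintype V] [DecidableEq V] (μ : Perm V → ℝ) (ε : ℝ) : Prop :=
  (∀ g, 0 ≤ μ g) ∧ ∑ g, μ g = 1 ∧ (∀ (F : Perm V → ℝ) (K : ℝ), (∀ g, |F g| ≤ K) →
    |∑ g, μ g * TT F g - ∑ g, μ g * F g| ≤ K * ε) ∧ 0 ≤ ε

/-- two random points in the same cycle -/
theorem same_le (η : ℝ) (hη : 0 < η) :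
    ∃ δ₁ : ℝ, 0 < δ₁ ∧ ∃ N₀ : ℕ, ∃ ε₀ : ℝ, 0 < ε₀ ∧
      ∀ (V : Type) [Fintype V] [DecidableEq V] [Nonempty V], N₀ ≤ Fintype.card V →
        ∀ (μ : Perm V → ℝ) (ε : ℝ), NInv μ ε → ε ≤ ε₀ →
          2 * ∑ g, μ g * same g ≤ ∑ g, μ g * mas (δ₁ * Fintype.card V) g ^ 2 + η := by
  obtain ⟨δ₁, hδ₁, N₀, ε₀, hε₀, H⟩ := core 2 (η / 8) (by positivity)
  obtain ⟨N1, hN1⟩ := exists_nat_gt (16 / η)
  refine ⟨δ₁, hδ₁, max N₀ N1, ε₀, hε₀, fun V _ _ _ hN μ ε hμ hεe => ?_⟩
  have hNpos : (0 : ℝ) < Fintype.card V := by exact_mod_cast Fintype.card_pos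
  obtain ⟨δ, h1, h2, h3⟩ := H V (contr_all V) ((le_max_left _ _).trans hN) μ ε hμ.1 hμ.2.1
    hμ.2.2.1 hμ.2.2.2 hεe
  have hδ : 0 < δ := lt_of_lt_of_le hδ₁ h1
  have h4 := h3 (swap 0 1)
  rw [LL_sum, LL_eq] at h4
  have hE : ∀ F G : Perm V → ℝ, (∀ g, F g ≤ G g) → ∑ g, μ g * F g ≤ ∑ g, μ g * G g :=
    fun F G h => Finset.sum_le_sum fun g _ => mul_le_mul_of_nonneg_left (h g) (hμ.1 g)
  have h5 := hE _ _ fun g => same_tup g (δ * Fintype.card V) (by positivity)
  have e1 : ∑ g, μ g * (4 / Fintype.card V + δ * Fintype.card V / Fintype.card V +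
      nTup 2 (δ * Fintype.card V) g (swap 0 1) / (Fintype.card V : ℝ) ^ 2) =
      4 / Fintype.card V + δ + ∑ g, μ g * (nTup 2 (δ * Fintype.card V) g (swap 0 1) /
        (Fintype.card V : ℝ) ^ 2) := by
    simp only [mul_add, Finset.sum_add_distrib]
    rw [← Finset.sum_mul, ← Finset.sum_mul, hμ.2.1, mul_div_assoc, div_self hNpos.ne']
    ring
  rw [e1] at h5
  have h6 := hE _ _ fun g => nAll_le 2 (δ * Fintype.card V) g
  have h7 : ∑ g, μ g * mas (δ * Fintype.card V) g ^ 2 ≤
      ∑ g, μ g * mas (δ₁ * Fintype.card V) g ^ 2 := by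
    refine hE _ _ fun g => ?_
    exact pow_le_pow_left₀ (mas_nonneg _ _)
      (mas_anti (mul_le_mul_of_nonneg_right h1 hNpos.le) g) 2
  have h8 : 4 / (Fintype.card V : ℝ) ≤ η / 4 := by
    have h9 : (N1 : ℝ) ≤ Fintype.card V := by exact_mod_cast (le_max_right _ _).trans hN
    have h10 : 16 / η ≤ Fintype.card V := hN1.le.trans h9
    rw [div_le_iff₀ hη] at h10
    rw [div_le_iff₀ hNpos]
    linarith
  have h9 := (abs_le.1 h4).2
  have h10 : ((2 : ℕ).factorial : ℝ) = 2 := by norm_num
  rw [h10] at h9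
  linarith

theorem NInv.iter {V : Type} [Fintype V] [DecidableEq V] [Nonempty V] {μ : Perm V → ℝ} {ε : ℝ}
    (h : NInv μ ε) (F : Perm V → ℝ) (hF : ∀ g, |F g| ≤ 1) (j : ℕ) :
    |∑ g, μ g * (TT^[j] F) g - ∑ g, μ g * F g| ≤ j * ε := by
  have hb : ∀ j : ℕ, ∀ g, |(TT^[j] F) g| ≤ 1 := by
    intro j
    induction j with
    | zero => exact hF
    | succ j ih =>
      intro g
      rw [Function.iterate_succ_apply']
      exact abs_TT_le_one _ ih g
  induction j with
  | zero => simp
  | succ j ih =>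
    have h1 := h.2.2.1 (TT^[j] F) 1 (hb j)
    rw [Function.iterate_succ_apply']
    have h2 := abs_sub_le (∑ g, μ g * TT (TT^[j] F) g) (∑ g, μ g * (TT^[j] F) g)
      (∑ g, μ g * F g)
    push_cast
    linarith

/-- no cycles of intermediate length -/
theorem gap (η : ℝ) (hη : 0 < η) :
    ∃ δ₁ : ℝ, 0 < δ₁ ∧ ∃ A : ℝ, 0 < A ∧ ∃ N₀ : ℕ, ∃ ε₀ : ℝ, 0 < ε₀ ∧
      ∀ (V : Type) [Fintype V] [DecidableEq V] [Nonempty V], N₀ ≤ Fintype.card V →
        ∀ (μ : Perm V → ℝ) (ε : ℝ), NInv μ ε → ε ≤ ε₀ → ∀ K : ℝ, 0 < K →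
          A * ε * Fintype.card V ≤ K →
            ∑ g, μ g * mas K g ^ 2 ≤ ∑ g, μ g * mas (δ₁ * Fintype.card V) g ^ 2 + η := by
  obtain ⟨δ₁, hδ₁, N₀, ε₀, hε₀, H⟩ := same_le (η / 2) (by positivity)
  refine ⟨δ₁, hδ₁, 64 / η ^ 2, by positivity, N₀, min ε₀ (η / 32), by positivity,
    fun V _ _ _ hN μ ε hμ hεe K hK hAK => ?_⟩
  have hNpos : (0 : ℝ) < Fintype.card V := by exact_mod_cast Fintype.card_pos
  have h1 := H V hN μ ε hμ (hεe.trans (min_le_left _ _))
  have hε32 : ε ≤ η / 32 := hεe.trans (min_le_right _ _)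
  have hε0 := hμ.2.2.2
  obtain ⟨n, hn⟩ : ∃ n : ℕ, n = ⌈8 * (Fintype.card V : ℝ) / (η * K)⌉₊ := ⟨_, rfl⟩
  have hq : 0 < 8 * (Fintype.card V : ℝ) / (η * K) := by positivity
  have hn0 : 0 < n := by rw [hn]; exact Nat.ceil_pos.2 hq
  have hn1 : 8 * (Fintype.card V : ℝ) / (η * K) ≤ n := by rw [hn]; exact Nat.le_ceil _
  have hn2 : (n : ℝ) ≤ 8 * (Fintype.card V : ℝ) / (η * K) + 1 := by
    rw [hn]; exact (Nat.ceil_lt_add_one hq.le).le
  have hnpos : (0 : ℝ) < n := by exact_mod_cast hn0
  have hE : ∀ F G : Perm V → ℝ, (∀ g, F g ≤ G g) → ∑ g, μ g * F g ≤ ∑ g, μ g * G g :=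
    fun F G h => Finset.sum_le_sum fun g _ => mul_le_mul_of_nonneg_left (h g) (hμ.1 g)
  have h2 := hE _ _ fun g => count_bound g K hK n hn0
  have e1 : ∑ g, μ g * (2 / n * ∑ j ∈ range n, (TT^[j] same) g + Fintype.card V / (K * n)) =
      2 / n * ∑ j ∈ range n, ∑ g, μ g * (TT^[j] same) g + Fintype.card V / (K * n) := by
    simp only [mul_add, Finset.sum_add_distrib]
    rw [← Finset.sum_mul, hμ.2.1, one_mul]
    congr 1
    simp only [Finset.mul_sum]
    rw [Finset.sum_comm]
    refine Finset.sum_congr rfl fun j _ => Finset.sum_congr rfl fun g _ => ?_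
    ring
  rw [e1] at h2
  have h3 : ∑ j ∈ range n, ∑ g, μ g * (TT^[j] same) g ≤
      ∑ _j ∈ range n, (∑ g, μ g * same g + n * ε) := by
    refine Finset.sum_le_sum fun j hj => ?_
    have h4 := (abs_le.1 (hμ.iter same (fun g => by
      rw [abs_of_nonneg (same_nonneg g)]; exact same_le_one g) j)).2
    have h5 : (j : ℝ) * ε ≤ n * ε := by
      refine mul_le_mul_of_nonneg_right ?_ hε0
      exact_mod_cast (Finset.mem_range.1 hj).le
    linarith
  rw [Finset.sum_const, Finset.card_range, nsmul_eq_mul] at h3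
  have h4 : 2 / (n : ℝ) * ∑ j ∈ range n, ∑ g, μ g * (TT^[j] same) g ≤
      2 * (∑ g, μ g * same g + n * ε) := by
    refine (mul_le_mul_of_nonneg_left h3 (by positivity)).trans (le_of_eq ?_)
    field_simp
  have h5 : (Fintype.card V : ℝ) / (K * n) ≤ η / 8 := by
    rw [div_le_iff₀ (by positivity)]
    rw [div_le_iff₀ (by positivity)] at hn1
    linarith
  have h6 : n * ε ≤ 5 * η / 32 := by
    have h7 : (n : ℝ) * ε ≤ (8 * (Fintype.card V : ℝ) / (η * K) + 1) * ε :=
      mul_le_mul_of_nonneg_right hn2 hε0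
    have h8 : 8 * (Fintype.card V : ℝ) / (η * K) * ε ≤ η / 8 := by
      rw [div_mul_eq_mul_div, div_le_iff₀ (by positivity)]
      have h9 : 64 * (ε * Fintype.card V) ≤ K * η ^ 2 := by
        have h10 : 64 / η ^ 2 * ε * Fintype.card V * η ^ 2 ≤ K * η ^ 2 :=
          mul_le_mul_of_nonneg_right hAK (by positivity)
        have h11 : 64 / η ^ 2 * ε * Fintype.card V * η ^ 2 = 64 * (ε * Fintype.card V) := by
          field_simp
        linarith
      have h12 : η / 8 * (η * K) = K * η ^ 2 / 8 := by ring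
      rw [h12]
      linarith
    linarith
  linarith

end Pool.Agent.TH268.PD
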