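import Pool.Agent.TH268.PD.Bridge

/-!
# Long range rates
-/

set_option autoImplicit false

namespace Pool.Agent.TH268.PD

open Finset Equiv Filter
open Pool.Agent.W805.LR (len cnt stirMass IsRate2)

/-- long range rates have a large uniform part -/
theorem far_rate (d : ℕ) (σ lam t C : ℝ) (hd : 1 ≤ d) (hσ : 0 < σ) (hσd : σ < d)
    (hlam : 0 < lam) (ht : 0 < t) :
    ∃ L₀ : ℕ, ∀ (L : ℕ) [NeZero L], L₀ ≤ L →
      ∀ J : (Fin d → ZMod L) → (Fin d → ZMod L) → ℝ, IsRate2 d L σ lam J →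
        ∃ κ : ℝ, 0 < κ ∧ (∀ x y, x ≠ y → κ ≤ J x y) ∧
          C ≤ t * κ * (Fintype.card (Fin d → ZMod L) : ℝ) ^ 2 ∧
          C ≤ Fintype.card (Fin d → ZMod L) := by
  have hlim : Tendsto (fun L : ℕ => (L : ℝ) ^ d) atTop atTop :=
    (tendsto_pow_atTop (by omega)).comp tendsto_natCast_atTop_atTop
  have hlim2 : Tendsto (fun L : ℕ => lam * t * (L : ℝ) ^ ((d : ℝ) - σ)) atTop atTop := by
    refine Tendsto.const_mul_atTop (by positivity) ?_
    exact (tendsto_rpow_atTop (by linarith)).comp tendsto_natCast_atTop_atTop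
  obtain ⟨L1, hL1⟩ := Filter.eventually_atTop.1
    ((hlim.eventually_ge_atTop C).and (hlim2.eventually_ge_atTop C))
  refine ⟨L1, fun L _ hL J hJ => ?_⟩
  have hLpos : (0 : ℝ) < L := by exact_mod_cast Nat.pos_of_ne_zero (NeZero.ne L)
  obtain ⟨h1, h2⟩ := hL1 L hL
  refine ⟨lam * (L : ℝ) ^ (-((d : ℝ) + σ)), by positivity, fun x y hxy => ?_, ?_, ?_⟩
  · refine le_trans ?_ (hJ.2.2 x y hxy)
    refine mul_le_mul_of_nonneg_left ?_ hlam.le
    have hb0 : (0 : ℝ) < Pool.Agent.W805.LR.bdist x y := by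
      have h3 := Pool.Agent.W805.LR.tdist_pos hxy
      have h4 := Pool.Agent.W805.LR.tdist_le_bdist x y
      exact_mod_cast lt_of_lt_of_le h3 h4
    have hb1 : (Pool.Agent.W805.LR.bdist x y : ℝ) ≤ L := by
      have : Pool.Agent.W805.LR.bdist x y ≤ L := by
        unfold Pool.Agent.W805.LR.bdist
        refine Finset.sup_le fun a _ => ?_
        have h3 := ZMod.val_lt (x a)
        have h4 := ZMod.val_lt (y a)
        omega
      exact_mod_cast this
    refine Real.rpow_le_rpow_of_nonpos hb0 hb1 ?_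
    have : (0 : ℝ) ≤ d := by positivity
    linarith
  · rw [Pool.Agent.W805.LR.card_torus]
    refine h2.trans (le_of_eq ?_)
    have e1 : ((L : ℝ) ^ d) ^ 2 = (L : ℝ) ^ (2 * (d : ℝ)) := by
      rw [← pow_mul, ← Real.rpow_natCast]
      push_cast
      ring_nf
    rw [e1]
    have e2 : (L : ℝ) ^ ((d : ℝ) - σ) = (L : ℝ) ^ (-((d : ℝ) + σ)) * (L : ℝ) ^ (2 * (d : ℝ)) := by
      rw [← Real.rpow_add hLpos]
      ring_nf
    rw [e2]
    ring
  · rw [Pool.Agent.W805.LR.card_torus]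
    exact h1

/-- for large times nearly all points are in long cycles -/
theorem large_time (d : ℕ) (σ lam η : ℝ) (hd : 1 ≤ d) (hσ : 0 < σ) (hσd : σ < d)
    (hlam : 0 < lam) (hη : 0 < η) :
    ∃ t₁ > 0, ∃ ε > 0, ∀ t ≥ t₁, ∃ L₀ : ℕ, ∀ (L : ℕ) [NeZero L], L₀ ≤ L →
      ∀ J : (Fin d → ZMod L) → (Fin d → ZMod L) → ℝ, IsRate2 d L σ lam J →
        ∑ g, law J t g * (cnt fun v => len g v < ε * Fintype.card (Fin d → ZMod L)) ≤
          η * Fintype.card (Fin d → ZMod L) := by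
  obtain ⟨t1, ht1, ε, hε, hmain⟩ := Pool.Agent.W805.LR.main2_thm d σ lam 1 η hd hσ hσd hlam
    one_pos hη
  refine ⟨t1, ht1, ε, hε, fun t ht => ?_⟩
  obtain ⟨L0, hL0⟩ := hmain t ht
  refine ⟨L0, fun L _ hL J hJ => ?_⟩
  have h1 := hL0 L hL J hJ
  simp only [one_pow, mul_one] at h1
  rw [Pool.Agent.W805.LR.card_torus]
  have hZ : 0 < ∑ h, stirMass J t h := by
    rw [Pool.Agent.W805.LR.sum_mass J t]
    exact Real.exp_pos _
  have e1 : ∑ g, law J t g * (cnt fun v => len g v < ε * (L : ℝ) ^ d) =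
      (∑ g, stirMass J t g * (cnt fun v => len g v < ε * (L : ℝ) ^ d)) / ∑ h, stirMass J t h := by
    rw [Finset.sum_div]
    exact Finset.sum_congr rfl fun g _ => by unfold law; ring
  rw [e1, div_le_iff₀ hZ]
  exact h1

end Pool.Agent.TH268.PD
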