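import Mathlib
set_option autoImplicit false
namespace Pool.Agent.TH268.PD
open Finset Filter Topology MeasureTheory

namespace Lim

/-! ### ranks -/

/-- the `i`-th rank of a counting function -/
noncomputable def rk (N : ℝ → ℕ∞) (i : ℕ) : ℝ := sSup {x : ℝ | ((i + 1 : ℕ) : ℕ∞) ≤ N x}

/-- counting functions of points in `[0, B]` -/
structure Good (B : ℝ) (N : ℝ → ℕ∞) : Prop where
  anti : Antitone N
  top : ∀ x ≤ 0, N x = ⊤
  zero : ∀ x, B < x → N x = 0

lemma Good.zero_mem {B : ℝ} {N : ℝ → ℕ∞} (h : Good B N) (i : ℕ) :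
    (0:ℝ) ∈ {x : ℝ | ((i + 1 : ℕ) : ℕ∞) ≤ N x} := by
  simp [h.top 0 le_rfl]

lemma Good.ub {B : ℝ} {N : ℝ → ℕ∞} (h : Good B N) (i : ℕ) :
    B ∈ upperBounds {x : ℝ | ((i + 1 : ℕ) : ℕ∞) ≤ N x} := by
  intro x hx
  by_contra hc
  push Not at hc
  have := h.zero x hc
  simp [this] at hx

lemma Good.rk_nonneg {B : ℝ} {N : ℝ → ℕ∞} (h : Good B N) (i : ℕ) : 0 ≤ rk N i :=
  le_csSup ⟨B, h.ub i⟩ (h.zero_mem i)

lemma Good.rk_le {B : ℝ} {N : ℝ → ℕ∞} (h : Good B N) (i : ℕ) : rk N i ≤ B :=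
  csSup_le ⟨0, h.zero_mem i⟩ (h.ub i)

/-- inserting a new point in a ranked list -/
noncomputable def ins (u : ℝ) (v : ℕ → ℝ) : ℕ → ℝ
  | 0 => max (v 0) u
  | i + 1 => max (v (i + 1)) (min (v i) u)

lemma ins_lip (u u' : ℝ) (v v' : ℕ → ℝ) (D : ℝ) (hu : |u - u'| ≤ D)
    (hv : ∀ i, |v i - v' i| ≤ D) (i : ℕ) : |ins u v i - ins u' v' i| ≤ D := by
  cases i with
  | zero =>
    simp only [ins]
    exact (abs_max_sub_max_le_max _ _ _ _).trans (max_le (hv 0) hu)
  | succ i =>
    simp only [ins]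
    refine (abs_max_sub_max_le_max _ _ _ _).trans (max_le (hv _) ?_)
    exact (abs_min_sub_min_le_max _ _ _ _).trans (max_le (hv _) hu)

lemma sSup_inter_Iic {S : Set ℝ} {u : ℝ} (h0 : (0:ℝ) ∈ S) (hb : BddAbove S)
    (hl : ∀ x ∈ S, ∀ y ≤ x, y ∈ S) (hu : 0 ≤ u) : sSup (S ∩ Set.Iic u) = min (sSup S) u := by
  have hne : (S ∩ Set.Iic u).Nonempty := ⟨0, h0, hu⟩
  have hb' : BddAbove (S ∩ Set.Iic u) := hb.mono Set.inter_subset_left
  apply le_antisymm
  · exact le_min (csSup_le_csSup hb hne Set.inter_subset_left) (csSup_le hne fun x hx => hx.2)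
  · apply le_of_forall_lt
    intro c hc
    obtain ⟨c', hc1, hc2⟩ := exists_between hc
    obtain ⟨h1, h2⟩ := lt_min_iff.1 hc2
    obtain ⟨y, hy, hcy⟩ := exists_lt_of_lt_csSup ⟨0, h0⟩ h1
    exact lt_of_lt_of_le hc1 (le_csSup hb' ⟨hl y hy c' hcy.le, h2.le⟩)

lemma enat1 (n : ℕ) (N : ℕ∞) : ((n + 1 + 1 : ℕ) : ℕ∞) ≤ N + 1 ↔ ((n + 1 : ℕ) : ℕ∞) ≤ N := by
  induction N with
  | top => simp
  | coe N => norm_cast; omega

lemma rk_add {B : ℝ} {N : ℝ → ℕ∞} (h : Good B N) {u : ℝ} (hu : 0 ≤ u) (N' : ℝ → ℕ∞)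
    (hN' : ∀ x, N' x = N x + if x ≤ u then 1 else 0) (i : ℕ) : rk N' i = ins u (rk N) i := by
  cases i with
  | zero =>
    simp only [ins, rk]
    have : {x : ℝ | ((0 + 1 : ℕ) : ℕ∞) ≤ N' x} = {x : ℝ | ((0 + 1 : ℕ) : ℕ∞) ≤ N x} ∪ Set.Iic u := by
      ext x
      simp only [Set.mem_ofPred_eq, Set.mem_union, Set.mem_Iic, hN']
      split_ifs with hx
      · simp [hx]
      · simp [hx]
    rw [this, csSup_union ⟨B, h.ub 0⟩ ⟨0, h.zero_mem 0⟩ bddAbove_Iic ⟨u, Set.mem_Iic.2 le_rfl⟩, csSup_Iic]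
  | succ i =>
    simp only [ins, rk]
    have : {x : ℝ | ((i + 1 + 1 : ℕ) : ℕ∞) ≤ N' x} =
        {x : ℝ | ((i + 1 + 1 : ℕ) : ℕ∞) ≤ N x} ∪
          ({x : ℝ | ((i + 1 : ℕ) : ℕ∞) ≤ N x} ∩ Set.Iic u) := by
      ext x
      simp only [Set.mem_ofPred_eq, Set.mem_union, Set.mem_Iic, Set.mem_inter_iff, hN']
      split_ifs with hx
      · rw [enat1]
        constructor
        · intro h1
          exact Or.inr ⟨h1, hx⟩
        · rintro (h1 | h1)
          · refine le_trans ?_ h1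
            exact_mod_cast Nat.le_succ (i + 1)
          · exact h1.1
      · simp [hx]
    rw [this, csSup_union ⟨B, h.ub _⟩ ⟨0, h.zero_mem _⟩
      (BddAbove.mono Set.inter_subset_left ⟨B, h.ub i⟩) ⟨0, h.zero_mem i, hu⟩,
      sSup_inter_Iic (h.zero_mem i) ⟨B, h.ub i⟩ ?_ hu]
    intro x hx y hy
    exact le_trans hx (h.anti hy)

/-! ### the discrete side -/

/-- ranked normalized parts of a multiset -/
noncomputable def tp (k : ℕ) (s : Multiset ℕ) (i : ℕ) : ℝ :=
  sSup {x : ℝ | i + 1 ≤ Multiset.card (Multiset.filter (fun c : ℕ => x ≤ (c : ℝ) / k) s)}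

/-- counting function of the parts -/
noncomputable def NN (k : ℕ) (s : Multiset ℕ) (x : ℝ) : ℕ∞ :=
  if x ≤ 0 then ⊤ else (Multiset.card (Multiset.filter (fun c : ℕ => x ≤ (c : ℝ) / k) s) : ℕ∞)

lemma good_NN (k : ℕ) (s : Multiset ℕ) : Good ((s.sum : ℝ) / k) (NN k s) := by
  refine ⟨?_, ?_, ?_⟩
  · intro x y hxy
    unfold NN
    by_cases hy : y ≤ 0
    · simp [hy, hxy.trans hy]
    · by_cases hx : x ≤ 0
      · simp [hx]
      · simp only [hx, hy, if_false]
        have : Multiset.filter (fun c : ℕ => y ≤ (c : ℝ) / k) s ≤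
            Multiset.filter (fun c : ℕ => x ≤ (c : ℝ) / k) s :=
          Multiset.monotone_filter_right s (fun c hc => hxy.trans hc)
        exact_mod_cast Multiset.card_le_card this
  · intro x hx
    simp [NN, hx]
  · intro x hx
    have h0 : (0:ℝ) ≤ (s.sum : ℝ) / k := by positivity
    have hx0 : ¬ x ≤ 0 := by linarith
    simp only [NN, hx0, if_false]
    have : Multiset.filter (fun c : ℕ => x ≤ (c : ℝ) / k) s = 0 := by
      rw [Multiset.filter_eq_nil]
      intro c hc h1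
      have h2 : c ≤ s.sum := Multiset.le_sum_of_mem hc
      have h3 : (c : ℝ) / k ≤ (s.sum : ℝ) / k := by
        have : (c : ℝ) ≤ (s.sum : ℝ) := by exact_mod_cast h2
        gcongr
      linarith
    simp [this]

lemma tp_eq_rk (k : ℕ) (s : Multiset ℕ) (i : ℕ) : tp k s i = rk (NN k s) i := by
  have hall : ∀ x : ℝ, x ≤ 0 → Multiset.filter (fun c : ℕ => x ≤ (c : ℝ) / k) s = s := by
    intro x hx
    rw [Multiset.filter_eq_self]
    intro c _
    exact hx.trans (by positivity)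
  unfold tp rk
  by_cases hi : i + 1 ≤ Multiset.card s
  · congr 1
    ext x
    simp only [Set.mem_ofPred_eq, NN]
    split_ifs with hx
    · simp [hall x hx, hi]
    · norm_cast
  · have h1 : {x : ℝ | i + 1 ≤ Multiset.card (Multiset.filter (fun c : ℕ => x ≤ (c : ℝ) / k) s)} = ∅ := by
      ext x
      simp only [Set.mem_ofPred_eq, Set.mem_empty_iff_false, iff_false]
      intro h
      exact hi (h.trans (Multiset.card_le_card (Multiset.filter_le _ _)))
    have h2 : {x : ℝ | ((i + 1 : ℕ) : ℕ∞) ≤ NN k s x} = Set.Iic 0 := by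
      ext x
      simp only [Set.mem_ofPred_eq, Set.mem_Iic, NN]
      split_ifs with hx
      · simp [hx]
      · simp only [hx, iff_false]
        intro h
        have h' : i + 1 ≤ Multiset.card (Multiset.filter (fun c : ℕ => x ≤ (c : ℝ) / k) s) := by
          exact_mod_cast h
        exact hi (h'.trans (Multiset.card_le_card (Multiset.filter_le _ _)))
    rw [h1, h2, Real.sSup_empty, csSup_Iic]

lemma tp_nonneg (k : ℕ) (s : Multiset ℕ) (i : ℕ) : 0 ≤ tp k s i := by
  rw [tp_eq_rk]; exact (good_NN k s).rk_nonneg i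

lemma tp_le_one {k : ℕ} {s : Multiset ℕ} (hs : s.sum = k) (i : ℕ) : tp k s i ≤ 1 := by
  rw [tp_eq_rk]
  refine ((good_NN k s).rk_le i).trans ?_
  rw [hs]
  exact div_self_le_one _

lemma tp_cons (k : ℕ) (l : ℕ) (s : Multiset ℕ) (i : ℕ) :
    tp k (l ::ₘ s) i = ins ((l : ℝ) / k) (tp k s) i := by
  have h0 : tp k s = rk (NN k s) := funext (tp_eq_rk k s)
  rw [tp_eq_rk, h0]
  apply rk_add (good_NN k s) (by positivity)
  intro x
  unfold NN
  by_cases hx : x ≤ 0
  · simp [hx]
  · simp only [hx, if_false]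
    split_ifs with h
    · rw [Multiset.filter_cons_of_pos (p := fun c : ℕ => x ≤ (c : ℝ) / k) s h]
      simp
    · rw [Multiset.filter_cons_of_neg (p := fun c : ℕ => x ≤ (c : ℝ) / k) s h]
      simp

lemma tp_scale (k j : ℕ) (hj : 0 < j) (hk : 0 < k) (s : Multiset ℕ) (i : ℕ) :
    tp k s i = ((j : ℝ) / k) * tp j s i := by
  have ha : (0:ℝ) < (j : ℝ) / k := by positivity
  have hj' : (0:ℝ) < j := by exact_mod_cast hj
  have hk' : (0:ℝ) < k := by exact_mod_cast hk
  unfold tp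
  rw [← smul_eq_mul, ← Real.sSup_smul_of_nonneg ha.le]
  congr 1
  ext x
  rw [Set.mem_smul_set_iff_inv_smul_mem₀ ha.ne']
  simp only [Set.mem_ofPred_eq, smul_eq_mul]
  have : ∀ c : ℕ, (((j : ℝ) / k)⁻¹ * x ≤ (c : ℝ) / j) ↔ (x ≤ (c : ℝ) / k) := by
    intro c
    rw [inv_mul_le_iff₀ ha]
    have : (j : ℝ) / k * ((c : ℝ) / j) = (c : ℝ) / k := by field_simp
    rw [this]
  simp only [this]

lemma tp_zero (k : ℕ) (i : ℕ) : tp k 0 i = 0 := by
  unfold tp
  simp

/-! ### the functional -/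

variable (E : ℕ → (Multiset ℕ → ℝ) → ℝ) (hE0 : ∀ G, E 0 G = G 0)
    (hE : ∀ k : ℕ, 0 < k → ∀ G, E k G = (∑ l ∈ Finset.Icc 1 k, E (k - l) (fun s => G (l ::ₘ s))) / k)

include hE0 hE

lemma E_close (k : ℕ) : ∀ (G G' : Multiset ℕ → ℝ) (ε : ℝ),
    (∀ s : Multiset ℕ, s.sum = k → |G s - G' s| ≤ ε) → |E k G - E k G'| ≤ ε := by
  induction k using Nat.strong_induction_on with
  | _ k ih =>
    intro G G' ε h
    rcases Nat.eq_zero_or_pos k with hk | hk
    · subst hk
      rw [hE0, hE0]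
      exact h 0 (by simp)
    · rw [hE k hk, hE k hk, ← sub_div, ← Finset.sum_sub_distrib, abs_div, Nat.abs_cast,
        div_le_iff₀ (by exact_mod_cast hk)]
      refine (Finset.abs_sum_le_sum_abs _ _).trans ?_
      have : ∀ l ∈ Finset.Icc 1 k, |E (k - l) (fun s => G (l ::ₘ s)) -
          E (k - l) (fun s => G' (l ::ₘ s))| ≤ ε := by
        intro l hl
        rw [Finset.mem_Icc] at hl
        apply ih (k - l) (by omega)
        intro s hs
        apply h
        rw [Multiset.sum_cons, hs]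
        omega
      refine (Finset.sum_le_sum this).trans ?_
      simp [mul_comm]

omit hE0 hE

/-! ### the continuous side -/

abbrev Om : Type := ℕ → unitInterval

/-- stick lengths -/
noncomputable def Y (U : Om) (j : ℕ) : ℝ := (U j : ℝ) * ∏ l ∈ Finset.range j, (1 - (U l : ℝ))

lemma Y_nonneg (U : Om) (j : ℕ) : 0 ≤ Y U j := by
  unfold Y
  refine mul_nonneg (U j).2.1 (Finset.prod_nonneg fun l _ => ?_)
  linarith [(U l).2.2]

lemma Y_le_one (U : Om) (j : ℕ) : Y U j ≤ 1 := by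
  unfold Y
  refine mul_le_one₀ (U j).2.2 (Finset.prod_nonneg fun l _ => ?_) (Finset.prod_le_one (fun l _ => ?_) fun l _ => ?_)
  · linarith [(U l).2.2]
  · linarith [(U l).2.2]
  · linarith [(U l).2.1]

/-- ranked sticks -/
noncomputable def tY (U : Om) (i : ℕ) : ℝ :=
  sSup {x : ℝ | (((i : ℕ) + 1 : ℕ) : ℕ∞) ≤ Set.encard {j : ℕ | x ≤ Y U j}}

lemma good_encard (y : ℕ → ℝ) (h0 : ∀ j, 0 ≤ y j) (h1 : ∀ j, y j ≤ 1) :
    Good 1 (fun x => Set.encard {j : ℕ | x ≤ y j}) := by
  refine ⟨?_, ?_, ?_⟩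
  · intro x x' hx
    exact Set.encard_le_encard (fun j hj => hx.trans hj)
  · intro x hx
    have : {j : ℕ | x ≤ y j} = Set.univ := by
      ext j
      simp only [Set.mem_ofPred_eq, Set.mem_univ, iff_true]
      exact hx.trans (h0 j)
    simp only [this]
    exact Set.encard_eq_top Set.infinite_univ
  · intro x hx
    rw [Set.encard_eq_zero]
    ext j
    simp only [Set.mem_ofPred_eq, Set.mem_empty_iff_false, iff_false, not_le]
    exact (h1 j).trans_lt hx

lemma tY_nonneg (U : Om) (i : ℕ) : 0 ≤ tY U i :=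
  (good_encard (Y U) (Y_nonneg U) (Y_le_one U)).rk_nonneg i

lemma tY_le_one (U : Om) (i : ℕ) : tY U i ≤ 1 :=
  (good_encard (Y U) (Y_nonneg U) (Y_le_one U)).rk_le i

/-- prepending -/
def cons (p : unitInterval × Om) : Om := fun n => Nat.casesOn n p.1 p.2

@[simp] lemma cons_zero (p : unitInterval × Om) : cons p 0 = p.1 := rfl
@[simp] lemma cons_succ (p : unitInterval × Om) (n : ℕ) : cons p (n + 1) = p.2 n := rfl

lemma Y_cons_zero (p : unitInterval × Om) : Y (cons p) 0 = p.1 := by simp [Y]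

lemma Y_cons_succ (p : unitInterval × Om) (j : ℕ) :
    Y (cons p) (j + 1) = (1 - (p.1 : ℝ)) * Y p.2 j := by
  simp only [Y, cons_succ, Finset.prod_range_succ', cons_zero]
  ring

lemma rk_scale_seq (a : ℝ) (ha : 0 ≤ a) (y : ℕ → ℝ) (i : ℕ) :
    rk (fun x => Set.encard {j : ℕ | x ≤ a * y j}) i = a * rk (fun x => Set.encard {j : ℕ | x ≤ y j}) i := by
  rcases ha.eq_or_lt with h | h
  · subst h
    simp only [zero_mul, rk]
    have : {x : ℝ | ((i + 1 : ℕ) : ℕ∞) ≤ Set.encard {j : ℕ | x ≤ 0}} = Set.Iic 0 := by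
      ext x
      simp only [Set.mem_ofPred_eq, Set.mem_Iic]
      by_cases hx : x ≤ 0
      · simp only [hx, iff_true]
        have : {j : ℕ | True} = Set.univ := by ext; simp
        rw [this, Set.encard_eq_top Set.infinite_univ]
        exact le_top
      · simp [hx]
    rw [this, csSup_Iic]
  · unfold rk
    rw [← smul_eq_mul a, ← Real.sSup_smul_of_nonneg ha]
    congr 1
    ext x
    rw [Set.mem_smul_set_iff_inv_smul_mem₀ h.ne']
    simp only [Set.mem_ofPred_eq, smul_eq_mul, inv_mul_le_iff₀ h]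

lemma tY_cons (p : unitInterval × Om) (i : ℕ) :
    tY (cons p) i = ins (p.1 : ℝ) (fun i => (1 - (p.1 : ℝ)) * tY p.2 i) i := by
  have hp0 : (0:ℝ) ≤ p.1 := p.1.2.1
  have hp1 : (0:ℝ) ≤ 1 - p.1 := by linarith [p.1.2.2]
  have hg : Good 1 (fun x => Set.encard {j : ℕ | x ≤ (1 - (p.1 : ℝ)) * Y p.2 j}) := by
    apply good_encard
    · intro j
      exact mul_nonneg hp1 (Y_nonneg _ _)
    · intro j
      exact mul_le_one₀ (by linarith) (Y_nonneg _ _) (Y_le_one _ _)
  have h1 : (fun i => (1 - (p.1 : ℝ)) * tY p.2 i) =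
      rk (fun x => Set.encard {j : ℕ | x ≤ (1 - (p.1 : ℝ)) * Y p.2 j}) := by
    funext i
    rw [rk_scale_seq _ hp1]
    rfl
  rw [h1]
  refine rk_add hg hp0 _ ?_ i
  intro x
  have h2 : {j : ℕ | x ≤ Y (cons p) j} =
      (Nat.succ '' {j : ℕ | x ≤ (1 - (p.1 : ℝ)) * Y p.2 j}) ∪ (if x ≤ (p.1 : ℝ) then {0} else ∅) := by
    ext j
    cases j with
    | zero =>
      simp only [Set.mem_ofPred_eq, Y_cons_zero, Set.mem_union, Set.mem_image]
      split_ifs with h <;> simp [h]
    | succ j =>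
      simp only [Set.mem_ofPred_eq, Y_cons_succ, Set.mem_union, Set.mem_image]
      split_ifs with h <;> simp
  rw [h2]
  rw [Set.encard_union_eq, (Nat.succ_injective.injOn).encard_image]
  · congr 1
    split_ifs <;> simp
  · split_ifs <;> simp

/-! ### measurability -/

lemma measurable_Y (j : ℕ) : Measurable (fun U : Om => Y U j) := by
  unfold Y
  refine Measurable.mul (measurable_subtype_coe.comp (measurable_pi_apply j)) ?_
  refine Finset.measurable_prod _ fun l _ => ?_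
  exact measurable_const.sub (measurable_subtype_coe.comp (measurable_pi_apply l))

lemma measurable_tY (i : ℕ) : Measurable (fun U : Om => tY U i) := by
  apply measurable_of_Ioi
  intro c
  have : (fun U : Om => tY U i) ⁻¹' Set.Ioi c = ⋃ q : ℚ, ⋃ F : Finset ℕ,
      {U : Om | c < q ∧ F.card = i + 1 ∧ ∀ j ∈ F, (q : ℝ) ≤ Y U j} := by
    ext U
    have hg := good_encard (Y U) (Y_nonneg U) (Y_le_one U)
    simp only [Set.mem_preimage, Set.mem_Ioi, Set.mem_iUnion, Set.mem_ofPred_eq]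
    unfold tY
    rw [lt_csSup_iff ⟨1, hg.ub i⟩ ⟨0, hg.zero_mem i⟩]
    constructor
    · rintro ⟨x, hx, hcx⟩
      obtain ⟨q, hq1, hq2⟩ := exists_rat_btwn hcx
      have hx' : (((i : ℕ) + 1 : ℕ) : ℕ∞) ≤ Set.encard {j : ℕ | (q:ℝ) ≤ Y U j} := by
        refine le_trans hx (hg.anti hq2.le)
      obtain ⟨t, ht1, ht2⟩ := Set.exists_subset_encard_eq hx'
      have htf : t.Finite := Set.finite_of_encard_eq_coe ht2
      refine ⟨q, htf.toFinset, hq1, ?_, ?_⟩
      · rw [htf.encard_eq_coe_toFinset_card] at ht2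
        exact_mod_cast ht2
      · intro j hj
        exact ht1 (htf.mem_toFinset.1 hj)
    · rintro ⟨q, F, hq, hF, hFq⟩
      refine ⟨q, ?_, hq⟩
      show (((i : ℕ) + 1 : ℕ) : ℕ∞) ≤ Set.encard {j : ℕ | (q:ℝ) ≤ Y U j}
      rw [← hF, ← Set.encard_coe_eq_coe_finsetCard]
      exact Set.encard_le_encard (fun j hj => hFq j hj)
  rw [this]
  refine MeasurableSet.iUnion fun q => MeasurableSet.iUnion fun F => ?_
  refine (MeasurableSet.const _).inter ((MeasurableSet.const _).inter ?_)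
  have : {U : Om | ∀ j ∈ F, (q : ℝ) ≤ Y U j} = ⋂ j ∈ F, {U : Om | (q : ℝ) ≤ Y U j} := by
    ext U; simp
  refine (this ▸ ?_ : MeasurableSet {U : Om | ∀ j ∈ F, (q : ℝ) ≤ Y U j})
  refine Finset.measurableSet_biInter _ fun j _ => ?_
  exact measurableSet_le measurable_const (measurable_Y j)

lemma measurable_cons : Measurable cons := by
  rw [measurable_pi_iff]
  intro n
  cases n with
  | zero => exact measurable_fst
  | succ n => exact (measurable_pi_apply n).comp measurable_snd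

/-- the uniform product measure -/
noncomputable abbrev mu : Measure Om := Measure.infinitePi (fun _ : ℕ => (volume : Measure unitInterval))

lemma mu_eq : mu = ((volume : Measure unitInterval).prod mu).map cons := by
  symm
  apply Measure.eq_infinitePi
  intro s t ht
  rw [Measure.map_apply measurable_cons (MeasurableSet.pi s.countable_toSet fun i _ => ht i)]
  have hpre : cons ⁻¹' (Set.pi s t) = (if 0 ∈ s then t 0 else Set.univ) ×ˢ
      (Set.pi (s.preimage Nat.succ (Nat.succ_injective.injOn) : Finset ℕ) (fun n => t (n + 1))) := by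
    ext p
    simp only [Set.mem_preimage, Set.mem_pi, Set.mem_prod, Finset.mem_coe, Finset.mem_preimage]
    constructor
    · intro h
      refine ⟨?_, fun n hn => h (n + 1) hn⟩
      split_ifs with h0
      · exact h 0 h0
      · trivial
    · rintro ⟨h1, h2⟩ n hn
      cases n with
      | zero =>
        rw [if_pos hn] at h1
        exact h1
      | succ n => exact h2 n hn
  rw [hpre, Measure.prod_prod, Measure.infinitePi_pi _ (fun i _ => ht _)]
  have h1 : (volume : Measure unitInterval) (if 0 ∈ s then t 0 else Set.univ) =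
      if 0 ∈ s then (volume : Measure unitInterval) (t 0) else 1 := by
    split_ifs <;> simp
  have h2 : ∏ i ∈ s.preimage Nat.succ (Nat.succ_injective.injOn),
      (volume : Measure unitInterval) (t (i + 1)) =
      ∏ n ∈ s, (if n = 0 then 1 else (volume : Measure unitInterval) (t n)) := by
    rw [← Finset.prod_preimage Nat.succ s (Nat.succ_injective.injOn)
      (fun n => if n = 0 then 1 else (volume : Measure unitInterval) (t n))]
    · apply Finset.prod_congr rfl
      intro i _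
      simp
    · intro x _ hx
      have : x = 0 := by
        by_contra h0
        exact hx ⟨x - 1, by simp; omega⟩
      simp [this]
  rw [h1, h2, ← Finset.prod_ite_eq' s 0 (fun n => (volume : Measure unitInterval) (t n)),
    ← Finset.prod_mul_distrib]
  apply Finset.prod_congr rfl
  intro n _
  by_cases hn : n = 0 <;> simp [hn]

/-! ### Lipschitz functionals -/

/-- sup-Lipschitz functionals -/
def Lip (L : ℝ) (Φ : (ℕ → ℝ) → ℝ) : Prop :=
  ∀ (v w : ℕ → ℝ) (D : ℝ), (∀ i, |v i - w i| ≤ D) → |Φ v - Φ w| ≤ L * D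

/-- one step of the recursion -/
noncomputable def stp (Φ : (ℕ → ℝ) → ℝ) (u : ℝ) (v : ℕ → ℝ) : ℝ :=
  Φ (ins u (fun i => (1 - u) * v i))

lemma stp_lip {L : ℝ} {Φ : (ℕ → ℝ) → ℝ} (h : Lip L Φ) (u : ℝ) :
    Lip (L * |1 - u|) (stp Φ u) := by
  intro v w D hD
  have hD0 : 0 ≤ D := (abs_nonneg _).trans (hD 0)
  have : |stp Φ u v - stp Φ u w| ≤ L * (|1 - u| * D) := by
    apply h
    apply ins_lip
    · simp only [sub_self, abs_zero]; positivity
    · intro i
      rw [← mul_sub, abs_mul]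
      exact mul_le_mul_of_nonneg_left (hD i) (abs_nonneg _)
  linarith

lemma stp_lip_u {L : ℝ} {Φ : (ℕ → ℝ) → ℝ} (h : Lip L Φ) (u u' : ℝ) (v : ℕ → ℝ)
    (h0 : ∀ i, 0 ≤ v i) (h1 : ∀ i, v i ≤ 1) : |stp Φ u v - stp Φ u' v| ≤ L * |u - u'| := by
  apply h
  apply ins_lip _ _ _ _ _ le_rfl
  intro i
  have : (1 - u) * v i - (1 - u') * v i = -((u - u') * v i) := by ring
  rw [this, abs_neg, abs_mul, abs_of_nonneg (h0 i)]
  exact mul_le_of_le_one_right (abs_nonneg _) (h1 i)

lemma measurable_ins (u : ℝ) : Measurable (fun v : ℕ → ℝ => ins u (fun i => (1 - u) * v i)) := by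
  rw [measurable_pi_iff]
  intro i
  cases i with
  | zero =>
    simp only [ins]
    fun_prop
  | succ i =>
    simp only [ins]
    fun_prop

lemma measurable_stp {Φ : (ℕ → ℝ) → ℝ} (h : Measurable Φ) (u : ℝ) : Measurable (stp Φ u) :=
  h.comp (measurable_ins u)

/-- the limit functional -/
noncomputable def I (Φ : (ℕ → ℝ) → ℝ) : ℝ := ∫ U, Φ (tY U) ∂mu

lemma measurable_tY' : Measurable tY := by
  rw [measurable_pi_iff]
  exact measurable_tY

lemma bound_Phi {L : ℝ} {Φ : (ℕ → ℝ) → ℝ} (h : Lip L Φ) (U : Om) : ‖Φ (tY U)‖ ≤ |Φ 0| + L := by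
  have h1 : |Φ (tY U) - Φ 0| ≤ L * 1 := by
    apply h
    intro i
    simp only [Pi.zero_apply, sub_zero]
    rw [abs_of_nonneg (tY_nonneg U i)]
    exact tY_le_one U i
  rw [Real.norm_eq_abs]
  have h2 : |Φ (tY U)| ≤ |Φ (tY U) - Φ 0| + |Φ 0| := by
    simpa using abs_add_le (Φ (tY U) - Φ 0) (Φ 0)
  linarith

lemma integrable_Phi {L : ℝ} {Φ : (ℕ → ℝ) → ℝ} (h : Lip L Φ) (hm : Measurable Φ) :
    Integrable (fun U => Φ (tY U)) mu :=
  Integrable.of_bound (hm.comp measurable_tY').aestronglyMeasurable (|Φ 0| + L)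
    (Eventually.of_forall (bound_Phi h))

lemma I_close {L L' : ℝ} {Φ Ψ : (ℕ → ℝ) → ℝ} (h : Lip L Φ) (hm : Measurable Φ) (h' : Lip L' Ψ)
    (hm' : Measurable Ψ) (ε : ℝ)
    (hc : ∀ v : ℕ → ℝ, (∀ i, 0 ≤ v i) → (∀ i, v i ≤ 1) → |Φ v - Ψ v| ≤ ε) :
    |I Φ - I Ψ| ≤ ε := by
  unfold I
  rw [← integral_sub (integrable_Phi h hm) (integrable_Phi h' hm')]
  have := norm_integral_le_of_norm_le_const (μ := mu) (f := fun U => Φ (tY U) - Ψ (tY U)) (C := ε)
    (Eventually.of_forall fun U => hc _ (tY_nonneg U) (tY_le_one U))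
  simpa using this

lemma I_lip {L : ℝ} {Φ : (ℕ → ℝ) → ℝ} (h : Lip L Φ) (hm : Measurable Φ) (u u' : ℝ) :
    |I (stp Φ u) - I (stp Φ u')| ≤ L * |u - u'| :=
  I_close (stp_lip h u) (measurable_stp hm u) (stp_lip h u') (measurable_stp hm u') _
    fun v h0 h1 => stp_lip_u h u u' v h0 h1

lemma I_rec {L : ℝ} {Φ : (ℕ → ℝ) → ℝ} (h : Lip L Φ) (hm : Measurable Φ) :
    I Φ = ∫ u in (0:ℝ)..1, I (stp Φ u) := by
  have h1 : I Φ = ∫ p, Φ (tY (cons p)) ∂((volume : Measure unitInterval).prod mu) := by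
    unfold I
    conv_lhs => rw [mu_eq]
    rw [integral_map measurable_cons.aemeasurable]
    exact (hm.comp measurable_tY').aestronglyMeasurable
  have hint : Integrable (fun p => Φ (tY (cons p))) ((volume : Measure unitInterval).prod mu) :=
    Integrable.of_bound ((hm.comp measurable_tY').comp measurable_cons).aestronglyMeasurable
      (|Φ 0| + L) (Eventually.of_forall fun p => bound_Phi h (cons p))
  rw [h1, integral_prod _ hint]
  have h2 : ∀ u : unitInterval, ∫ V, Φ (tY (cons (u, V))) ∂mu = I (stp Φ (u : ℝ)) := by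
    intro u
    unfold I stp
    congr 1
    funext V
    exact congrArg Φ (funext (tY_cons (u, V)))
  simp only [h2]
  rw [intervalIntegral.integral_of_le zero_le_one, ← integral_Icc_eq_integral_Ioc]
  exact integral_subtype measurableSet_Icc (fun u => I (stp Φ u))

lemma riemann (h : ℝ → ℝ) (L : ℝ) (hL : ∀ u u', |h u - h u'| ≤ L * |u - u'|) (k : ℕ) (hk : 0 < k) :
    |(∑ l ∈ Finset.Icc 1 k, h ((l:ℝ)/k)) / k - ∫ u in (0:ℝ)..1, h u| ≤ L / k := by
  have hL0 : 0 ≤ L := by
    have := hL 1 0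
    simp only [sub_zero, abs_one, mul_one] at this
    exact (abs_nonneg _).trans this
  have hcont : Continuous h := by
    refine (LipschitzWith.of_dist_le_mul (K := ⟨L, hL0⟩) ?_).continuous
    intro x y
    rw [Real.dist_eq, Real.dist_eq]
    exact hL x y
  have hk' : (0:ℝ) < k := by exact_mod_cast hk
  have h1 : ∑ l ∈ Finset.Icc 1 k, h ((l:ℝ)/k) = ∑ i ∈ Finset.range k, h (((i + 1 : ℕ) : ℝ) / k) := by
    refine Finset.sum_nbij' (fun l => l - 1) (fun i => i + 1) ?_ ?_ ?_ ?_ ?_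
    · intro l hl; simp only [Finset.mem_Icc, Finset.mem_range] at *; omega
    · intro l hl; simp only [Finset.mem_Icc, Finset.mem_range] at *; omega
    · intro l hl; simp only [Finset.mem_Icc] at *; omega
    · intro l hl; simp
    · intro l hl
      simp only [Finset.mem_Icc] at hl
      have : l - 1 + 1 = l := by omega
      rw [this]
  have h2 : ∫ u in (0:ℝ)..1, h u =
      ∑ i ∈ Finset.range k, ∫ u in ((i : ℕ) : ℝ) / k..((i + 1 : ℕ) : ℝ) / k, h u := by
    have := intervalIntegral.sum_integral_adjacent_intervals (f := h) (μ := volume)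
      (a := fun i : ℕ => (i : ℝ) / k) (n := k) (fun i _ => hcont.intervalIntegrable _ _)
    rw [this]
    simp only [Nat.cast_zero, zero_div, div_self hk'.ne']
  rw [h1, h2, Finset.sum_div, ← Finset.sum_sub_distrib]
  refine (Finset.abs_sum_le_sum_abs _ _).trans ?_
  have h3 : ∀ i ∈ Finset.range k, |h (((i + 1 : ℕ) : ℝ) / k) / k -
      ∫ u in ((i : ℕ) : ℝ) / k..((i + 1 : ℕ) : ℝ) / k, h u| ≤ L / k * (1 / k) := by
    intro i _
    have hd : ((i + 1 : ℕ) : ℝ) / k - (i : ℝ) / k = 1 / k := by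
      push_cast; ring
    have h4 : h (((i + 1 : ℕ) : ℝ) / k) / k =
        ∫ u in ((i : ℕ) : ℝ) / k..((i + 1 : ℕ) : ℝ) / k, h (((i + 1 : ℕ) : ℝ) / k) := by
      rw [intervalIntegral.integral_const, hd, smul_eq_mul]
      ring
    rw [h4, ← intervalIntegral.integral_sub (by simp) (hcont.intervalIntegrable _ _)]
    have := intervalIntegral.norm_integral_le_of_norm_le_const (a := ((i : ℕ) : ℝ) / k)
      (b := ((i + 1 : ℕ) : ℝ) / k) (C := L / k)
      (f := fun u => h (((i + 1 : ℕ) : ℝ) / k) - h u) ?_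
    · rw [hd, abs_of_nonneg (by positivity)] at this
      exact this
    · intro x hx
      have hle : ((i : ℕ) : ℝ) / k ≤ ((i + 1 : ℕ) : ℝ) / k := by
        have : (0:ℝ) ≤ 1 / k := by positivity
        linarith
      rw [Set.uIoc_of_le hle] at hx
      refine (hL _ _).trans ?_
      rw [abs_of_nonneg (by linarith [hx.2]), div_eq_mul_one_div L (k:ℝ)]
      exact mul_le_mul_of_nonneg_left (by linarith [hx.1]) hL0
  refine (Finset.sum_le_sum h3).trans ?_
  simp only [Finset.sum_const, Finset.card_range, nsmul_eq_mul]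
  apply le_of_eq
  field_simp

lemma sum_sqrt_le (k : ℕ) (hk : 0 < k) :
    ∑ l ∈ Finset.Icc 1 k, √((k - l : ℕ) : ℝ) ≤ 3 / 4 * (k * √k) := by
  have hk' : (0:ℝ) < k := by exact_mod_cast hk
  have hs : 0 < √(k:ℝ) := Real.sqrt_pos.2 hk'
  have h1 : ∀ j : ℕ, √(j : ℝ) ≤ ((j : ℝ) / √k + √k) / 2 := by
    intro j
    have h2 : √(j:ℝ) * √(j:ℝ) = j := Real.mul_self_sqrt (by positivity)
    have h3 : (j : ℝ) / √k + √k - 2 * √j = (√j - √k) ^ 2 / √k := by
      rw [eq_div_iff hs.ne', sub_mul, add_mul, div_mul_cancel₀ _ hs.ne']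
      nlinarith
    have h4 : 0 ≤ (√(j:ℝ) - √k) ^ 2 / √k := by positivity
    linarith
  have h5 : ∑ l ∈ Finset.Icc 1 k, √((k - l : ℕ) : ℝ) = ∑ i ∈ Finset.range k, √(i : ℝ) := by
    refine Finset.sum_nbij' (fun l => k - l) (fun i => k - i) ?_ ?_ ?_ ?_ ?_
    · intro l hl; simp only [Finset.mem_Icc, Finset.mem_range] at *; omega
    · intro l hl; simp only [Finset.mem_Icc, Finset.mem_range] at *; omega
    · intro l hl; simp only [Finset.mem_Icc] at *; omega
    · intro l hl; simp only [Finset.mem_range] at *; omega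
    · intro l hl; rfl
  rw [h5]
  refine (Finset.sum_le_sum fun i _ => h1 i).trans ?_
  rw [← Finset.sum_div, Finset.sum_add_distrib, ← Finset.sum_div]
  have h6 : ∑ i ∈ Finset.range k, (i : ℝ) ≤ k * k / 2 := by
    have := Finset.sum_range_id_mul_two k
    have h7 : (∑ i ∈ Finset.range k, (i : ℝ)) * 2 = ((k * (k - 1) : ℕ) : ℝ) := by
      rw [← this]; push_cast; rfl
    have h8 : ((k * (k - 1) : ℕ) : ℝ) ≤ k * k := by
      have : k * (k - 1) ≤ k * k := Nat.mul_le_mul_left k (by omega)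
      exact_mod_cast this
    linarith
  have h9 : (∑ i ∈ Finset.range k, (i : ℝ)) / √k ≤ k * √k / 2 := by
    rw [div_le_iff₀ hs]
    have : √(k:ℝ) * √k = k := Real.mul_self_sqrt hk'.le
    nlinarith
  simp only [Finset.sum_const, Finset.card_range, nsmul_eq_mul]
  linarith

include hE0 hE in
lemma main_bound (k : ℕ) : 0 < k → ∀ (L : ℝ) (Φ : (ℕ → ℝ) → ℝ), 0 ≤ L → Measurable Φ → Lip L Φ →
    |E k (fun s => Φ (tp k s)) - I Φ| ≤ L * (4 / √k) := by
  induction k using Nat.strong_induction_on with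
  | _ k ih =>
    intro hk L Φ hL0 hm hL
    have hk' : (0:ℝ) < k := by exact_mod_cast hk
    have hs : 0 < √(k:ℝ) := Real.sqrt_pos.2 hk'
    have hterm : ∀ l ∈ Finset.Icc 1 k, |E (k - l) (fun s => Φ (tp k (l ::ₘ s))) -
        I (stp Φ ((l : ℝ) / k))| ≤ L * (4 * √((k - l : ℕ) : ℝ) / k) := by
      intro l hl
      rw [Finset.mem_Icc] at hl
      rcases hl.2.eq_or_lt with hlk | hlk
      · subst hlk
        have h1 : E (l - l) (fun s => Φ (tp l (l ::ₘ s))) = Φ (ins 1 0) := by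
          rw [Nat.sub_self, hE0]
          congr 1
          funext i
          rw [tp_cons, div_self hk'.ne']
          congr 1
          funext j
          exact tp_zero l j
        have h2 : I (stp Φ ((l : ℝ) / l)) = Φ (ins 1 0) := by
          rw [div_self hk'.ne']
          unfold I stp
          have : ∀ U : Om, (fun i => (1 - (1:ℝ)) * tY U i) = 0 := by
            intro U; funext i; simp
          simp only [this]
          simp
        rw [h1, h2, sub_self, abs_zero]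
        positivity
      · have hj : 0 < k - l := by omega
        have hj' : (0:ℝ) < ((k - l : ℕ) : ℝ) := by exact_mod_cast hj
        have hjs : 0 < √((k - l : ℕ) : ℝ) := Real.sqrt_pos.2 hj'
        have hjk : ((k - l : ℕ) : ℝ) / k = 1 - (l : ℝ) / k := by
          rw [Nat.cast_sub hl.2]
          field_simp
        have h1 : (fun s => Φ (tp k (l ::ₘ s))) = fun s => stp Φ ((l : ℝ) / k) (tp (k - l) s) := by
          funext s
          unfold stp
          congr 1
          funext i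
          rw [tp_cons]
          congr 1
          funext i
          rw [tp_scale k (k - l) hj hk, hjk]
        rw [h1]
        have hle : 0 ≤ 1 - (l : ℝ) / k := by rw [← hjk]; positivity
        have := ih (k - l) (by omega) hj (L * |1 - (l : ℝ) / k|) (stp Φ ((l : ℝ) / k))
          (by positivity) (measurable_stp hm _) (stp_lip hL _)
        refine this.trans (le_of_eq ?_)
        rw [abs_of_nonneg hle, ← hjk]
        have h2 : √((k - l : ℕ) : ℝ) * √((k - l : ℕ) : ℝ) = ((k - l : ℕ) : ℝ) :=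
          Real.mul_self_sqrt hj'.le
        have h3 : ((k - l : ℕ) : ℝ) / √((k - l : ℕ) : ℝ) = √((k - l : ℕ) : ℝ) := by
          rw [div_eq_iff hjs.ne']
          exact h2.symm
        calc L * (((k - l : ℕ) : ℝ) / k) * (4 / √((k - l : ℕ) : ℝ))
            = L * (4 * (((k - l : ℕ) : ℝ) / √((k - l : ℕ) : ℝ)) / k) := by ring
          _ = _ := by rw [h3]
    have h1 : |(∑ l ∈ Finset.Icc 1 k, E (k - l) (fun s => Φ (tp k (l ::ₘ s)))) / k -
        (∑ l ∈ Finset.Icc 1 k, I (stp Φ ((l : ℝ) / k))) / k| ≤ L * (3 / √k) := by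
      rw [← sub_div, ← Finset.sum_sub_distrib, abs_div, Nat.abs_cast, div_le_iff₀ hk']
      refine (Finset.abs_sum_le_sum_abs _ _).trans ?_
      refine (Finset.sum_le_sum hterm).trans ?_
      rw [← Finset.mul_sum, ← Finset.sum_div, ← Finset.mul_sum]
      rw [mul_assoc]
      apply mul_le_mul_of_nonneg_left _ hL0
      rw [div_le_iff₀ hk']
      have h2 := sum_sqrt_le k hk
      have h3 : (k:ℝ) / √k = √k := by
        rw [div_eq_iff hs.ne']
        exact (Real.mul_self_sqrt hk'.le).symm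
      calc 4 * ∑ l ∈ Finset.Icc 1 k, √((k - l : ℕ) : ℝ) ≤ 4 * (3 / 4 * (k * √k)) := by linarith
        _ = 3 * k * √k := by ring
        _ = 3 * k * (k / √k) := by rw [h3]
        _ = _ := by ring
    have h2 := riemann (fun u => I (stp Φ u)) L (I_lip hL hm) k hk
    rw [← I_rec hL hm] at h2
    have h3 : E k (fun s => Φ (tp k s)) =
        (∑ l ∈ Finset.Icc 1 k, E (k - l) (fun s => Φ (tp k (l ::ₘ s)))) / k := hE k hk _
    rw [h3]
    have h4 : L / k ≤ L * (1 / √k) := by
      rw [div_eq_mul_one_div]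
      apply mul_le_mul_of_nonneg_left _ hL0
      apply one_div_le_one_div_of_le hs
      rw [Real.sqrt_le_left hk'.le]
      have : (1:ℝ) ≤ k := by exact_mod_cast hk
      nlinarith
    have h5 := abs_sub_le ((∑ l ∈ Finset.Icc 1 k, E (k - l) (fun s => Φ (tp k (l ::ₘ s)))) / k)
      ((∑ l ∈ Finset.Icc 1 k, I (stp Φ ((l : ℝ) / k))) / k) (I Φ)
    calc _ ≤ _ := h5
      _ ≤ L * (3 / √k) + L * (1 / √k) := add_le_add h1 (h2.trans h4)
      _ = _ := by ring

/-! ### approximation by Lipschitz functions -/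

lemma approx (m : ℕ) (f : (Fin m → ℝ) → ℝ) (hf : Continuous f) (C : ℝ) (hC : ∀ x, |f x| ≤ C)
    (ε : ℝ) (hε : 0 < ε) :
    ∃ (g : (Fin m → ℝ) → ℝ) (L : ℝ), 0 ≤ L ∧ (∀ x y, |g x - g y| ≤ L * ‖x - y‖) ∧
      ∀ x, (∀ i, 0 ≤ x i ∧ x i ≤ 1) → |f x - g x| ≤ ε := by
  have hK : IsCompact (Set.Icc (0 : Fin m → ℝ) 1) := isCompact_Icc
  have hu := hK.uniformContinuousAt_of_continuousAt f (fun a _ => hf.continuousAt)
    (Metric.dist_mem_uniformity hε)
  obtain ⟨δ, hδ, hd⟩ := Metric.mem_uniformity_dist.1 hu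
  have hC0 : 0 ≤ C := (abs_nonneg _).trans (hC 0)
  set n : ℝ := 2 * C / δ with hn
  have hn0 : 0 ≤ n := by positivity
  have hb : ∀ x : Fin m → ℝ, BddBelow (Set.range fun y => f y + n * ‖x - y‖) := by
    intro x
    refine ⟨-C, ?_⟩
    rintro _ ⟨y, rfl⟩
    have h1 := (abs_le.1 (hC y)).1
    have h2 : 0 ≤ n * ‖x - y‖ := by positivity
    simp only
    linarith
  have hlip : ∀ x x' : Fin m → ℝ, (⨅ y, (f y + n * ‖x - y‖)) - n * ‖x - x'‖ ≤ ⨅ y, (f y + n * ‖x' - y‖) := by
    intro x x'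
    apply le_ciInf
    intro y
    have h1 := ciInf_le (hb x) y
    have h2 : ‖x - y‖ ≤ ‖x - x'‖ + ‖x' - y‖ := norm_sub_le_norm_sub_add_norm_sub _ _ _
    have h3 := mul_le_mul_of_nonneg_left h2 hn0
    linarith
  refine ⟨fun x => ⨅ y, (f y + n * ‖x - y‖), n, hn0, ?_, ?_⟩
  · intro x y
    rw [abs_le]
    have h1 := hlip x y
    have h2 := hlip y x
    rw [norm_sub_rev y x] at h2
    constructor <;> simp only <;> linarith
  · intro x hx
    have hxK : x ∈ Set.Icc (0 : Fin m → ℝ) 1 := ⟨fun i => (hx i).1, fun i => (hx i).2⟩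
    have h1 : (⨅ y, (f y + n * ‖x - y‖)) ≤ f x := by
      have := ciInf_le (hb x) x
      simpa using this
    have h2 : f x - ε ≤ ⨅ y, (f y + n * ‖x - y‖) := by
      apply le_ciInf
      intro y
      by_cases hxy : dist x y < δ
      · have h3 : dist (f x) (f y) < ε := hd hxy hxK
        rw [Real.dist_eq] at h3
        have h4 := (abs_lt.1 h3).2
        have h5 : 0 ≤ n * ‖x - y‖ := by positivity
        linarith
      · push Not at hxy
        rw [dist_eq_norm] at hxy
        have h3 : n * δ ≤ n * ‖x - y‖ := mul_le_mul_of_nonneg_left hxy hn0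
        have h4 : n * δ = 2 * C := by rw [hn]; field_simp
        have h5 := (abs_le.1 (hC y)).1
        have h6 := (abs_le.1 (hC x)).2
        linarith
    rw [abs_le]
    constructor <;> simp only <;> linarith

end Lim

open Lim in
/-- the limit of a recursive sequence of laws of partitions is the Poisson-Dirichlet law -/
theorem pd_limit (E : ℕ → (Multiset ℕ → ℝ) → ℝ) (hE0 : ∀ G, E 0 G = G 0)
    (hE : ∀ k : ℕ, 0 < k → ∀ G, E k G = (∑ l ∈ Finset.Icc 1 k, E (k - l) (fun s => G (l ::ₘ s))) / k)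
    (m : ℕ) (f : (Fin m → ℝ) → ℝ) (hf : Continuous f) (C : ℝ) (hC : ∀ x, |f x| ≤ C) :
    Tendsto (fun k => E k (fun s => f (fun i : Fin m => sSup {x : ℝ | (i : ℕ) + 1 ≤
        Multiset.card (Multiset.filter (fun c : ℕ => x ≤ (c : ℝ) / k) s)}))) atTop
      (𝓝 (∫ U, f (fun i : Fin m => sSup {x : ℝ | (((i : ℕ) + 1 : ℕ) : ℕ∞) ≤
              Set.encard {j : ℕ | x ≤ (U j : ℝ) * ∏ l ∈ Finset.range j, (1 - (U l : ℝ))}})
        ∂(Measure.infinitePi (fun _ : ℕ => (volume : Measure unitInterval))))) := by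
  rw [Metric.tendsto_nhds]
  intro ε hε
  obtain ⟨g, L, hL0, hL, hfg⟩ := approx m f hf C hC (ε / 4) (by positivity)
  have hgc : Continuous g := by
    refine (LipschitzWith.of_dist_le_mul (K := ⟨L, hL0⟩) ?_).continuous
    intro x y
    rw [Real.dist_eq, dist_eq_norm]
    exact hL x y
  set Φ : (ℕ → ℝ) → ℝ := fun v => g (fun i : Fin m => v i) with hΦ
  have hΦL : Lip L Φ := by
    intro v w D hD
    have hD0 : 0 ≤ D := (abs_nonneg _).trans (hD 0)
    refine (hL _ _).trans (mul_le_mul_of_nonneg_left ?_ hL0)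
    rw [pi_norm_le_iff_of_nonneg hD0]
    intro i
    exact hD i
  have hΦm : Measurable Φ := by
    refine hgc.measurable.comp ?_
    rw [measurable_pi_iff]
    intro i
    exact measurable_pi_apply _
  have hlim : Tendsto (fun k : ℕ => L * (4 / √(k:ℝ))) atTop (𝓝 0) := by
    have : Tendsto (fun k : ℕ => (4:ℝ) / √(k:ℝ)) atTop (𝓝 0) :=
      tendsto_const_nhds.div_atTop (Real.tendsto_sqrt_atTop.comp tendsto_natCast_atTop_atTop)
    simpa using this.const_mul L
  have hev : ∀ᶠ k : ℕ in atTop, L * (4 / √(k:ℝ)) < ε / 4 :=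
    hlim.eventually (gt_mem_nhds (by positivity))
  filter_upwards [hev, eventually_gt_atTop 0] with k hk hk0
  rw [Real.dist_eq]
  have h1 : |E k (fun s => f (fun i : Fin m => tp k s i)) - E k (fun s => Φ (tp k s))| ≤ ε / 4 := by
    apply E_close E hE0 hE
    intro s hs
    exact hfg _ (fun i => ⟨tp_nonneg k s i, tp_le_one hs i⟩)
  have h2 := main_bound E hE0 hE k hk0 L Φ hL0 hΦm hΦL
  have hfm : Measurable (fun U : Om => f (fun i : Fin m => tY U i)) := by
    refine hf.measurable.comp ?_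
    rw [measurable_pi_iff]
    intro i
    exact measurable_tY i
  have hfi : Integrable (fun U : Om => f (fun i : Fin m => tY U i)) mu :=
    Integrable.of_bound hfm.aestronglyMeasurable C (Eventually.of_forall fun U => hC _)
  have h3 : |I Φ - ∫ U, f (fun i : Fin m => tY U i) ∂mu| ≤ ε / 4 := by
    unfold I
    rw [← integral_sub (integrable_Phi hΦL hΦm) hfi]
    have := norm_integral_le_of_norm_le_const (μ := mu)
      (f := fun U => Φ (tY U) - f (fun i : Fin m => tY U i)) (C := ε / 4)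
      (Eventually.of_forall fun U => by
        rw [Real.norm_eq_abs, abs_sub_comm]
        exact hfg _ (fun i => ⟨tY_nonneg U i, tY_le_one U i⟩))
    simpa using this
  change |E k (fun s => f (fun i : Fin m => tp k s i)) - ∫ U, f (fun i : Fin m => tY U i) ∂mu| < ε
  have h4 := abs_sub_le (E k (fun s => f (fun i : Fin m => tp k s i))) (E k (fun s => Φ (tp k s)))
    (∫ U, f (fun i : Fin m => tY U i) ∂mu)
  have h5 := abs_sub_le (E k (fun s => Φ (tp k s))) (I Φ) (∫ U, f (fun i : Fin m => tY U i) ∂mu)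
  linarith

end Pool.Agent.TH268.PD
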