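import Mathlib

/-!
# Lipschitz approximation of a continuous function on the unit cube
-/

set_option autoImplicit false

namespace Pool.Agent.TH268.PD

/-- approximation of a bounded continuous function by a Lipschitz function on the unit cube -/
theorem lip_approx (m : ℕ) (f : (Fin m → ℝ) → ℝ) (hf : Continuous f) (C : ℝ)
    (hC : ∀ u, |f u| ≤ C) (ε : ℝ) (hε : 0 < ε) :
    ∃ (Λ : ℝ) (g : (Fin m → ℝ) → ℝ), 0 ≤ Λ ∧ Continuous g ∧ (∀ u, |g u| ≤ C) ∧
      (∀ (u v : Fin m → ℝ) (e : ℝ), 0 ≤ e → (∀ i, |u i - v i| ≤ e) → |g u - g v| ≤ Λ * e) ∧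
      ∀ u : Fin m → ℝ, (∀ i, 0 ≤ u i ∧ u i ≤ 1) → |f u - g u| ≤ ε := by
  classical
  set K : Set (Fin m → ℝ) := Set.Icc 0 1 with hK
  have hKc : IsCompact K := isCompact_Icc
  have h0K : (0 : Fin m → ℝ) ∈ K := ⟨le_rfl, fun i => zero_le_one⟩
  have hneK : Nonempty K := ⟨⟨0, h0K⟩⟩
  have hC0 : 0 ≤ C := (abs_nonneg _).trans (hC 0)
  have hun : UniformContinuousOn f K := hKc.uniformContinuousOn_of_continuous hf.continuousOn
  obtain ⟨δ, hδ, hδf⟩ := Metric.uniformContinuousOn_iff.1 hun ε hε
  set n : ℝ := 2 * C / δ with hn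
  have hn0 : 0 ≤ n := div_nonneg (by linarith) hδ.le
  set g0 : (Fin m → ℝ) → ℝ := fun u => ⨅ v : K, (f v + n * dist u (v : Fin m → ℝ)) with hg0
  have hlow : ∀ (u : Fin m → ℝ) (v : K), -C ≤ f v + n * dist u (v : Fin m → ℝ) := fun u v => by
    have h1 := (abs_le.1 (hC v)).1
    have h2 : 0 ≤ n * dist u (v : Fin m → ℝ) := mul_nonneg hn0 dist_nonneg
    linarith
  have hbdd : ∀ u : Fin m → ℝ, BddBelow (Set.range (fun v : K => f v + n * dist u (v : Fin m → ℝ))) := fun u =>
    ⟨-C, by rintro _ ⟨v, rfl⟩; exact hlow u v⟩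
  have hg0low : ∀ u, -C ≤ g0 u := fun u => le_ciInf (hlow u)
  have hg0le : ∀ (u : Fin m → ℝ) (v : K), g0 u ≤ f v + n * dist u (v : Fin m → ℝ) := fun u v =>
    ciInf_le (hbdd u) v
  have hlip1 : ∀ u v, g0 u ≤ g0 v + n * dist u v := by
    intro u v
    have h1 : g0 u - n * dist u v ≤ g0 v := by
      refine le_ciInf fun w => ?_
      have h2 := hg0le u w
      have h3 : n * dist u w ≤ n * (dist u v + dist v w) :=
        mul_le_mul_of_nonneg_left (dist_triangle u v w) hn0
      linarith
    linarith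
  set g : (Fin m → ℝ) → ℝ := fun u => min C (g0 u) with hg
  have hlip : ∀ u v, |g u - g v| ≤ n * dist u v := by
    intro u v
    have h1 := hlip1 u v
    have h2 := hlip1 v u
    rw [dist_comm v u] at h2
    have h3 : |g u - g v| ≤ |g0 u - g0 v| := by
      have := abs_min_sub_min_le_max C (g0 u) C (g0 v)
      rw [sub_self, abs_zero] at this
      exact this.trans (max_le (abs_nonneg _) le_rfl)
    refine h3.trans (abs_le.2 ⟨by linarith, by linarith⟩)
  refine ⟨n, g, hn0, ?_, fun u => ?_, fun u v e he huv => ?_, fun u hu => ?_⟩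
  · have : LipschitzWith n.toNNReal g := by
      refine LipschitzWith.of_dist_le_mul fun u v => ?_
      rw [Real.dist_eq, Real.coe_toNNReal _ hn0]
      exact hlip u v
    exact this.continuous
  · refine abs_le.2 ⟨le_min (by linarith) (hg0low u), min_le_left _ _⟩
  · refine (hlip u v).trans (mul_le_mul_of_nonneg_left ?_ hn0)
    refine (dist_pi_le_iff he).2 fun i => ?_
    rw [Real.dist_eq]
    exact huv i
  · have huK : u ∈ K := ⟨fun i => (hu i).1, fun i => (hu i).2⟩
    have h1 : g0 u ≤ f u := by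
      have := hg0le u ⟨u, huK⟩
      rwa [dist_self, mul_zero, add_zero] at this
    have h2 : f u ≤ C := (abs_le.1 (hC u)).2
    have h3 : g u = g0 u := min_eq_right (h1.trans h2)
    have h4 : f u - ε ≤ g0 u := by
      refine le_ciInf fun v => ?_
      by_cases hd : dist u v < δ
      · have h5 := hδf u huK v v.2 hd
        rw [Real.dist_eq] at h5
        have h6 := (abs_lt.1 h5).2
        have h7 : 0 ≤ n * dist u v := mul_nonneg hn0 dist_nonneg
        linarith
      · have h5 : 2 * C ≤ n * dist u v := by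
          have h6 : n * δ ≤ n * dist u v := mul_le_mul_of_nonneg_left (not_lt.1 hd) hn0
          have h7 : n * δ = 2 * C := div_mul_cancel₀ _ hδ.ne'
          linarith
        have h6 := (abs_le.1 (hC v)).1
        linarith
    rw [h3]
    exact abs_le.2 ⟨by linarith, by linarith⟩

end Pool.Agent.TH268.PD
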