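import Pool.Agent.TH268.PD.Wgt

/-!
# Functionals of the cycle lengths
-/

set_option autoImplicit false

namespace Pool.Agent.TH268.PD

open Finset Equiv
open Pool.Agent.W805.LR (len cnt)

variable {V : Type} [Fintype V] [DecidableEq V]

/-- the probability that two random points are in the same cycle -/
noncomputable def same (g : Perm V) : ℝ := (∑ v, len g v) / (Fintype.card V : ℝ) ^ 2

/-- one minus the Laplace transform of the cycle length of a random point -/
noncomputable def lap (x : ℝ) (g : Perm V) : ℝ :=
  (∑ v, (1 - Real.exp (-(x * len g v)))) / Fintype.card V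

/-- the derivative of `lap` -/
noncomputable def dlap (x : ℝ) (g : Perm V) : ℝ :=
  (∑ v, len g v * Real.exp (-(x * len g v))) / Fintype.card V

/-- the function changes by at most `β` under a transposition -/
def BD (β : ℝ) (F : Perm V → ℝ) : Prop := ∀ (g : Perm V) (a b : V), |F (g * swap a b) - F g| ≤ β

end Pool.Agent.TH268.PD
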