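import Pool.Agent.TH268.PD.Det
import Pool.Agent.TH268.PD.Lim
import Pool.Agent.TH268.PD.LipApprox

/-!
# The law of the ordered cycle lengths
-/

set_option autoImplicit false

namespace Pool.Agent.TH268.PD

open Finset Equiv
open Pool.Agent.W805.LR (len cnt)

theorem pdl : PDLimit := fun E h1 h2 m f hf C hC => pd_limit E h1 h2 m f hf C hC

variable {V : Type} [Fintype V] [DecidableEq V]

theorem wt_alg {θ x : ℝ} (hθ : 0 < θ) (k : ℕ) :
    (θ / max θ x) ^ k * cut θ x * x ^ k = θ ^ k * cut θ x := by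
  rcases lt_or_ge x θ with h | h
  · rw [cut_of_lt hθ h]
    simp
  · rw [max_eq_right h, div_pow]
    have : x ≠ 0 := by
      have := lt_of_lt_of_le hθ h
      exact this.ne'
    field_simp

/-- the estimate for one permutation -/
theorem one_g [Nonempty V] (k : ℕ) (hk : 0 < k) (g : Perm V) (δ δ' : ℝ) (hδ : 0 < δ)
    (hδδ : δ' ≤ δ) (m : ℕ) (f : (Fin m → ℝ) → ℝ) (C Λ : ℝ) (hC0 : 0 < C) (hΛ : 0 ≤ Λ)
    (hC : ∀ u, |f u| ≤ C)
    (hf : ∀ (u v : Fin m → ℝ) (e : ℝ), 0 ≤ e → (∀ i, |u i - v i| ≤ e) → |f u - f v| ≤ Λ * e)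
    (θ : ℝ) (hθ : 0 < θ) (x M : ℝ) (hx : x = mas (δ' * Fintype.card V) g)
    (hM : M = mas (δ * Fintype.card V) g) :
    |θ ^ k * (cut θ x * (f (fun i => top (frac g) i) - um k (fun u => f (fun i => x * u i)))) -
      2 * C * (∑ π : Perm (Fin k), wt k θ C f π x * (nTup k (δ * Fintype.card V) g π /
        (Fintype.card V : ℝ) ^ k) - (∑ π : Perm (Fin k), wt k θ C f π x *
          (nAll k (δ * Fintype.card V) g / (Fintype.card V : ℝ) ^ k)) / (k.factorial : ℝ))| ≤
    θ ^ k * (Λ * (1 / Real.sqrt k)) + Λ * δ + 2 * (C * ((k : ℝ) ^ 2 / Fintype.card V)) +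
      (Λ + 2 * (C * k)) * (x - M) := by
  have hN : (0 : ℝ) < Fintype.card V := by exact_mod_cast Fintype.card_pos
  have hx0 : 0 ≤ x := by rw [hx]; exact mas_nonneg _ _
  have hx1 : x ≤ 1 := by rw [hx]; exact mas_le_one _ _
  have hM0 : 0 ≤ M := by rw [hM]; exact mas_nonneg _ _
  have hMx : M ≤ x := by
    rw [hx, hM]
    exact mas_anti (mul_le_mul_of_nonneg_right hδδ hN.le) g
  obtain ⟨ψ, hψ⟩ : ∃ ψ, ψ = (θ / max θ x) ^ k * cut θ x := ⟨_, rfl⟩
  have hψBL := ((BL.base hθ).pow k).mul (BL.cut hθ)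
  have hψ0 : 0 ≤ ψ := by rw [hψ]; exact hψBL.1 x
  have hψ1 : ψ ≤ 1 := by rw [hψ]; exact hψBL.2.1 x
  have hψx : ψ * x ^ k = θ ^ k * cut θ x := by rw [hψ]; exact wt_alg hθ k
  have hcut1 : cut θ x ≤ 1 := (BL.cut hθ).2.1 x
  obtain ⟨fp, hfp⟩ : ∃ fp, fp = f (fun i => top (frac g) i) := ⟨_, rfl⟩
  obtain ⟨u, hu⟩ : ∃ u, u = um k (fun u : Fin m → ℝ => f (fun i => x * u i)) := ⟨_, rfl⟩
  obtain ⟨A, hA⟩ : ∃ A : ℝ, A = (∑ π : Perm (Fin k), f (fun i => x * top (frac π) i) *
        nTup k (δ * Fintype.card V) g π) / (Fintype.card V : ℝ) ^ k := ⟨_, rfl⟩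
  obtain ⟨B, hB⟩ : ∃ B : ℝ, B = nAll k (δ * Fintype.card V) g / (Fintype.card V : ℝ) ^ k :=
    ⟨_, rfl⟩
  have hfac : (0 : ℝ) < (k.factorial : ℝ) := by exact_mod_cast k.factorial_pos
  have hfpC : |fp| ≤ C := by rw [hfp]; exact hC _
  have huC : |u| ≤ C := by
    rw [hu]
    unfold um
    rw [abs_div, abs_of_pos hfac, div_le_iff₀ hfac]
    refine (Finset.abs_sum_le_sum_abs _ _).trans ?_
    refine (Finset.sum_le_sum fun σ _ => hC _).trans (le_of_eq ?_)
    rw [Finset.sum_const, Finset.card_univ, Fintype.card_perm, Fintype.card_fin, nsmul_eq_mul,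
      mul_comm]
  -- the two sums
  have e1 : 2 * C * ∑ π : Perm (Fin k), wt k θ C f π x * (nTup k (δ * Fintype.card V) g π /
        (Fintype.card V : ℝ) ^ k) = ψ * (A + C * B) := by
    rw [hA, hB, nAll_sum, Finset.mul_sum, mul_div_assoc', Finset.mul_sum, ← add_div,
      ← Finset.sum_add_distrib, mul_div_assoc', Finset.mul_sum, Finset.sum_div]
    refine Finset.sum_congr rfl fun π _ => ?_
    unfold wt
    rw [← hψ]
    field_simp
  have e2 : 2 * C * ((∑ π : Perm (Fin k), wt k θ C f π x *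
          (nAll k (δ * Fintype.card V) g / (Fintype.card V : ℝ) ^ k)) / (k.factorial : ℝ)) =
      ψ * ((u + C) * B) := by
    rw [← hB, ← Finset.sum_mul]
    have e3 : ∑ π : Perm (Fin k), wt k θ C f π x = ψ * ((k.factorial : ℝ) * (u + C)) / (2 * C) := by
      have e4 : (k.factorial : ℝ) * (u + C) = ∑ π : Perm (Fin k),
          (f (fun i => x * top (frac π) i) + C) := by
        rw [Finset.sum_add_distrib, Finset.sum_const, Finset.card_univ, Fintype.card_perm,
          Fintype.card_fin, nsmul_eq_mul, hu]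
        unfold um
        field_simp
      rw [e4, Finset.mul_sum, Finset.sum_div]
      refine Finset.sum_congr rfl fun π _ => ?_
      unfold wt
      rw [← hψ]
      ring
    rw [e3]
    field_simp
  rw [← hfp, ← hu, mul_sub (2 * C), e1, e2]
  have h1 := tuple_close k hk g δ δ' hδ hδδ m f C Λ hΛ hC hf
  rw [← hx, ← hM, ← hA, ← hfp] at h1
  have h2 := nAll_close k hk (δ * Fintype.card V) g
  rw [← hM, ← hB] at h2
  have h3 := pow_close hM0 hMx hx1 k
  have h4 : 0 ≤ x ^ k - M ^ k := sub_nonneg.2 (pow_le_pow_left₀ hM0 hMx k)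
  have e5 : θ ^ k * (cut θ x * (fp - u)) - (ψ * (A + C * B) - ψ * ((u + C) * B)) =
      ψ * ((x ^ k - M ^ k) * fp - (A - M ^ k * fp) - u * (x ^ k - M ^ k) +
        u * (B - M ^ k)) := by
    rw [← mul_assoc, ← hψx]
    ring
  rw [e5, abs_mul, abs_of_nonneg hψ0]
  have hkk : (0 : ℝ) ≤ k := by positivity
  have h5 : |(x ^ k - M ^ k) * fp - (A - M ^ k * fp) - u * (x ^ k - M ^ k) +
        u * (B - M ^ k)| ≤ M ^ k * (Λ * (1 / Real.sqrt k)) + (Λ * δ +
          2 * (C * ((k : ℝ) ^ 2 / Fintype.card V)) + (Λ + 2 * (C * k)) * (x - M)) := by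
    have a1 : |(x ^ k - M ^ k) * fp| ≤ k * (x - M) * C := by
      rw [abs_mul, abs_of_nonneg h4]
      exact mul_le_mul h3 hfpC (abs_nonneg _) (mul_nonneg hkk (by linarith))
    have a2 : |u * (x ^ k - M ^ k)| ≤ C * (k * (x - M)) := by
      rw [abs_mul, abs_of_nonneg h4]
      exact mul_le_mul huC h3 h4 hC0.le
    have a3 : |u * (B - M ^ k)| ≤ C * ((k : ℝ) ^ 2 / Fintype.card V) := by
      rw [abs_mul]
      exact mul_le_mul huC h2 (abs_nonneg _) hC0.le
    have a4 := abs_add_le ((x ^ k - M ^ k) * fp - (A - M ^ k * fp) - u * (x ^ k - M ^ k))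
      (u * (B - M ^ k))
    have a5 := abs_sub ((x ^ k - M ^ k) * fp - (A - M ^ k * fp)) (u * (x ^ k - M ^ k))
    have a6 := abs_sub ((x ^ k - M ^ k) * fp) (A - M ^ k * fp)
    linarith
  have h6 : 0 ≤ Λ * δ + 2 * (C * ((k : ℝ) ^ 2 / Fintype.card V)) +
      (Λ + 2 * (C * k)) * (x - M) := by
    have : 0 ≤ x - M := by linarith
    positivity
  have h7 : ψ * (M ^ k * (Λ * (1 / Real.sqrt k))) ≤ θ ^ k * (Λ * (1 / Real.sqrt k)) := by
    rw [← mul_assoc]
    refine mul_le_mul_of_nonneg_right ?_ (by positivity)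
    have h8 : ψ * M ^ k ≤ ψ * x ^ k :=
      mul_le_mul_of_nonneg_left (pow_le_pow_left₀ hM0 hMx k) hψ0
    refine h8.trans ?_
    rw [hψx]
    exact mul_le_of_le_one_right (by positivity) hcut1
  have h8 : ψ * (Λ * δ + 2 * (C * ((k : ℝ) ^ 2 / Fintype.card V)) +
      (Λ + 2 * (C * k)) * (x - M)) ≤ Λ * δ + 2 * (C * ((k : ℝ) ^ 2 / Fintype.card V)) +
      (Λ + 2 * (C * k)) * (x - M) := mul_le_of_le_one_left h6 hψ1
  have h9 := mul_le_mul_of_nonneg_left h5 hψ0
  rw [mul_add] at h9
  linarith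

/-- all cycles are small when there is little mass in long cycles -/
theorem top_le_mas [Nonempty V] (g : Perm V) (δ' : ℝ) (hδ : 0 ≤ δ') (i : ℕ) :
    0 ≤ top (frac g) i ∧ top (frac g) i ≤ mas (δ' * Fintype.card V) g + δ' := by
  classical
  have hN : (0 : ℝ) < Fintype.card V := by exact_mod_cast Fintype.card_pos
  have hfr0 : ∀ γ : Cyc g, 0 ≤ frac g γ := fun γ => by unfold frac; positivity
  have hm0 := mas_nonneg (δ' * Fintype.card V) g
  refine ⟨top_nonneg _ hfr0 i, ?_⟩
  have h1 := top_le_add (frac g) (fun _ => 0) (fun _ => le_rfl)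
    (mas (δ' * Fintype.card V) g + δ') (by linarith) (fun γ => ?_) i
  · have h2 : top (fun _ : Cyc g => (0 : ℝ)) i ≤ 0 := by
      unfold top
      refine Real.sSup_nonpos fun x hx => ?_
      rw [Set.mem_ofPred_eq] at hx
      have h0 := lt_of_lt_of_le (Nat.succ_pos i) hx
      obtain ⟨⟨γ, hγ⟩⟩ := (Nat.card_pos_iff.1 h0).1
      exact hγ
    linarith
  · rw [zero_add]
    induction γ using Quotient.inductionOn with
    | h v =>
      have h3 : (Nat.card {w : V // cyOf g w = Quotient.mk (Perm.SameCycle.setoid g) v} : ℝ) =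
          len g v := by
        unfold Pool.Agent.W805.LR.len
        rw [Bad.cnt_eq, Nat.card_eq_fintype_card, Fintype.card_subtype]
        congr 2
        ext w
        rw [Finset.mem_filter, Finset.mem_filter]
        refine and_congr_right fun _ => ?_
        have : cyOf g w = Quotient.mk (Perm.SameCycle.setoid g) v ↔ g.SameCycle w v := by
          unfold cyOf
          exact Quotient.eq (r := Perm.SameCycle.setoid g)
        rw [this]
        exact ⟨fun h => h.symm, fun h => h.symm⟩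
      have h4 : frac g (Quotient.mk (Perm.SameCycle.setoid g) v) = len g v / Fintype.card V := by
        unfold frac
        rw [h3]
      rw [h4]
      rcases lt_or_ge (len g v) (δ' * Fintype.card V) with h5 | h5
      · have : len g v / Fintype.card V ≤ δ' := by
          rw [div_le_iff₀ hN]
          exact h5.le
        linarith
      · have h6 : len g v ≤ cnt fun w => δ' * Fintype.card V ≤ len g w := by
          have h7 : len g v = cnt fun w => g.SameCycle v w := rfl
          rw [h7, Bad.cnt_eq, Bad.cnt_eq]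
          refine Nat.cast_le.2 (Finset.card_le_card fun w hw => ?_)
          rw [Finset.mem_filter] at hw ⊢
          refine ⟨hw.1, ?_⟩
          have h8 : len g w = len g v := by
            unfold Pool.Agent.W805.LR.len
            rw [Bad.cnt_eq, Bad.cnt_eq]
            congr 2
            ext z
            rw [Finset.mem_filter, Finset.mem_filter]
            refine and_congr_right fun _ => ?_
            exact ⟨fun h => hw.2.trans h, fun h => hw.2.symm.trans h⟩
          rw [h8]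
          exact h5
        have : len g v / Fintype.card V ≤ mas (δ' * Fintype.card V) g := by
          unfold mas
          exact div_le_div_of_nonneg_right h6 hN.le
        linarith

end Pool.Agent.TH268.PD
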