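import Pool.Agent.TH268.PD.Gap

/-!
# The law of the ordered cycle lengths, intrinsic form
-/

set_option autoImplicit false

namespace Pool.Agent.TH268.PD

open Finset Equiv
open Pool.Agent.W805.LR (len cnt)

theorem mean_sq {V : Type} [Fintype V] [DecidableEq V] {μ : Perm V → ℝ} {ε : ℝ}
    (hμ : NInv μ ε) (X : Perm V → ℝ) : (∑ g, μ g * X g) ^ 2 ≤ ∑ g, μ g * X g ^ 2 := by
  obtain ⟨c, hc⟩ : ∃ c, c = ∑ g, μ g * X g := ⟨_, rfl⟩
  have h1 : 0 ≤ ∑ g, μ g * (X g - c) ^ 2 :=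
    Finset.sum_nonneg fun g _ => mul_nonneg (hμ.1 g) (sq_nonneg _)
  have h2 : ∑ g, μ g * (X g - c) ^ 2 = ∑ g, μ g * X g ^ 2 - c ^ 2 := by
    have e1 : ∀ g, μ g * (X g - c) ^ 2 = μ g * X g ^ 2 - 2 * c * (μ g * X g) + c ^ 2 * μ g :=
      fun g => by ring
    rw [Finset.sum_congr rfl fun g _ => e1 g, Finset.sum_add_distrib, Finset.sum_sub_distrib,
      ← Finset.mul_sum, ← Finset.mul_sum, hμ.2.1, ← hc]
    ring
  rw [← hc]
  linarith

theorem mas_diff {V : Type} [Fintype V] [DecidableEq V] {μ : Perm V → ℝ} {ε : ℝ}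
    (hμ : NInv μ ε) (K K' η : ℝ) (hη : 0 ≤ η) (hK : K' ≤ K)
    (h : ∑ g, μ g * mas K' g ^ 2 ≤ ∑ g, μ g * mas K g ^ 2 + η ^ 2) :
    ∑ g, μ g * (mas K' g - mas K g) ≤ η := by
  have h1 := mean_sq hμ (fun g => mas K' g - mas K g)
  have h2 : ∑ g, μ g * (mas K' g - mas K g) ^ 2 ≤ η ^ 2 := by
    have h3 : ∑ g, μ g * (mas K' g - mas K g) ^ 2 ≤
        ∑ g, (μ g * mas K' g ^ 2 - μ g * mas K g ^ 2) := by
      refine Finset.sum_le_sum fun g _ => ?_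
      rw [← mul_sub]
      refine mul_le_mul_of_nonneg_left ?_ (hμ.1 g)
      have h4 := mas_anti hK g
      have h5 := mas_nonneg K g
      nlinarith
    rw [Finset.sum_sub_distrib] at h3
    linarith
  exact le_of_sq_le_sq (h1.trans h2) hη
where
  le_of_sq_le_sq {a b : ℝ} (h : a ^ 2 ≤ b ^ 2) (hb : 0 ≤ b) : a ≤ b := by
    exact abs_le_of_sq_le_sq' h hb |>.2

theorem ordered2 (m : ℕ) (f : (Fin m → ℝ) → ℝ) (C Λ : ℝ) (hC0 : 0 < C) (hΛ : 0 ≤ Λ)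
    (hC : ∀ u, |f u| ≤ C)
    (hf : ∀ (u v : Fin m → ℝ) (e : ℝ), 0 ≤ e → (∀ i, |u i - v i| ≤ e) → |f u - f v| ≤ Λ * e)
    (η : ℝ) (hη : 0 < η) :
    ∃ δ₀ : ℝ, 0 < δ₀ ∧ ∃ A : ℝ, 0 < A ∧ ∃ N₀ : ℕ, ∃ ε₀ : ℝ, 0 < ε₀ ∧
      ∀ (V : Type) [Fintype V] [DecidableEq V] [Nonempty V], N₀ ≤ Fintype.card V →
        ∀ (μ : Perm V → ℝ) (ε : ℝ), NInv μ ε → ε ≤ ε₀ → ∀ K : ℝ, 0 < K →
          A * ε * Fintype.card V ≤ K → K ≤ δ₀ * Fintype.card V →
            |∑ g, μ g * f (fun i => top (frac g) i) -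
              ∑ g, μ g * pdm (fun u : Fin m → ℝ => f (fun i => mas K g * u i))| ≤ η := by
  obtain ⟨θ, hθdef⟩ : ∃ θ : ℝ, θ = η / (8 * (Λ + 1)) := ⟨_, rfl⟩
  have hθ : 0 < θ := by rw [hθdef]; positivity
  have hΛθ : Λ * (2 * θ) ≤ η / 4 := by
    have h1 : (Λ + 1) * (8 * θ) = η := by rw [hθdef]; field_simp
    nlinarith
  obtain ⟨δ₂, hδ₂, A, hA, N1, ε1, hε1, H1⟩ := gap (θ ^ 2) (by positivity)
  obtain ⟨δ₁, hδ₁, N2, ε2, hε2, H2⟩ := ordered m f C Λ hC0 hΛ hC hf (min (η / 4) δ₂)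
    (lt_min (by positivity) hδ₂)
  refine ⟨δ₂, hδ₂, A, hA, max N1 N2, min (min ε1 ε2) (δ₁ / A), by positivity, ?_⟩
  intro V _ _ _ hN μ ε hμ hεe K hK hAK hKδ
  have hNpos : (0 : ℝ) < Fintype.card V := by exact_mod_cast Fintype.card_pos
  have hεe1 : ε ≤ ε1 := hεe.trans ((min_le_left _ _).trans (min_le_left _ _))
  have hεe2 : ε ≤ ε2 := hεe.trans ((min_le_left _ _).trans (min_le_right _ _))
  have hεδ : ε ≤ δ₁ / A := hεe.trans (min_le_right _ _)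
  obtain ⟨δ, h1, h2, h3⟩ := H2 V (contr_all V) ((le_max_right _ _).trans hN) μ ε hμ.1 hμ.2.1
    hμ.2.2.1 hμ.2.2.2 hεe2
  have hδ : 0 < δ := lt_of_lt_of_le hδ₁ h1
  have hδδ₂ : δ ≤ δ₂ := h2.trans (min_le_right _ _)
  have hN1 : N1 ≤ Fintype.card V := (le_max_left _ _).trans hN
  have hgap : ∀ K' : ℝ, 0 < K' → A * ε * Fintype.card V ≤ K' → K' ≤ δ₂ * Fintype.card V →
      ∑ g, μ g * (mas K' g - mas (δ₂ * Fintype.card V) g) ≤ θ := fun K' h4 h5 h6 =>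
    mas_diff hμ _ K' θ hθ.le h6 (H1 V hN1 μ ε hμ hεe1 K' h4 h5)
  have h4 := hgap K hK hAK hKδ
  have h5 := hgap (δ * Fintype.card V) (by positivity) (by
    rw [le_div_iff₀ hA] at hεδ
    refine mul_le_mul_of_nonneg_right ?_ hNpos.le
    linarith) (mul_le_mul_of_nonneg_right hδδ₂ hNpos.le)
  have h6 : |∑ g, μ g * pdm (fun u : Fin m → ℝ => f (fun i => mas (δ * Fintype.card V) g * u i)) -
      ∑ g, μ g * pdm (fun u : Fin m → ℝ => f (fun i => mas K g * u i))| ≤ Λ * (2 * θ) := by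
    rw [← Finset.sum_sub_distrib]
    refine (Finset.abs_sum_le_sum_abs _ _).trans ?_
    have h7 : ∀ g, |μ g * pdm (fun u : Fin m → ℝ => f (fun i => mas (δ * Fintype.card V) g * u i)) -
        μ g * pdm (fun u : Fin m → ℝ => f (fun i => mas K g * u i))| ≤
        Λ * (μ g * (mas (δ * Fintype.card V) g - mas (δ₂ * Fintype.card V) g) +
          μ g * (mas K g - mas (δ₂ * Fintype.card V) g)) := by
      intro g
      rw [← mul_sub, abs_mul, abs_of_nonneg (hμ.1 g)]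
      have h8 := pdm_lip pdl m f C Λ hC hΛ hf (mas (δ * Fintype.card V) g) (mas K g)
      have h9 := mas_anti (mul_le_mul_of_nonneg_right hδδ₂ hNpos.le) g
      have h10 := mas_anti hKδ g
      have h11 : |mas (δ * Fintype.card V) g - mas K g| ≤
          (mas (δ * Fintype.card V) g - mas (δ₂ * Fintype.card V) g) +
            (mas K g - mas (δ₂ * Fintype.card V) g) := by
        rw [abs_le]
        constructor <;> linarith
      have h12 := mul_le_mul_of_nonneg_left (h8.trans (mul_le_mul_of_nonneg_left h11 hΛ)) (hμ.1 g)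
      linarith
    refine (Finset.sum_le_sum fun g _ => h7 g).trans ?_
    rw [← Finset.mul_sum, Finset.sum_add_distrib]
    exact mul_le_mul_of_nonneg_left (by linarith) hΛ
  have h7 := abs_sub_le (∑ g, μ g * f (fun i => top (frac g) i))
    (∑ g, μ g * pdm (fun u : Fin m → ℝ => f (fun i => mas (δ * Fintype.card V) g * u i)))
    (∑ g, μ g * pdm (fun u : Fin m → ℝ => f (fun i => mas K g * u i)))
  have h8 : min (η / 4) δ₂ ≤ η / 4 := min_le_left _ _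
  linarith

/-- for bounded continuous functions -/
theorem ordered2_cont (m : ℕ) (f : (Fin m → ℝ) → ℝ) (hfc : Continuous f) (C : ℝ)
    (hC : ∀ u, |f u| ≤ C) (η : ℝ) (hη : 0 < η) :
    ∃ δ₀ : ℝ, 0 < δ₀ ∧ ∃ A : ℝ, 0 < A ∧ ∃ N₀ : ℕ, ∃ ε₀ : ℝ, 0 < ε₀ ∧
      ∀ (V : Type) [Fintype V] [DecidableEq V] [Nonempty V], N₀ ≤ Fintype.card V →
        ∀ (μ : Perm V → ℝ) (ε : ℝ), NInv μ ε → ε ≤ ε₀ → ∀ K : ℝ, 0 < K →
          A * ε * Fintype.card V ≤ K → K ≤ δ₀ * Fintype.card V →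
            |∑ g, μ g * f (fun i => top (frac g) i) -
              ∑ g, μ g * pdm (fun u : Fin m → ℝ => f (fun i => mas K g * u i))| ≤ η := by
  obtain ⟨Λ, h, hΛ, hhc, hhC, hhL, hfh⟩ := lip_approx m f hfc (C + 1)
    (fun u => (hC u).trans (by linarith)) (η / 4) (by positivity)
  have hC0 : 0 < C + 1 := by
    have := (abs_nonneg _).trans (hC 0)
    linarith
  obtain ⟨δ₀, hδ₀, A, hA, N₀, ε₀, hε₀, H⟩ := ordered2 m h (C + 1) Λ hC0 hΛ hhC hhL (η / 2)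
    (by positivity)
  refine ⟨δ₀, hδ₀, A, hA, N₀, ε₀, hε₀, ?_⟩
  intro V _ _ _ hN μ ε hμ hεe K hK hAK hKδ
  have h3 := H V hN μ ε hμ hεe K hK hAK hKδ
  have hEμ : ∀ (F G : Perm V → ℝ), (∀ g, |F g - G g| ≤ η / 4) →
      |∑ g, μ g * F g - ∑ g, μ g * G g| ≤ η / 4 := by
    intro F G h
    rw [← Finset.sum_sub_distrib]
    refine (Finset.abs_sum_le_sum_abs _ _).trans ?_
    have h5 : ∀ g, |μ g * F g - μ g * G g| ≤ μ g * (η / 4) := by
      intro g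
      rw [← mul_sub, abs_mul, abs_of_nonneg (hμ.1 g)]
      exact mul_le_mul_of_nonneg_left (h g) (hμ.1 g)
    refine (Finset.sum_le_sum fun g _ => h5 g).trans (le_of_eq ?_)
    rw [← Finset.sum_mul, hμ.2.1, one_mul]
  have h4 := hEμ (fun g => f (fun i => top (frac g) i)) (fun g => h (fun i => top (frac g) i))
    (fun g => by
      refine hfh _ fun i => ?_
      obtain ⟨h5, h6⟩ := top_le_mas g 0 le_rfl i
      have h7 := mas_le_one (0 * (Fintype.card V : ℝ)) g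
      exact ⟨h5, by linarith⟩)
  have h5 := hEμ (fun g => pdm (fun u : Fin m → ℝ => f (fun i => mas K g * u i)))
    (fun g => pdm (fun u : Fin m → ℝ => h (fun i => mas K g * u i)))
    (fun g => pdm_close pdl m f h hfc hhc (C + 1) (fun u => (hC u).trans (by linarith)) hhC
      (η / 4) hfh _ (mas_nonneg _ _) (mas_le_one _ _))
  rw [abs_le] at h3 h4 h5 ⊢
  constructor <;> linarith [h3.1, h3.2, h4.1, h4.2, h5.1, h5.2]

end Pool.Agent.TH268.PD
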