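import Pool.Agent.TH268.PD.Core

/-!
# Choice of the scales
-/

set_option autoImplicit false

namespace Pool.Agent.TH268.PD

open Finset Equiv
open Pool.Agent.W805.LR (len)

/-- one choice of the parameters -/
def Good (η δ δ' : ℝ) (N₀ : ℕ) (ε₀ : ℝ) : Prop :=
  ∃ n : ℕ, ∀ N ≥ N₀, ∀ ε : ℝ, 0 ≤ ε → ε ≤ ε₀ → errB N ⌈δ * N⌉₊ ⌈δ' * N⌉₊ n ε ≤ η ∧
    0 ≤ kap N ⌈δ * N⌉₊ ∧ kap N ⌈δ * N⌉₊ ≤ 1

theorem scale_step (η : ℝ) (hη : 0 < η) (δ : ℝ) (hδ : 0 < δ) (hδ1 : δ ≤ 1) :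
    ∃ δ' : ℝ, 0 < δ' ∧ δ' ≤ δ ∧ ∃ N₀ : ℕ, ∃ ε₀ : ℝ, 0 < ε₀ ∧ Good η δ δ' N₀ ε₀ := by
  obtain ⟨N1, hN1⟩ := kap_bounds δ hδ hδ1
  have hδ4 : 0 < δ ^ 4 / 200 := by positivity
  obtain ⟨n, hn⟩ := exists_pow_lt_of_lt_one (show 0 < η / 3 by positivity)
    (show 1 - δ ^ 4 / 200 < 1 by linarith)
  have hn0 : (0 : ℝ) ≤ n := by positivity
  obtain ⟨a, ha⟩ : ∃ a : ℝ, a = min (η / 3) 1 / (6 * (n + 1)) := ⟨_, rfl⟩
  have ha0 : 0 < a := by rw [ha]; positivity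
  have haη : n * (6 * a) ≤ min (η / 3) 1 := by
    have h1 : 6 * (n + 1 : ℝ) * a = min (η / 3) 1 := by rw [ha]; field_simp
    nlinarith
  obtain ⟨N2, hN2⟩ := exists_nat_gt (1 / a)
  refine ⟨min δ a, lt_min hδ ha0, min_le_left _ _, max (max N1 N2) 1,
    η / 3 / (6 * (n + 1)), by positivity, n, ?_⟩
  intro N hN ε hε0 hε
  have hNN1 : N1 ≤ N := (le_max_left _ _).trans ((le_max_left _ _).trans hN)
  have hNN2 : N2 ≤ N := (le_max_right _ _).trans ((le_max_left _ _).trans hN)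
  have hN1' : 1 ≤ N := (le_max_right _ _).trans hN
  obtain ⟨hk0, hk1⟩ := hN1 N hNN1
  refine ⟨?_, by linarith, hk1⟩
  have hNpos : (0 : ℝ) < N := by exact_mod_cast hN1'
  have hinv : 1 / (N : ℝ) ≤ a := by
    have h1 : 1 / a < N := hN2.trans_le (by exact_mod_cast hNN2)
    rw [div_le_iff₀ hNpos]
    rw [div_lt_iff₀ ha0] at h1
    linarith
  have hm1 : (⌈min δ a * N⌉₊ : ℝ) / N ≤ 2 * a := by
    have h1 : (⌈min δ a * N⌉₊ : ℝ) ≤ a * N + 1 := by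
      have h2 := (Nat.ceil_lt_add_one (show 0 ≤ min δ a * N by positivity)).le
      have h3 : min δ a * (N : ℝ) ≤ a * N := mul_le_mul_of_nonneg_right (min_le_right _ _) hNpos.le
      linarith
    rw [div_le_iff₀ hNpos]
    rw [div_le_iff₀ hNpos] at hinv
    linarith
  have hm0 : (0 : ℝ) ≤ (⌈min δ a * N⌉₊ : ℝ) / N := by positivity
  unfold errB
  have t1 : (1 - kap N ⌈δ * N⌉₊) ^ n ≤ η / 3 := by
    refine le_trans ?_ hn.le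
    exact pow_le_pow_left₀ (by linarith) (by linarith) n
  have t2 : n * (3 * ((⌈min δ a * N⌉₊ : ℝ) / N)) ≤ min (η / 3) 1 := by
    refine le_trans ?_ haη
    exact mul_le_mul_of_nonneg_left (by linarith) hn0
  have t3 : 3 * (n * (1 + n * (3 * ((⌈min δ a * N⌉₊ : ℝ) / N))) * ε) ≤ η / 3 := by
    have h1 : 1 + n * (3 * ((⌈min δ a * N⌉₊ : ℝ) / N)) ≤ 2 := by
      have := t2.trans (min_le_right _ _)
      linarith
    have h2 : (n : ℝ) * (1 + n * (3 * ((⌈min δ a * N⌉₊ : ℝ) / N))) ≤ n * 2 :=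
      mul_le_mul_of_nonneg_left h1 hn0
    have h3 : (n : ℝ) * (1 + n * (3 * ((⌈min δ a * N⌉₊ : ℝ) / N))) * ε ≤ n * 2 * ε :=
      mul_le_mul_of_nonneg_right h2 hε0
    have h4 : (6 * (n + 1 : ℝ)) * ε ≤ η / 3 := by
      rw [le_div_iff₀ (by positivity)] at hε
      linarith
    nlinarith
  have t2' := t2.trans (min_le_left _ _)
  linarith

theorem scales (η : ℝ) (hη : 0 < η) (δ₀ : ℝ) (hδ : 0 < δ₀) (hδ1 : δ₀ ≤ 1) :
    ∃ (Δ : ℕ → ℝ) (N₀ : ℕ → ℕ) (ε₀ : ℕ → ℝ), Δ 0 = δ₀ ∧ Antitone Δ ∧ (∀ r, 0 < Δ r) ∧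
      (∀ r, 0 < ε₀ r) ∧ ∀ r, Good η (Δ r) (Δ (r + 1)) (N₀ r) (ε₀ r) := by
  have hstep : ∀ δ : {δ : ℝ // 0 < δ ∧ δ ≤ 1}, ∃ δ' : {δ : ℝ // 0 < δ ∧ δ ≤ 1},
      δ'.1 ≤ δ.1 ∧ ∃ N₀ : ℕ, ∃ ε₀ : ℝ, 0 < ε₀ ∧ Good η δ.1 δ'.1 N₀ ε₀ := by
    rintro ⟨δ, h1, h2⟩
    obtain ⟨δ', h3, h4, h5⟩ := scale_step η hη δ h1 h2
    exact ⟨⟨δ', h3, h4.trans h2⟩, h4, h5⟩
  choose f hf hf2 using hstep
  choose N hN using hf2
  choose E hE hG using hN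
  refine ⟨fun r => (f^[r] ⟨δ₀, hδ, hδ1⟩).1, fun r => N (f^[r] ⟨δ₀, hδ, hδ1⟩),
    fun r => E (f^[r] ⟨δ₀, hδ, hδ1⟩), rfl, ?_, fun r => (f^[r] ⟨δ₀, hδ, hδ1⟩).2.1,
    fun r => hE _, fun r => ?_⟩
  · refine antitone_nat_of_succ_le fun r => ?_
    rw [Function.iterate_succ_apply']
    exact hf _
  · have := hG (f^[r] ⟨δ₀, hδ, hδ1⟩)
    rw [← Function.iterate_succ_apply' f r] at this
    exact this

section

variable {V : Type} [Fintype V] [DecidableEq V]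

theorem LL_ceil (k : ℕ) (μ : Perm V → ℝ) (s : ℝ) (π : Perm (Fin k)) :
    LL k μ s π = LL k μ (⌈s⌉₊ : ℝ) π := by
  unfold LL
  congr 1
  refine Finset.sum_congr rfl fun b _ => ?_
  congr 1
  refine Finset.sum_congr rfl fun g _ => ?_
  have h1 : ∀ i, s ≤ len g (b i) ↔ (⌈s⌉₊ : ℝ) ≤ len g (b i) := by
    intro i
    obtain ⟨n, hn⟩ := len_nat g (b i)
    rw [hn, Nat.cast_le, Nat.ceil_le]
  simp only [h1]

end

/-- **The core theorem.** -/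
theorem core (k : ℕ) (η : ℝ) (hη : 0 < η) :
    ∃ δ₁ : ℝ, 0 < δ₁ ∧ ∃ N₀ : ℕ, ∃ ε₀ : ℝ, 0 < ε₀ ∧
      ∀ (V : Type) [Fintype V] [DecidableEq V] [Nonempty V], Contr V → N₀ ≤ Fintype.card V →
        ∀ (μ : Perm V → ℝ) (ε : ℝ), (∀ g, 0 ≤ μ g) → ∑ g, μ g = 1 →
          (∀ (F : Perm V → ℝ) (K : ℝ), (∀ g, |F g| ≤ K) →
            |∑ g, μ g * TT F g - ∑ g, μ g * F g| ≤ K * ε) → 0 ≤ ε → ε ≤ ε₀ →
          ∃ δ : ℝ, δ₁ ≤ δ ∧ δ ≤ η ∧ ∀ π : Perm (Fin k),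
            |LL k μ (δ * Fintype.card V) π -
              (∑ σ, LL k μ (δ * Fintype.card V) σ) / (k.factorial : ℝ)| ≤ η := by
  obtain ⟨η', hη'⟩ : ∃ η' : ℝ, η' = η / (4 * (k + 1)) := ⟨_, rfl⟩
  have hη'0 : 0 < η' := by rw [hη']; positivity
  obtain ⟨δ₀, hδ₀⟩ : ∃ δ₀ : ℝ, δ₀ = min (min 1 η) (η / (8 * ((k : ℝ) ^ 2 + 1))) := ⟨_, rfl⟩
  have hδ₀p : 0 < δ₀ := by rw [hδ₀]; positivity
  have hδ₀1 : δ₀ ≤ 1 := by rw [hδ₀]; exact (min_le_left _ _).trans (min_le_left _ _)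
  have hδ₀η : δ₀ ≤ η := by rw [hδ₀]; exact (min_le_left _ _).trans (min_le_right _ _)
  have hδ₀k : δ₀ ≤ η / (8 * ((k : ℝ) ^ 2 + 1)) := by rw [hδ₀]; exact min_le_right _ _
  obtain ⟨Δ, N₀, ε₀, hΔ0, hanti, hΔpos, hεpos, hgood⟩ := scales η' hη'0 δ₀ hδ₀p hδ₀1
  obtain ⟨R, hR⟩ := exists_nat_gt (1 / η')
  have hR0 : 0 < R := by
    have : (0 : ℝ) < R := lt_trans (by positivity) hR
    exact_mod_cast this
  obtain ⟨N2, hN2⟩ := exists_nat_gt (8 * ((k : ℝ) ^ 2 + 1) / η)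
  obtain ⟨e0, he0, he0'⟩ : ∃ e0 : ℝ, 0 < e0 ∧ ∀ r < R, e0 ≤ ε₀ r := by
    have hne : (range R).Nonempty := ⟨0, Finset.mem_range.2 hR0⟩
    refine ⟨(range R).inf' hne ε₀, ?_, fun r hr =>
      Finset.inf'_le _ (Finset.mem_range.2 hr)⟩
    exact (Finset.lt_inf'_iff hne).2 fun r _ => hεpos r
  refine ⟨Δ R, hΔpos R, max ((range R).sup N₀) (max N2 1), e0, he0, ?_⟩
  intro V _ _ _ hC hN μ ε hμ hμ1 hε hε0 hεe
  have hNpos : (0 : ℝ) < Fintype.card V := by exact_mod_cast Fintype.card_pos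
  have hN2' : N2 ≤ Fintype.card V := (le_max_left _ _).trans ((le_max_right _ _).trans hN)
  -- the pigeonhole
  have hsum := WW_sum k μ hμ hμ1 (fun r => ⌈Δ r * Fintype.card V⌉₊)
    (fun a b hab => Nat.ceil_mono (mul_le_mul_of_nonneg_right (hanti hab) hNpos.le)) R
  obtain ⟨r, hr, hrW⟩ : ∃ r ∈ range R, WW k μ ⌈Δ (r + 1) * Fintype.card V⌉₊
      ⌈Δ r * Fintype.card V⌉₊ ≤ 1 / R := by
    by_contra hcon
    push Not at hcon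
    have h1 : ∑ _r ∈ range R, (1 / (R : ℝ)) < ∑ r ∈ range R,
        WW k μ ⌈Δ (r + 1) * Fintype.card V⌉₊ ⌈Δ r * Fintype.card V⌉₊ :=
      Finset.sum_lt_sum_of_nonempty ⟨0, Finset.mem_range.2 hR0⟩ hcon
    rw [Finset.sum_const, Finset.card_range, nsmul_eq_mul] at h1
    have h2 : (R : ℝ) * (1 / R) = 1 := by
      have : (R : ℝ) ≠ 0 := by positivity
      field_simp
    rw [h2] at h1
    linarith
  have hrR : r < R := Finset.mem_range.1 hr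
  obtain ⟨n, hn⟩ := hgood r
  have hNr : N₀ r ≤ Fintype.card V :=
    (Finset.le_sup (f := N₀) hr).trans ((le_max_left _ _).trans hN)
  obtain ⟨herr, hk0, hk1⟩ := hn _ hNr ε hε0 (hεe.trans (he0' r hrR))
  refine ⟨Δ r, hanti hrR.le, ?_, fun π => ?_⟩
  · refine le_trans ?_ hδ₀η
    rw [← hΔ0]
    exact hanti (Nat.zero_le r)
  have hmain := LL_unif hC k μ ε hμ hμ1 hε hε0 ⌈Δ r * Fintype.card V⌉₊
    ⌈Δ (r + 1) * Fintype.card V⌉₊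
    (Nat.ceil_mono (mul_le_mul_of_nonneg_right (hanti (Nat.le_succ r)) hNpos.le)) hk0 hk1 π n
  have e1 : ∀ σ : Perm (Fin k), LL k μ (Δ r * Fintype.card V) σ =
      LL k μ (⌈Δ r * Fintype.card V⌉₊ : ℝ) σ := fun σ => LL_ceil k μ _ σ
  rw [Finset.sum_congr rfl fun σ _ => e1 σ, e1 π]
  refine hmain.trans ?_
  have h1 : (1 : ℝ) / R ≤ η' := by
    have hRp : (0 : ℝ) < R := by exact_mod_cast hR0
    rw [div_le_iff₀ hRp]
    rw [div_lt_iff₀ hη'0] at hR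
    linarith
  have h2 : (k : ℝ) * (errB (Fintype.card V) ⌈Δ r * Fintype.card V⌉₊
      ⌈Δ (r + 1) * Fintype.card V⌉₊ n ε + WW k μ ⌈Δ (r + 1) * Fintype.card V⌉₊
      ⌈Δ r * Fintype.card V⌉₊) ≤ η / 2 := by
    have h3 : (k : ℝ) * (errB (Fintype.card V) ⌈Δ r * Fintype.card V⌉₊
        ⌈Δ (r + 1) * Fintype.card V⌉₊ n ε + WW k μ ⌈Δ (r + 1) * Fintype.card V⌉₊
        ⌈Δ r * Fintype.card V⌉₊) ≤ k * (2 * η') :=
      mul_le_mul_of_nonneg_left (by linarith) (by positivity)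
    refine h3.trans ?_
    have h4 : (4 * (k + 1 : ℝ)) * η' = η := by rw [hη']; field_simp
    nlinarith
  have h5 : 2 * ((k : ℝ) ^ 2 * (⌈Δ r * Fintype.card V⌉₊ : ℝ) / Fintype.card V) ≤ η / 2 := by
    have h6 : (⌈Δ r * Fintype.card V⌉₊ : ℝ) ≤ δ₀ * Fintype.card V + 1 := by
      have h7 := (Nat.ceil_lt_add_one (show 0 ≤ Δ r * Fintype.card V from
        mul_nonneg (hΔpos r).le hNpos.le)).le
      have h8 : Δ r ≤ δ₀ := by rw [← hΔ0]; exact hanti (Nat.zero_le r)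
      have h9 := mul_le_mul_of_nonneg_right h8 hNpos.le
      linarith
    have h10 : 1 ≤ η / (8 * ((k : ℝ) ^ 2 + 1)) * Fintype.card V := by
      have h11 : 8 * ((k : ℝ) ^ 2 + 1) / η < Fintype.card V :=
        hN2.trans_le (by exact_mod_cast hN2')
      rw [div_lt_iff₀ hη] at h11
      rw [div_mul_eq_mul_div, le_div_iff₀ (by positivity)]
      linarith
    have h12 : (⌈Δ r * Fintype.card V⌉₊ : ℝ) ≤
        2 * (η / (8 * ((k : ℝ) ^ 2 + 1))) * Fintype.card V := by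
      have h13 := mul_le_mul_of_nonneg_right hδ₀k hNpos.le
      linarith
    rw [mul_div_assoc', div_le_iff₀ hNpos]
    have h14 : (k : ℝ) ^ 2 * (⌈Δ r * Fintype.card V⌉₊ : ℝ) ≤
        (k : ℝ) ^ 2 * (2 * (η / (8 * ((k : ℝ) ^ 2 + 1))) * Fintype.card V) :=
      mul_le_mul_of_nonneg_left h12 (by positivity)
    have h15 : (k : ℝ) ^ 2 * (2 * (η / (8 * ((k : ℝ) ^ 2 + 1)))) ≤ η / 4 := by
      have h16 : (k : ℝ) ^ 2 * (2 * (η / (8 * ((k : ℝ) ^ 2 + 1)))) =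
          η / 4 * ((k : ℝ) ^ 2 / ((k : ℝ) ^ 2 + 1)) := by
        field_simp
        ring
      rw [h16]
      refine mul_le_of_le_one_right (by positivity) ?_
      rw [div_le_one (by positivity)]
      linarith
    have h17 := mul_le_mul_of_nonneg_right h15 hNpos.le
    nlinarith
  linarith

end Pool.Agent.TH268.PD
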