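import Pool.Agent.TH268.PD.Ord3
import Pool.Agent.TH268.PD.Large

/-!
# The law of the ordered cycle lengths of stirring
-/

set_option autoImplicit false

namespace Pool.Agent.TH268.PD

open Finset Equiv
open Pool.Agent.W805.LR (len cnt stirMass)

theorem law_NInv {V : Type} [Fintype V] [DecidableEq V] [Nonempty V] (J : V → V → ℝ) (κ t : ℝ)
    (ht : 0 < t) (hκ : 0 < κ) (hJ : ∀ x y, x ≠ y → κ ≤ J x y) (hJ0 : ∀ x, J x x = 0) :
    NInv (law J t) (1 / Real.sqrt (t * κ * (Fintype.card V : ℝ) ^ 2 / 2)) := by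
  have hJn : ∀ x y, 0 ≤ J x y := by
    intro x y
    by_cases hxy : x = y
    · rw [hxy, hJ0]
    · exact hκ.le.trans (hJ x y hxy)
  have hm := Pool.Agent.W29.LR.CV.stirMass_nonneg J hJn t ht.le
  have hZ := Pool.Agent.W805.LR.sum_mass J t
  have hZ0 : 0 < ∑ h, stirMass J t h := by rw [hZ]; exact Real.exp_pos _
  refine ⟨fun g => div_nonneg (hm g) hZ0.le, ?_, ?_, by positivity⟩
  · unfold law
    rw [← Finset.sum_div, div_self hZ0.ne']
  · intro F K hF
    have h1 := near_inv J κ t ht hκ hJ hJ0 F K hF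
    have e1 : ∀ G : Perm V → ℝ, ∑ g, law J t g * G g =
        (∑ g, stirMass J t g * G g) / ∑ h, stirMass J t h := by
      intro G
      rw [Finset.sum_div]
      exact Finset.sum_congr rfl fun g _ => by unfold law; ring
    rw [e1, e1, ← sub_div, abs_div, abs_of_pos hZ0, div_le_iff₀ hZ0]
    refine h1.trans (le_of_eq ?_)
    ring

/-- the error scale and the length scale -/
theorem scale_eq {t κ N : ℝ} (ht : 0 < t) (hκ : 0 < κ) (hN : 0 < N) :
    1 / Real.sqrt (t * κ * N ^ 2 / 2) * N = Real.sqrt 2 / Real.sqrt (t * κ) := by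
  have h1 : t * κ * N ^ 2 / 2 = (t * κ) * (N ^ 2) / 2 := by ring
  rw [h1, Real.sqrt_div (by positivity), Real.sqrt_mul (by positivity), Real.sqrt_sq hN.le]
  have h2 : 0 < Real.sqrt (t * κ) := Real.sqrt_pos.2 (by positivity)
  have h3 : 0 < Real.sqrt 2 := Real.sqrt_pos.2 (by norm_num)
  field_simp

theorem eps_le {t κ N C e : ℝ} (he : 0 < e) (hC : 2 / e ^ 2 ≤ C) (h : C ≤ t * κ * N ^ 2) :
    1 / Real.sqrt (t * κ * N ^ 2 / 2) ≤ e := by
  have h3 : 2 / e ^ 2 ≤ t * κ * N ^ 2 := hC.trans h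
  have h4 : (1 / e) ^ 2 ≤ t * κ * N ^ 2 / 2 := by
    rw [div_le_iff₀ (by positivity)] at h3
    rw [one_div, inv_pow, inv_le_iff_one_le_mul₀ (by positivity)]
    linarith
  have h5 : 1 / e ≤ Real.sqrt (t * κ * N ^ 2 / 2) := Real.le_sqrt_of_sq_le h4
  have h6 : 0 < Real.sqrt (t * κ * N ^ 2 / 2) := lt_of_lt_of_le (by positivity) h5
  rw [div_le_iff₀ h6]
  rw [div_le_iff₀ he] at h5
  linarith

theorem stir_ord (m : ℕ) (f : (Fin m → ℝ) → ℝ) (hfc : Continuous f) (C : ℝ)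
    (hC : ∀ u, |f u| ≤ C) (η : ℝ) (hη : 0 < η) :
    ∃ δ₀ : ℝ, 0 < δ₀ ∧ ∃ A : ℝ, 0 < A ∧
      ∀ (V : Type) [Fintype V] [DecidableEq V] (J : V → V → ℝ) (κ t : ℝ), 0 < t → 0 < κ →
        (∀ x y, x ≠ y → κ ≤ J x y) → (∀ x, J x x = 0) → A ≤ Fintype.card V →
        A ≤ t * κ * (Fintype.card V : ℝ) ^ 2 → ∀ K : ℝ, A / Real.sqrt (t * κ) ≤ K →
          K ≤ δ₀ * Fintype.card V →
            |∑ g, law J t g * f (fun i => top (frac g) i) -
              ∑ g, law J t g * pdm (fun u : Fin m → ℝ => f (fun i => mas K g * u i))| ≤ η ∧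
            ∑ g, law J t g * (mas K g - mas (δ₀ * Fintype.card V) g) ≤ η := by
  obtain ⟨δ₁, hδ₁, A₁, hA₁, N₁, ε₁, hε₁, H₁⟩ := ordered2_cont m f hfc C hC η hη
  obtain ⟨δ₂, hδ₂, A₂, hA₂, N₂, ε₂, hε₂, H₂⟩ := gap (η ^ 2) (by positivity)
  have hs2 : 0 < Real.sqrt 2 := Real.sqrt_pos.2 (by norm_num)
  refine ⟨min δ₁ δ₂, lt_min hδ₁ hδ₂, max (max (N₁ + N₂ + 1) (Real.sqrt 2 * (A₁ + A₂)))
    (2 / (min ε₁ ε₂) ^ 2), lt_of_lt_of_le (by positivity)
      ((le_max_left _ _).trans (le_max_left _ _)), ?_⟩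
  intro V _ _ J κ t ht hκ hJ hJ0 hN hlm K hK1 hK2
  obtain ⟨A, hA⟩ : ∃ A, A = max (max ((N₁ : ℝ) + N₂ + 1) (Real.sqrt 2 * (A₁ + A₂)))
    (2 / (min ε₁ ε₂) ^ 2) := ⟨_, rfl⟩
  rw [← hA] at hN hlm hK1
  have hA1 : (N₁ : ℝ) + N₂ + 1 ≤ A := by
    rw [hA]; exact (le_max_left _ _).trans (le_max_left _ _)
  have hA2 : Real.sqrt 2 * (A₁ + A₂) ≤ A := by
    rw [hA]; exact (le_max_right _ _).trans (le_max_left _ _)
  have hA3 : 2 / (min ε₁ ε₂) ^ 2 ≤ A := by rw [hA]; exact le_max_right _ _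
  have hN1p : (0 : ℝ) ≤ N₁ := by positivity
  have hN2p : (0 : ℝ) ≤ N₂ := by positivity
  have hApos : 0 < A := by linarith
  have hNpos : (0 : ℝ) < Fintype.card V := by linarith
  have : Nonempty V := by
    rw [← Fintype.card_pos_iff]
    exact_mod_cast hNpos
  have hμ := law_NInv J κ t ht hκ hJ hJ0
  obtain ⟨ε, hε⟩ : ∃ ε, ε = 1 / Real.sqrt (t * κ * (Fintype.card V : ℝ) ^ 2 / 2) := ⟨_, rfl⟩
  rw [← hε] at hμ
  have hεe : ε ≤ min ε₁ ε₂ := by rw [hε]; exact eps_le (lt_min hε₁ hε₂) hA3 hlm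
  have hsc : ε * Fintype.card V = Real.sqrt 2 / Real.sqrt (t * κ) := by
    rw [hε]; exact scale_eq ht hκ hNpos
  have hst : 0 < Real.sqrt (t * κ) := Real.sqrt_pos.2 (by positivity)
  have hKpos : 0 < K := lt_of_lt_of_le (by positivity) hK1
  have hKA : (A₁ + A₂) * (ε * Fintype.card V) ≤ K := by
    refine le_trans ?_ hK1
    rw [hsc, mul_div_assoc']
    refine div_le_div_of_nonneg_right ?_ hst.le
    linarith
  have hεN : 0 ≤ ε * Fintype.card V := mul_nonneg hμ.2.2.2 hNpos.le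
  have hKA1 : A₁ * ε * Fintype.card V ≤ K := by
    have : A₁ * ε * Fintype.card V = A₁ * (ε * Fintype.card V) := by ring
    rw [this]
    nlinarith [mul_nonneg hA₂.le hεN]
  have hKA2 : A₂ * ε * Fintype.card V ≤ K := by
    have : A₂ * ε * Fintype.card V = A₂ * (ε * Fintype.card V) := by ring
    rw [this]
    nlinarith [mul_nonneg hA₁.le hεN]
  have hNN1 : N₁ ≤ Fintype.card V := by
    have : (N₁ : ℝ) ≤ Fintype.card V := by linarith
    exact_mod_cast this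
  have hNN2 : N₂ ≤ Fintype.card V := by
    have : (N₂ : ℝ) ≤ Fintype.card V := by linarith
    exact_mod_cast this
  constructor
  · exact H₁ V hNN1 _ ε hμ (hεe.trans (min_le_left _ _)) K hKpos hKA1
      (hK2.trans (mul_le_mul_of_nonneg_right (min_le_left _ _) hNpos.le))
  · refine mas_diff hμ _ K η hη.le hK2 ?_
    refine (H₂ V hNN2 _ ε hμ (hεe.trans (min_le_right _ _)) K hKpos hKA2).trans ?_
    refine add_le_add (Finset.sum_le_sum fun g _ => mul_le_mul_of_nonneg_left ?_ (hμ.1 g)) le_rfl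
    exact pow_le_pow_left₀ (mas_nonneg _ _)
      (mas_anti (mul_le_mul_of_nonneg_right (min_le_right _ _) hNpos.le) g) 2

end Pool.Agent.TH268.PD

namespace Pool.Agent.TH268.PD

open Finset Equiv
open Pool.Agent.W805.LR (len cnt stirMass IsRate2)

theorem one_sub_mas {V : Type} [Fintype V] [DecidableEq V] [Nonempty V] (K : ℝ) (g : Perm V) :
    1 - mas K g = (cnt fun v => len g v < K) / Fintype.card V := by
  classical
  have hN : (0 : ℝ) < Fintype.card V := by exact_mod_cast Fintype.card_pos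
  unfold mas
  rw [eq_div_iff hN.ne', sub_mul, one_mul, div_mul_cancel₀ _ hN.ne', Bad.cnt_eq, Bad.cnt_eq,
    sub_eq_iff_eq_add, ← Nat.cast_add]
  congr 1
  have h1 := Finset.card_filter_add_card_filter_not (s := (univ : Finset V))
    (fun v => len g v < K)
  rw [Finset.card_univ] at h1
  rw [← h1]
  congr 2
  exact Finset.filter_congr fun v _ => not_lt

/-- continuity of the mean of the scaled function -/
theorem pdm_near (m : ℕ) (f : (Fin m → ℝ) → ℝ) (hfc : Continuous f) (C : ℝ)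
    (hC : ∀ u, |f u| ≤ C) (η : ℝ) (hη : 0 < η) :
    ∃ Λ : ℝ, 0 ≤ Λ ∧ ∀ x y : ℝ, 0 ≤ x → x ≤ 1 → 0 ≤ y → y ≤ 1 →
      |pdm (fun u : Fin m → ℝ => f (fun i => x * u i)) -
        pdm (fun u : Fin m → ℝ => f (fun i => y * u i))| ≤ η + Λ * |x - y| := by
  obtain ⟨Λ, h, hΛ, hhc, hhC, hhL, hfh⟩ := lip_approx m f hfc C hC (η / 2) (by positivity)
  refine ⟨Λ, hΛ, fun x y hx0 hx1 hy0 hy1 => ?_⟩
  have h1 := pdm_close pdl m f h hfc hhc C hC hhC (η / 2) hfh x hx0 hx1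
  have h2 := pdm_close pdl m f h hfc hhc C hC hhC (η / 2) hfh y hy0 hy1
  have h3 := pdm_lip pdl m h C Λ hhC hΛ hhL x y
  rw [abs_le] at h1 h2 h3 ⊢
  constructor <;> linarith [h1.1, h1.2, h2.1, h2.2, h3.1, h3.2]

/-- large times, long range rates: the Poisson-Dirichlet law -/
theorem stir_large (m : ℕ) (f : (Fin m → ℝ) → ℝ) (hfc : Continuous f) (C : ℝ)
    (hC : ∀ u, |f u| ≤ C) (η : ℝ) (hη : 0 < η) (d : ℕ) (σ lam : ℝ) (hd : 1 ≤ d) (hσ : 0 < σ)
    (hσd : σ < d) (hlam : 0 < lam) :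
    ∃ t₁ > 0, ∀ t ≥ t₁, ∃ L₀ : ℕ, ∀ (L : ℕ) [NeZero L], L₀ ≤ L →
      ∀ J : (Fin d → ZMod L) → (Fin d → ZMod L) → ℝ, IsRate2 d L σ lam J →
        |∑ g, law J t g * f (fun i => top (frac g) i) - pdm f| ≤ η := by
  obtain ⟨δ₀, hδ₀, A, hA, H⟩ := stir_ord m f hfc C hC (η / 4) (by positivity)
  obtain ⟨Λ, hΛ, hnear⟩ := pdm_near m f hfc C hC (η / 4) (by positivity)
  obtain ⟨θ, hθdef⟩ : ∃ θ : ℝ, θ = η / (4 * (Λ + 1)) := ⟨_, rfl⟩
  have hθ : 0 < θ := by rw [hθdef]; positivity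
  have hΛθ : Λ * θ ≤ η / 4 := by
    have h1 : (Λ + 1) * (4 * θ) = η := by rw [hθdef]; field_simp
    nlinarith
  obtain ⟨t₁, ht₁, ε, hε, hlarge⟩ := large_time d σ lam θ hd hσ hσd hlam hθ
  refine ⟨t₁, ht₁, fun t ht => ?_⟩
  have ht0 : 0 < t := lt_of_lt_of_le ht₁ ht
  obtain ⟨L1, hL1⟩ := hlarge t ht
  obtain ⟨δ, hδ⟩ : ∃ δ, δ = min δ₀ ε := ⟨_, rfl⟩
  have hδ0 : 0 < δ := by rw [hδ]; exact lt_min hδ₀ hε
  obtain ⟨L2, hL2⟩ := far_rate d σ lam t (max A (A ^ 2 / δ ^ 2)) hd hσ hσd hlam ht0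
  refine ⟨max L1 L2, fun L _ hL J hJ => ?_⟩
  obtain ⟨κ, hκ, h1, h2, h3⟩ := hL2 L ((le_max_right _ _).trans hL) J hJ
  obtain ⟨N, hN⟩ : ∃ N : ℝ, N = Fintype.card (Fin d → ZMod L) := ⟨_, rfl⟩
  have hN0 : 0 < N := by
    rw [hN]
    exact lt_of_lt_of_le hA ((le_max_left _ _).trans h3)
  have hNe : Nonempty (Fin d → ZMod L) := ⟨fun _ => 0⟩
  have hμ := law_NInv J κ t ht0 hκ h1 hJ.2.1
  have hK1 : A / Real.sqrt (t * κ) ≤ δ * N := by
    have hst : 0 < Real.sqrt (t * κ) := Real.sqrt_pos.2 (by positivity)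
    rw [div_le_iff₀ hst]
    have h4 : A ^ 2 / δ ^ 2 ≤ t * κ * N ^ 2 := by rw [hN]; exact (le_max_right _ _).trans h2
    rw [div_le_iff₀ (by positivity)] at h4
    have h5 : A ^ 2 ≤ (δ * N * Real.sqrt (t * κ)) ^ 2 := by
      rw [mul_pow, mul_pow, Real.sq_sqrt (by positivity)]
      linarith
    exact abs_le_of_sq_le_sq' h5 (by positivity) |>.2
  have h4 := (H (Fin d → ZMod L) J κ t ht0 hκ h1 hJ.2.1 ((le_max_left _ _).trans h3)
    ((le_max_left _ _).trans h2) (δ * N) hK1 (by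
      rw [← hN]
      exact mul_le_mul_of_nonneg_right (by rw [hδ]; exact min_le_left _ _) hN0.le)).1
  -- nearly all points are in long cycles
  have h5 := hL1 L ((le_max_left _ _).trans hL) J hJ
  rw [← hN] at h5
  have h6 : ∀ g : Perm (Fin d → ZMod L), 1 - mas (δ * N) g ≤
      (cnt fun v => len g v < ε * N) / N := by
    intro g
    classical
    have h7 : mas (ε * N) g ≤ mas (δ * N) g :=
      mas_anti (mul_le_mul_of_nonneg_right (by rw [hδ]; exact min_le_right _ _) hN0.le) g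
    have h8 : 1 - mas (ε * N) g = (cnt fun v => len g v < ε * N) / N := by
      have h9 := one_sub_mas (ε * N) g
      rw [← hN] at h9
      exact h9
    linarith
  have h7 : ∑ g, law J t g * (1 - mas (δ * N) g) ≤ θ := by
    have h8 : ∑ g, law J t g * (1 - mas (δ * N) g) ≤
        ∑ g, law J t g * ((cnt fun v => len g v < ε * N) / N) :=
      Finset.sum_le_sum fun g _ => mul_le_mul_of_nonneg_left (h6 g) (hμ.1 g)
    refine h8.trans ?_
    simp only [mul_div_assoc']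
    rw [← Finset.sum_div, div_le_iff₀ hN0]
    exact h5
  have h8 : |∑ g, law J t g * pdm (fun u : Fin m → ℝ => f (fun i => mas (δ * N) g * u i)) -
      pdm f| ≤ η / 4 + Λ * θ := by
    have e1 : pdm f = ∑ g, law J t g * pdm (fun u : Fin m → ℝ => f (fun i => (1 : ℝ) * u i)) := by
      rw [← Finset.sum_mul, hμ.2.1, one_mul]
      congr 1
      funext u
      congr 1
      funext i
      rw [one_mul]
    rw [e1, ← Finset.sum_sub_distrib]
    refine (Finset.abs_sum_le_sum_abs _ _).trans ?_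
    have h9 : ∀ g, |law J t g * pdm (fun u : Fin m → ℝ => f (fun i => mas (δ * N) g * u i)) -
        law J t g * pdm (fun u : Fin m → ℝ => f (fun i => (1 : ℝ) * u i))| ≤
        law J t g * (η / 4) + Λ * (law J t g * (1 - mas (δ * N) g)) := by
      intro g
      rw [← mul_sub, abs_mul, abs_of_nonneg (hμ.1 g)]
      have h10 := hnear (mas (δ * N) g) 1 (mas_nonneg _ _) (mas_le_one _ _) zero_le_one le_rfl
      have h11 : |mas (δ * N) g - 1| = 1 - mas (δ * N) g := by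
        rw [abs_sub_comm, abs_of_nonneg (by linarith [mas_le_one (δ * N) g])]
      rw [h11] at h10
      have := mul_le_mul_of_nonneg_left h10 (hμ.1 g)
      linarith
    refine (Finset.sum_le_sum fun g _ => h9 g).trans ?_
    rw [Finset.sum_add_distrib, ← Finset.sum_mul, hμ.2.1, ← Finset.mul_sum, one_mul]
    exact add_le_add le_rfl (mul_le_mul_of_nonneg_left h7 hΛ)
  have h9 := abs_sub_le (∑ g, law J t g * f (fun i => top (frac g) i))
    (∑ g, law J t g * pdm (fun u : Fin m → ℝ => f (fun i => mas (δ * N) g * u i))) (pdm f)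
  linarith

end Pool.Agent.TH268.PD

namespace Pool.Agent.TH268.PD

open Finset Equiv Filter
open Pool.Agent.W805.LR (len cnt stirMass IsRate2)

/-- long range rates have a large uniform part, explicit -/
theorem far_rate2 (d : ℕ) (σ lam t C : ℝ) (hd : 1 ≤ d) (hσ : 0 < σ) (hσd : σ < d)
    (hlam : 0 < lam) (ht : 0 < t) :
    ∃ L₀ : ℕ, ∀ (L : ℕ) [NeZero L], L₀ ≤ L →
      ∀ J : (Fin d → ZMod L) → (Fin d → ZMod L) → ℝ, IsRate2 d L σ lam J →
        0 < lam * (L : ℝ) ^ (-((d : ℝ) + σ)) ∧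
          (∀ x y, x ≠ y → lam * (L : ℝ) ^ (-((d : ℝ) + σ)) ≤ J x y) ∧
          C ≤ t * (lam * (L : ℝ) ^ (-((d : ℝ) + σ))) * (Fintype.card (Fin d → ZMod L) : ℝ) ^ 2 ∧
          C ≤ Fintype.card (Fin d → ZMod L) := by
  have hlim : Tendsto (fun L : ℕ => (L : ℝ) ^ d) atTop atTop :=
    (tendsto_pow_atTop (by omega)).comp tendsto_natCast_atTop_atTop
  have hlim2 : Tendsto (fun L : ℕ => lam * t * (L : ℝ) ^ ((d : ℝ) - σ)) atTop atTop := by
    refine Tendsto.const_mul_atTop (by positivity) ?_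
    exact (tendsto_rpow_atTop (by linarith)).comp tendsto_natCast_atTop_atTop
  obtain ⟨L1, hL1⟩ := Filter.eventually_atTop.1
    ((hlim.eventually_ge_atTop C).and (hlim2.eventually_ge_atTop C))
  refine ⟨L1, fun L _ hL J hJ => ?_⟩
  have hLpos : (0 : ℝ) < L := by exact_mod_cast Nat.pos_of_ne_zero (NeZero.ne L)
  obtain ⟨h1, h2⟩ := hL1 L hL
  refine ⟨by positivity, fun x y hxy => ?_, ?_, ?_⟩
  · refine le_trans ?_ (hJ.2.2 x y hxy)
    refine mul_le_mul_of_nonneg_left ?_ hlam.le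
    have hb0 : (0 : ℝ) < Pool.Agent.W805.LR.bdist x y := by
      have h3 := Pool.Agent.W805.LR.tdist_pos hxy
      have h4 := Pool.Agent.W805.LR.tdist_le_bdist x y
      exact_mod_cast lt_of_lt_of_le h3 h4
    have hb1 : (Pool.Agent.W805.LR.bdist x y : ℝ) ≤ L := by
      have : Pool.Agent.W805.LR.bdist x y ≤ L := by
        unfold Pool.Agent.W805.LR.bdist
        refine Finset.sup_le fun a _ => ?_
        have h3 := ZMod.val_lt (x a)
        have h4 := ZMod.val_lt (y a)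
        omega
      exact_mod_cast this
    refine Real.rpow_le_rpow_of_nonpos hb0 hb1 ?_
    have : (0 : ℝ) ≤ d := by positivity
    linarith
  · rw [Pool.Agent.W805.LR.card_torus]
    refine h2.trans (le_of_eq ?_)
    have e1 : ((L : ℝ) ^ d) ^ 2 = (L : ℝ) ^ (2 * (d : ℝ)) := by
      rw [← pow_mul, ← Real.rpow_natCast]
      push_cast
      ring_nf
    rw [e1]
    have e2 : (L : ℝ) ^ ((d : ℝ) - σ) = (L : ℝ) ^ (-((d : ℝ) + σ)) * (L : ℝ) ^ (2 * (d : ℝ)) := by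
      rw [← Real.rpow_add hLpos]
      ring_nf
    rw [e2]
    ring
  · rw [Pool.Agent.W805.LR.card_torus]
    exact h1

end Pool.Agent.TH268.PD
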