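import Pool.Agent.TH268.PD.Top

/-! Ordered values: Lipschitz property, bounds, and the sample frequencies (job 3665, helper634). -/

set_option autoImplicit false

namespace Pool.Agent.TH268.PD

open Equiv

theorem top_set_bdd {Γ : Type} [Finite Γ] (u : Γ → ℝ) (i : ℕ) :
    BddAbove {x : ℝ | i + 1 ≤ Nat.card {γ : Γ // x ≤ u γ}} := by
  obtain ⟨B, hB⟩ : ∃ B, ∀ γ, u γ ≤ B := by
    obtain ⟨B, hB⟩ := (Set.finite_range u).bddAbove
    exact ⟨B, fun γ => hB ⟨γ, rfl⟩⟩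
  refine ⟨B, fun x hx => ?_⟩
  simp only [Set.mem_ofPred_eq] at hx
  have h0 : 0 < Nat.card {γ : Γ // x ≤ u γ} := by omega
  obtain ⟨⟨γ, hγ⟩⟩ := (Nat.card_pos_iff.1 h0).1
  exact hγ.trans (hB γ)

theorem top_set_empty {Γ : Type} [Finite Γ] (u : Γ → ℝ) (i : ℕ) (h : Nat.card Γ < i + 1) :
    {x : ℝ | i + 1 ≤ Nat.card {γ : Γ // x ≤ u γ}} = ∅ := by
  refine Set.eq_empty_iff_forall_notMem.2 (fun x hx => ?_)
  simp only [Set.mem_ofPred_eq] at hx
  have h1 : Nat.card {γ : Γ // x ≤ u γ} ≤ Nat.card Γ :=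
    Nat.card_le_card_of_injective _ Subtype.val_injective
  omega

theorem top_zero_mem {Γ : Type} [Finite Γ] (u : Γ → ℝ) (hu : ∀ γ, 0 ≤ u γ) (i : ℕ)
    (h : i + 1 ≤ Nat.card Γ) :
    (0 : ℝ) ∈ {x : ℝ | i + 1 ≤ Nat.card {γ : Γ // x ≤ u γ}} := by
  simp only [Set.mem_ofPred_eq]
  have h1 : Nat.card {γ : Γ // (0 : ℝ) ≤ u γ} = Nat.card Γ :=
    Nat.card_congr (Equiv.subtypeUnivEquiv hu)
  omega

theorem top_nonneg {Γ : Type} [Finite Γ] (u : Γ → ℝ) (hu : ∀ γ, 0 ≤ u γ) (i : ℕ) :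
    0 ≤ top u i := by
  unfold top
  rcases lt_or_ge (Nat.card Γ) (i + 1) with h | h
  · rw [top_set_empty u i h, Real.sSup_empty]
  · exact le_csSup (top_set_bdd u i) (top_zero_mem u hu i h)

theorem top_le_add {Γ : Type} [Finite Γ] (u v : Γ → ℝ) (hv : ∀ γ, 0 ≤ v γ)
    (M : ℝ) (hM0 : 0 ≤ M) (hM : ∀ γ, u γ ≤ v γ + M) (i : ℕ) : top u i ≤ top v i + M := by
  have h0 : 0 ≤ top v i := top_nonneg v hv i
  refine Real.sSup_le (fun x hx => ?_) (by linarith)
  simp only [Set.mem_ofPred_eq] at hx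
  have h1 : x - M ∈ {x : ℝ | i + 1 ≤ Nat.card {γ : Γ // x ≤ v γ}} := by
    simp only [Set.mem_ofPred_eq]
    refine hx.trans ?_
    refine Nat.card_le_card_of_injective
      (fun γ : {γ : Γ // x ≤ u γ} => (⟨γ.1, by have := hM γ.1; have := γ.2; linarith⟩ :
        {γ : Γ // x - M ≤ v γ})) ?_
    intro a b hab
    apply Subtype.ext
    exact congrArg (fun t => t.1) hab
  have h2 : x - M ≤ top v i := le_csSup (top_set_bdd v i) h1
  linarith

theorem top_lip {Γ : Type} [Finite Γ] (u v : Γ → ℝ) (hu : ∀ γ, 0 ≤ u γ) (hv : ∀ γ, 0 ≤ v γ)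
    (M : ℝ) (hM0 : 0 ≤ M) (hM : ∀ γ, |u γ - v γ| ≤ M) (i : ℕ) : |top u i - top v i| ≤ M := by
  have h1 : top u i ≤ top v i + M :=
    top_le_add u v hv M hM0 (fun γ => by have := (abs_le.1 (hM γ)).2; linarith) i
  have h2 : top v i ≤ top u i + M :=
    top_le_add v u hu M hM0 (fun γ => by have := (abs_le.1 (hM γ)).1; linarith) i
  rw [abs_le]
  constructor <;> linarith

theorem top_le_one {Γ : Type} [Finite Γ] (u : Γ → ℝ) (hu : ∀ γ, 0 ≤ u γ) (hu1 : ∀ γ, u γ ≤ 1)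
    (i : ℕ) : top u i ≤ 1 := by
  refine Real.sSup_le (fun x hx => ?_) zero_le_one
  simp only [Set.mem_ofPred_eq] at hx
  have h0 : 0 < Nat.card {γ : Γ // x ≤ u γ} := by omega
  obtain ⟨⟨γ, hγ⟩⟩ := (Nat.card_pos_iff.1 h0).1
  exact hγ.trans (hu1 γ)

theorem top_le_of_pos {Γ Δ : Type} [Finite Δ] (u : Γ → ℝ) (v : Δ → ℝ)
    (hv : ∀ γ, 0 ≤ v γ) (i : ℕ)
    (h : ∀ x : ℝ, 0 < x → Nat.card {γ : Γ // x ≤ u γ} ≤ Nat.card {γ : Δ // x ≤ v γ}) :
    top u i ≤ top v i := by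
  have h0 : 0 ≤ top v i := top_nonneg v hv i
  refine Real.sSup_le (fun x hx => ?_) h0
  simp only [Set.mem_ofPred_eq] at hx
  rcases le_or_gt x 0 with hx0 | hx0
  · exact hx0.trans h0
  · exact le_csSup (top_set_bdd v i) (hx.trans (h x hx0))

/-- the ordered cycle lengths of the induced permutation are the ordered sample frequencies -/
theorem top_ret {V : Type} [Fintype V] {k : ℕ} (hk : 0 < k) (b : Fin k → V) (g : Perm V)
    (σ : Perm (Fin k)) (hσ : ∀ i j, σ.SameCycle i j ↔ g.SameCycle (b i) (b j)) (i : ℕ) :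
    top (frac σ) i = top (fun γ : Cyc g => (Nat.card {l : Fin k // cyOf g (b l) = γ} : ℝ) / k) i := by
  have hkR : (0 : ℝ) < k := by exact_mod_cast hk
  have hsσ : ∀ l m : Fin k, cyOf σ l = cyOf σ m ↔ σ.SameCycle l m := fun l m => Quotient.eq
  have hsg : ∀ l m : V, cyOf g l = cyOf g m ↔ g.SameCycle l m := fun l m => Quotient.eq
  have hfib : ∀ l m : Fin k, cyOf σ l = cyOf σ m ↔ cyOf g (b l) = cyOf g (b m) := by
    intro l m
    rw [hsσ, hsg, hσ]
  obtain ⟨q, hq⟩ : ∃ q : Cyc σ → Cyc g, ∀ l, q (cyOf σ l) = cyOf g (b l) := by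
    refine ⟨Quotient.lift (fun l => cyOf g (b l)) (fun l m h => ?_), fun l => rfl⟩
    exact (hfib l m).1 (Quotient.sound h)
  have hsurj : ∀ c : Cyc σ, ∃ l, cyOf σ l = c := fun c => Quotient.exists_rep c
  have hqinj : Function.Injective q := by
    intro c d hcd
    obtain ⟨l, rfl⟩ := hsurj c
    obtain ⟨m, rfl⟩ := hsurj d
    rw [hq, hq] at hcd
    exact (hfib l m).2 hcd
  have hval : ∀ c : Cyc σ, frac σ c = (Nat.card {l : Fin k // cyOf g (b l) = q c} : ℝ) / k := by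
    intro c
    obtain ⟨m, rfl⟩ := hsurj c
    unfold frac
    rw [Fintype.card_fin, hq]
    congr 2
    exact Nat.card_congr (Equiv.subtypeEquivRight (fun l => hfib l m))
  have hfin1 : Finite (Cyc σ) := Quotient.finite _
  have hfin2 : Finite (Cyc g) := Quotient.finite _
  apply le_antisymm
  · refine top_le_of_pos _ _ (fun γ => by positivity) i (fun x hx => ?_)
    refine Nat.card_le_card_of_injective
      (fun c : {c : Cyc σ // x ≤ frac σ c} => (⟨q c.1, by have := c.2; rw [hval] at this; exact this⟩ :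
        {γ : Cyc g // x ≤ (Nat.card {l : Fin k // cyOf g (b l) = γ} : ℝ) / k})) ?_
    intro c d hcd
    apply Subtype.ext
    exact hqinj (congrArg (fun t => t.1) hcd)
  · refine top_le_of_pos _ _ (fun γ => by unfold frac; positivity) i (fun x hx => ?_)
    have hsur : Function.Surjective
        (fun c : {c : Cyc σ // x ≤ frac σ c} => (⟨q c.1, by have := c.2; rw [hval] at this; exact this⟩ :
        {γ : Cyc g // x ≤ (Nat.card {l : Fin k // cyOf g (b l) = γ} : ℝ) / k})) := by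
      rintro ⟨γ, hγ⟩
      have h1 : 0 < Nat.card {l : Fin k // cyOf g (b l) = γ} := by
        rcases Nat.eq_zero_or_pos (Nat.card {l : Fin k // cyOf g (b l) = γ}) with h | h
        · rw [h, Nat.cast_zero, zero_div] at hγ
          exact absurd hγ (not_le.2 hx)
        · exact h
      obtain ⟨⟨l, hl⟩⟩ := (Nat.card_pos_iff.1 h1).1
      have h2 : q (cyOf σ l) = γ := by rw [hq]; exact hl
      refine ⟨⟨cyOf σ l, ?_⟩, ?_⟩
      · rw [hval, h2]; exact hγ
      · exact Subtype.ext h2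
    exact Nat.card_le_card_of_surjective _ hsur

end Pool.Agent.TH268.PD
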