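import Pool.Agent.TH268.PD.Scale
import Pool.Agent.TH268.PD.MassSwap

/-!
# Weights that depend on the mass of the long cycles
-/

set_option autoImplicit false

namespace Pool.Agent.TH268.PD

open Finset Equiv
open Pool.Agent.W805.LR (len cnt)

variable {V : Type} [Fintype V] [DecidableEq V]

/-- the fraction of points in cycles of length at least `s` -/
noncomputable def mas (s : ℝ) (g : Perm V) : ℝ := (cnt fun v => s ≤ len g v) / Fintype.card V

theorem mas_nonneg (s : ℝ) (g : Perm V) : 0 ≤ mas s g := by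
  classical
  unfold mas
  rw [Bad.cnt_eq]
  positivity

theorem mas_le_one (s : ℝ) (g : Perm V) : mas s g ≤ 1 := by
  classical
  unfold mas
  rw [Bad.cnt_eq]
  refine div_le_one_of_le₀ ?_ (by positivity)
  exact_mod_cast Finset.card_le_univ _

theorem mas_anti {s s' : ℝ} (h : s' ≤ s) (g : Perm V) : mas s g ≤ mas s' g := by
  classical
  unfold mas
  rw [Bad.cnt_eq, Bad.cnt_eq]
  refine div_le_div_of_nonneg_right ?_ (by positivity)
  refine Nat.cast_le.2 (Finset.card_le_card fun v hv => ?_)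
  rw [Finset.mem_filter] at hv ⊢
  exact ⟨hv.1, h.trans hv.2⟩

theorem mas_swap [Nonempty V] (g : Perm V) (a b : V) (δ : ℝ) (hδ : 0 ≤ δ) :
    |mas (δ * Fintype.card V) (g * swap a b) - mas (δ * Fintype.card V) g| ≤ 2 * δ := by
  have hN : (0 : ℝ) < Fintype.card V := by exact_mod_cast Fintype.card_pos
  have h1 := mass_swap g a b (δ * Fintype.card V) (by positivity)
  unfold mas
  rw [← sub_div, abs_div, abs_of_pos hN, div_le_iff₀ hN]
  linarith

/-- near invariance of the measure with a slowly varying weight -/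
theorem near_weight [Nonempty V] (μ : Perm V → ℝ) (ε : ℝ) (hμ : ∀ g, 0 ≤ μ g)
    (hμ1 : ∑ g, μ g = 1)
    (hε : ∀ (F : Perm V → ℝ) (K : ℝ), (∀ g, |F g| ≤ K) →
      |∑ g, μ g * TT F g - ∑ g, μ g * F g| ≤ K * ε)
    (w : Perm V → ℝ) (hw0 : ∀ g, 0 ≤ w g) (hw1 : ∀ g, w g ≤ 1) (ρ : ℝ)
    (hρ : ∀ g a b, |w (g * swap a b) - w g| ≤ ρ) (Z : ℝ) (hZ : Z = ∑ g, μ g * (1 + w g)) :
    1 ≤ Z ∧ Z ≤ 2 ∧ (∀ g, 0 ≤ μ g * (1 + w g) / Z) ∧ ∑ g, μ g * (1 + w g) / Z = 1 ∧
      ∀ (F : Perm V → ℝ) (K : ℝ), (∀ g, |F g| ≤ K) →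
        |∑ g, μ g * (1 + w g) / Z * TT F g - ∑ g, μ g * (1 + w g) / Z * F g| ≤
          K * (2 * ε + ρ) := by
  have hN : (0 : ℝ) < Fintype.card V := by exact_mod_cast Fintype.card_pos
  have hZ1 : 1 ≤ Z := by
    rw [hZ, ← hμ1]
    exact Finset.sum_le_sum fun g _ => by nlinarith [hμ g, hw0 g]
  have hZ2 : Z ≤ 2 := by
    have : Z ≤ ∑ g, μ g * 2 := by
      rw [hZ]
      exact Finset.sum_le_sum fun g _ => by nlinarith [hμ g, hw1 g]
    rw [← Finset.sum_mul, hμ1] at this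
    linarith
  have hZ0 : 0 < Z := by linarith
  refine ⟨hZ1, hZ2, fun g => ?_, ?_, ?_⟩
  · have h1 := hμ g
    have h2 := hw0 g
    positivity
  · rw [← Finset.sum_div, ← hZ, div_self hZ0.ne']
  · intro F K hF
    have hK : 0 ≤ K := (abs_nonneg _).trans (hF 1)
    have hρ0 : 0 ≤ ρ := (abs_nonneg _).trans (hρ 1 (Classical.arbitrary V) (Classical.arbitrary V))
    have e1 : ∀ G : Perm V → ℝ, ∑ g, μ g * (1 + w g) / Z * G g =
        (∑ g, μ g * (1 + w g) * G g) / Z := by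
      intro G
      rw [Finset.sum_div]
      exact Finset.sum_congr rfl fun g _ => by ring
    rw [e1, e1, ← sub_div, abs_div, abs_of_pos hZ0, div_le_iff₀ hZ0]
    have hG := hε (fun g => (1 + w g) * F g) (2 * K) (fun g => by
      rw [abs_mul, abs_of_nonneg (by linarith [hw0 g])]
      have h1 := hF g
      have h2 := hw1 g
      have h3 := hw0 g
      exact mul_le_mul (by linarith) h1 (abs_nonneg _) (by norm_num))
    -- exchange of the weight and the average
    have h4 : ∀ g, |(1 + w g) * TT F g - TT (fun g => (1 + w g) * F g) g| ≤ ρ * K := by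
      intro g
      unfold TT
      rw [mul_div_assoc', ← sub_div, abs_div,
        abs_of_pos (show (0 : ℝ) < (Fintype.card V : ℝ) ^ 2 by positivity),
        div_le_iff₀ (by positivity), Finset.mul_sum, ← Finset.sum_sub_distrib]
      refine (Finset.abs_sum_le_sum_abs _ _).trans ?_
      have h5 : ∀ a : V, |(1 + w g) * ∑ b, F (g * swap a b) -
          ∑ b, (1 + w (g * swap a b)) * F (g * swap a b)| ≤ (Fintype.card V : ℝ) * (ρ * K) := by
        intro a
        rw [Finset.mul_sum, ← Finset.sum_sub_distrib]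
        refine (Finset.abs_sum_le_sum_abs _ _).trans ?_
        have h6 : ∀ b : V, |(1 + w g) * F (g * swap a b) -
            (1 + w (g * swap a b)) * F (g * swap a b)| ≤ ρ * K := by
          intro b
          rw [← sub_mul, abs_mul]
          refine mul_le_mul ?_ (hF _) (abs_nonneg _) hρ0
          have h7 := hρ g a b
          rw [abs_sub_comm] at h7
          refine le_of_eq_of_le ?_ h7
          congr 1
          ring
        refine (Finset.sum_le_sum fun b _ => h6 b).trans (le_of_eq ?_)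
        rw [Finset.sum_const, Finset.card_univ, nsmul_eq_mul]
      refine (Finset.sum_le_sum fun a _ => h5 a).trans (le_of_eq ?_)
      rw [Finset.sum_const, Finset.card_univ, nsmul_eq_mul]
      ring
    have h8 : |∑ g, μ g * (1 + w g) * TT F g -
        ∑ g, μ g * TT (fun g => (1 + w g) * F g) g| ≤ ρ * K := by
      rw [← Finset.sum_sub_distrib]
      refine (Finset.abs_sum_le_sum_abs _ _).trans ?_
      have h9 : ∀ g, |μ g * (1 + w g) * TT F g - μ g * TT (fun g => (1 + w g) * F g) g| ≤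
          μ g * (ρ * K) := by
        intro g
        have : μ g * (1 + w g) * TT F g - μ g * TT (fun g => (1 + w g) * F g) g =
            μ g * ((1 + w g) * TT F g - TT (fun g => (1 + w g) * F g) g) := by ring
        rw [this, abs_mul, abs_of_nonneg (hμ g)]
        exact mul_le_mul_of_nonneg_left (h4 g) (hμ g)
      refine (Finset.sum_le_sum fun g _ => h9 g).trans (le_of_eq ?_)
      rw [← Finset.sum_mul, hμ1, one_mul]
    have h10 : ∑ g, μ g * ((1 + w g) * F g) = ∑ g, μ g * (1 + w g) * F g :=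
      Finset.sum_congr rfl fun g _ => by ring
    rw [h10] at hG
    have h11 := abs_sub_le (∑ g, μ g * (1 + w g) * TT F g)
      (∑ g, μ g * TT (fun g => (1 + w g) * F g) g) (∑ g, μ g * (1 + w g) * F g)
    have h12 : ρ * K + 2 * K * ε ≤ K * (2 * ε + ρ) * Z := by
      have h13 : ρ * K + 2 * K * ε = K * (2 * ε + ρ) := by ring
      rw [h13]
      have h14 : 0 ≤ K * (2 * ε + ρ) := by
        have h15 := (abs_nonneg _).trans h8
        have h16 := (abs_nonneg _).trans hG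
        rw [← h13]
        linarith
      nlinarith
    linarith

open Classical in
theorem LL_add (k : ℕ) (μ w : Perm V → ℝ) (Z : ℝ) (hZ : 0 < Z) (s : ℝ) (π : Perm (Fin k)) :
    LL k (fun g => μ g * w g) s π =
      Z * LL k (fun g => μ g * (1 + w g) / Z) s π - LL k μ s π := by
  unfold LL
  rw [mul_div_assoc', ← sub_div]
  congr 1
  rw [Finset.mul_sum, ← Finset.sum_sub_distrib]
  refine Finset.sum_congr rfl fun b _ => ?_
  by_cases hb : Function.Injective b
  · simp only [if_pos hb]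
    rw [Finset.mul_sum, ← Finset.sum_sub_distrib]
    refine Finset.sum_congr rfl fun g _ => ?_
    field_simp
    ring
  · simp [hb]

open Classical in
theorem WW_two (k : ℕ) (μ w : Perm V → ℝ) (hμ : ∀ g, 0 ≤ μ g) (hw0 : ∀ g, 0 ≤ w g)
    (hw1 : ∀ g, w g ≤ 1) (Z : ℝ) (hZ : 1 ≤ Z) (m1 m : ℕ) :
    WW k (fun g => μ g * (1 + w g) / Z) m1 m ≤ 2 * WW k μ m1 m := by
  unfold WW
  rw [mul_div_assoc', Finset.mul_sum]
  refine div_le_div_of_nonneg_right ?_ (by positivity)
  refine Finset.sum_le_sum fun b _ => ?_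
  by_cases hb : Function.Injective b
  · simp only [if_pos hb]
    rw [Finset.mul_sum]
    refine Finset.sum_le_sum fun g _ => ?_
    have h1 : μ g * (1 + w g) / Z ≤ 2 * μ g := by
      rw [div_le_iff₀ (by linarith)]
      have h2 := hμ g
      have h3 := hw1 g
      nlinarith [mul_nonneg h2 (show 0 ≤ Z - 1 by linarith)]
    split_ifs
    · linarith
    · simp
  · simp [hb]

/-- one scale, with a weight -/
theorem LL_wunif [Nonempty V] (hC : Contr V) (k : ℕ) (μ : Perm V → ℝ) (ε : ℝ)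
    (hμ : ∀ g, 0 ≤ μ g) (hμ1 : ∑ g, μ g = 1)
    (hε : ∀ (F : Perm V → ℝ) (K : ℝ), (∀ g, |F g| ≤ K) →
      |∑ g, μ g * TT F g - ∑ g, μ g * F g| ≤ K * ε) (hε0 : 0 ≤ ε) (m m1 : ℕ) (hm : m1 ≤ m)
    (hk0 : 0 ≤ kap (Fintype.card V) m) (hk1 : kap (Fintype.card V) m ≤ 1)
    (w : Perm V → ℝ) (hw0 : ∀ g, 0 ≤ w g) (hw1 : ∀ g, w g ≤ 1) (ρ : ℝ)
    (hρ : ∀ g a b, |w (g * swap a b) - w g| ≤ ρ)
    (π : Perm (Fin k)) (n : ℕ) (e : ℝ) (he1 : errB (Fintype.card V) m m1 n ε ≤ e)
    (he2 : errB (Fintype.card V) m m1 n (2 * ε + ρ) ≤ e) :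
    |LL k (fun g => μ g * w g) m π -
      (∑ σ, LL k (fun g => μ g * w g) m σ) / (k.factorial : ℝ)| ≤
      3 * (k * (e + 2 * WW k μ m1 m) + 2 * ((k : ℝ) ^ 2 * m / Fintype.card V)) := by
  obtain ⟨Z, hZ⟩ : ∃ Z, Z = ∑ g, μ g * (1 + w g) := ⟨_, rfl⟩
  obtain ⟨hZ1, hZ2, h3, h4, h5⟩ := near_weight μ ε hμ hμ1 hε w hw0 hw1 ρ hρ Z hZ
  have hρ0 : 0 ≤ ρ := (abs_nonneg _).trans (hρ 1 (Classical.arbitrary V) (Classical.arbitrary V))
  have h6 := LL_unif hC k μ ε hμ hμ1 hε hε0 m m1 hm hk0 hk1 π n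
  have h7 := LL_unif hC k (fun g => μ g * (1 + w g) / Z) (2 * ε + ρ) h3 h4 h5 (by positivity)
    m m1 hm hk0 hk1 π n
  have h8 := WW_two k μ w hμ hw0 hw1 Z hZ1 m1 m
  have hW0 : 0 ≤ WW k μ m1 m := by
    classical
    unfold WW
    refine div_nonneg (Finset.sum_nonneg fun b _ => ?_) (by positivity)
    split_ifs
    · refine Finset.sum_nonneg fun g _ => mul_nonneg (hμ g) ?_
      split_ifs <;> norm_num
    · exact le_rfl
  have hZ0 : 0 < Z := by linarith
  have e1 : ∀ σ, LL k (fun g => μ g * w g) m σ =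
      Z * LL k (fun g => μ g * (1 + w g) / Z) m σ - LL k μ m σ := fun σ =>
    LL_add k μ w Z hZ0 m σ
  rw [e1 π, Finset.sum_congr rfl fun σ _ => e1 σ, Finset.sum_sub_distrib, ← Finset.mul_sum]
  obtain ⟨A, hA⟩ : ∃ A, A = LL k (fun g => μ g * (1 + w g) / Z) m π := ⟨_, rfl⟩
  obtain ⟨B, hB⟩ : ∃ B, B = ∑ σ, LL k (fun g => μ g * (1 + w g) / Z) m σ := ⟨_, rfl⟩
  obtain ⟨C, hC⟩ : ∃ C, C = LL k μ m π := ⟨_, rfl⟩
  obtain ⟨D, hD⟩ : ∃ D, D = ∑ σ, LL k μ m σ := ⟨_, rfl⟩
  rw [← hA, ← hB] at h7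
  rw [← hC, ← hD] at h6
  rw [← hA, ← hB, ← hC, ← hD]
  have e2 : Z * A - C - (Z * B - D) / (k.factorial : ℝ) =
      Z * (A - B / (k.factorial : ℝ)) - (C - D / (k.factorial : ℝ)) := by ring
  rw [e2]
  refine (abs_sub _ _).trans ?_
  rw [abs_mul, abs_of_pos hZ0]
  have hkk : (0 : ℝ) ≤ k := by positivity
  obtain ⟨q, hq⟩ : ∃ q, q = 2 * ((k : ℝ) ^ 2 * m / Fintype.card V) := ⟨_, rfl⟩
  have hq0 : 0 ≤ q := by rw [hq]; positivity
  rw [← hq] at h6 h7 ⊢
  have h9 : |A - B / (k.factorial : ℝ)| ≤ k * (e + 2 * WW k μ m1 m) + q := by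
    refine h7.trans ?_
    have := mul_le_mul_of_nonneg_left (show errB (Fintype.card V) m m1 n (2 * ε + ρ) +
      WW k (fun g => μ g * (1 + w g) / Z) m1 m ≤ e + 2 * WW k μ m1 m by linarith) hkk
    linarith
  have h10 : |C - D / (k.factorial : ℝ)| ≤ k * (e + 2 * WW k μ m1 m) + q := by
    refine h6.trans ?_
    have := mul_le_mul_of_nonneg_left (show errB (Fintype.card V) m m1 n ε +
      WW k μ m1 m ≤ e + 2 * WW k μ m1 m by linarith) hkk
    linarith
  have h11 : Z * |A - B / (k.factorial : ℝ)| ≤ 2 * (k * (e + 2 * WW k μ m1 m) + q) :=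
    mul_le_mul hZ2 h9 (abs_nonneg _) (by norm_num)
  linarith

end Pool.Agent.TH268.PD
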